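import Mathlib
set_option autoImplicit false
set_option linter.unusedSectionVars false
open Finset

namespace UF
variable {α : Type*} [Fintype α] [DecidableEq α]

/-- average over one-element extensions -/
noncomputable def Up (g : Finset α → ℝ) (P : Finset α) : ℝ :=
  (∑ w ∈ Pᶜ, g (insert w P)) / (Pᶜ.card : ℝ)

/-- average over one-element deletions -/
noncomputable def Dn (g : Finset α → ℝ) (Q : Finset α) : ℝ :=
  (∑ y ∈ Q, g (Q.erase y)) / (Q.card : ℝ)

/-- average over the level `p` -/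
noncomputable def Ev (p : ℕ) (g : Finset α → ℝ) : ℝ :=
  (∑ P ∈ powersetCard p (univ : Finset α), g P) / ((Fintype.card α).choose p : ℝ)

/-- down-solver: `X = s + (1-k) Dn X` -/
noncomputable def Ds (k s : Finset α → ℝ) (Q : Finset α) : ℝ :=
  s Q + (1 - k Q) * ((∑ y ∈ Q.attach, Ds k s (Q.erase y)) / (Q.card : ℝ))
termination_by Q.card
decreasing_by exact Finset.card_erase_lt_of_mem y.2

/-- up-solver: `X = s + (1-k) Up X` -/
noncomputable def Us (k s : Finset α → ℝ) (P : Finset α) : ℝ :=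
  s P + (1 - k P) * ((∑ w ∈ Pᶜ.attach, Us k s (insert w.1 P)) / (Pᶜ.card : ℝ))
termination_by Pᶜ.card
decreasing_by
  have hw : w.1 ∈ Pᶜ := w.2
  have : (insert w.1 P)ᶜ = Pᶜ.erase w.1 := by
    ext a; simp
  rw [this]; exact Finset.card_erase_lt_of_mem hw

theorem Ds_eq (k s : Finset α → ℝ) (Q : Finset α) :
    Ds k s Q = s Q + (1 - k Q) * Dn (Ds k s) Q := by
  rw [Ds, Dn]
  congr 3
  exact Finset.sum_attach Q (fun y => Ds k s (Q.erase y))

theorem Us_eq (k s : Finset α → ℝ) (P : Finset α) :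
    Us k s P = s P + (1 - k P) * Up (Us k s) P := by
  rw [Us, Up]
  congr 3
  exact Finset.sum_attach Pᶜ (fun w => Us k s (insert w P))

/-! ### Up -/
theorem Up_mono {g h : Finset α → ℝ} {P : Finset α}
    (H : ∀ w, w ∉ P → g (insert w P) ≤ h (insert w P)) : Up g P ≤ Up h P := by
  unfold Up
  apply div_le_div_of_nonneg_right _ (by positivity)
  exact Finset.sum_le_sum fun w hw => H w (by simpa using hw)

theorem Up_congr {g h : Finset α → ℝ} {P : Finset α}
    (H : ∀ w, w ∉ P → g (insert w P) = h (insert w P)) : Up g P = Up h P :=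
  le_antisymm (Up_mono fun w hw => (H w hw).le) (Up_mono fun w hw => (H w hw).ge)

theorem Up_nonneg {g : Finset α → ℝ} {P : Finset α}
    (H : ∀ w, w ∉ P → 0 ≤ g (insert w P)) : 0 ≤ Up g P := by
  unfold Up
  apply div_nonneg _ (by positivity)
  exact Finset.sum_nonneg fun w hw => H w (by simpa using hw)

theorem Up_add (g h : Finset α → ℝ) (P : Finset α) :
    Up (fun Q => g Q + h Q) P = Up g P + Up h P := by
  unfold Up; rw [Finset.sum_add_distrib, add_div]

theorem Up_sub (g h : Finset α → ℝ) (P : Finset α) :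
    Up (fun Q => g Q - h Q) P = Up g P - Up h P := by
  unfold Up; rw [Finset.sum_sub_distrib, sub_div]

theorem Up_const_mul (c : ℝ) (g : Finset α → ℝ) (P : Finset α) :
    Up (fun Q => c * g Q) P = c * Up g P := by
  unfold Up; rw [← Finset.mul_sum, mul_div_assoc]

theorem Up_sum {ι : Type*} (s : Finset ι) (g : ι → Finset α → ℝ) (P : Finset α) :
    Up (fun Q => ∑ i ∈ s, g i Q) P = ∑ i ∈ s, Up (g i) P := by
  unfold Up
  rw [Finset.sum_comm, Finset.sum_div]

theorem Up_univ (g : Finset α → ℝ) : Up g (univ : Finset α) = 0 := by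
  simp [Up]

theorem Up_const {P : Finset α} (hP : P ≠ univ) (c : ℝ) : Up (fun _ => c) P = c := by
  unfold Up
  have h : (Pᶜ.card : ℝ) ≠ 0 := by
    have : Pᶜ.Nonempty := by
      rw [Finset.nonempty_iff_ne_empty]
      intro h; exact hP (by simpa using h)
    exact_mod_cast this.card_pos.ne'
  rw [Finset.sum_const, nsmul_eq_mul]; field_simp

theorem Up_le_of_le {g : Finset α → ℝ} {P : Finset α} {c : ℝ} (hc : 0 ≤ c)
    (H : ∀ w, w ∉ P → g (insert w P) ≤ c) : Up g P ≤ c := by
  by_cases hP : P = univ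
  · subst hP; rw [Up_univ]; exact hc
  · calc Up g P ≤ Up (fun _ => c) P := Up_mono (fun w hw => H w hw)
      _ = c := Up_const hP c

theorem Up_one_sub {P : Finset α} (hP : P ≠ univ) (g : Finset α → ℝ) :
    Up (fun Q => 1 - g Q) P = 1 - Up g P := by
  rw [Up_sub (fun _ => 1) g P, Up_const hP]

/-! ### Dn -/
theorem Dn_mono {g h : Finset α → ℝ} {Q : Finset α}
    (H : ∀ y ∈ Q, g (Q.erase y) ≤ h (Q.erase y)) : Dn g Q ≤ Dn h Q := by
  unfold Dn
  apply div_le_div_of_nonneg_right _ (by positivity)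
  exact Finset.sum_le_sum fun y hy => H y hy

theorem Dn_congr {g h : Finset α → ℝ} {Q : Finset α}
    (H : ∀ y ∈ Q, g (Q.erase y) = h (Q.erase y)) : Dn g Q = Dn h Q :=
  le_antisymm (Dn_mono fun w hw => (H w hw).le) (Dn_mono fun w hw => (H w hw).ge)

theorem Dn_nonneg {g : Finset α → ℝ} {Q : Finset α}
    (H : ∀ y ∈ Q, 0 ≤ g (Q.erase y)) : 0 ≤ Dn g Q := by
  unfold Dn
  apply div_nonneg _ (by positivity)
  exact Finset.sum_nonneg fun y hy => H y hy

theorem Dn_add (g h : Finset α → ℝ) (Q : Finset α) :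
    Dn (fun P => g P + h P) Q = Dn g Q + Dn h Q := by
  unfold Dn; rw [Finset.sum_add_distrib, add_div]

theorem Dn_sub (g h : Finset α → ℝ) (Q : Finset α) :
    Dn (fun P => g P - h P) Q = Dn g Q - Dn h Q := by
  unfold Dn; rw [Finset.sum_sub_distrib, sub_div]

theorem Dn_const_mul (c : ℝ) (g : Finset α → ℝ) (Q : Finset α) :
    Dn (fun P => c * g P) Q = c * Dn g Q := by
  unfold Dn; rw [← Finset.mul_sum, mul_div_assoc]

theorem Dn_sum {ι : Type*} (s : Finset ι) (g : ι → Finset α → ℝ) (Q : Finset α) :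
    Dn (fun P => ∑ i ∈ s, g i P) Q = ∑ i ∈ s, Dn (g i) Q := by
  unfold Dn
  rw [Finset.sum_comm, Finset.sum_div]

theorem Dn_empty (g : Finset α → ℝ) : Dn g (∅ : Finset α) = 0 := by
  simp [Dn]

theorem Dn_const {Q : Finset α} (hQ : Q ≠ ∅) (c : ℝ) : Dn (fun _ => c) Q = c := by
  unfold Dn
  have h : (Q.card : ℝ) ≠ 0 := by
    have : Q.Nonempty := Finset.nonempty_iff_ne_empty.2 hQ
    exact_mod_cast this.card_pos.ne'
  rw [Finset.sum_const, nsmul_eq_mul]; field_simp

theorem Dn_le_of_le {g : Finset α → ℝ} {Q : Finset α} {c : ℝ} (hc : 0 ≤ c)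
    (H : ∀ y ∈ Q, g (Q.erase y) ≤ c) : Dn g Q ≤ c := by
  by_cases hQ : Q = ∅
  · subst hQ; rw [Dn_empty]; exact hc
  · calc Dn g Q ≤ Dn (fun _ => c) Q := Dn_mono (fun w hw => H w hw)
      _ = c := Dn_const hQ c

theorem Dn_one_sub {Q : Finset α} (hQ : Q ≠ ∅) (g : Finset α → ℝ) :
    Dn (fun P => 1 - g P) Q = 1 - Dn g Q := by
  rw [Dn_sub (fun _ => 1) g Q, Dn_const hQ]

/-! ### Ev -/
theorem Ev_mono {p : ℕ} {g h : Finset α → ℝ} (H : ∀ P, P.card = p → g P ≤ h P) :
    Ev p g ≤ Ev p h := by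
  unfold Ev
  apply div_le_div_of_nonneg_right _ (by positivity)
  exact Finset.sum_le_sum fun P hP => H P (Finset.mem_powersetCard.1 hP).2

theorem Ev_congr {p : ℕ} {g h : Finset α → ℝ} (H : ∀ P, P.card = p → g P = h P) :
    Ev p g = Ev p h :=
  le_antisymm (Ev_mono fun P hP => (H P hP).le) (Ev_mono fun P hP => (H P hP).ge)

theorem Ev_nonneg {p : ℕ} {g : Finset α → ℝ} (H : ∀ P, P.card = p → 0 ≤ g P) :
    0 ≤ Ev p g := by
  unfold Ev
  apply div_nonneg _ (by positivity)
  exact Finset.sum_nonneg fun P hP => H P (Finset.mem_powersetCard.1 hP).2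

theorem Ev_add (p : ℕ) (g h : Finset α → ℝ) :
    Ev p (fun P => g P + h P) = Ev p g + Ev p h := by
  unfold Ev; rw [Finset.sum_add_distrib, add_div]

theorem Ev_sub (p : ℕ) (g h : Finset α → ℝ) :
    Ev p (fun P => g P - h P) = Ev p g - Ev p h := by
  unfold Ev; rw [Finset.sum_sub_distrib, sub_div]

theorem Ev_const_mul (p : ℕ) (c : ℝ) (g : Finset α → ℝ) :
    Ev p (fun P => c * g P) = c * Ev p g := by
  unfold Ev; rw [← Finset.mul_sum, mul_div_assoc]

theorem Ev_sum {ι : Type*} (p : ℕ) (s : Finset ι) (g : ι → Finset α → ℝ) :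
    Ev p (fun P => ∑ i ∈ s, g i P) = ∑ i ∈ s, Ev p (g i) := by
  unfold Ev
  rw [Finset.sum_comm, Finset.sum_div]

theorem Ev_const {p : ℕ} (hp : p ≤ Fintype.card α) (c : ℝ) :
    Ev (α := α) p (fun _ => c) = c := by
  unfold Ev
  rw [Finset.sum_const, Finset.card_powersetCard, Finset.card_univ, nsmul_eq_mul]
  have : ((Fintype.card α).choose p : ℝ) ≠ 0 := by exact_mod_cast (Nat.choose_pos hp).ne'
  field_simp

theorem Ev_of_gt {p : ℕ} (hp : Fintype.card α < p) (g : Finset α → ℝ) : Ev p g = 0 := by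
  unfold Ev
  rw [Nat.choose_eq_zero_of_lt hp]; simp

theorem Ev_top (g : Finset α → ℝ) : Ev (Fintype.card α) g = g univ := by
  unfold Ev
  have : powersetCard (Fintype.card α) (univ : Finset α) = {univ} := by
    rw [← Finset.card_univ]; exact Finset.powersetCard_self _
  rw [this]; simp

theorem Ev_zero (g : Finset α → ℝ) : Ev 0 g = g ∅ := by
  unfold Ev; simp

/-- double counting of edges of the Hasse diagram -/
theorem Ev_double {p : ℕ} (hp : p < Fintype.card α) (Φ : Finset α → α → ℝ) :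
    Ev p (fun P => (∑ w ∈ Pᶜ, Φ P w) / (Pᶜ.card : ℝ))
      = Ev (p + 1) (fun Q => (∑ y ∈ Q, Φ (Q.erase y) y) / (Q.card : ℝ)) := by
  unfold Ev
  have e1 : ∑ P ∈ powersetCard p (univ : Finset α), (∑ w ∈ Pᶜ, Φ P w) / (Pᶜ.card : ℝ)
      = (∑ P ∈ powersetCard p (univ : Finset α), ∑ w ∈ Pᶜ, Φ P w) / ((Fintype.card α - p : ℕ) : ℝ) := by
    rw [Finset.sum_div]
    refine Finset.sum_congr rfl fun P hP => ?_
    rw [Finset.card_compl, (Finset.mem_powersetCard.1 hP).2]
  have e2 : ∑ Q ∈ powersetCard (p + 1) (univ : Finset α), (∑ y ∈ Q, Φ (Q.erase y) y) / (Q.card : ℝ)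
      = (∑ Q ∈ powersetCard (p + 1) (univ : Finset α), ∑ y ∈ Q, Φ (Q.erase y) y) / ((p + 1 : ℕ) : ℝ) := by
    rw [Finset.sum_div]
    refine Finset.sum_congr rfl fun P hP => ?_
    rw [(Finset.mem_powersetCard.1 hP).2]
  have e3 : ∑ P ∈ powersetCard p (univ : Finset α), ∑ w ∈ Pᶜ, Φ P w
      = ∑ Q ∈ powersetCard (p + 1) (univ : Finset α), ∑ y ∈ Q, Φ (Q.erase y) y := by
    rw [Finset.sum_sigma', Finset.sum_sigma']
    refine Finset.sum_bij' (fun a _ => ⟨insert a.2 a.1, a.2⟩) (fun a _ => ⟨a.1.erase a.2, a.2⟩)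
      ?_ ?_ ?_ ?_ ?_
    · rintro ⟨P, w⟩ h
      simp only [Finset.mem_sigma, Finset.mem_powersetCard, Finset.mem_compl] at h ⊢
      refine ⟨⟨Finset.subset_univ _, ?_⟩, Finset.mem_insert_self _ _⟩
      rw [Finset.card_insert_of_notMem h.2, h.1.2]
    · rintro ⟨Q, y⟩ h
      simp only [Finset.mem_sigma, Finset.mem_powersetCard, Finset.mem_compl] at h ⊢
      refine ⟨⟨Finset.subset_univ _, ?_⟩, Finset.notMem_erase _ _⟩
      rw [Finset.card_erase_of_mem h.2, h.1.2]; rfl
    · rintro ⟨P, w⟩ h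
      simp only [Finset.mem_sigma, Finset.mem_powersetCard, Finset.mem_compl] at h
      simp [Finset.erase_insert h.2]
    · rintro ⟨Q, y⟩ h
      simp only [Finset.mem_sigma, Finset.mem_powersetCard] at h
      simp [Finset.insert_erase h.2]
    · rintro ⟨P, w⟩ h
      simp only [Finset.mem_sigma, Finset.mem_powersetCard, Finset.mem_compl] at h
      simp [Finset.erase_insert h.2]
  rw [e1, e2, e3, div_div, div_div]
  congr 1
  have h2 : (Fintype.card α).choose (p + 1) * (p + 1) = (Fintype.card α).choose p * (Fintype.card α - p) :=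
    Nat.choose_succ_right_eq _ _
  have h3 : (Fintype.card α - p) * (Fintype.card α).choose p = (p + 1) * (Fintype.card α).choose (p + 1) := by
    rw [mul_comm (p + 1), h2, mul_comm]
  exact_mod_cast h3

theorem Ev_Up_mul {p : ℕ} (hp : p < Fintype.card α) (h g : Finset α → ℝ) :
    Ev p (fun P => h P * Up g P) = Ev (p + 1) (fun Q => Dn h Q * g Q) := by
  have := Ev_double hp (fun P w => h P * g (insert w P))
  have e1 : Ev p (fun P => h P * Up g P)
      = Ev p (fun P => (∑ w ∈ Pᶜ, h P * g (insert w P)) / (Pᶜ.card : ℝ)) := by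
    refine Ev_congr fun P _ => ?_
    rw [← Finset.mul_sum, mul_div_assoc]; rfl
  rw [e1, this]
  refine Ev_congr fun Q _ => ?_
  rw [Dn, div_mul_eq_mul_div, Finset.sum_mul]
  congr 1
  refine Finset.sum_congr rfl fun y hy => ?_
  rw [Finset.insert_erase hy]

theorem Ev_Up {p : ℕ} (hp : p < Fintype.card α) (g : Finset α → ℝ) :
    Ev p (Up g) = Ev (p + 1) g := by
  have := Ev_Up_mul hp (fun _ => 1) g
  simp only [one_mul] at this
  rw [this]
  refine Ev_congr fun Q hQ => ?_
  rw [Dn_const (by rintro rfl; simp at hQ), one_mul]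

theorem Ev_Dn {p : ℕ} (hp : p < Fintype.card α) (h : Finset α → ℝ) :
    Ev (p + 1) (Dn h) = Ev p h := by
  have := Ev_Up_mul hp h (fun _ => 1)
  simp only [mul_one] at this
  rw [← this]
  refine Ev_congr fun P hP => ?_
  rw [Up_const (by rintro rfl; rw [Finset.card_univ] at hP; omega), mul_one]

/-! ### Setup: activity `f`, centre map `z`, level weight `χ` -/

/-- probability that the next active hit (at or above `Q`) exists, has centre `x`
(weighted with `χ` of its level) -/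
noncomputable def rho (f : Finset α → ℝ) (z : Finset α → α) (χ : ℕ → ℝ) (x : α) :
    Finset α → ℝ :=
  Us f (fun Q => if z Q = x then f Q * χ Q.card else 0)

noncomputable def psi (f : Finset α → ℝ) (z : Finset α → α) (χ : ℕ → ℝ) (Q : Finset α) : ℝ :=
  ∑ x ∈ Q, rho f z χ x Q

noncomputable def Uout (f : Finset α → ℝ) (z : Finset α → α) (χ : ℕ → ℝ) (Q : Finset α) : ℝ :=
  ∑ x ∈ Qᶜ, rho f z χ x Q

noncomputable def Rh (f : Finset α → ℝ) (z : Finset α → α) (χ : ℕ → ℝ) (P : Finset α) : ℝ :=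
  (∑ x ∈ Pᶜ, rho f z χ x (insert x P)) / (Pᶜ.card : ℝ)


/-! ### product measure -/
section MuPart
variable {α : Type*} [DecidableEq α]

/-- product measure with density `q` on the subsets of `S` -/
noncomputable def mu (q : ℝ) (S : Finset α) (g : Finset α → ℝ) : ℝ :=
  ∑ V ∈ S.powerset, q ^ V.card * (1 - q) ^ (S.card - V.card) * g V

theorem mu_empty (q : ℝ) (g : Finset α → ℝ) : mu q ∅ g = g ∅ := by
  simp [mu]

theorem mu_insert (q : ℝ) (S : Finset α) (x : α) (hx : x ∉ S) (g : Finset α → ℝ) :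
    mu q (insert x S) g = q * mu q S (fun V => g (insert x V)) + (1 - q) * mu q S g := by
  unfold mu
  rw [Finset.sum_powerset_insert hx, add_comm, Finset.mul_sum, Finset.mul_sum]
  congr 1
  · refine Finset.sum_congr rfl fun V hV => ?_
    have hVS := Finset.mem_powerset.1 hV
    have hxV : x ∉ V := fun h => hx (hVS h)
    rw [Finset.card_insert_of_notMem hxV, Finset.card_insert_of_notMem hx]
    have : S.card + 1 - (V.card + 1) = S.card - V.card := by omega
    rw [this]; ring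
  · refine Finset.sum_congr rfl fun V hV => ?_
    have hVS := Finset.mem_powerset.1 hV
    have hc := Finset.card_le_card hVS
    rw [Finset.card_insert_of_notMem hx]
    have : S.card + 1 - V.card = (S.card - V.card) + 1 := by omega
    rw [this]; ring

theorem mu_const (q c : ℝ) (S : Finset α) : mu q S (fun _ => c) = c := by
  induction S using Finset.induction_on with
  | empty => simp [mu_empty]
  | insert x S hx ih => rw [mu_insert q S x hx, ih]; ring

theorem mu_mono {q : ℝ} (hq0 : 0 ≤ q) (hq1 : q ≤ 1) (S : Finset α) {g h : Finset α → ℝ}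
    (hgh : ∀ V ⊆ S, g V ≤ h V) : mu q S g ≤ mu q S h := by
  unfold mu
  refine Finset.sum_le_sum fun V hV => ?_
  have := hgh V (Finset.mem_powerset.1 hV)
  have h1 : (0:ℝ) ≤ 1 - q := by linarith
  have : 0 ≤ q ^ V.card * (1 - q) ^ (S.card - V.card) := by positivity
  nlinarith

theorem mu_nonneg {q : ℝ} (hq0 : 0 ≤ q) (hq1 : q ≤ 1) (S : Finset α) {g : Finset α → ℝ}
    (hg : ∀ V ⊆ S, 0 ≤ g V) : 0 ≤ mu q S g := by
  have := mu_mono hq0 hq1 S hg
  rwa [mu_const] at this

theorem mu_add (q : ℝ) (S : Finset α) (g h : Finset α → ℝ) :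
    mu q S (fun V => g V + h V) = mu q S g + mu q S h := by
  unfold mu; rw [← Finset.sum_add_distrib]; exact Finset.sum_congr rfl fun V _ => by ring

theorem mu_const_mul (q c : ℝ) (S : Finset α) (g : Finset α → ℝ) :
    mu q S (fun V => c * g V) = c * mu q S g := by
  unfold mu; rw [Finset.mul_sum]; exact Finset.sum_congr rfl fun V _ => by ring

theorem mu_congr {q : ℝ} (S : Finset α) {g h : Finset α → ℝ}
    (hgh : ∀ V ⊆ S, g V = h V) : mu q S g = mu q S h := by
  unfold mu
  exact Finset.sum_congr rfl fun V hV => by rw [hgh V (Finset.mem_powerset.1 hV)]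


end MuPart

/-! ### union-free part -/
/-- some member of `F` lies between `B` and `C`, and is different from `C` -/
def xi (F : Finset (Finset α)) (C B : Finset α) : Prop := ∃ A ∈ F, B ⊆ A ∧ A ⊂ C

open Classical in
/-- indicator of `xi` -/
noncomputable def xiR (F : Finset (Finset α)) (C B : Finset α) : ℝ := if xi F C B then 1 else 0

/-- `z` is a centre of the member `C` -/
def Centre (F : Finset (Finset α)) (C : Finset α) (z : α) : Prop :=
  z ∈ C ∧ ∀ q : ℝ, 0 ≤ q → q ≤ 1 →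
    mu q (C.erase z) (fun V => xiR F C (C \ V)) ≤ 256 * q ^ 2

/-- indicator of the members of size at least `b` -/
noncomputable def Fb (F : Finset (Finset α)) (b : ℕ) (Q : Finset α) : ℝ :=
  if Q ∈ F ∧ b ≤ Q.card then 1 else 0

/-- probability that a random down chain (starting point included) hits a member of size `≥ b` -/
noncomputable def Hb (F : Finset (Finset α)) (b : ℕ) : Finset α → ℝ := Ds (Fb F b) (Fb F b)

/-! ### The weighted system -/

/-- relative binomial weight of level `p` in the `2m`-cube -/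
noncomputable def wt (m p : ℕ) : ℝ := ((2 * m).choose p : ℝ) / ((2 * m).choose m : ℝ)

/-- an absolute constant -/
noncomputable def Cw : ℝ := ∑' k : ℕ, Real.exp (-((k : ℝ) ^ 2) / 2) * ((k : ℝ) + 2) ^ 10

/-- shell weights -/
noncomputable def omk (k : ℕ) : ℝ := Real.exp (-((k : ℝ) ^ 2) / 2)

/-- a family of subsets of a `2m`-set concentrated on the levels `[m-h, m+h]`, with centres -/
structure Sys (α : Type*) [Fintype α] [DecidableEq α] where
  m : ℕ
  h : ℕ
  F : Finset (Finset α)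
  z : Finset α → α
  hcard : Fintype.card α = 2 * m
  hz : ∀ C ∈ F, Centre F C (z C)
  hlo : ∀ C ∈ F, m ≤ C.card + h
  hhi : ∀ C ∈ F, C.card ≤ m + h

namespace Sys
variable (S : Sys α)

/-- the regime: `m` large, `h` small compared with `m` -/
def Reg : Prop := 100000000 ≤ S.m ∧ 5000 * S.h ≤ S.m

/-- activity -/
noncomputable def f (C : Finset α) : ℝ := if C ∈ S.F then wt S.m C.card else 0

noncomputable def H : Finset α → ℝ := Ds S.f S.f

noncomputable def u : Finset α → ℝ := Us S.f S.f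

/-- mass of level `s` -/
noncomputable def ph (s : ℕ) : ℝ := Ev s S.f

noncomputable def T : ℝ := ∑ s ∈ range (2 * S.m + 1), S.ph s

noncomputable def G : ℝ := ∑ p ∈ range (2 * S.m + 1), Ev p (fun P => S.f P * Dn S.H P)

noncomputable def cost : ℝ := ∑ s ∈ range (2 * S.m + 1), (1 - wt S.m s) * S.ph s

noncomputable def nu : ℝ := 1 - S.H univ

/-- shell thickness -/
def r : ℕ := Nat.sqrt S.m + 1

/-- lower end of the `k`-th shell -/
def bk (k : ℕ) : ℕ := S.m - (k + 1) * S.r

/-- number of shells -/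
def M : ℕ := S.h / S.r + 1

noncomputable def dl (k : ℕ) : ℝ := 2 * ((k : ℝ) + 1) / Real.sqrt S.m

/-- probability that the next hit does not exist or its centre is outside -/
noncomputable def b (Q : Finset α) : ℝ := 1 - psi S.f S.z (fun _ => 1) Q

def Good (Q : Finset α) : Prop := Q ∉ S.F ∧ Dn S.H Q ≤ 1 / 10 ∧ S.b Q ≤ 1 / 25

open Classical in
/-- `rho` restricted to good sets -/
noncomputable def a (χ : ℕ → ℝ) (x : α) (Q : Finset α) : ℝ :=
  if S.Good Q then rho S.f S.z χ x Q else 0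

/-- good part of `Rh` -/
noncomputable def Rg (χ : ℕ → ℝ) (P : Finset α) : ℝ :=
  (∑ x ∈ Pᶜ, S.a χ x (insert x P)) / (Pᶜ.card : ℝ)

/-- bad part of `Rh` -/
noncomputable def eh (χ : ℕ → ℝ) (P : Finset α) : ℝ := Rh S.f S.z χ P - S.Rg χ P

/-- pair weight factor -/
noncomputable def Ga (k : ℕ) (T : Finset α) (x y : α) : ℝ :=
  max (Hb S.F (S.bk k) ((T.erase x).erase y) - S.dl k) 0

/-- second moment functional -/
noncomputable def Om (χ : ℕ → ℝ) (k : ℕ) (T : Finset α) : ℝ :=
  ∑ x ∈ T, ∑ y ∈ T.erase x, S.a χ x (T.erase y) * S.a χ y (T.erase x) * S.Ga k T x y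

/-- charges -/
noncomputable def y (j : ℕ) : ℝ :=
  1 / 64 * ((j : ℝ) / S.m) / (1 + (j : ℝ) ^ 2 / S.m) ^ 2

/-- the part of `G` coming from upper members with weight `χ` -/
noncomputable def Gc (χ : ℕ → ℝ) : ℝ :=
  ∑ p ∈ range (2 * S.m + 1), Ev p (fun Q => S.f Q * χ Q.card * Dn S.H Q)

/-- far part of a block, below level `t₁`, with charge share `c` -/
noncomputable def Far (χ : ℕ → ℝ) (c : ℝ) (t₁ : ℕ) : ℝ :=
  ∑ q ∈ range t₁, Ev q (fun P => S.H P * max (Rh S.f S.z χ P - c * S.y (S.m - q)) 0)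

end Sys

/-! ### Low blocks -/

/-- weight of the low block of scale `β`: levels in `(m-2β, m-β]` -/
noncomputable def chiB (m β : ℕ) (s : ℕ) : ℝ := if m < s + 2 * β ∧ s + β ≤ m then 1 else 0

/-- weight of the top block: levels `> m-K` -/
noncomputable def chiTop (m K : ℕ) (s : ℕ) : ℝ := if m < s + K then 1 else 0

/-- weight of the deep block: levels `≤ m-D` -/
noncomputable def chiDeep (m D : ℕ) (s : ℕ) : ℝ := if s + D ≤ m then 1 else 0

/-- weight of the levels `< e` -/
noncomputable def chiLt (e : ℕ) (s : ℕ) : ℝ := if s < e then 1 else 0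

namespace Sys
variable (S : Sys α)

noncomputable def ka (χ : ℕ → ℝ) (Q : Finset α) : ℝ := ∑ y ∈ Q, S.a χ y Q

noncomputable def rr (χ : ℕ → ℝ) (y : α) (Q : Finset α) : ℝ := S.a χ y Q / S.ka χ Q

/-- the normalised fractional matching -/
noncomputable def om2 (χ : ℕ → ℝ) (T : Finset α) (x y : α) : ℝ :=
  if x ∈ T ∧ y ∈ T ∧ x ≠ y then S.a χ x (T.erase y) * S.rr χ y (T.erase x) else 0

noncomputable def g2 (χ : ℕ → ℝ) (k : ℕ) (T : Finset α) (x : α) : ℝ :=
  ∑ y ∈ T.erase x, S.om2 χ T x y * S.Ga k T x y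

noncomputable def Om2 (χ : ℕ → ℝ) (k : ℕ) (T : Finset α) : ℝ :=
  ∑ x ∈ T, ∑ y ∈ T.erase x, S.om2 χ T x y * S.Ga k T x y

open Classical in
/-- part (l2) -/
noncomputable def L2 (χ : ℕ → ℝ) (k : ℕ) (θ : ℝ) (T : Finset α) : ℝ :=
  ∑ x ∈ T, if θ < S.ka χ (T.erase x) ∧ S.ka χ (T.erase x) / 4 ≤ 1 - S.u T
    then S.g2 χ k T x else 0

open Classical in
/-- part (l3), `E` = number of levels up to the top of the gap -/
noncomputable def L3 (χ : ℕ → ℝ) (k : ℕ) (θ : ℝ) (E : ℕ) (T : Finset α) : ℝ :=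
  ∑ x ∈ T, if θ < S.ka χ (T.erase x) ∧
      (Up^[E] (fun R => 1 - S.u R)) T ≤ S.ka χ (T.erase x) / 2
    then S.ka χ (T.erase x) * S.g2 χ k T x else 0

end Sys


end UF
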