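import Pool.Agent.UF.Base

set_option autoImplicit false
set_option linter.unusedSectionVars false
set_option linter.unusedVariables false
open Finset

namespace UF
variable {α : Type*} [DecidableEq α]

theorem M1a_mono_ins {g : Finset α → ℝ} (hg : Monotone g) (x : α) :
    Monotone (fun V => g (insert x V)) := fun _ _ hAB => hg (Finset.insert_subset_insert x hAB)

/-- monotone in the density -/
theorem mu_mono_q {q q' : ℝ} (h0 : 0 ≤ q) (hqq : q ≤ q') (h1 : q' ≤ 1) (S : Finset α)
    {g : Finset α → ℝ} (hg : Monotone g) : mu q S g ≤ mu q' S g := by
  induction S using Finset.induction_on generalizing g with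
  | empty => rw [mu_empty, mu_empty]
  | insert x S hx ih =>
    rw [mu_insert q S x hx, mu_insert q' S x hx]
    have e1 := ih (M1a_mono_ins hg x)
    have e2 := ih hg
    have e3 : mu q S g ≤ mu q S (fun V => g (insert x V)) :=
      mu_mono h0 (hqq.trans h1) S (fun V _ => hg (Finset.subset_insert x V))
    have f1 : q' * mu q S (fun V => g (insert x V)) ≤ q' * mu q' S (fun V => g (insert x V)) :=
      mul_le_mul_of_nonneg_left e1 (h0.trans hqq)
    have f2 : (1 - q') * mu q S g ≤ (1 - q') * mu q' S g :=
      mul_le_mul_of_nonneg_left e2 (by linarith)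
    have f3 : 0 ≤ (q' - q) * (mu q S (fun V => g (insert x V)) - mu q S g) :=
      mul_nonneg (by linarith) (by linarith)
    linarith

/-- monotone in the ground set -/
theorem mu_subset {q : ℝ} (h0 : 0 ≤ q) (h1 : q ≤ 1) {S S' : Finset α} (hS : S ⊆ S')
    {g : Finset α → ℝ} (hg : Monotone g) : mu q S g ≤ mu q S' g := by
  have key : ∀ D : Finset α, mu q S g ≤ mu q (S ∪ D) g := by
    intro D
    induction D using Finset.induction_on with
    | empty => rw [Finset.union_empty]
    | insert x D _ ih =>
      rw [Finset.union_insert]
      by_cases hx : x ∈ S ∪ D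
      · rw [Finset.insert_eq_of_mem hx]
        exact ih
      · rw [mu_insert q _ x hx]
        have e3 : mu q (S ∪ D) g ≤ mu q (S ∪ D) (fun V => g (insert x V)) :=
          mu_mono h0 h1 _ (fun V _ => hg (Finset.subset_insert x V))
        have := mul_le_mul_of_nonneg_left e3 h0
        linarith
  have h := key S'
  rw [Finset.union_eq_right.mpr hS] at h
  exact h

/-- restriction: only the trace on `S` matters -/
theorem mu_inter (q : ℝ) {S S' : Finset α} (hS : S ⊆ S') (g : Finset α → ℝ) :
    mu q S' (fun V => g (V ∩ S)) = mu q S g := by
  have key : ∀ D : Finset α, mu q (S ∪ D) (fun V => g (V ∩ S)) = mu q S g := by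
    intro D
    induction D using Finset.induction_on with
    | empty =>
      rw [Finset.union_empty]
      apply mu_congr
      intro V hV
      rw [Finset.inter_eq_left.mpr hV]
    | insert x D _ ih =>
      rw [Finset.union_insert]
      by_cases hx : x ∈ S ∪ D
      · rw [Finset.insert_eq_of_mem hx]
        exact ih
      · have hxS : x ∉ S := fun h => hx (Finset.mem_union_left _ h)
        rw [mu_insert q _ x hx]
        have e : (fun V => g (insert x V ∩ S)) = fun V => g (V ∩ S) := by
          funext V
          rw [Finset.insert_inter_of_notMem hxS]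
        rw [e, ih]
        ring
  have h := key S'
  rw [Finset.union_eq_right.mpr hS] at h
  exact h

/-- complement -/
theorem mu_compl (q : ℝ) (S : Finset α) (g : Finset α → ℝ) :
    mu q S (fun V => g (S \ V)) = mu (1 - q) S g := by
  induction S using Finset.induction_on generalizing g with
  | empty => rw [mu_empty, mu_empty]; simp
  | insert x S hx ih =>
    rw [mu_insert q S x hx, mu_insert (1 - q) S x hx]
    have e1 : mu q S (fun V => g (insert x S \ insert x V)) = mu q S (fun V => g (S \ V)) := by
      apply mu_congr
      intro V hV
      congr 1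
      ext y
      simp only [Finset.mem_sdiff, Finset.mem_insert]
      constructor
      · rintro ⟨h1, h2⟩
        push Not at h2
        rcases h1 with h1 | h1
        · exact absurd h1 h2.1
        · exact ⟨h1, h2.2⟩
      · rintro ⟨h1, h2⟩
        refine ⟨Or.inr h1, ?_⟩
        rintro (h3 | h3)
        · rw [h3] at h1
          exact hx h1
        · exact h2 h3
    have e2 : mu q S (fun V => g (insert x S \ V)) =
        mu q S (fun V => (fun W => g (insert x W)) (S \ V)) := by
      apply mu_congr
      intro V hV
      have hxV : x ∉ V := fun h => hx (hV h)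
      rw [Finset.insert_sdiff_of_notMem _ hxV]
    rw [e1, e2, ih g, ih (fun W => g (insert x W))]
    ring

end UF
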