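import Pool.Agent.UF.Base

set_option autoImplicit false
set_option linter.unusedSectionVars false
set_option linter.unusedVariables false
open Finset

namespace UF
variable {α : Type*} [DecidableEq α]

/-- union of two independent random sets -/
theorem mu_union (q₁ q₂ : ℝ) (S : Finset α) (g : Finset α → ℝ) :
    mu q₁ S (fun V₁ => mu q₂ S (fun V₂ => g (V₁ ∪ V₂))) = mu (1 - (1 - q₁) * (1 - q₂)) S g := by
  induction S using Finset.induction_on generalizing g with
  | empty => simp [mu_empty]
  | insert x S hx ih =>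
    have i1 : ∀ V₁ : Finset α, mu q₂ (insert x S) (fun V₂ => g (insert x V₁ ∪ V₂)) =
        mu q₂ S (fun V₂ => g (insert x (V₁ ∪ V₂))) := by
      intro V₁
      rw [mu_insert q₂ S x hx]
      have e1 : (fun V₂ => g (insert x V₁ ∪ insert x V₂)) = fun V₂ => g (insert x (V₁ ∪ V₂)) := by
        funext V₂
        congr 1
        ext y
        simp only [Finset.mem_union, Finset.mem_insert]
        tauto
      have e2 : (fun V₂ => g (insert x V₁ ∪ V₂)) = fun V₂ => g (insert x (V₁ ∪ V₂)) := by
        funext V₂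
        rw [Finset.insert_union]
      rw [e1, e2]
      ring
    have i2 : ∀ V₁ : Finset α, mu q₂ (insert x S) (fun V₂ => g (V₁ ∪ V₂)) =
        q₂ * mu q₂ S (fun V₂ => g (insert x (V₁ ∪ V₂))) +
          (1 - q₂) * mu q₂ S (fun V₂ => g (V₁ ∪ V₂)) := by
      intro V₁
      rw [mu_insert q₂ S x hx]
      have e1 : (fun V₂ => g (V₁ ∪ insert x V₂)) = fun V₂ => g (insert x (V₁ ∪ V₂)) := by
        funext V₂
        rw [Finset.union_insert]
      rw [e1]
    rw [mu_insert q₁ S x hx, mu_insert _ S x hx]
    have e1 : mu q₁ S (fun V => mu q₂ (insert x S) (fun V₂ => g (insert x V ∪ V₂))) =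
        mu (1 - (1 - q₁) * (1 - q₂)) S (fun V => g (insert x V)) := by
      rw [mu_congr S (fun V _ => i1 V)]
      exact ih (fun V => g (insert x V))
    have e2 : mu q₁ S (fun V => mu q₂ (insert x S) (fun V₂ => g (V ∪ V₂))) =
        q₂ * mu (1 - (1 - q₁) * (1 - q₂)) S (fun V => g (insert x V)) +
          (1 - q₂) * mu (1 - (1 - q₁) * (1 - q₂)) S g := by
      rw [mu_congr S (fun V _ => i2 V), mu_add, mu_const_mul, mu_const_mul]
      rw [ih (fun V => g (insert x V)), ih g]
    rw [e1, e2]
    ring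

/-- Bollobas-Thomason type inequality for an increasing event -/
theorem mu_BT {q : ℝ} (h0 : 0 ≤ q) (h1 : q ≤ 1) (S : Finset α) (I : Finset α → Prop)
    [DecidablePred I] (hI : ∀ A B, A ⊆ B → I A → I B) (k : ℕ) :
    1 - (1 - mu q S (fun V => if I V then 1 else 0)) ^ k ≤
      mu (1 - (1 - q) ^ k) S (fun V => if I V then 1 else 0) := by
  obtain ⟨f, hf⟩ : ∃ f : Finset α → ℝ, f = fun V => if I V then 1 else 0 := ⟨_, rfl⟩
  rw [← hf]
  have hf0 : ∀ V, 0 ≤ f V := by
    intro V
    rw [hf]
    simp only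
    split_ifs <;> norm_num
  have hf1 : ∀ V, f V ≤ 1 := by
    intro V
    rw [hf]
    simp only
    split_ifs <;> norm_num
  have hfu : ∀ V W, f V + (1 - f V) * f W ≤ f (V ∪ W) := by
    intro V W
    rw [hf]
    simp only
    by_cases hV : I V
    · rw [if_pos hV, if_pos (hI V _ Finset.subset_union_left hV)]
      simp
    · by_cases hW : I W
      · rw [if_pos hW, if_pos (hI W _ Finset.subset_union_right hW), if_neg hV]
        simp
      · rw [if_neg hV, if_neg hW]
        split_ifs <;> norm_num
  obtain ⟨p, hp⟩ : ∃ p, p = mu q S f := ⟨_, rfl⟩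
  have hp1 : p ≤ 1 := by
    rw [hp]
    have := mu_mono h0 h1 S (fun V _ => hf1 V)
    rwa [mu_const] at this
  rw [← hp]
  induction k with
  | zero =>
    simp only [pow_zero, sub_self]
    exact mu_nonneg le_rfl zero_le_one S (fun V _ => hf0 V)
  | succ k ih =>
    have hq0 : 0 ≤ 1 - (1 - q) ^ k := by
      have := pow_le_one₀ (n := k) (show 0 ≤ 1 - q by linarith) (by linarith)
      linarith
    have hq1 : 1 - (1 - q) ^ k ≤ 1 := by
      have := pow_nonneg (show 0 ≤ 1 - q by linarith) k
      linarith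
    have e1 : 1 - (1 - q) ^ (k + 1) = 1 - (1 - (1 - (1 - q) ^ k)) * (1 - q) := by ring
    rw [e1, ← mu_union]
    have h2 : mu (1 - (1 - q) ^ k) S (fun V => f V + (1 - f V) * p) ≤
        mu (1 - (1 - q) ^ k) S (fun V₁ => mu q S (fun V₂ => f (V₁ ∪ V₂))) := by
      apply mu_mono hq0 hq1
      intro V _
      have h3 : mu q S (fun W => f V + (1 - f V) * f W) = f V + (1 - f V) * p := by
        rw [mu_add, mu_const, mu_const_mul, hp]
      rw [← h3]
      exact mu_mono h0 h1 S (fun W _ => hfu V W)
    refine le_trans ?_ h2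
    have h4 : mu (1 - (1 - q) ^ k) S (fun V => f V + (1 - f V) * p) =
        p + (1 - p) * mu (1 - (1 - q) ^ k) S f := by
      have h5 : mu (1 - (1 - q) ^ k) S (fun V => f V + (1 - f V) * p) =
          mu (1 - (1 - q) ^ k) S (fun V => p + (1 - p) * f V) := by
        apply mu_congr
        intro V _
        ring
      rw [h5, mu_add, mu_const, mu_const_mul]
    rw [h4, pow_succ]
    have h6 : 0 ≤ 1 - p := by linarith
    have h7 := mul_le_mul_of_nonneg_left ih h6
    linarith

end UF
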