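import Pool.Agent.UF.Base
import Pool.Agent.UF.Jm1a
import Pool.Agent.UF.Jm1b

set_option autoImplicit false
set_option linter.unusedSectionVars false
set_option linter.unusedVariables false
open Finset

namespace UF
variable {α : Type*} [DecidableEq α]

/-- cross-intersecting pair of increasing events: if the first is not small, the second is tiny -/
theorem cross_small {q : ℝ} (h0 : 0 < q) (h1 : q ≤ 1 / 4) (S : Finset α)
    (I J : Finset α → Prop) [DecidablePred I] [DecidablePred J]
    (hI : ∀ A B, A ⊆ B → I A → I B)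
    (hcross : ∀ A B, A ⊆ S → B ⊆ S → I A → J B → (A ∩ B).Nonempty)
    (hheavy : 4 * q ≤ mu q S (fun V => if I V then 1 else 0)) :
    mu q S (fun V => if J V then 1 else 0) ≤ (q / (1 - q)) ^ 4 := by
  classical
  have hq1 : 0 < 1 - q := by linarith
  have hex : ∃ n : ℕ, (1 - q) ^ n < q := exists_pow_lt_of_lt_one h0 (by linarith)
  obtain ⟨k, hk1, hk2⟩ : ∃ k : ℕ, (1 - q) ^ (k + 1) < q ∧ q ≤ (1 - q) ^ k := by
    have hn := Nat.find_spec hex
    have hmin := fun m (hm : m < Nat.find hex) => Nat.find_min hex hm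
    rcases Nat.eq_zero_or_pos (Nat.find hex) with h | h
    · rw [h, pow_zero] at hn; linarith
    · refine ⟨Nat.find hex - 1, ?_, ?_⟩
      · have : Nat.find hex - 1 + 1 = Nat.find hex := by omega
        rw [this]; exact hn
      · exact not_lt.1 (hmin _ (by omega))
  set a := mu q S (fun V => if I V then 1 else 0) with ha
  have ha1 : a ≤ 1 := by
    have := mu_mono h0.le (by linarith : q ≤ 1) S (g := fun V => if I V then (1 : ℝ) else 0)
      (h := fun _ => 1) (fun V _ => by split_ifs <;> norm_num)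
    rwa [mu_const] at this
  have hBT := mu_BT h0.le (by linarith : q ≤ 1) S I hI k
  rw [← ha] at hBT
  have hb : 1 - 4 * q ≤ (1 - q) ^ 4 := by
    nlinarith [sq_nonneg q, sq_nonneg (q - 1), mul_nonneg h0.le (sq_nonneg (q - 2)),
      mul_nonneg h0.le h0.le, mul_nonneg (mul_nonneg h0.le h0.le) hq1.le,
      mul_nonneg (sq_nonneg q) (sq_nonneg (q - 2))]
  have hpow : (1 - a) ^ k ≤ ((1 - q) ^ k) ^ 4 := by
    calc (1 - a) ^ k ≤ ((1 - q) ^ 4) ^ k := by
          apply pow_le_pow_left₀ (by linarith)
          linarith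
      _ = ((1 - q) ^ k) ^ 4 := by rw [← pow_mul, ← pow_mul, mul_comm]
  have hk0 : (1 - q) ^ k ≤ 1 := pow_le_one₀ hq1.le (by linarith)
  have hgm : Monotone (fun V : Finset α => if I V then (1 : ℝ) else 0) := by
    intro A B hAB
    dsimp only
    by_cases hA : I A
    · rw [if_pos hA, if_pos (hI A B hAB hA)]
    · rw [if_neg hA]; split_ifs <;> norm_num
  have hmq := mu_mono_q (q := 1 - (1 - q) ^ k) (q' := 1 - q) (by linarith) (by linarith)
    (by linarith) S hgm
  have hlow : 1 - ((1 - q) ^ k) ^ 4 ≤ mu (1 - q) S (fun V => if I V then 1 else 0) := by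
    linarith
  have hup : mu q S (fun V => if J V then 1 else 0) ≤
      1 - mu (1 - q) S (fun V => if I V then 1 else 0) := by
    have e1 : (1 : ℝ) - mu (1 - q) S (fun V => if I V then 1 else 0) =
        mu q S (fun V => 1 + (-1) * (if I (S \ V) then 1 else 0)) := by
      rw [mu_add q S (fun _ => 1) (fun V => (-1) * (if I (S \ V) then 1 else 0)), mu_const,
        mu_const_mul q (-1) S (fun V => if I (S \ V) then 1 else 0)]
      have := mu_compl q S (fun V => if I V then 1 else 0)
      rw [this]; ring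
    rw [e1]
    apply mu_mono h0.le (by linarith)
    intro V hV
    by_cases hJ : J V
    · have hnI : ¬ I (S \ V) := by
        intro hI'
        obtain ⟨z, hz⟩ := hcross (S \ V) V Finset.sdiff_subset hV hI' hJ
        rw [Finset.mem_inter, Finset.mem_sdiff] at hz
        exact hz.1.2 hz.2
      rw [if_pos hJ, if_neg hnI]; norm_num
    · rw [if_neg hJ]; split_ifs <;> norm_num
  have hfin : (1 - q) ^ k ≤ q / (1 - q) := by
    rw [le_div_iff₀ hq1, ← pow_succ]; exact hk1.le
  calc mu q S (fun V => if J V then 1 else 0) ≤ ((1 - q) ^ k) ^ 4 := by linarith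
    _ ≤ (q / (1 - q)) ^ 4 := pow_le_pow_left₀ (by positivity) hfin 4

/-- the part avoiding a heavy centre is tiny -/
theorem avoid_small {q : ℝ} (h0 : 0 < q) (h1 : q ≤ 3 / 16) (S : Finset α) (x : α) (hx : x ∈ S)
    (I : Finset α → Prop) [DecidablePred I] (hI : ∀ A B, A ⊆ B → I A → I B)
    (hint : ∀ A B, I A → I B → (A ∩ B).Nonempty)
    (hheavy : 4 * q ≤ mu q (S.erase x) (fun V => if I (insert x V) then 1 else 0)) :
    mu q (S.erase x) (fun V => if I V then 1 else 0) ≤ (q / (1 - q)) ^ 4 := by
  refine cross_small h0 (by linarith) (S.erase x) (fun V => I (insert x V)) I ?_ ?_ hheavy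
  · intro A B hAB hA
    exact hI _ _ (Finset.insert_subset_insert x hAB) hA
  · intro A B hA hB hIA hIB
    obtain ⟨z, hz⟩ := hint _ _ hIA hIB
    rw [Finset.mem_inter, Finset.mem_insert] at hz
    refine ⟨z, ?_⟩
    rw [Finset.mem_inter]
    refine ⟨?_, hz.2⟩
    rcases hz.1 with h | h
    · exact absurd (hB hz.2) (by rw [h]; exact Finset.notMem_erase x S)
    · exact h

end UF
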