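import Pool.Agent.UF.Base
import Pool.Agent.UF.Jm1a
import Pool.Agent.UF.Jm1b

set_option autoImplicit false
set_option linter.unusedSectionVars false
set_option linter.unusedVariables false
open Finset

namespace UF
variable {α : Type*} [DecidableEq α]

/-- persistence of heaviness -/
theorem heavy_persist {s q : ℝ} (h0 : 0 < s) (hsq : s ≤ q) (hq : q ≤ 3 / 16) (S : Finset α)
    (I : Finset α → Prop) [DecidablePred I] (hI : ∀ A B, A ⊆ B → I A → I B)
    (hheavy : 16 * s ≤ mu s S (fun V => if I V then 1 else 0)) :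
    4 * q ≤ mu q S (fun V => if I V then 1 else 0) := by
  have hq0 : 0 < q := lt_of_lt_of_le h0 hsq
  have hs1 : s ≤ 1 := by linarith
  have hs2 : 0 ≤ 1 - s := by linarith
  set a : ℝ := mu s S (fun V => if I V then 1 else 0) with ha
  have ha1 : a ≤ 1 := by
    have h := mu_mono (q := s) h0.le hs1 S (g := fun V => if I V then (1 : ℝ) else 0)
      (h := fun _ => (1 : ℝ)) (fun V _ => by split_ifs <;> norm_num)
    rw [mu_const] at h
    exact h
  set k : ℕ := ⌊q / s⌋₊ with hk
  have hqs : 1 ≤ q / s := by rw [le_div_iff₀ h0]; linarith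
  have hk1 : 1 ≤ k := by
    rw [hk]; exact Nat.one_le_floor_iff _ |>.mpr hqs
  have hk1' : (1 : ℝ) ≤ k := by exact_mod_cast hk1
  have hks : (k : ℝ) * s ≤ q := by
    have h := Nat.floor_le (le_trans zero_le_one hqs)
    rw [← hk] at h
    rw [le_div_iff₀ h0] at h
    exact h
  have hks2 : q < ((k : ℝ) + 1) * s := by
    have h := Nat.lt_floor_add_one (q / s)
    rw [← hk] at h
    rw [div_lt_iff₀ h0] at h
    exact h
  have hks3 : q ≤ 2 * ((k : ℝ) * s) := by nlinarith
  have hB : 1 - (1 - s) ^ k ≤ q := by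
    have h := one_add_mul_le_pow (a := -s) (by linarith) k
    have e : (1 + -s) = 1 - s := by ring
    rw [e] at h
    linarith
  have hp1 : (1 - s) ^ k ≤ 1 := pow_le_one₀ hs2 (by linarith)
  have hmono : Monotone (fun V : Finset α => if I V then (1 : ℝ) else 0) := by
    intro A B hAB
    dsimp only
    by_cases hA : I A
    · rw [if_pos hA, if_pos (hI A B hAB hA)]
    · rw [if_neg hA]; split_ifs <;> norm_num
  have h1 := mu_mono_q (q := 1 - (1 - s) ^ k) (q' := q) (by linarith) hB (by linarith) S hmono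
  have h2 := mu_BT h0.le hs1 S I hI k
  rw [← ha] at h2
  have h3 : (1 - a) ^ k ≤ (1 - 16 * s) ^ k :=
    pow_le_pow_left₀ (by linarith) (by linarith) k
  have h4 : (1 - 16 * s) ^ k ≤ Real.exp (-(16 * s)) ^ k := by
    refine pow_le_pow_left₀ (by linarith) ?_ k
    have := Real.add_one_le_exp (-(16 * s))
    linarith
  have h5 : Real.exp (-(16 * s)) ^ k = Real.exp (-(16 * (k * s))) := by
    rw [← Real.exp_nat_mul]; congr 1; ring
  have h6 : Real.exp (-(16 * (k * s))) ≤ Real.exp (-(8 * q)) := by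
    apply Real.exp_le_exp.mpr; linarith
  have h7 : Real.exp (-(8 * q)) ≤ 1 - 4 * q := by
    have ht := Real.sum_le_exp_of_nonneg (x := 8 * q) (by linarith) 4
    simp only [Finset.sum_range_succ, Finset.sum_range_zero] at ht
    norm_num [Nat.factorial] at ht
    have hpos := Real.exp_pos (-(8 * q))
    have hmul : Real.exp (-(8 * q)) * Real.exp (8 * q) = 1 := by
      rw [← Real.exp_add]; simp
    have hE : (0 : ℝ) < Real.exp (8 * q) := Real.exp_pos _
    have h8 : 1 ≤ (1 - 4 * q) * Real.exp (8 * q) := by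
      have h9 : (1 - 4 * q) * (1 + 8 * q + (8 * q) ^ 2 / 2 + (8 * q) ^ 3 / 6) ≤
          (1 - 4 * q) * Real.exp (8 * q) := by
        apply mul_le_mul_of_nonneg_left _ (by linarith)
        linarith
      have h10 : 1 ≤ (1 - 4 * q) * (1 + 8 * q + (8 * q) ^ 2 / 2 + (8 * q) ^ 3 / 6) := by
        have e : (1 - 4 * q) * (1 + 8 * q + (8 * q) ^ 2 / 2 + (8 * q) ^ 3 / 6) - 1 =
            q * (4 - (8 * q) ^ 2 * 8 / 12 - (8 * q) ^ 3 * 8 / 12) := by ring
        have hq2 : q ^ 2 ≤ (3 / 16) ^ 2 := pow_le_pow_left₀ hq0.le hq 2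
        have hq3 : q ^ 3 ≤ (3 / 16) ^ 3 := pow_le_pow_left₀ hq0.le hq 3
        have h11 : 0 ≤ 4 - (8 * q) ^ 2 * 8 / 12 - (8 * q) ^ 3 * 8 / 12 := by
          nlinarith
        have := mul_nonneg hq0.le h11
        linarith
      linarith
    by_contra hcon
    push Not at hcon
    have : (1 - 4 * q) * Real.exp (8 * q) < Real.exp (-(8 * q)) * Real.exp (8 * q) :=
      mul_lt_mul_of_pos_right hcon hE
    linarith
  linarith

end UF
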