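import Pool.Agent.UF.Base
import Pool.Agent.UF.Jm2a

set_option autoImplicit false
set_option linter.unusedSectionVars false
set_option linter.unusedVariables false
open Finset

namespace UF
variable {α : Type*} [DecidableEq α]

/-- two different elements cannot both be heavy -/
theorem heavy_unique {q : ℝ} (h0 : 0 < q) (h1 : q ≤ 3 / 16) (S : Finset α) (x y : α)
    (hx : x ∈ S) (hy : y ∈ S)
    (I : Finset α → Prop) [DecidablePred I] (hI : ∀ A B, A ⊆ B → I A → I B)
    (hint : ∀ A B, I A → I B → (A ∩ B).Nonempty)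
    (hxh : 4 * q ≤ mu q (S.erase x) (fun V => if I (insert x V) then 1 else 0))
    (hyh : 4 * q ≤ mu q (S.erase y) (fun V => if I (insert y V) then 1 else 0)) :
    x = y := by
  by_contra hxy
  have hq1 : q ≤ 1 := by linarith
  have hsm := avoid_small h0 h1 S x hx I hI hint hxh
  have hyS : y ∈ S.erase x := Finset.mem_erase.2 ⟨fun h => hxy h.symm, hy⟩
  have hxS : x ∈ S.erase y := Finset.mem_erase.2 ⟨hxy, hx⟩
  have e1 : S.erase x = insert y ((S.erase x).erase y) := (Finset.insert_erase hyS).symm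
  have e2 : S.erase y = insert x ((S.erase x).erase y) := by
    rw [Finset.erase_right_comm]; exact (Finset.insert_erase hxS).symm
  have hn1 : y ∉ (S.erase x).erase y := Finset.notMem_erase y _
  have hn2 : x ∉ (S.erase x).erase y := fun h =>
    Finset.notMem_erase x S (Finset.mem_of_mem_erase h)
  generalize (S.erase x).erase y = S0 at e1 e2 hn1 hn2
  rw [e2, mu_insert q S0 x hn2] at hyh
  rw [e1, mu_insert q S0 y hn1] at hsm
  have hA : mu q S0 (fun V => if I (insert y (insert x V)) then (1:ℝ) else 0) ≤ 1 := by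
    have := mu_mono (q := q) h0.le hq1 S0
      (g := fun V => if I (insert y (insert x V)) then (1:ℝ) else 0) (h := fun _ => 1)
      (fun V _ => by split_ifs <;> norm_num)
    rwa [mu_const] at this
  have hB : 0 ≤ mu q S0 (fun V => if I (insert y V) then (1:ℝ) else 0) :=
    mu_nonneg h0.le hq1 S0 (fun V _ => by split_ifs <;> norm_num)
  have hC : 0 ≤ mu q S0 (fun V => if I V then (1:ℝ) else 0) :=
    mu_nonneg h0.le hq1 S0 (fun V _ => by split_ifs <;> norm_num)
  generalize mu q S0 (fun V => if I (insert y (insert x V)) then (1:ℝ) else 0) = A at hA hyh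
  generalize mu q S0 (fun V => if I (insert y V) then (1:ℝ) else 0) = B at hB hyh hsm
  generalize mu q S0 (fun V => if I V then (1:ℝ) else 0) = C at hC hsm
  have hB3 : 3 * q ≤ B := by nlinarith
  have hlow : 3 * q ^ 2 ≤ (q / (1 - q)) ^ 4 := by nlinarith
  have h1q : (0:ℝ) < 1 - q := by linarith
  have hr : q / (1 - q) ≤ 16 / 13 * q := by
    rw [div_le_iff₀ h1q]; nlinarith
  have hr0 : 0 ≤ q / (1 - q) := by positivity
  have hr2 : (q / (1 - q)) ^ 4 ≤ (16 / 13 * q) ^ 4 := pow_le_pow_left₀ hr0 hr 4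
  have hq2 : q ^ 2 ≤ 9 / 256 := by nlinarith
  have hq2p : 0 < q ^ 2 := by positivity
  have : (16 / 13 * q) ^ 4 = (16/13)^4 * q ^ 2 * q ^ 2 := by ring
  rw [this] at hr2
  have hc : ((16:ℝ)/13)^4 * q ^ 2 ≤ 1 := by norm_num; nlinarith
  nlinarith

end UF
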