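import Pool.Agent.UF.Base

set_option autoImplicit false
set_option linter.unusedSectionVars false
set_option linter.unusedVariables false
open Finset

namespace UF
variable {α : Type*} [DecidableEq α]

/-- Russo's formula -/
theorem mu_hasDerivAt (S : Finset α) (g : Finset α → ℝ) (q : ℝ) :
    HasDerivAt (fun s => mu s S g)
      (∑ x ∈ S, mu q (S.erase x) (fun V => g (insert x V) - g V)) q := by
  induction S using Finset.induction_on generalizing g with
  | empty =>
    simp only [mu_empty, Finset.sum_empty]
    exact hasDerivAt_const q (g ∅)
  | insert x S hx ih =>
    have hfun : (fun s => mu s (insert x S) g) =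
        fun s => s * mu s S (fun V => g (insert x V)) + (1 - s) * mu s S g := by
      funext s
      exact mu_insert s S x hx g
    rw [hfun]
    have h1 := (hasDerivAt_id q).mul (ih (fun V => g (insert x V)))
    have h2 := ((hasDerivAt_id q).const_sub 1).mul (ih g)
    have h3 := h1.add h2
    refine h3.congr_deriv ?_
    have hsub : mu q S (fun V => g (insert x V) - g V) =
        mu q S (fun V => g (insert x V)) - mu q S g := by
      have e1 : (fun V => g (insert x V) - g V) =
          fun V => g (insert x V) + (-1) * g V := by
        funext V; ring
      rw [e1, mu_add, mu_const_mul]; ring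
    rw [Finset.sum_insert hx, Finset.erase_insert hx, hsub]
    have hterm : ∀ y ∈ S, mu q ((insert x S).erase y) (fun V => g (insert y V) - g V) =
        q * mu q (S.erase y) (fun V => g (insert x (insert y V)) - g (insert x V)) +
          (1 - q) * mu q (S.erase y) (fun V => g (insert y V) - g V) := by
      intro y hy
      have hxy : x ≠ y := fun h => hx (h ▸ hy)
      have hx' : x ∉ S.erase y := fun h => hx (Finset.mem_of_mem_erase h)
      rw [Finset.erase_insert_of_ne hxy, mu_insert q _ x hx']
      congr 2
      refine mu_congr _ fun V _ => ?_
      rw [Finset.insert_comm]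
    rw [Finset.sum_congr rfl hterm, Finset.sum_add_distrib, ← Finset.mul_sum, ← Finset.mul_sum]
    simp only [id_eq]
    ring

end UF
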