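import Pool.Agent.UF.Base
import Pool.Agent.UF.Jm1a

set_option autoImplicit false
set_option linter.unusedSectionVars false
set_option linter.unusedVariables false
open Finset

namespace UF
variable {α : Type*} [DecidableEq α]

theorem excl_bilin (q q' : ℝ) (S : Finset α) (f0 f1 g0 g1 : Finset α → ℝ) (a b c d : ℝ) :
    mu q S (fun R => (a * f0 R + b * f1 R) * mu q' (S \ R) (fun V => c * g0 V + d * g1 V)) =
      a * c * mu q S (fun R => f0 R * mu q' (S \ R) g0) +
      a * d * mu q S (fun R => f0 R * mu q' (S \ R) g1) +
      b * c * mu q S (fun R => f1 R * mu q' (S \ R) g0) +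
      b * d * mu q S (fun R => f1 R * mu q' (S \ R) g1) := by
  rw [← mu_const_mul, ← mu_const_mul, ← mu_const_mul, ← mu_const_mul, ← mu_add, ← mu_add,
    ← mu_add]
  refine mu_congr S (fun V _ => ?_)
  rw [mu_add, mu_const_mul, mu_const_mul]
  ring

theorem excl_insert {q q' : ℝ} (h : (1 - q) * q' = q) (S : Finset α) (e : α) (he : e ∉ S)
    (f g : Finset α → ℝ) :
    mu q (insert e S) (fun R => f R * mu q' (insert e S \ R) g) =
      q * mu q S (fun R => f (insert e R) * mu q' (S \ R) g) +
      q * mu q S (fun R => f R * mu q' (S \ R) (fun V => g (insert e V))) +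
      (1 - 2 * q) * mu q S (fun R => f R * mu q' (S \ R) g) := by
  rw [mu_insert q S e he]
  have h1 : mu q S (fun V => f (insert e V) * mu q' (insert e S \ insert e V) g) =
      mu q S (fun R => f (insert e R) * mu q' (S \ R) g) := by
    refine mu_congr S (fun V hV => ?_)
    have : insert e S \ insert e V = S \ V := by
      ext x
      simp only [Finset.mem_sdiff, Finset.mem_insert, not_or]
      constructor
      · rintro ⟨h1 | h1, h2, h3⟩
        · exact absurd h1 h2
        · exact ⟨h1, h3⟩
      · rintro ⟨h1, h2⟩
        exact ⟨Or.inr h1, fun h3 => he (h3 ▸ h1), h2⟩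
    rw [this]
  have h2 : mu q S (fun V => f V * mu q' (insert e S \ V) g) =
      q' * mu q S (fun R => f R * mu q' (S \ R) (fun V => g (insert e V))) +
      (1 - q') * mu q S (fun R => f R * mu q' (S \ R) g) := by
    rw [← mu_const_mul, ← mu_const_mul, ← mu_add]
    refine mu_congr S (fun V hV => ?_)
    have h3 : insert e S \ V = insert e (S \ V) := by
      rw [Finset.insert_sdiff_of_notMem]
      exact fun h3 => he (hV h3)
    have h4 : e ∉ S \ V := fun h3 => he (Finset.mem_sdiff.1 h3).1
    rw [h3, mu_insert q' _ e h4]
    ring
  rw [h1, h2]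
  linear_combination (mu q S (fun R => f R * mu q' (S \ R) (fun V => g (insert e V))) -
    mu q S (fun R => f R * mu q' (S \ R) g)) * h

/-- exclusive colouring inequality (an element is red w.p. q, blue w.p. q, never both) -/
theorem excl_ineq {q q' : ℝ} (h0 : 0 ≤ q) (h1 : q ≤ 1 / 2) (hq' : q' = q / (1 - q))
    (S : Finset α) (f g : Finset α → ℝ) (hf : Monotone f) (hg : Monotone g)
    (hf0 : ∀ V, 0 ≤ f V) (hg0 : ∀ V, 0 ≤ g V) :
    mu q S f * mu q S g
      - q ^ 2 * ∑ x ∈ S, mu q (S.erase x) (fun V => f (insert x V) - f V)
          * mu q' (S.erase x) (fun V => g (insert x V))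
      ≤ mu q S (fun R => f R * mu q' (S \ R) g) := by
  have hq1 : q ≤ 1 := by linarith
  have hpos : 0 < 1 - q := by linarith
  have hh : (1 - q) * q' = q := by
    rw [hq']; field_simp
  have hq'0 : 0 ≤ q' := by rw [hq']; positivity
  have hq'1 : q' ≤ 1 := by
    rw [hq', div_le_one hpos]; linarith
  have hqq' : q ≤ q' := by nlinarith
  induction S using Finset.induction_on generalizing f g with
  | empty =>
    simp [mu_empty]
  | insert e S he ih =>
    have hins : Monotone (fun V : Finset α => insert e V) := fun V W h => Finset.insert_subset_insert e h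
    have hf1 : Monotone (fun V => f (insert e V)) := hf.comp hins
    have hg1 : Monotone (fun V => g (insert e V)) := hg.comp hins
    have hle : ∀ V, f V ≤ f (insert e V) := fun V => hf (Finset.subset_insert e V)
    have hgle : ∀ V, g V ≤ g (insert e V) := fun V => hg (Finset.subset_insert e V)
    obtain ⟨fb, hfb⟩ : ∃ fb : Finset α → ℝ, fb = fun V => (1 - q) * f V + q * f (insert e V) := ⟨_, rfl⟩
    obtain ⟨gb, hgb⟩ : ∃ gb : Finset α → ℝ, gb = fun V => (1 - q) * g V + q * g (insert e V) := ⟨_, rfl⟩
    have hfbm : Monotone fb := by
      intro V W h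
      have a1 := hf h
      have a2 := hf1 h
      simp only [hfb]
      simp only at a2
      nlinarith
    have hgbm : Monotone gb := by
      intro V W h
      have a1 := hg h
      have a2 := hg1 h
      simp only [hgb]
      simp only at a2
      nlinarith
    have hfb0 : ∀ V, 0 ≤ fb V := by
      intro V
      have a1 := hf0 V
      have a2 := hf0 (insert e V)
      simp only [hfb]
      positivity
    have hgb0 : ∀ V, 0 ≤ gb V := by
      intro V
      have a1 := hg0 V
      have a2 := hg0 (insert e V)
      simp only [hgb]
      positivity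
    have IH := ih fb gb hfbm hgbm hfb0 hgb0
    -- averages
    have hmf : mu q S fb = mu q (insert e S) f := by
      rw [mu_insert q S e he, hfb, mu_add, mu_const_mul, mu_const_mul]; ring
    have hmg : mu q S gb = mu q (insert e S) g := by
      rw [mu_insert q S e he, hgb, mu_add, mu_const_mul, mu_const_mul]; ring
    -- expansion
    have hexp := excl_insert hh S e he f g
    have hb1 := excl_bilin q q' S f (fun V => f (insert e V)) g (fun V => g (insert e V))
      (1 - q) q (1 - q) q
    have hb2 := excl_bilin q q' S f (fun V => f (insert e V)) g (fun V => g (insert e V))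
      (-1) 1 (-1) 1
    have hbb : mu q S (fun R => fb R * mu q' (S \ R) gb) =
        mu q S (fun R => ((1 - q) * f R + q * f (insert e R)) *
          mu q' (S \ R) (fun V => (1 - q) * g V + q * g (insert e V))) := by
      rw [hfb, hgb]
    -- the last term
    have hlast : mu q S (fun R => (-1 * f R + 1 * f (insert e R)) *
          mu q' (S \ R) (fun V => -1 * g V + 1 * g (insert e V))) ≤
        mu q S (fun V => f (insert e V) - f V) * mu q' S (fun V => g (insert e V)) := by
      have a1 : mu q S (fun V => f (insert e V) - f V) * mu q' S (fun V => g (insert e V)) =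
          mu q S (fun V => mu q' S (fun V => g (insert e V)) * (f (insert e V) - f V)) := by
        rw [mu_const_mul]; ring
      rw [a1]
      refine mu_mono h0 hq1 S (fun R hR => ?_)
      have a2 : mu q' (S \ R) (fun V => -1 * g V + 1 * g (insert e V)) ≤
          mu q' S (fun V => g (insert e V)) := by
        refine le_trans (mu_mono hq'0 hq'1 _ (fun V _ => ?_))
          (mu_subset hq'0 hq'1 Finset.sdiff_subset hg1)
        have := hg0 V
        linarith
      have a3 : 0 ≤ -1 * f R + 1 * f (insert e R) := by
        have := hle R
        linarith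
      calc (-1 * f R + 1 * f (insert e R)) * mu q' (S \ R) (fun V => -1 * g V + 1 * g (insert e V))
          ≤ (-1 * f R + 1 * f (insert e R)) * mu q' S (fun V => g (insert e V)) :=
            mul_le_mul_of_nonneg_left a2 a3
        _ = _ := by ring
    -- the sum
    have hsum : ∑ x ∈ S, mu q (S.erase x) (fun V => fb (insert x V) - fb V)
          * mu q' (S.erase x) (fun V => gb (insert x V)) ≤
        ∑ x ∈ S, mu q ((insert e S).erase x) (fun V => f (insert x V) - f V)
          * mu q' ((insert e S).erase x) (fun V => g (insert x V)) := by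
      refine Finset.sum_le_sum (fun x hx => ?_)
      have hxe : x ≠ e := fun h => he (h ▸ hx)
      have hE : (insert e S).erase x = insert e (S.erase x) :=
        Finset.erase_insert_of_ne (Ne.symm hxe)
      have heE : e ∉ S.erase x := fun h => he (Finset.mem_of_mem_erase h)
      rw [hE]
      have b1 : mu q (S.erase x) (fun V => fb (insert x V) - fb V) =
          mu q (insert e (S.erase x)) (fun V => f (insert x V) - f V) := by
        rw [mu_insert q _ e heE, ← mu_const_mul, ← mu_const_mul, ← mu_add]
        refine mu_congr _ (fun V _ => ?_)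
        simp only [hfb]
        rw [Finset.insert_comm e x V]
        ring
      have b2 : 0 ≤ mu q (insert e (S.erase x)) (fun V => f (insert x V) - f V) :=
        mu_nonneg h0 hq1 _ (fun V _ => sub_nonneg.2 (hf (Finset.subset_insert x V)))
      have b3 : mu q' (S.erase x) (fun V => gb (insert x V)) ≤
          mu q' (insert e (S.erase x)) (fun V => g (insert x V)) := by
        rw [mu_insert q' _ e heE, ← mu_const_mul, ← mu_const_mul, ← mu_add]
        refine mu_mono hq'0 hq'1 _ (fun V _ => ?_)
        simp only [hgb]
        rw [Finset.insert_comm e x V]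
        have b4 := hg (show insert x V ⊆ insert x (insert e V) from
          Finset.insert_subset_insert x (Finset.subset_insert e V))
        nlinarith
      rw [b1]
      exact mul_le_mul_of_nonneg_left b3 b2
    rw [Finset.sum_insert he, Finset.erase_insert he]
    rw [hmf, hmg, hbb, hb1] at IH
    rw [hb2] at hlast
    rw [hexp]
    have hq2 : 0 ≤ q ^ 2 := sq_nonneg q
    have c1 := mul_le_mul_of_nonneg_left hlast hq2
    have c2 := mul_le_mul_of_nonneg_left hsum hq2
    nlinarith [IH, c1, c2]

end UF
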