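import Pool.Agent.UF.Base
import Pool.Agent.UF.Jm1a
import Pool.Agent.UF.Jm3a
import Pool.Agent.UF.Jm3b

set_option autoImplicit false
set_option linter.unusedSectionVars false
set_option linter.unusedVariables false
open Finset

namespace UF
variable {α : Type*} [DecidableEq α]

/-- light case: if no link is heavy on `[q,3q]`, the family is `O(q^2)` -/
theorem light_small {q : ℝ} (h0 : 0 < q) (h1 : q ≤ 1 / 16) (S : Finset α)
    (I : Finset α → Prop) [DecidablePred I] (hI : ∀ A B, A ⊆ B → I A → I B)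
    (hint : ∀ A B, I A → I B → (A ∩ B).Nonempty)
    (hlight : ∀ x ∈ S, ∀ s : ℝ, q ≤ s → s ≤ 3 * q →
      mu s (S.erase x) (fun V => if I (insert x V) then 1 else 0) < 16 * s) :
    mu q S (fun V => if I V then 1 else 0) ≤ 50 * q ^ 2 := by
  classical
  set f : Finset α → ℝ := fun V => if I V then 1 else 0 with hfdef
  have hfm : Monotone f := by
    intro A B hAB
    simp only [hfdef]
    by_cases hA : I A
    · rw [if_pos hA, if_pos (hI A B hAB hA)]
    · rw [if_neg hA]; split_ifs <;> norm_num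
  have hf0 : ∀ V, 0 ≤ f V := by
    intro V; simp only [hfdef]; split_ifs <;> norm_num
  by_contra hcon
  push Not at hcon
  have hq2 : 0 < q ^ 2 := by positivity
  have hyq : 0 < mu q S f := by nlinarith
  have hypos : ∀ s, q ≤ s → s ≤ 2 * q → 0 < mu s S f := by
    intro s hs1 hs2
    exact lt_of_lt_of_le hyq (mu_mono_q h0.le hs1 (by linarith) S hfm)
  -- the derivative
  set y' : ℝ → ℝ := fun s => ∑ x ∈ S, mu s (S.erase x) (fun V => f (insert x V) - f V) with hy'
  have hth : ∀ s, q ≤ s → s ≤ 2 * q → ∀ x ∈ S,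
      0 ≤ mu s (S.erase x) (fun V => f (insert x V) - f V) := by
    intro s hs1 hs2 x hx
    refine mu_nonneg (by linarith) (by linarith) _ ?_
    intro V hV
    have := hfm (Finset.subset_insert x V)
    linarith
  have hmain : ∀ s, q ≤ s → s ≤ 2 * q →
      mu s S f ^ 2 ≤ 16 * s ^ 3 / (1 - s) * y' s := by
    intro s hs1 hs2
    have hs0 : 0 < s := by linarith
    have hs8 : s ≤ 1 / 8 := by linarith
    have h1s : 0 < 1 - s := by linarith
    have hex := excl_ineq (q := s) (q' := s / (1 - s)) hs0.le (by linarith) rfl S f f hfm hfm hf0 hf0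
    have hzero : mu s S (fun R => f R * mu (s / (1 - s)) (S \ R) f) = 0 := by
      rw [mu_congr (h := fun _ => 0)]
      · exact mu_const s 0 S
      · intro R hR
        by_cases hIR : I R
        · have : mu (s / (1 - s)) (S \ R) f = 0 := by
            rw [mu_congr (h := fun _ => 0)]
            · exact mu_const _ 0 _
            · intro V hV
              simp only [hfdef]
              rw [if_neg]
              intro hIV
              obtain ⟨z, hz⟩ := hint R V hIR hIV
              rw [Finset.mem_inter] at hz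
              exact (Finset.mem_sdiff.1 (hV hz.2)).2 hz.1
          rw [this, mul_zero]
        · simp only [hfdef]; rw [if_neg hIR, zero_mul]
    rw [hzero] at hex
    have hs'1 : q ≤ s / (1 - s) := by
      rw [le_div_iff₀ h1s]; nlinarith
    have hs'2 : s / (1 - s) ≤ 3 * q := by
      rw [div_le_iff₀ h1s]; nlinarith
    have hs'0 : 0 < s / (1 - s) := div_pos hs0 h1s
    have hsum : ∑ x ∈ S, mu s (S.erase x) (fun V => f (insert x V) - f V)
          * mu (s / (1 - s)) (S.erase x) (fun V => f (insert x V))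
        ≤ ∑ x ∈ S, mu s (S.erase x) (fun V => f (insert x V) - f V) * (16 * (s / (1 - s))) := by
      refine Finset.sum_le_sum fun x hx => ?_
      exact mul_le_mul_of_nonneg_left (hlight x hx _ hs'1 hs'2).le (hth s hs1 hs2 x hx)
    rw [← Finset.sum_mul] at hsum
    have h3 : s ^ 2 * ∑ x ∈ S, mu s (S.erase x) (fun V => f (insert x V) - f V)
          * mu (s / (1 - s)) (S.erase x) (fun V => f (insert x V))
        ≤ s ^ 2 * (y' s * (16 * (s / (1 - s)))) :=
      mul_le_mul_of_nonneg_left hsum (by positivity)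
    have h4 : s ^ 2 * (y' s * (16 * (s / (1 - s)))) = 16 * s ^ 3 / (1 - s) * y' s := by
      field_simp
    rw [← h4]
    nlinarith
  -- the function Φ
  have hder : ∀ s, q ≤ s → s ≤ 2 * q →
      HasDerivAt (fun s => (mu s S f)⁻¹ - (1 - 2 * q) / 32 * (s ^ 2)⁻¹)
        (-(y' s) / (mu s S f) ^ 2 - (1 - 2 * q) / 32 * (-(2 * s) / (s ^ 2) ^ 2)) s := by
    intro s hs1 hs2
    have hs0 : 0 < s := by linarith
    have h1 := (mu_hasDerivAt S f s).inv (hypos s hs1 hs2).ne'
    have h2 : HasDerivAt (fun s : ℝ => (s ^ 2)⁻¹) (-(2 * s) / (s ^ 2) ^ 2) s := by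
      have h3 : HasDerivAt (fun s : ℝ => s ^ 2) (2 * s) s := by
        simpa using hasDerivAt_pow 2 s
      exact h3.inv (by positivity : s ^ 2 ≠ 0)
    exact h1.sub (h2.const_mul _)
  have hnonpos : ∀ s, q ≤ s → s ≤ 2 * q →
      -(y' s) / (mu s S f) ^ 2 - (1 - 2 * q) / 32 * (-(2 * s) / (s ^ 2) ^ 2) ≤ 0 := by
    intro s hs1 hs2
    have hs0 : 0 < s := by linarith
    have h1s : 0 < 1 - s := by linarith
    have hm := hmain s hs1 hs2
    have hyp := hypos s hs1 hs2
    have hy2 : 0 < mu s S f ^ 2 := by positivity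
    have e1 : (1 - s) / (16 * s ^ 3) ≤ y' s / (mu s S f) ^ 2 := by
      rw [div_le_div_iff₀ (by positivity) hy2]
      have : 16 * s ^ 3 / (1 - s) * y' s * (1 - s) = y' s * (16 * s ^ 3) := by
        field_simp
      nlinarith [mul_le_mul_of_nonneg_right hm h1s.le]
    have e2 : (1 - 2 * q) / 32 * ((2 * s) / (s ^ 2) ^ 2) = (1 - 2 * q) / (16 * s ^ 3) := by
      field_simp; ring
    have e3 : (1 - 2 * q) / (16 * s ^ 3) ≤ (1 - s) / (16 * s ^ 3) := by
      apply div_le_div_of_nonneg_right _ (by positivity)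
      linarith
    have e4 : -(y' s) / (mu s S f) ^ 2 = -(y' s / (mu s S f) ^ 2) := by ring
    have e5 : -(2 * s) / (s ^ 2) ^ 2 = -((2 * s) / (s ^ 2) ^ 2) := by ring
    rw [e4, e5]
    linarith
  have hanti : AntitoneOn (fun s => (mu s S f)⁻¹ - (1 - 2 * q) / 32 * (s ^ 2)⁻¹)
      (Set.Icc q (2 * q)) := by
    apply antitoneOn_of_deriv_nonpos (convex_Icc _ _)
    · intro s hs
      exact (hder s hs.1 hs.2).continuousAt.continuousWithinAt
    · intro s hs
      rw [interior_Icc] at hs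
      exact (hder s hs.1.le hs.2.le).differentiableAt.differentiableWithinAt
    · intro s hs
      rw [interior_Icc] at hs
      rw [(hder s hs.1.le hs.2.le).deriv]
      exact hnonpos s hs.1.le hs.2.le
  have hfin := hanti (Set.left_mem_Icc.2 (by linarith)) (Set.right_mem_Icc.2 (by linarith))
    (by linarith : q ≤ 2 * q)
  simp only at hfin
  have hy2q : 0 < (mu (2 * q) S f)⁻¹ := inv_pos.2 (hypos (2 * q) (by linarith) le_rfl)
  have e6 : (1 - 2 * q) / 32 * ((2 * q) ^ 2)⁻¹ = (1 - 2 * q) / 128 * (q ^ 2)⁻¹ := by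
    field_simp; ring
  rw [e6] at hfin
  have e7 : 3 * (1 - 2 * q) / 128 * (q ^ 2)⁻¹ < (mu q S f)⁻¹ := by
    have : 3 * (1 - 2 * q) / 128 * (q ^ 2)⁻¹
        = (1 - 2 * q) / 32 * (q ^ 2)⁻¹ - (1 - 2 * q) / 128 * (q ^ 2)⁻¹ := by ring
    rw [this]; linarith
  have e8 : (mu q S f)⁻¹ < (50 * q ^ 2)⁻¹ := by
    exact (inv_lt_inv₀ hyq (by positivity)).2 hcon
  have e9 : (50 * q ^ 2)⁻¹ = 1 / 50 * (q ^ 2)⁻¹ := by
    rw [mul_inv]; norm_num
  rw [e9] at e8
  have hiq : 0 < (q ^ 2)⁻¹ := by positivity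
  have : 3 * (1 - 2 * q) / 128 * (q ^ 2)⁻¹ < 1 / 50 * (q ^ 2)⁻¹ := e7.trans e8
  have h10 := lt_of_mul_lt_mul_right this hiq.le
  nlinarith

end UF
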