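import Pool.Agent.UF.Base
import Pool.Agent.UF.Jm1a
import Pool.Agent.UF.Jm2a
import Pool.Agent.UF.Jm2b
import Pool.Agent.UF.Jm2c
import Pool.Agent.UF.Jm4a

set_option autoImplicit false
set_option linter.unusedSectionVars false
set_option linter.unusedVariables false
open Finset

namespace UF
variable {α : Type*} [DecidableEq α]

/-- centre lemma -/
theorem exists_centre (S : Finset α) (hS : S.Nonempty)
    (I : Finset α → Prop) [DecidablePred I] (hI : ∀ A B, A ⊆ B → I A → I B)
    (hint : ∀ A B, I A → I B → (A ∩ B).Nonempty) :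
    ∃ z ∈ S, ∀ q : ℝ, 0 ≤ q → q ≤ 1 →
      mu q (S.erase z) (fun V => if I V then 1 else 0) ≤ 256 * q ^ 2 := by
  have hmono : Monotone (fun V : Finset α => if I V then (1:ℝ) else 0) := by
    intro A B hAB
    show (if I A then (1:ℝ) else 0) ≤ (if I B then (1:ℝ) else 0)
    by_cases hA : I A
    · rw [if_pos hA, if_pos (hI A B hAB hA)]
    · rw [if_neg hA]; split_ifs <;> norm_num
  have hle1 : ∀ (q : ℝ), 0 ≤ q → q ≤ 1 → ∀ T : Finset α,
      mu q T (fun V => if I V then 1 else 0) ≤ 1 := by
    intro q h0 h1 T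
    have := mu_mono h0 h1 T (g := fun V => if I V then 1 else 0) (h := fun _ => 1)
      (fun V _ => by split_ifs <;> norm_num)
    rwa [mu_const] at this
  have hI0 : ¬ I ∅ := fun h => by simpa using hint ∅ ∅ h h
  have hq0 : ∀ T : Finset α, mu 0 T (fun V => if I V then (1:ℝ) else 0) = 0 := by
    intro T
    unfold mu
    apply Finset.sum_eq_zero
    intro V hV
    by_cases hV0 : V = ∅
    · subst hV0; simp [hI0]
    · have : V.card ≠ 0 := by simpa using hV0
      rw [zero_pow this]; simp
  have hlightcase : ∀ z ∈ S, ∀ q : ℝ, 0 < q → q ≤ 1 / 16 →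
      (∀ x ∈ S, ∀ s : ℝ, q ≤ s → s ≤ 3 * q →
        mu s (S.erase x) (fun V => if I (insert x V) then 1 else 0) < 16 * s) →
      mu q (S.erase z) (fun V => if I V then 1 else 0) ≤ 256 * q ^ 2 := by
    intro z hz q hq hq1 hl
    have h1 := light_small hq hq1 S I hI hint hl
    have h2 := mu_subset hq.le (by linarith) (Finset.erase_subset z S) hmono
    have h3 : 0 ≤ q ^ 2 := by positivity
    linarith
  by_cases hcase : ∃ x ∈ S, ∃ s : ℝ, 0 < s ∧ s ≤ 3 / 16 ∧
      16 * s ≤ mu s (S.erase x) (fun V => if I (insert x V) then 1 else 0)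
  · obtain ⟨z, hz, s0, hs0, hs0', hheavy⟩ := hcase
    refine ⟨z, hz, fun q hq hq1 => ?_⟩
    rcases hq.eq_or_lt with rfl | hqpos
    · rw [hq0]; norm_num
    rcases lt_or_ge (1 / 16) q with hbig | hsmall
    · refine (hle1 q hq hq1 _).trans ?_
      nlinarith
    by_cases hl : ∀ x ∈ S, ∀ s : ℝ, q ≤ s → s ≤ 3 * q →
        mu s (S.erase x) (fun V => if I (insert x V) then 1 else 0) < 16 * s
    · exact hlightcase z hz q hqpos hsmall hl
    · push Not at hl
      obtain ⟨x', hx', s, hs1, hs2, hh⟩ := hl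
      have hs : 0 < s := by linarith
      have hs3 : s ≤ 3 / 16 := by linarith
      have hx'z : x' = z := heavy_unique (q := max s s0) (lt_max_of_lt_left hs)
        (max_le hs3 hs0') S x' z hx' hz I hI hint
        (heavy_persist hs (le_max_left _ _) (max_le hs3 hs0') (S.erase x')
          (fun V => I (insert x' V))
          (fun A B hAB hA => hI _ _ (Finset.insert_subset_insert _ hAB) hA) hh)
        (heavy_persist hs0 (le_max_right _ _) (max_le hs3 hs0') (S.erase z)
          (fun V => I (insert z V))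
          (fun A B hAB hA => hI _ _ (Finset.insert_subset_insert _ hAB) hA) hheavy)
      subst hx'z
      have h3 := avoid_small hs hs3 S x' hx' I hI hint (by linarith)
      have h4 := mu_mono_q hq hs1 (by linarith) (S.erase x') hmono
      have h5 : s / (1 - s) ≤ 16 / 13 * s := by
        rw [div_le_iff₀ (by linarith)]
        nlinarith
      have h6 : 0 ≤ s / (1 - s) := div_nonneg hs.le (by linarith)
      have h7 : (s / (1 - s)) ^ 4 ≤ (16 / 13 * s) ^ 4 := pow_le_pow_left₀ h6 h5 4
      have h8 : s ^ 2 ≤ 9 / 256 := by nlinarith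
      have h9 : s ^ 2 ≤ 9 * q ^ 2 := by nlinarith
      have h10 : (16 / 13 * s) ^ 4 = (16 / 13) ^ 4 * (s ^ 2 * s ^ 2) := by ring
      have h11 : s ^ 2 * s ^ 2 ≤ 9 / 256 * s ^ 2 := by
        have : 0 ≤ s ^ 2 := by positivity
        nlinarith
      have h12 : (16 / 13 * s) ^ 4 ≤ s ^ 2 := by
        rw [h10]
        have : 0 ≤ s ^ 2 := by positivity
        norm_num
        nlinarith
      have h13 : 0 ≤ q ^ 2 := by positivity
      linarith
  · push Not at hcase
    obtain ⟨z, hz⟩ := hS
    refine ⟨z, hz, fun q hq hq1 => ?_⟩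
    rcases hq.eq_or_lt with rfl | hqpos
    · rw [hq0]; norm_num
    rcases lt_or_ge (1 / 16) q with hbig | hsmall
    · refine (hle1 q hq hq1 _).trans ?_
      nlinarith
    · exact hlightcase z hz q hqpos hsmall
        (fun x hx s h1 h2 => hcase x hx s (by linarith) (by linarith))

end UF
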