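import Pool.Agent.UF.Base

set_option autoImplicit false
set_option linter.unusedSectionVars false
set_option linter.unusedVariables false
open Finset

namespace UF
variable {α : Type*} [DecidableEq α]

/-- double counting -/
theorem double_count (S : Finset α) (j : ℕ) (f : Finset α → ℝ) :
    ∑ V ∈ S.powersetCard j, ∑ x ∈ S \ V, f (insert x V)
      = ∑ V ∈ S.powersetCard (j + 1), ∑ _x ∈ V, f V := by
  rw [Finset.sum_sigma', Finset.sum_sigma']
  refine Finset.sum_bij' (fun p _ => (⟨insert p.2 p.1, p.2⟩ : Sigma fun _ : Finset α => α))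
    (fun p _ => (⟨p.1.erase p.2, p.2⟩ : Sigma fun _ : Finset α => α)) ?_ ?_ ?_ ?_ ?_
  · rintro ⟨V, x⟩ h
    simp only [Finset.mem_sigma, Finset.mem_powersetCard, Finset.mem_sdiff] at h ⊢
    obtain ⟨⟨h1, h2⟩, h3, h4⟩ := h
    refine ⟨⟨Finset.insert_subset h3 h1, ?_⟩, Finset.mem_insert_self _ _⟩
    rw [Finset.card_insert_of_notMem h4, h2]
  · rintro ⟨V, x⟩ h
    simp only [Finset.mem_sigma, Finset.mem_powersetCard, Finset.mem_sdiff] at h ⊢
    obtain ⟨⟨h1, h2⟩, h3⟩ := h
    refine ⟨⟨(Finset.erase_subset _ _).trans h1, ?_⟩, h1 h3, Finset.notMem_erase _ _⟩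
    rw [Finset.card_erase_of_mem h3, h2]; rfl
  · rintro ⟨V, x⟩ h
    simp only [Finset.mem_sigma, Finset.mem_powersetCard, Finset.mem_sdiff] at h
    simp only [Finset.erase_insert h.2.2]
  · rintro ⟨V, x⟩ h
    simp only [Finset.mem_sigma, Finset.mem_powersetCard] at h
    simp only [Finset.insert_erase h.2]
  · rintro ⟨V, x⟩ h
    rfl

theorem avg_step (S : Finset α) (j : ℕ) (hj : j < S.card) (g : Finset α → ℝ)
    (hg : Monotone g) :
    (∑ V ∈ S.powersetCard j, g V) / (S.card.choose j : ℝ)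
      ≤ (∑ V ∈ S.powersetCard (j+1), g V) / (S.card.choose (j+1) : ℝ) := by
  have hc0 : (0:ℝ) < (S.card.choose j : ℝ) := by
    exact_mod_cast Nat.choose_pos hj.le
  have hc1 : (0:ℝ) < (S.card.choose (j+1) : ℝ) := by
    exact_mod_cast Nat.choose_pos hj
  have hid : (S.card.choose (j+1) : ℝ) * ((j:ℝ)+1) = (S.card.choose j : ℝ) * ((S.card : ℝ) - j) := by
    have := Nat.choose_succ_right_eq S.card j
    have h2 : ((S.card.choose (j+1) * (j+1) : ℕ) : ℝ) = ((S.card.choose j * (S.card - j) : ℕ) : ℝ) := by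
      rw [this]
    rw [Nat.cast_mul, Nat.cast_mul, Nat.cast_sub hj.le] at h2
    push_cast at h2
    exact h2
  have hle : ((S.card : ℝ) - j) * ∑ V ∈ S.powersetCard j, g V
      ≤ ((j:ℝ)+1) * ∑ V ∈ S.powersetCard (j+1), g V := by
    have h1 : ((S.card : ℝ) - j) * ∑ V ∈ S.powersetCard j, g V
        = ∑ V ∈ S.powersetCard j, ∑ _x ∈ S \ V, g V := by
      rw [Finset.mul_sum]
      refine Finset.sum_congr rfl fun V hV => ?_
      rw [Finset.mem_powersetCard] at hV
      rw [Finset.sum_const, nsmul_eq_mul, Finset.card_sdiff_of_subset hV.1, hV.2,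
        Nat.cast_sub hj.le]
    have h2 : ((j:ℝ)+1) * ∑ V ∈ S.powersetCard (j+1), g V
        = ∑ V ∈ S.powersetCard (j+1), ∑ _x ∈ V, g V := by
      rw [Finset.mul_sum]
      refine Finset.sum_congr rfl fun V hV => ?_
      rw [Finset.mem_powersetCard] at hV
      rw [Finset.sum_const, nsmul_eq_mul, hV.2]
      push_cast; ring
    rw [h1, h2, ← double_count S j g]
    refine Finset.sum_le_sum fun V _ => Finset.sum_le_sum fun x _ => ?_
    exact hg (Finset.subset_insert x V)
  rw [div_le_div_iff₀ hc0 hc1]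
  have hjN : (0:ℝ) < (S.card : ℝ) - j := by
    have : (j:ℝ) < S.card := by exact_mod_cast hj
    linarith
  have hj1 : (0:ℝ) < (j:ℝ) + 1 := by positivity
  -- A * C1 ≤ B * C0 ; multiply by (j+1)
  have key : (∑ V ∈ S.powersetCard j, g V) * (S.card.choose (j+1) : ℝ) * ((j:ℝ)+1)
      ≤ (∑ V ∈ S.powersetCard (j+1), g V) * (S.card.choose j : ℝ) * ((j:ℝ)+1) := by
    calc (∑ V ∈ S.powersetCard j, g V) * (S.card.choose (j+1) : ℝ) * ((j:ℝ)+1)
        = (((S.card : ℝ) - j) * ∑ V ∈ S.powersetCard j, g V) * (S.card.choose j : ℝ) := by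
          rw [mul_assoc, hid]; ring
      _ ≤ (((j:ℝ)+1) * ∑ V ∈ S.powersetCard (j+1), g V) * (S.card.choose j : ℝ) :=
          mul_le_mul_of_nonneg_right hle hc0.le
      _ = _ := by ring
  exact le_of_mul_le_mul_right key hj1

theorem avg_mono (S : Finset α) (g : Finset α → ℝ) (hg : Monotone g) (d : ℕ) :
    ∀ j, d ≤ j → j ≤ S.card →
    (∑ V ∈ S.powersetCard d, g V) / (S.card.choose d : ℝ)
      ≤ (∑ V ∈ S.powersetCard j, g V) / (S.card.choose j : ℝ) := by
  intro j hdj
  induction j, hdj using Nat.le_induction with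
  | base => intro _; exact le_rfl
  | succ j hj ih =>
    intro hjS
    exact (ih (by omega)).trans (avg_step S j (by omega) g hg)

theorem mu_first (q : ℝ) (S : Finset α) :
    mu q S (fun V => (V.card : ℝ) - q * S.card) = 0 := by
  induction S using Finset.induction_on with
  | empty => simp [mu_empty]
  | insert x S hx ih =>
    rw [mu_insert q S x hx]
    have h1 : mu q S (fun V => ((insert x V).card : ℝ) - q * (insert x S).card)
        = mu q S (fun V => ((V.card : ℝ) - q * S.card) + (1 - q)) := by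
      refine mu_congr S fun V hV => ?_
      rw [Finset.card_insert_of_notMem (fun h => hx (hV h)), Finset.card_insert_of_notMem hx]
      push_cast; ring
    have h2 : mu q S (fun V => (V.card : ℝ) - q * (insert x S).card)
        = mu q S (fun V => ((V.card : ℝ) - q * S.card) + (-q)) := by
      refine mu_congr S fun V hV => ?_
      rw [Finset.card_insert_of_notMem hx]
      push_cast; ring
    rw [h1, h2, mu_add, mu_add, mu_const, mu_const, ih]
    ring

theorem mu_var (q : ℝ) (S : Finset α) :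
    mu q S (fun V => ((V.card : ℝ) - q * S.card) ^ 2) = q * (1 - q) * S.card := by
  induction S using Finset.induction_on with
  | empty => simp [mu_empty]
  | insert x S hx ih =>
    rw [mu_insert q S x hx]
    have h1 : mu q S (fun V => (((insert x V).card : ℝ) - q * (insert x S).card) ^ 2)
        = mu q S (fun V => (((V.card : ℝ) - q * S.card) ^ 2
            + (2 * (1 - q)) * ((V.card : ℝ) - q * S.card)) + (1 - q) ^ 2) := by
      refine mu_congr S fun V hV => ?_
      rw [Finset.card_insert_of_notMem (fun h => hx (hV h)), Finset.card_insert_of_notMem hx]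
      push_cast; ring
    have h2 : mu q S (fun V => ((V.card : ℝ) - q * (insert x S).card) ^ 2)
        = mu q S (fun V => (((V.card : ℝ) - q * S.card) ^ 2
            + (-(2 * q)) * ((V.card : ℝ) - q * S.card)) + q ^ 2) := by
      refine mu_congr S fun V hV => ?_
      rw [Finset.card_insert_of_notMem hx]
      push_cast; ring
    rw [h1, h2, mu_add, mu_add, mu_add, mu_add, mu_const, mu_const, mu_const_mul, mu_const_mul,
      ih, mu_first, Finset.card_insert_of_notMem hx]
    push_cast
    ring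

theorem mu_tail {q : ℝ} (h0 : 0 ≤ q) (h1 : q ≤ 1) (S : Finset α) (d : ℕ)
    (hd : 4 * (d : ℝ) ≤ q * (S.card : ℝ)) :
    5 / 9 ≤ mu q S (fun V => if d ≤ V.card then 1 else 0) := by
  rcases Nat.eq_zero_or_pos d with rfl | hdp
  · have : mu q S (fun V => if 0 ≤ V.card then (1:ℝ) else 0) = mu q S (fun _ => (1:ℝ)) :=
      mu_congr S fun V _ => by simp
    rw [this, mu_const]; norm_num
  · set m : ℝ := q * S.card with hm
    have hd1 : (1:ℝ) ≤ d := by exact_mod_cast hdp
    have hm4 : 4 ≤ m := by linarith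
    have hmd : 3 / 4 * m ≤ m - d := by linarith
    have hmd0 : 0 < m - d := by linarith
    have hlow : mu q S (fun V => 1 + (-(1 / (m - d) ^ 2)) * ((V.card : ℝ) - q * S.card) ^ 2)
        ≤ mu q S (fun V => if d ≤ V.card then (1:ℝ) else 0) := by
      refine mu_mono h0 h1 S fun V _ => ?_
      have hsq : 0 ≤ ((V.card : ℝ) - q * S.card) ^ 2 := sq_nonneg _
      by_cases h : d ≤ V.card
      · rw [if_pos h]
        have : 0 ≤ (1 / (m - d) ^ 2) * ((V.card : ℝ) - q * S.card) ^ 2 := by positivity
        linarith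
      · rw [if_neg h]
        have hlt : (V.card : ℝ) < d := by exact_mod_cast not_le.1 h
        have h3 : (m - d) ^ 2 ≤ ((V.card : ℝ) - q * S.card) ^ 2 := by
          rw [← hm]; nlinarith
        have h4 : 1 ≤ (1 / (m - d) ^ 2) * ((V.card : ℝ) - q * S.card) ^ 2 := by
          rw [one_div, inv_mul_eq_div, le_div_iff₀ (by positivity)]
          linarith
        linarith
    rw [mu_add, mu_const, mu_const_mul, mu_var] at hlow
    refine le_trans ?_ hlow
    have h5 : q * (1 - q) * S.card ≤ m := by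
      have : q * (1 - q) * S.card = (1 - q) * m := by rw [hm]; ring
      rw [this]
      nlinarith
    have h6 : (1 / (m - d) ^ 2) * (q * (1 - q) * S.card) ≤ 4 / 9 := by
      rw [one_div, inv_mul_eq_div, div_le_iff₀ (by positivity)]
      nlinarith
    linarith

theorem mu_decomp (q : ℝ) (S : Finset α) (g : Finset α → ℝ) :
    mu q S g = ∑ j ∈ Finset.range (S.card + 1),
      q ^ j * (1 - q) ^ (S.card - j) * ∑ V ∈ S.powersetCard j, g V := by
  unfold mu
  rw [Finset.sum_powerset]
  refine Finset.sum_congr rfl fun j _ => ?_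
  rw [Finset.mul_sum]
  refine Finset.sum_congr rfl fun V hV => ?_
  rw [(Finset.mem_powersetCard.1 hV).2]

/-- uniform `d`-subset is dominated by a product random set: Chebyshev gives `P(Bin(N,q) ≥ d) ≥ 5/9`
as soon as `q*N ≥ 4*d`. -/
theorem unif_le_mu {q : ℝ} (h0 : 0 ≤ q) (h1 : q ≤ 1) (S : Finset α) (d : ℕ)
    (hd : 4 * (d : ℝ) ≤ q * (S.card : ℝ)) (g : Finset α → ℝ) (hg : Monotone g)
    (hg0 : ∀ V, 0 ≤ g V) :
    (∑ V ∈ S.powersetCard d, g V) / (S.card.choose d : ℝ) ≤ 9 / 5 * mu q S g := by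
  set A : ℝ := (∑ V ∈ S.powersetCard d, g V) / (S.card.choose d : ℝ) with hA
  have hA0 : 0 ≤ A := div_nonneg (Finset.sum_nonneg fun V _ => hg0 V) (Nat.cast_nonneg _)
  have hkey : A * mu q S (fun V => if d ≤ V.card then (1:ℝ) else 0) ≤ mu q S g := by
    rw [mu_decomp, mu_decomp, Finset.mul_sum]
    refine Finset.sum_le_sum fun j hj => ?_
    have hjS : j ≤ S.card := by
      have := Finset.mem_range.1 hj; omega
    have hw : 0 ≤ q ^ j * (1 - q) ^ (S.card - j) := by
      have : (0:ℝ) ≤ 1 - q := by linarith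
      positivity
    have hs : ∑ V ∈ S.powersetCard j, (if d ≤ V.card then (1:ℝ) else 0)
        = if d ≤ j then (S.card.choose j : ℝ) else 0 := by
      have : ∀ V ∈ S.powersetCard j, (if d ≤ V.card then (1:ℝ) else 0) = if d ≤ j then (1:ℝ) else 0 := by
        intro V hV
        rw [(Finset.mem_powersetCard.1 hV).2]
      rw [Finset.sum_congr rfl this, Finset.sum_const, Finset.card_powersetCard]
      split_ifs <;> simp
    rw [hs]
    have hc : (0:ℝ) < (S.card.choose j : ℝ) := by exact_mod_cast Nat.choose_pos hjS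
    by_cases h : d ≤ j
    · rw [if_pos h]
      have h2 := avg_mono S g hg d j h hjS
      rw [← hA, le_div_iff₀ hc] at h2
      calc A * (q ^ j * (1 - q) ^ (S.card - j) * (S.card.choose j : ℝ))
          = (q ^ j * (1 - q) ^ (S.card - j)) * (A * (S.card.choose j : ℝ)) := by ring
        _ ≤ _ := mul_le_mul_of_nonneg_left h2 hw
    · rw [if_neg h, mul_zero, mul_zero]
      exact mul_nonneg hw (Finset.sum_nonneg fun V _ => hg0 V)
  have htail := mu_tail h0 h1 S d hd
  have h3 : A * (5 / 9) ≤ mu q S g := le_trans (mul_le_mul_of_nonneg_left htail hA0) hkey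
  linarith

end UF
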