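import Pool.Agent.UF.Base

set_option autoImplicit false
set_option linter.unusedSectionVars false
set_option linter.unusedVariables false
open Finset

namespace UF
variable {α : Type*} [DecidableEq α]

theorem mu_sum {ι : Type*} (q : ℝ) (S : Finset α) (s : Finset ι) (f : ι → Finset α → ℝ) :
    mu q S (fun V => ∑ i ∈ s, f i V) = ∑ i ∈ s, mu q S (f i) := by
  unfold mu
  rw [Finset.sum_comm]
  refine Finset.sum_congr rfl fun V _ => ?_
  rw [Finset.mul_sum]

theorem mu_ind (q : ℝ) (S : Finset α) : ∀ T ⊆ S,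
    mu q S (fun V => if T ⊆ V then (1 : ℝ) else 0) = q ^ T.card := by
  induction S using Finset.induction_on with
  | empty =>
    intro T hT
    have : T = ∅ := Finset.subset_empty.1 hT
    subst this
    simp [mu_empty]
  | insert x S hx ih =>
    intro T hT
    rw [mu_insert q S x hx]
    by_cases hxT : x ∈ T
    · have h1 : T.erase x ⊆ S := by
        intro y hy
        have h2 := hT (Finset.mem_of_mem_erase hy)
        rcases Finset.mem_insert.1 h2 with h3 | h3
        · exact absurd h3 (Finset.ne_of_mem_erase hy)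
        · exact h3
      have h2 : mu q S (fun V => if T ⊆ insert x V then (1 : ℝ) else 0) =
          mu q S (fun V => if T.erase x ⊆ V then (1 : ℝ) else 0) := by
        apply mu_congr
        intro V hV
        have h3 : T ⊆ insert x V ↔ T.erase x ⊆ V := by
          rw [Finset.subset_insert_iff]
        simp only [h3]
      have h4 : mu q S (fun V => if T ⊆ V then (1 : ℝ) else 0) = 0 := by
        have h5 : mu q S (fun V => if T ⊆ V then (1 : ℝ) else 0) = mu q S (fun _ => (0 : ℝ)) := by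
          apply mu_congr
          intro V hV
          rw [if_neg]
          intro h6
          exact hx (hV (h6 hxT))
        rw [h5, mu_const]
      rw [h2, ih _ h1, h4, mul_zero, add_zero, ← pow_succ', Finset.card_erase_add_one hxT]
    · have h1 : T ⊆ S := by
        intro y hy
        rcases Finset.mem_insert.1 (hT hy) with h3 | h3
        · exact absurd (h3 ▸ hy) hxT
        · exact h3
      have h2 : mu q S (fun V => if T ⊆ insert x V then (1 : ℝ) else 0) =
          mu q S (fun V => if T ⊆ V then (1 : ℝ) else 0) := by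
        apply mu_congr
        intro V hV
        have h3 : T ⊆ insert x V ↔ T ⊆ V := by
          rw [Finset.subset_insert_iff, Finset.erase_eq_of_notMem hxT]
        simp only [h3]
      rw [h2, ih _ h1]
      ring

theorem card_pair_union (x y x' y' : α) (hxy : x ≠ y) (hxy' : x' ≠ y') :
    2 ≤ (({x, y} : Finset α) ∪ {x', y'}).card ∧
    (¬ ((x' = x ∧ y' = y) ∨ (x' = y ∧ y' = x)) → 3 ≤ (({x, y} : Finset α) ∪ {x', y'}).card) ∧
    (x' ≠ x → x' ≠ y → y' ≠ x → y' ≠ y → 4 ≤ (({x, y} : Finset α) ∪ {x', y'}).card) := by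
  have h2 : (({x, y} : Finset α)).card = 2 := Finset.card_pair hxy
  refine ⟨?_, ?_, ?_⟩
  · rw [← h2]
    exact Finset.card_le_card Finset.subset_union_left
  · intro h
    have h3 : ∃ z ∈ ({x', y'} : Finset α), z ∉ ({x, y} : Finset α) := by
      by_contra hcon
      push Not at hcon
      have h4 := hcon x' (by simp)
      have h5 := hcon y' (by simp)
      simp only [Finset.mem_insert, Finset.mem_singleton] at h4 h5
      apply h
      rcases h4 with h4 | h4 <;> rcases h5 with h5 | h5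
      · exact absurd (h4.trans h5.symm) hxy'
      · exact Or.inl ⟨h4, h5⟩
      · exact Or.inr ⟨h4, h5⟩
      · exact absurd (h4.trans h5.symm) hxy'
    obtain ⟨z, hz, hz'⟩ := h3
    have h6 : insert z ({x, y} : Finset α) ⊆ ({x, y} : Finset α) ∪ {x', y'} := by
      intro t ht
      rcases Finset.mem_insert.1 ht with h7 | h7
      · rw [h7]; exact Finset.mem_union_right _ hz
      · exact Finset.mem_union_left _ h7
    have h7 := Finset.card_le_card h6
    rw [Finset.card_insert_of_notMem hz', h2] at h7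
    exact h7
  · intro a b c e
    rw [Finset.card_union_of_disjoint, h2, Finset.card_pair hxy']
    rw [Finset.disjoint_left]
    intro t ht ht'
    simp only [Finset.mem_insert, Finset.mem_singleton] at ht ht'
    rcases ht with ht | ht <;> rcases ht' with ht' | ht' <;> subst ht
    · exact a ht'.symm
    · exact c ht'.symm
    · exact b ht'.symm
    · exact e ht'.symm

theorem pow_pair_le (t : ℝ) (ht0 : 0 ≤ t) (ht1 : t ≤ 1) (x y x' y' : α) (hxy : x ≠ y)
    (hxy' : x' ≠ y') :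
    t ^ (({x, y} : Finset α) ∪ {x', y'}).card ≤
      t ^ 2 * ((if x' = x then (if y' = y then (1 : ℝ) else 0) else 0) +
        (if x' = y then (if y' = x then (1 : ℝ) else 0) else 0)) +
      t ^ 3 * ((if x' = x then (1 : ℝ) else 0) + (if x' = y then (1 : ℝ) else 0) +
        (if y' = x then (1 : ℝ) else 0) + (if y' = y then (1 : ℝ) else 0)) + t ^ 4 := by
  obtain ⟨ha, hb, hc⟩ := card_pair_union x y x' y' hxy hxy'
  have i0 : ∀ p : Prop, [Decidable p] → 0 ≤ (if p then (1 : ℝ) else 0) := by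
    intro p _
    split_ifs <;> norm_num
  have i1 : 0 ≤ (if x' = x then (if y' = y then (1 : ℝ) else 0) else 0) := by
    split_ifs <;> norm_num
  have i2 : 0 ≤ (if x' = y then (if y' = x then (1 : ℝ) else 0) else 0) := by
    split_ifs <;> norm_num
  have t4 : 0 ≤ t ^ 4 := by positivity
  have t3 : 0 ≤ t ^ 3 := by positivity
  have t2 : 0 ≤ t ^ 2 := by positivity
  by_cases h1 : (x' = x ∧ y' = y) ∨ (x' = y ∧ y' = x)
  · have h2 : t ^ (({x, y} : Finset α) ∪ {x', y'}).card ≤ t ^ 2 := pow_le_pow_of_le_one ht0 ht1 ha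
    have h3 : 1 ≤ (if x' = x then (if y' = y then (1 : ℝ) else 0) else 0) +
        (if x' = y then (if y' = x then (1 : ℝ) else 0) else 0) := by
      rcases h1 with ⟨h4, h5⟩ | ⟨h4, h5⟩
      · rw [if_pos h4, if_pos h5]; linarith
      · rw [if_pos h4, if_pos h5]; linarith
    have h6 := mul_le_mul_of_nonneg_left h3 t2
    have h7 : 0 ≤ t ^ 3 * ((if x' = x then (1 : ℝ) else 0) + (if x' = y then (1 : ℝ) else 0) +
        (if y' = x then (1 : ℝ) else 0) + (if y' = y then (1 : ℝ) else 0)) := by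
      have := i0 (x' = x); have := i0 (x' = y); have := i0 (y' = x); have := i0 (y' = y)
      positivity
    linarith
  · have h6 : 0 ≤ t ^ 2 * ((if x' = x then (if y' = y then (1 : ℝ) else 0) else 0) +
        (if x' = y then (if y' = x then (1 : ℝ) else 0) else 0)) := by positivity
    by_cases h2 : x' = x ∨ x' = y ∨ y' = x ∨ y' = y
    · have h3 : t ^ (({x, y} : Finset α) ∪ {x', y'}).card ≤ t ^ 3 :=
        pow_le_pow_of_le_one ht0 ht1 (hb h1)
      have h4 : 1 ≤ (if x' = x then (1 : ℝ) else 0) + (if x' = y then (1 : ℝ) else 0) +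
        (if y' = x then (1 : ℝ) else 0) + (if y' = y then (1 : ℝ) else 0) := by
        have := i0 (x' = x); have := i0 (x' = y); have := i0 (y' = x); have := i0 (y' = y)
        rcases h2 with h5 | h5 | h5 | h5 <;> rw [if_pos h5] <;> linarith
      have h5 := mul_le_mul_of_nonneg_left h4 t3
      linarith
    · push Not at h2
      obtain ⟨a1, a2, a3, a4⟩ := h2
      have h3 : t ^ (({x, y} : Finset α) ∪ {x', y'}).card ≤ t ^ 4 :=
        pow_le_pow_of_le_one ht0 ht1 (hc a1 a2 a3 a4)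
      have h7 : 0 ≤ t ^ 3 * ((if x' = x then (1 : ℝ) else 0) + (if x' = y then (1 : ℝ) else 0) +
        (if y' = x then (1 : ℝ) else 0) + (if y' = y then (1 : ℝ) else 0)) := by
        have := i0 (x' = x); have := i0 (x' = y); have := i0 (y' = x); have := i0 (y' = y)
        positivity
      linarith

theorem second_moment_m5b (M : Finset α) (N : ℝ) (hN1 : 1 ≤ N)
    (hN : (M.card : ℝ) ≤ N) (ω : α → α → ℝ) (hω0 : ∀ x y, 0 ≤ ω x y)
    (hrow : ∀ x ∈ M, ∑ y ∈ M, ω x y ≤ 1) (hcol : ∀ y ∈ M, ∑ x ∈ M, ω x y ≤ 1)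
    (x y : α) (hx : x ∈ M) (hy : y ∈ M) (hxy : x ≠ y) (t : ℝ) (ht0 : 0 ≤ t) (ht1 : t ≤ 1)
    (ht2 : t ^ 2 = 1 / N) :
    ∑ x' ∈ M, ∑ y' ∈ M.erase x', ω x' y' * t ^ (({x, y} : Finset α) ∪ {x', y'}).card ≤ 7 * t ^ 2 := by
  have hN0 : 0 < N := by linarith
  have t4 : 0 ≤ t ^ 4 := by positivity
  have t3 : 0 ≤ t ^ 3 := by positivity
  have t2 : 0 ≤ t ^ 2 := by positivity
  let F : α → α → ℝ := fun x' y' => ω x' y' *
    (t ^ 2 * ((if x' = x then (if y' = y then (1 : ℝ) else 0) else 0) +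
        (if x' = y then (if y' = x then (1 : ℝ) else 0) else 0)) +
      t ^ 3 * ((if x' = x then (1 : ℝ) else 0) + (if x' = y then (1 : ℝ) else 0) +
        (if y' = x then (1 : ℝ) else 0) + (if y' = y then (1 : ℝ) else 0)) + t ^ 4)
  have hF0 : ∀ x' y', 0 ≤ F x' y' := by
    intro x' y'
    apply mul_nonneg (hω0 _ _)
    have i0 : ∀ p : Prop, [Decidable p] → 0 ≤ (if p then (1 : ℝ) else 0) := by
      intro p _
      split_ifs <;> norm_num
    have i1 : 0 ≤ (if x' = x then (if y' = y then (1 : ℝ) else 0) else 0) := by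
      split_ifs <;> norm_num
    have i2 : 0 ≤ (if x' = y then (if y' = x then (1 : ℝ) else 0) else 0) := by
      split_ifs <;> norm_num
    have := i0 (x' = x); have := i0 (x' = y); have := i0 (y' = x); have := i0 (y' = y)
    positivity
  have h1 : ∑ x' ∈ M, ∑ y' ∈ M.erase x', ω x' y' * t ^ (({x, y} : Finset α) ∪ {x', y'}).card ≤
      ∑ x' ∈ M, ∑ y' ∈ M, F x' y' := by
    apply Finset.sum_le_sum
    intro x' _
    calc _ ≤ ∑ y' ∈ M.erase x', F x' y' := by
          apply Finset.sum_le_sum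
          intro y' hy'
          apply mul_le_mul_of_nonneg_left _ (hω0 _ _)
          exact pow_pair_le t ht0 ht1 x y x' y' hxy (Finset.ne_of_mem_erase hy').symm
      _ ≤ _ := Finset.sum_le_sum_of_subset_of_nonneg (Finset.erase_subset _ _)
          (fun y' _ _ => hF0 x' y')
  refine h1.trans ?_
  have hw1 : ∀ a ∈ M, ∀ b ∈ M, ω a b ≤ 1 := fun a ha b hb =>
    (Finset.single_le_sum (fun c _ => hω0 a c) hb).trans (hrow a ha)
  have e1 : ∑ x' ∈ M, ∑ y' ∈ M, F x' y' =
      t ^ 2 * (ω x y + ω y x) +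
      t ^ 3 * (∑ y' ∈ M, ω x y' + ∑ y' ∈ M, ω y y' + ∑ x' ∈ M, ω x' x + ∑ x' ∈ M, ω x' y) +
      t ^ 4 * ∑ x' ∈ M, ∑ y' ∈ M, ω x' y' := by
    have s1 : ∀ a ∈ M, ∀ b ∈ M, ∑ x' ∈ M, ∑ y' ∈ M,
        ω x' y' * (if x' = a then (if y' = b then (1 : ℝ) else 0) else 0) = ω a b := by
      intro a ha b hb
      rw [Finset.sum_eq_single a, Finset.sum_eq_single b]
      · simp
      · intro c _ hc; simp [hc]
      · intro h; exact absurd hb h
      · intro c _ hc; simp [hc]
      · intro h; exact absurd ha h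
    have s2 : ∀ a ∈ M, ∑ x' ∈ M, ∑ y' ∈ M,
        ω x' y' * (if x' = a then (1 : ℝ) else 0) = ∑ y' ∈ M, ω a y' := by
      intro a ha
      rw [Finset.sum_eq_single a]
      · simp
      · intro c _ hc; simp [hc]
      · intro h; exact absurd ha h
    have s3 : ∀ a ∈ M, ∑ x' ∈ M, ∑ y' ∈ M,
        ω x' y' * (if y' = a then (1 : ℝ) else 0) = ∑ x' ∈ M, ω x' a := by
      intro a ha
      refine Finset.sum_congr rfl fun x' _ => ?_
      rw [Finset.sum_eq_single a]
      · simp
      · intro c _ hc; simp [hc]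
      · intro h; exact absurd ha h
    rw [← s1 x hx y hy, ← s1 y hy x hx, ← s2 x hx, ← s2 y hy, ← s3 x hx, ← s3 y hy]
    simp only [Finset.mul_sum, ← Finset.sum_add_distrib]
    refine Finset.sum_congr rfl fun x' _ => Finset.sum_congr rfl fun y' _ => ?_
    simp only [F]
    ring
  rw [e1]
  have b1 : ω x y + ω y x ≤ 2 := by
    have := hw1 x hx y hy; have := hw1 y hy x hx; linarith
  have b2 : ∑ y' ∈ M, ω x y' + ∑ y' ∈ M, ω y y' + ∑ x' ∈ M, ω x' x + ∑ x' ∈ M, ω x' y ≤ 4 := by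
    have := hrow x hx; have := hrow y hy; have := hcol x hx; have := hcol y hy; linarith
  have b3 : ∑ x' ∈ M, ∑ y' ∈ M, ω x' y' ≤ N := by
    calc _ ≤ ∑ _x' ∈ M, (1 : ℝ) := Finset.sum_le_sum (fun a ha => hrow a ha)
      _ = M.card := by simp
      _ ≤ N := hN
  have c1 := mul_le_mul_of_nonneg_left b1 t2
  have c2 := mul_le_mul_of_nonneg_left b2 t3
  have c3 := mul_le_mul_of_nonneg_left b3 t4
  have c4 : t ^ 3 ≤ t ^ 2 := pow_le_pow_of_le_one ht0 ht1 (by norm_num)
  have c5 : t ^ 4 * N = t ^ 2 := by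
    have : t ^ 4 = t ^ 2 * t ^ 2 := by ring
    rw [this, ht2]
    field_simp
  linarith

/-- two-round exposure of a fractional matching of pairs -/
theorem two_round {q : ℝ} (h0 : 0 ≤ q) (h1 : q ≤ 1) (M : Finset α) (N : ℝ) (hN1 : 1 ≤ N)
    (hN : (M.card : ℝ) ≤ N) (ω : α → α → ℝ) (hω0 : ∀ x y, 0 ≤ ω x y)
    (hrow : ∀ x ∈ M, ∑ y ∈ M, ω x y ≤ 1) (hcol : ∀ y ∈ M, ∑ x ∈ M, ω x y ≤ 1)
    (g : Finset α → ℝ) (hg : Monotone g) (hg0 : ∀ V, 0 ≤ g V) :
    1 / (8 * N) * ∑ x ∈ M, ∑ y ∈ M.erase x, ω x y * mu q M (fun V => g (insert x (insert y V)))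
      ≤ mu (Real.sqrt (1 / N)) M (fun V₁ => mu q M (fun V₂ => g (V₁ ∪ V₂))) := by
  have hN0 : 0 < N := by linarith
  set t := Real.sqrt (1 / N) with ht
  have ht0 : 0 ≤ t := Real.sqrt_nonneg _
  have ht2 : t ^ 2 = 1 / N := Real.sq_sqrt (by positivity)
  have ht1 : t ≤ 1 := by
    have h5 : (1 : ℝ) / N ≤ 1 := by
      rw [div_le_one hN0]; exact hN1
    calc t ≤ Real.sqrt 1 := Real.sqrt_le_sqrt h5
      _ = 1 := Real.sqrt_one
  let W : Finset α → ℝ := fun V => ∑ x ∈ M, ∑ y ∈ M.erase x,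
    ω x y * (if ({x, y} : Finset α) ⊆ V then (1 : ℝ) else 0)
  have hind0 : ∀ (T V : Finset α), 0 ≤ (if T ⊆ V then (1 : ℝ) else 0) := by
    intro T V; split_ifs <;> norm_num
  have hW0 : ∀ V, 0 ≤ W V := fun V => Finset.sum_nonneg fun x _ => Finset.sum_nonneg fun y _ =>
    mul_nonneg (hω0 _ _) (hind0 _ _)
  -- step 1
  have step1 : ∀ V₁ V₂ : Finset α,
      (∑ x ∈ M, ∑ y ∈ M.erase x, (ω x y * (if ({x, y} : Finset α) ⊆ V₁ then (1 : ℝ) else 0) *
        ((15 - W V₁) / 64)) * g (insert x (insert y V₂))) ≤ g (V₁ ∪ V₂) := by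
    intro V₁ V₂
    set A := ∑ x ∈ M, ∑ y ∈ M.erase x, (ω x y * (if ({x, y} : Finset α) ⊆ V₁ then (1 : ℝ) else 0)) *
        g (insert x (insert y V₂)) with hA
    have e1 : (∑ x ∈ M, ∑ y ∈ M.erase x, (ω x y * (if ({x, y} : Finset α) ⊆ V₁ then (1 : ℝ) else 0) *
        ((15 - W V₁) / 64)) * g (insert x (insert y V₂))) = ((15 - W V₁) / 64) * A := by
      rw [hA]
      simp only [Finset.mul_sum]
      refine Finset.sum_congr rfl fun x _ => Finset.sum_congr rfl fun y _ => ?_
      ring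
    have hA0 : 0 ≤ A := Finset.sum_nonneg fun x _ => Finset.sum_nonneg fun y _ =>
      mul_nonneg (mul_nonneg (hω0 _ _) (hind0 _ _)) (hg0 _)
    have hA1 : A ≤ W V₁ * g (V₁ ∪ V₂) := by
      rw [hA]
      simp only [W, Finset.sum_mul]
      refine Finset.sum_le_sum fun x _ => Finset.sum_le_sum fun y _ => ?_
      by_cases h2 : ({x, y} : Finset α) ⊆ V₁
      · apply mul_le_mul_of_nonneg_left _ (mul_nonneg (hω0 _ _) (hind0 _ _))
        apply hg
        intro z hz
        rw [Finset.mem_insert, Finset.mem_insert] at hz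
        rcases hz with hz | hz | hz
        · exact Finset.mem_union_left _ (h2 (by simp [hz]))
        · exact Finset.mem_union_left _ (h2 (by simp [hz]))
        · exact Finset.mem_union_right _ hz
      · rw [if_neg h2]; simp
    rw [e1]
    have hW := hW0 V₁
    have hgg := hg0 (V₁ ∪ V₂)
    rcases le_total 15 (W V₁) with h3 | h3
    · have : (15 - W V₁) / 64 * A ≤ 0 := by
        apply mul_nonpos_of_nonpos_of_nonneg _ hA0
        linarith
      linarith
    · have h4 : 0 ≤ (15 - W V₁) / 64 := by linarith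
      calc _ ≤ (15 - W V₁) / 64 * (W V₁ * g (V₁ ∪ V₂)) := mul_le_mul_of_nonneg_left hA1 h4
        _ = ((15 - W V₁) * W V₁ / 64) * g (V₁ ∪ V₂) := by ring
        _ ≤ 1 * g (V₁ ∪ V₂) := by
          apply mul_le_mul_of_nonneg_right _ hgg
          nlinarith [sq_nonneg (W V₁ - 15 / 2)]
        _ = _ := one_mul _
  -- step 2
  let η : α → α → ℝ := fun x y => mu q M (fun V => g (insert x (insert y V)))
  have hη0 : ∀ x y, 0 ≤ η x y := fun x y => mu_nonneg h0 h1 M (fun V _ => hg0 _)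
  have step2 : ∀ V₁ : Finset α,
      (∑ x ∈ M, ∑ y ∈ M.erase x, (ω x y * (if ({x, y} : Finset α) ⊆ V₁ then (1 : ℝ) else 0) *
        ((15 - W V₁) / 64)) * η x y) ≤ mu q M (fun V₂ => g (V₁ ∪ V₂)) := by
    intro V₁
    have h2 := mu_mono h0 h1 M (fun V₂ _ => step1 V₁ V₂)
    refine le_trans (le_of_eq ?_) h2
    rw [mu_sum]
    refine Finset.sum_congr rfl fun x _ => ?_
    rw [mu_sum]
    refine Finset.sum_congr rfl fun y _ => ?_
    rw [mu_const_mul]
  -- step 3
  have step3 : mu t M (fun V₁ => ∑ x ∈ M, ∑ y ∈ M.erase x,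
      (ω x y * (if ({x, y} : Finset α) ⊆ V₁ then (1 : ℝ) else 0) *
        ((15 - W V₁) / 64)) * η x y) ≤
      mu t M (fun V₁ => mu q M (fun V₂ => g (V₁ ∪ V₂))) :=
    mu_mono ht0 ht1 M (fun V₁ _ => step2 V₁)
  refine le_trans ?_ step3
  rw [mu_sum, Finset.mul_sum]
  refine Finset.sum_le_sum fun x hx => ?_
  rw [mu_sum, Finset.mul_sum]
  refine Finset.sum_le_sum fun y hy => ?_
  have hyM := Finset.mem_of_mem_erase hy
  have hxy : x ≠ y := (Finset.ne_of_mem_erase hy).symm
  have hxyM : ({x, y} : Finset α) ⊆ M := by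
    intro z hz
    rw [Finset.mem_insert, Finset.mem_singleton] at hz
    rcases hz with hz | hz <;> rw [hz] <;> assumption
  -- the integrand
  have e2 : ∀ V₁ : Finset α, (ω x y * (if ({x, y} : Finset α) ⊆ V₁ then (1 : ℝ) else 0) *
        ((15 - W V₁) / 64)) * η x y =
      (15 / 64 * (ω x y * η x y)) * (if ({x, y} : Finset α) ⊆ V₁ then (1 : ℝ) else 0) +
      (-(1 / 64) * (ω x y * η x y)) * ∑ x' ∈ M, ∑ y' ∈ M.erase x',
        ω x' y' * (if ({x, y} ∪ {x', y'} : Finset α) ⊆ V₁ then (1 : ℝ) else 0) := by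
    intro V₁
    have e3 : (if ({x, y} : Finset α) ⊆ V₁ then (1 : ℝ) else 0) * W V₁ =
        ∑ x' ∈ M, ∑ y' ∈ M.erase x',
        ω x' y' * (if ({x, y} ∪ {x', y'} : Finset α) ⊆ V₁ then (1 : ℝ) else 0) := by
      simp only [W, Finset.mul_sum]
      refine Finset.sum_congr rfl fun x' _ => Finset.sum_congr rfl fun y' _ => ?_
      by_cases h2 : ({x, y} : Finset α) ⊆ V₁
      · by_cases h3 : ({x', y'} : Finset α) ⊆ V₁
        · rw [if_pos h2, if_pos h3, if_pos (Finset.union_subset h2 h3)]; ring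
        · rw [if_pos h2, if_neg h3, if_neg (fun h => h3 (Finset.union_subset_iff.1 h).2)]; ring
      · rw [if_neg h2, if_neg (fun h => h2 (Finset.union_subset_iff.1 h).1)]; ring
    rw [← e3]
    ring
  have e4 : mu t M (fun V₁ => (ω x y * (if ({x, y} : Finset α) ⊆ V₁ then (1 : ℝ) else 0) *
        ((15 - W V₁) / 64)) * η x y) =
      (15 / 64 * (ω x y * η x y)) * t ^ 2 + (-(1 / 64) * (ω x y * η x y)) *
        ∑ x' ∈ M, ∑ y' ∈ M.erase x', ω x' y' * t ^ (({x, y} : Finset α) ∪ {x', y'}).card := by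
    simp only [e2]
    rw [mu_add, mu_const_mul, mu_const_mul, mu_ind t M _ hxyM, Finset.card_pair hxy, mu_sum]
    congr 2
    refine Finset.sum_congr rfl fun x' hx' => ?_
    rw [mu_sum]
    refine Finset.sum_congr rfl fun y' hy' => ?_
    rw [mu_const_mul, mu_ind t M]
    apply Finset.union_subset hxyM
    intro z hz
    rw [Finset.mem_insert, Finset.mem_singleton] at hz
    rcases hz with hz | hz <;> rw [hz]
    · exact hx'
    · exact Finset.mem_of_mem_erase hy'
  rw [e4]
  have h7 := second_moment_m5b M N hN1 hN ω hω0 hrow hcol x y hx hyM hxy t ht0 ht1 ht2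
  have h8 : 0 ≤ ω x y * η x y := mul_nonneg (hω0 _ _) (hη0 _ _)
  have h9 := mul_le_mul_of_nonneg_left h7 (by positivity : 0 ≤ 1 / 64 * (ω x y * η x y))
  have h10 : 1 / (8 * N) * (ω x y * η x y) = 1 / 8 * (ω x y * η x y) * t ^ 2 := by
    rw [ht2]; field_simp
  show 1 / (8 * N) * (ω x y * η x y) ≤ _
  rw [h10]
  nlinarith

end UF
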