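import Pool.Agent.UF.Base

set_option autoImplicit false
set_option linter.unusedSectionVars false
set_option linter.unusedVariables false
open Finset

namespace UF
variable {α : Type*} [Fintype α] [DecidableEq α]

/-- comparison principle for the down-solver -/
theorem Ds_le {k s X : Finset α → ℝ} {Q₀ : Finset α} (hk : ∀ Q, k Q ≤ 1)
    (hX : ∀ Q, Q ⊆ Q₀ → s Q + (1 - k Q) * Dn X Q ≤ X Q) : Ds k s Q₀ ≤ X Q₀ := by
  induction Q₀ using Finset.strongInduction with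
  | H Q ih =>
    rw [Ds_eq]
    refine le_trans ?_ (hX Q (Finset.Subset.refl _))
    have h1 : Dn (Ds k s) Q ≤ Dn X Q := Dn_mono fun y hy =>
      ih (Q.erase y) (Finset.erase_ssubset hy) fun R hR => hX R (hR.trans (Finset.erase_subset _ _))
    have h2 : 0 ≤ 1 - k Q := sub_nonneg.2 (hk Q)
    have h3 := mul_le_mul_of_nonneg_left h1 h2
    linarith

theorem le_Ds {k s X : Finset α → ℝ} {Q₀ : Finset α} (hk : ∀ Q, k Q ≤ 1)
    (hX : ∀ Q, Q ⊆ Q₀ → X Q ≤ s Q + (1 - k Q) * Dn X Q) : X Q₀ ≤ Ds k s Q₀ := by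
  induction Q₀ using Finset.strongInduction with
  | H Q ih =>
    rw [Ds_eq]
    refine le_trans (hX Q (Finset.Subset.refl _)) ?_
    have h1 : Dn X Q ≤ Dn (Ds k s) Q := Dn_mono fun y hy =>
      ih (Q.erase y) (Finset.erase_ssubset hy) fun R hR => hX R (hR.trans (Finset.erase_subset _ _))
    have h2 : 0 ≤ 1 - k Q := sub_nonneg.2 (hk Q)
    have h3 := mul_le_mul_of_nonneg_left h1 h2
    linarith

theorem compl_insert_card_lt {P : Finset α} {w : α} (hw : w ∉ P) :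
    (insert w P)ᶜ.card < Pᶜ.card := by
  apply Finset.card_lt_card
  rw [Finset.ssubset_iff_subset_ne]
  refine ⟨Finset.compl_subset_compl.2 (Finset.subset_insert _ _), fun h => ?_⟩
  have h1 : w ∈ (insert w P)ᶜ := by rw [h]; simpa using hw
  simp at h1

/-- comparison principle for the up-solver -/
theorem Us_le {k s X : Finset α → ℝ} {P₀ : Finset α} (hk : ∀ Q, k Q ≤ 1)
    (hX : ∀ P, P₀ ⊆ P → s P + (1 - k P) * Up X P ≤ X P) : Us k s P₀ ≤ X P₀ := by
  have key : ∀ n : ℕ, ∀ P : Finset α, Pᶜ.card = n →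
      (∀ R, P ⊆ R → s R + (1 - k R) * Up X R ≤ X R) → Us k s P ≤ X P := by
    intro n
    induction n using Nat.strong_induction_on with
    | _ n ih =>
      intro P hP hX
      rw [Us_eq]
      refine le_trans ?_ (hX P (Finset.Subset.refl _))
      have h1 : Up (Us k s) P ≤ Up X P := Up_mono fun w hw =>
        ih _ (hP ▸ compl_insert_card_lt hw) (insert w P) rfl fun R hR =>
          hX R ((Finset.subset_insert _ _).trans hR)
      have h2 : 0 ≤ 1 - k P := sub_nonneg.2 (hk P)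
      have h3 := mul_le_mul_of_nonneg_left h1 h2
      linarith
  exact key _ P₀ rfl hX

theorem le_Us {k s X : Finset α → ℝ} {P₀ : Finset α} (hk : ∀ Q, k Q ≤ 1)
    (hX : ∀ P, P₀ ⊆ P → X P ≤ s P + (1 - k P) * Up X P) : X P₀ ≤ Us k s P₀ := by
  have key : ∀ n : ℕ, ∀ P : Finset α, Pᶜ.card = n →
      (∀ R, P ⊆ R → X R ≤ s R + (1 - k R) * Up X R) → X P ≤ Us k s P := by
    intro n
    induction n using Nat.strong_induction_on with
    | _ n ih =>
      intro P hP hX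
      rw [Us_eq]
      refine le_trans (hX P (Finset.Subset.refl _)) ?_
      have h1 : Up X P ≤ Up (Us k s) P := Up_mono fun w hw =>
        ih _ (hP ▸ compl_insert_card_lt hw) (insert w P) rfl fun R hR =>
          hX R ((Finset.subset_insert _ _).trans hR)
      have h2 : 0 ≤ 1 - k P := sub_nonneg.2 (hk P)
      have h3 := mul_le_mul_of_nonneg_left h1 h2
      linarith
  exact key _ P₀ rfl hX

theorem Ds_nonneg {k s : Finset α → ℝ} (hk : ∀ Q, k Q ≤ 1) (hs : ∀ Q, 0 ≤ s Q) (Q : Finset α) :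
    0 ≤ Ds k s Q := by
  refine le_Ds (X := fun _ => 0) hk fun Q _ => ?_
  exact add_nonneg (hs Q) (mul_nonneg (sub_nonneg.2 (hk Q)) (Dn_nonneg fun _ _ => le_rfl))

theorem Us_nonneg {k s : Finset α → ℝ} (hk : ∀ Q, k Q ≤ 1) (hs : ∀ Q, 0 ≤ s Q) (P : Finset α) :
    0 ≤ Us k s P := by
  refine le_Us (X := fun _ => 0) hk fun Q _ => ?_
  exact add_nonneg (hs Q) (mul_nonneg (sub_nonneg.2 (hk Q)) (Up_nonneg fun _ _ => le_rfl))

theorem Ds_le_one {k s : Finset α → ℝ} (hk : ∀ Q, k Q ≤ 1) (hs : ∀ Q, s Q ≤ k Q)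
    (Q : Finset α) : Ds k s Q ≤ 1 := by
  refine Ds_le (X := fun _ => 1) hk fun Q _ => ?_
  have h1 : Dn (fun _ => (1:ℝ)) Q ≤ 1 := Dn_le_of_le zero_le_one fun _ _ => le_rfl
  have h2 : 0 ≤ 1 - k Q := sub_nonneg.2 (hk Q)
  have h3 := mul_le_mul_of_nonneg_left h1 h2
  have h4 := hs Q
  show s Q + (1 - k Q) * Dn (fun _ => (1:ℝ)) Q ≤ 1
  linarith

theorem Us_le_one {k s : Finset α → ℝ} (hk : ∀ Q, k Q ≤ 1) (hs : ∀ Q, s Q ≤ k Q)
    (P : Finset α) : Us k s P ≤ 1 := by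
  refine Us_le (X := fun _ => 1) hk fun Q _ => ?_
  have h1 : Up (fun _ => (1:ℝ)) Q ≤ 1 := Up_le_of_le zero_le_one fun _ _ => le_rfl
  have h2 : 0 ≤ 1 - k Q := sub_nonneg.2 (hk Q)
  have h3 := mul_le_mul_of_nonneg_left h1 h2
  have h4 := hs Q
  show s Q + (1 - k Q) * Up (fun _ => (1:ℝ)) Q ≤ 1
  linarith

theorem Us_mono {k s s' : Finset α → ℝ} (hk : ∀ Q, k Q ≤ 1) (hs : ∀ Q, s Q ≤ s' Q)
    (P : Finset α) : Us k s P ≤ Us k s' P := by
  refine Us_le (X := Us k s') hk fun Q _ => ?_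
  rw [Us_eq k s' Q]
  have := hs Q
  linarith

theorem Ds_mono {k s s' : Finset α → ℝ} (hk : ∀ Q, k Q ≤ 1) (hs : ∀ Q, s Q ≤ s' Q)
    (Q : Finset α) : Ds k s Q ≤ Ds k s' Q := by
  refine Ds_le (X := Ds k s') hk fun Q _ => ?_
  rw [Ds_eq k s' Q]
  have := hs Q
  linarith

end UF
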