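import Pool.Agent.UF.Base
import Pool.Agent.UF.Jo1

set_option autoImplicit false
set_option linter.unusedSectionVars false
set_option linter.unusedVariables false
open Finset

namespace UF
variable {α : Type*} [Fintype α] [DecidableEq α]

theorem Us_unique_aux {k s X : Finset α → ℝ} (hX : ∀ P, X P = s P + (1 - k P) * Up X P) :
    ∀ (n : ℕ) (P : Finset α), Pᶜ.card = n → X P = Us k s P := by
  intro n
  induction n using Nat.strong_induction_on with
  | _ n ih =>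
    intro P hP
    rw [hX P, Us_eq k s P]
    congr 2
    refine Up_congr fun w hw => ?_
    have hw' : w ∈ Pᶜ := by simpa using hw
    have hc : (insert w P)ᶜ = Pᶜ.erase w := by
      ext a; simp
    refine ih ((insert w P)ᶜ.card) ?_ _ rfl
    rw [hc, ← hP]
    exact Finset.card_erase_lt_of_mem hw'

theorem Us_unique {k s X : Finset α → ℝ} (hX : ∀ P, X P = s P + (1 - k P) * Up X P)
    (P : Finset α) : X P = Us k s P := Us_unique_aux hX _ P rfl

theorem Us_sum {ι : Type*} (k : Finset α → ℝ) (t : Finset ι) (s : ι → Finset α → ℝ)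
    (P : Finset α) : Us k (fun Q => ∑ i ∈ t, s i Q) P = ∑ i ∈ t, Us k (s i) P := by
  refine (Us_unique (k := k) (s := fun Q => ∑ i ∈ t, s i Q)
    (X := fun P => ∑ i ∈ t, Us k (s i) P) (fun P => ?_) P).symm
  show ∑ i ∈ t, Us k (s i) P = ∑ i ∈ t, s i P + (1 - k P) * Up (fun Q => ∑ i ∈ t, Us k (s i) Q) P
  rw [Up_sum t (fun i => Us k (s i)) P, Finset.mul_sum, ← Finset.sum_add_distrib]
  exact Finset.sum_congr rfl fun i _ => Us_eq k (s i) P

theorem Us_add (k s s' : Finset α → ℝ) (P : Finset α) :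
    Us k (fun Q => s Q + s' Q) P = Us k s P + Us k s' P := by
  refine (Us_unique (k := k) (s := fun Q => s Q + s' Q)
    (X := fun P => Us k s P + Us k s' P) (fun P => ?_) P).symm
  show Us k s P + Us k s' P = s P + s' P + (1 - k P) * Up (fun Q => Us k s Q + Us k s' Q) P
  rw [Up_add (Us k s) (Us k s') P, Us_eq k s P, Us_eq k s' P]
  ring

theorem Us_const_mul (k s : Finset α → ℝ) (c : ℝ) (P : Finset α) :
    Us k (fun Q => c * s Q) P = c * Us k s P := by
  refine (Us_unique (k := k) (s := fun Q => c * s Q)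
    (X := fun P => c * Us k s P) (fun P => ?_) P).symm
  show c * Us k s P = c * s P + (1 - k P) * Up (fun Q => c * Us k s Q) P
  rw [Up_const_mul c (Us k s) P, Us_eq k s P]
  ring

theorem rho_nonneg {f : Finset α → ℝ} (hf0 : ∀ Q, 0 ≤ f Q) (hf1 : ∀ Q, f Q ≤ 1)
    (z : Finset α → α) {χ : ℕ → ℝ} (hχ0 : ∀ s, 0 ≤ χ s) (x : α) (Q : Finset α) :
    0 ≤ rho f z χ x Q := by
  refine Us_nonneg hf1 (fun Q => ?_) Q
  show 0 ≤ (if z Q = x then f Q * χ Q.card else 0)
  split_ifs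
  · exact mul_nonneg (hf0 _) (hχ0 _)
  · exact le_rfl

theorem sum_rho (f : Finset α → ℝ) (z : Finset α → α) (χ : ℕ → ℝ) (Q : Finset α) :
    ∑ x, rho f z χ x Q = Us f (fun Q => f Q * χ Q.card) Q := by
  unfold rho
  rw [← Us_sum f univ (fun x => fun Q => if z Q = x then f Q * χ Q.card else 0) Q]
  congr 1
  funext Q
  simp

theorem psi_add_Uout (f : Finset α → ℝ) (z : Finset α → α) (χ : ℕ → ℝ) (Q : Finset α) :
    psi f z χ Q + Uout f z χ Q = Us f (fun Q => f Q * χ Q.card) Q := by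
  unfold psi Uout
  rw [Finset.sum_add_sum_compl, sum_rho]

theorem sum_rho_le_one {f : Finset α → ℝ} (hf0 : ∀ Q, 0 ≤ f Q) (hf1 : ∀ Q, f Q ≤ 1)
    (z : Finset α → α) {χ : ℕ → ℝ} (hχ0 : ∀ s, 0 ≤ χ s) (hχ1 : ∀ s, χ s ≤ 1)
    (S : Finset α) (Q : Finset α) : ∑ x ∈ S, rho f z χ x Q ≤ 1 := by
  calc ∑ x ∈ S, rho f z χ x Q ≤ ∑ x, rho f z χ x Q :=
        Finset.sum_le_sum_of_subset_of_nonneg (Finset.subset_univ _)
          (fun x _ _ => rho_nonneg hf0 hf1 z hχ0 x Q)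
    _ = Us f (fun Q => f Q * χ Q.card) Q := sum_rho f z χ Q
    _ ≤ 1 := Us_le_one hf1 (fun Q => by
        show f Q * χ Q.card ≤ f Q
        exact mul_le_of_le_one_right (hf0 Q) (hχ1 _)) Q

theorem rho_mono {f : Finset α → ℝ} (hf0 : ∀ Q, 0 ≤ f Q) (hf1 : ∀ Q, f Q ≤ 1)
    (z : Finset α → α) {χ χ' : ℕ → ℝ} (hχ : ∀ s, χ s ≤ χ' s) (x : α) (Q : Finset α) :
    rho f z χ x Q ≤ rho f z χ' x Q := by
  refine Us_mono hf1 (fun Q => ?_) Q
  show (if z Q = x then f Q * χ Q.card else 0) ≤ (if z Q = x then f Q * χ' Q.card else 0)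
  split_ifs
  · exact mul_le_mul_of_nonneg_left (hχ _) (hf0 _)
  · exact le_rfl

end UF
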