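import Pool.Agent.UF.Base
import Pool.Agent.UF.Jo2

set_option autoImplicit false
set_option linter.unusedSectionVars false
set_option linter.unusedVariables false
open Finset

namespace UF
variable {α : Type*} [Fintype α] [DecidableEq α]

/-- `b ≥ (1-f) Ub` for `b = 1 - psi` -/
theorem one_sub_psi_ge {f : Finset α → ℝ} (hf0 : ∀ Q, 0 ≤ f Q) (hf1 : ∀ Q, f Q ≤ 1)
    (z : Finset α → α) {χ : ℕ → ℝ} (hχ0 : ∀ s, 0 ≤ χ s) (hχ1 : ∀ s, χ s ≤ 1)
    (Q : Finset α) :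
    (1 - f Q) * Up (fun R => 1 - psi f z χ R) Q ≤ 1 - psi f z χ Q := by
  by_cases hQ : Q = univ
  · subst hQ
    rw [Up_univ, mul_zero]
    have := sum_rho_le_one hf0 hf1 z hχ0 hχ1 (univ : Finset α) (univ : Finset α)
    unfold psi
    linarith
  · rw [Up_one_sub hQ]
    have e1 : psi f z χ Q = (∑ x ∈ Q, (if z Q = x then f Q * χ Q.card else 0))
        + (1 - f Q) * ∑ x ∈ Q, Up (rho f z χ x) Q := by
      unfold psi
      rw [Finset.mul_sum, ← Finset.sum_add_distrib]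
      refine Finset.sum_congr rfl fun x _ => ?_
      unfold rho
      rw [Us_eq]
    have e2 : (∑ x ∈ Q, (if z Q = x then f Q * χ Q.card else 0)) ≤ f Q := by
      rw [Finset.sum_ite_eq]
      split_ifs
      · have := hf0 Q
        have := hχ1 Q.card
        nlinarith
      · exact hf0 Q
    have e3 : ∑ x ∈ Q, Up (rho f z χ x) Q ≤ Up (psi f z χ) Q := by
      rw [← Up_sum]
      refine Up_mono fun w hw => ?_
      unfold psi
      exact Finset.sum_le_sum_of_subset_of_nonneg (Finset.subset_insert w Q)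
        fun x _ _ => rho_nonneg hf0 hf1 z hχ0 x _
    have e4 : 0 ≤ 1 - f Q := sub_nonneg.2 (hf1 Q)
    have e5 := mul_le_mul_of_nonneg_left e3 e4
    rw [e1]
    nlinarith

theorem psi_nonneg {f : Finset α → ℝ} (hf0 : ∀ Q, 0 ≤ f Q) (hf1 : ∀ Q, f Q ≤ 1)
    (z : Finset α → α) {χ : ℕ → ℝ} (hχ0 : ∀ s, 0 ≤ χ s) (Q : Finset α) :
    0 ≤ psi f z χ Q := by
  unfold psi
  exact Finset.sum_nonneg fun x _ => rho_nonneg hf0 hf1 z hχ0 x Q

theorem Rh_nonneg {f : Finset α → ℝ} (hf0 : ∀ Q, 0 ≤ f Q) (hf1 : ∀ Q, f Q ≤ 1)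
    (z : Finset α → α) {χ : ℕ → ℝ} (hχ0 : ∀ s, 0 ≤ χ s) (P : Finset α) :
    0 ≤ Rh f z χ P := by
  unfold Rh
  exact div_nonneg (Finset.sum_nonneg fun x _ => rho_nonneg hf0 hf1 z hχ0 x _) (by positivity)

end UF
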