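import Pool.Agent.UF.Base
import Pool.Agent.UF.Jo2

set_option autoImplicit false
set_option linter.unusedSectionVars false
set_option linter.unusedVariables false
open Finset

namespace UF
variable {α : Type*} [Fintype α] [DecidableEq α]

/-- below the block `Rh` is a submartingale going up -/
theorem Rh_le_Up {f : Finset α → ℝ} (hf0 : ∀ Q, 0 ≤ f Q) (hf1 : ∀ Q, f Q ≤ 1)
    (z : Finset α → α) {χ : ℕ → ℝ} (hχ0 : ∀ s, 0 ≤ χ s) (P : Finset α)
    (hP : χ (P.card + 1) = 0) :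
    Rh f z χ P ≤ Up (Rh f z χ) P := by
  by_cases hPu : Pᶜ.card = 0
  · have hP' : Pᶜ = ∅ := Finset.card_eq_zero.1 hPu
    unfold Rh Up
    rw [hP']; simp
  have key : ∀ x ∈ Pᶜ, rho f z χ x (insert x P)
      ≤ (∑ w ∈ (insert x P)ᶜ, rho f z χ x (insert w (insert x P))) / ((Pᶜ.card - 1 : ℕ) : ℝ) := by
    intro x hx
    have hx' : x ∉ P := by simpa using hx
    have hc : (insert x P)ᶜ.card = Pᶜ.card - 1 := by
      rw [Finset.card_compl, Finset.card_insert_of_notMem hx', Finset.card_compl]; omega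
    have h1 : rho f z χ x (insert x P) = (1 - f (insert x P)) * Up (rho f z χ x) (insert x P) := by
      unfold rho
      rw [Us_eq]
      rw [Finset.card_insert_of_notMem hx', hP]
      simp
    have h2 : 0 ≤ Up (rho f z χ x) (insert x P) :=
      Up_nonneg fun w _ => rho_nonneg hf0 hf1 z hχ0 x _
    rw [h1]
    have h3 : Up (rho f z χ x) (insert x P)
        = (∑ w ∈ (insert x P)ᶜ, rho f z χ x (insert w (insert x P))) / ((Pᶜ.card - 1 : ℕ) : ℝ) := by
      unfold Up; rw [hc]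
    rw [← h3]
    nlinarith [hf0 (insert x P)]
  have hsw : ∑ x ∈ Pᶜ, ∑ w ∈ (insert x P)ᶜ, rho f z χ x (insert w (insert x P))
      = ∑ w ∈ Pᶜ, ∑ x ∈ (insert w P)ᶜ, rho f z χ x (insert x (insert w P)) := by
    have e : ∑ x ∈ Pᶜ, ∑ w ∈ (insert x P)ᶜ, rho f z χ x (insert w (insert x P))
        = ∑ w ∈ Pᶜ, ∑ x ∈ (insert w P)ᶜ, rho f z χ x (insert w (insert x P)) := by
      apply Finset.sum_comm'
      intro x w
      simp only [Finset.mem_compl, Finset.mem_insert, not_or]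
      constructor
      · rintro ⟨h1, h2, h3⟩; exact ⟨⟨fun h => h2 h.symm, h1⟩, h3⟩
      · rintro ⟨⟨h1, h2⟩, h3⟩; exact ⟨h2, fun h => h1 h.symm, h3⟩
    rw [e]
    refine Finset.sum_congr rfl fun w _ => ?_
    refine Finset.sum_congr rfl fun x _ => ?_
    rw [Finset.insert_comm w x P]
  have hU : Up (Rh f z χ) P
      = ((∑ w ∈ Pᶜ, ∑ x ∈ (insert w P)ᶜ, rho f z χ x (insert x (insert w P)))
          / ((Pᶜ.card - 1 : ℕ) : ℝ)) / (Pᶜ.card : ℝ) := by
    have e : (∑ w ∈ Pᶜ, Rh f z χ (insert w P))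
        = (∑ w ∈ Pᶜ, ∑ x ∈ (insert w P)ᶜ, rho f z χ x (insert x (insert w P)))
          / ((Pᶜ.card - 1 : ℕ) : ℝ) := by
      rw [Finset.sum_div]
      refine Finset.sum_congr rfl fun w hw => ?_
      have hw' : w ∉ P := by simpa using hw
      have hc : (insert w P)ᶜ.card = Pᶜ.card - 1 := by
        rw [Finset.card_compl, Finset.card_insert_of_notMem hw', Finset.card_compl]; omega
      unfold Rh
      rw [hc]
    unfold Up
    rw [e]
  rw [hU, ← hsw, Finset.sum_div]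
  unfold Rh
  apply div_le_div_of_nonneg_right _ (by positivity)
  exact Finset.sum_le_sum key

theorem dom_step {f : Finset α → ℝ} (hf0 : ∀ Q, 0 ≤ f Q) (hf1 : ∀ Q, f Q ≤ 1)
    (z : Finset α → α) {χ : ℕ → ℝ} (hχ0 : ∀ s, 0 ≤ χ s) {q : ℕ} (hq : q < Fintype.card α)
    (hχq : χ (q + 1) = 0) (h : Finset α → ℝ) (hh0 : ∀ Q, 0 ≤ h Q) (hh : ∀ Q, Dn h Q ≤ h Q)
    (a : ℝ) :
    Ev q (fun P => h P * max (Rh f z χ P - a) 0)
      ≤ Ev (q + 1) (fun P => h P * max (Rh f z χ P - a) 0) := by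
  have hstep : Ev q (fun P => h P * max (Rh f z χ P - a) 0)
      ≤ Ev q (fun P => h P * Up (fun Q => max (Rh f z χ Q - a) 0) P) := by
    refine Ev_mono fun P hPc => ?_
    apply mul_le_mul_of_nonneg_left _ (hh0 P)
    have hPu : P ≠ univ := by
      rintro rfl
      rw [Finset.card_univ] at hPc; omega
    apply max_le
    · have h1 : Rh f z χ P ≤ Up (Rh f z χ) P :=
        Rh_le_Up hf0 hf1 z hχ0 P (by rw [hPc]; exact hχq)
      have h2 : Up (fun Q => Rh f z χ Q - a) P = Up (Rh f z χ) P - a := by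
        rw [Up_sub (Rh f z χ) (fun _ => a) P, Up_const hPu]
      have h3 : Up (fun Q => Rh f z χ Q - a) P ≤ Up (fun Q => max (Rh f z χ Q - a) 0) P :=
        Up_mono fun w _ => le_max_left _ _
      linarith
    · exact Up_nonneg fun w _ => le_max_right _ _
  refine hstep.trans ?_
  rw [Ev_Up_mul hq h (fun Q => max (Rh f z χ Q - a) 0)]
  exact Ev_mono fun Q _ => mul_le_mul_of_nonneg_right (hh Q) (le_max_right _ _)

/-- domination: all levels below the block can be moved up to one level `t` -/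
theorem domination {f : Finset α → ℝ} (hf0 : ∀ Q, 0 ≤ f Q) (hf1 : ∀ Q, f Q ≤ 1)
    (z : Finset α → α) {χ : ℕ → ℝ} (hχ0 : ∀ s, 0 ≤ χ s) {q t : ℕ} (hqt : q ≤ t)
    (ht : t ≤ Fintype.card α) (hχq : ∀ s, q < s → s ≤ t → χ s = 0)
    (h : Finset α → ℝ) (hh0 : ∀ Q, 0 ≤ h Q) (hh : ∀ Q, Dn h Q ≤ h Q) (a : ℝ) :
    Ev q (fun P => h P * max (Rh f z χ P - a) 0)
      ≤ Ev t (fun P => h P * max (Rh f z χ P - a) 0) := by
  induction t, hqt using Nat.le_induction with
  | base => exact le_rfl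
  | succ t hqt ih =>
    refine (ih (by omega) (fun s hs hst => hχq s hs (by omega))).trans ?_
    exact dom_step hf0 hf1 z hχ0 (by omega) (hχq (t + 1) (by omega) le_rfl) h hh0 hh a

end UF
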