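import Pool.Agent.UF.Base
import Pool.Agent.UF.Jo1

set_option autoImplicit false
set_option linter.unusedSectionVars false
set_option linter.unusedVariables false
open Finset

namespace UF
variable {α : Type*} [Fintype α] [DecidableEq α]

/-- cap -/
noncomputable def capf (θ x : ℝ) : ℝ := min 1 (x / θ)

theorem drop_step {f : Finset α → ℝ} (hf0 : ∀ Q, 0 ≤ f Q) (hf1 : ∀ Q, f Q ≤ 1)
    (b : Finset α → ℝ) (hb0 : ∀ Q, 0 ≤ b Q)
    (hb : ∀ Q, (1 - f Q) * Up b Q ≤ b Q) {θ : ℝ} (hθ : 0 < θ) {t : ℕ}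
    (ht : t < Fintype.card α) :
    9 * Ev t (fun P => if Up b P ≤ θ then
        (1 - Ds f f P) * Up (fun R => if 10 * θ ≤ b R then (1 : ℝ) else 0) P else 0)
      + Ev (t + 1) (fun P => (1 - Dn (Ds f f) P) * capf θ (b P))
      ≤ Ev t (fun P => (1 - Dn (Ds f f) P) * capf θ (b P)) := by
  have hH1 : ∀ Q, Ds f f Q ≤ 1 := fun Q => Ds_le_one hf1 (fun Q => le_rfl) Q
  have hDH1 : ∀ Q, Dn (Ds f f) Q ≤ 1 := fun Q => Dn_le_of_le zero_le_one (fun y _ => hH1 _)
  have hU0 : ∀ Q, 0 ≤ Up b Q := fun Q => Up_nonneg (fun w _ => hb0 _)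
  have e1 : Ev (t + 1) (fun P => (1 - Dn (Ds f f) P) * capf θ (b P))
      = Ev t (fun P => (1 - Ds f f P) * Up (fun R => capf θ (b R)) P) := by
    rw [Ev_Up_mul ht]
    refine Ev_congr fun Q hQ => ?_
    rw [Dn_one_sub]
    rintro rfl
    simp at hQ
  rw [e1, ← Ev_const_mul, ← Ev_add]
  refine Ev_mono fun P hP => ?_
  have hPu : P ≠ univ := by
    rintro rfl
    rw [Finset.card_univ] at hP
    omega
  have hH : 1 - Ds f f P = (1 - f P) * (1 - Dn (Ds f f) P) := by
    rw [Ds_eq]; ring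
  have hH0 : 0 ≤ 1 - Ds f f P := by linarith [hH1 P]
  -- lower bound for the right side
  have hr : (1 - Ds f f P) * capf θ (Up b P) ≤ (1 - Dn (Ds f f) P) * capf θ (b P) := by
    have h1 : (1 - f P) * capf θ (Up b P) ≤ capf θ (b P) := by
      unfold capf
      apply le_min
      · have h2 : min 1 (Up b P / θ) ≤ 1 := min_le_left _ _
        have h3 : 0 ≤ min 1 (Up b P / θ) := le_min zero_le_one (div_nonneg (hU0 P) hθ.le)
        nlinarith [hf0 P, hf1 P]
      · have h2 : min 1 (Up b P / θ) ≤ Up b P / θ := min_le_right _ _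
        have h3 : (1 - f P) * min 1 (Up b P / θ) ≤ (1 - f P) * (Up b P / θ) :=
          mul_le_mul_of_nonneg_left h2 (by linarith [hf1 P])
        refine h3.trans ?_
        rw [← mul_div_assoc]
        exact div_le_div_of_nonneg_right (hb P) hθ.le
    rw [hH]
    have h4 : 0 ≤ 1 - Dn (Ds f f) P := by linarith [hDH1 P]
    calc (1 - f P) * (1 - Dn (Ds f f) P) * capf θ (Up b P)
        = (1 - Dn (Ds f f) P) * ((1 - f P) * capf θ (Up b P)) := by ring
      _ ≤ _ := mul_le_mul_of_nonneg_left h1 h4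
  refine le_trans ?_ hr
  by_cases hc : Up b P ≤ θ
  · rw [if_pos hc]
    have h5 : capf θ (Up b P) = Up b P / θ := by
      unfold capf
      apply min_eq_right
      rwa [div_le_one hθ]
    rw [h5]
    have h6 : 9 * Up (fun R => if 10 * θ ≤ b R then (1 : ℝ) else 0) P + Up (fun R => capf θ (b R)) P
        ≤ Up b P / θ := by
      rw [← Up_const_mul, ← Up_add]
      have h7 : Up b P / θ = Up (fun R => (1 / θ) * b R) P := by
        rw [Up_const_mul]; ring
      rw [h7]
      refine Up_mono fun w _ => ?_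
      have h8 : (1 / θ) * b (insert w P) = b (insert w P) / θ := by ring
      rw [h8]
      by_cases h9 : 10 * θ ≤ b (insert w P)
      · rw [if_pos h9]
        have h10 : capf θ (b (insert w P)) ≤ 1 := min_le_left _ _
        have h11 : 10 ≤ b (insert w P) / θ := by rwa [le_div_iff₀ hθ]
        linarith
      · rw [if_neg h9]
        have h10 : capf θ (b (insert w P)) ≤ b (insert w P) / θ := min_le_right _ _
        linarith
    calc 9 * ((1 - Ds f f P) * Up (fun R => if 10 * θ ≤ b R then (1 : ℝ) else 0) P)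
          + (1 - Ds f f P) * Up (fun R => capf θ (b R)) P
        = (1 - Ds f f P) * (9 * Up (fun R => if 10 * θ ≤ b R then (1 : ℝ) else 0) P
          + Up (fun R => capf θ (b R)) P) := by ring
      _ ≤ _ := mul_le_mul_of_nonneg_left h6 hH0
  · rw [if_neg hc, mul_zero, zero_add]
    have h5 : capf θ (Up b P) = 1 := by
      unfold capf
      apply min_eq_left
      rw [le_div_iff₀ hθ]
      linarith
    rw [h5]
    apply mul_le_mul_of_nonneg_left _ hH0
    exact Up_le_of_le zero_le_one (fun w _ => min_le_left _ _)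

/-- drop lemma: `b` with `b ≥ (1-f) Ub`; the total probability of a step from `Ub ≤ θ` to
`b ≥ 10 θ` along a window of levels is at most `E[(1-DH) b]/(9 θ)` -/
theorem drop_lemma {f : Finset α → ℝ} (hf0 : ∀ Q, 0 ≤ f Q) (hf1 : ∀ Q, f Q ≤ 1)
    (b : Finset α → ℝ) (hb0 : ∀ Q, 0 ≤ b Q) (hb1 : ∀ Q, b Q ≤ 1)
    (hb : ∀ Q, (1 - f Q) * Up b Q ≤ b Q) {θ : ℝ} (hθ : 0 < θ) {t₁ w : ℕ}
    (htw : t₁ + w ≤ Fintype.card α) :
    ∑ t ∈ Ico t₁ (t₁ + w), Ev t (fun P => if Up b P ≤ θ then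
        (1 - Ds f f P) * Up (fun R => if 10 * θ ≤ b R then (1 : ℝ) else 0) P else 0)
      ≤ 1 / (9 * θ) * Ev t₁ (fun P => (1 - Dn (Ds f f) P) * b P) := by
  have hH1 : ∀ Q, Ds f f Q ≤ 1 := fun Q => Ds_le_one hf1 (fun Q => le_rfl) Q
  have hDH1 : ∀ Q, Dn (Ds f f) Q ≤ 1 := fun Q => Dn_le_of_le zero_le_one (fun y _ => hH1 _)
  have key : ∀ v : ℕ, v ≤ w → 9 * ∑ t ∈ Ico t₁ (t₁ + v), Ev t (fun P => if Up b P ≤ θ then
        (1 - Ds f f P) * Up (fun R => if 10 * θ ≤ b R then (1 : ℝ) else 0) P else 0)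
      + Ev (t₁ + v) (fun P => (1 - Dn (Ds f f) P) * capf θ (b P))
      ≤ Ev t₁ (fun P => (1 - Dn (Ds f f) P) * capf θ (b P)) := by
    intro v
    induction v with
    | zero => intro _; simp
    | succ v ih =>
      intro hv
      have h1 := ih (by omega)
      have h2 := drop_step hf0 hf1 b hb0 hb hθ (t := t₁ + v) (by omega)
      rw [← add_assoc, Finset.sum_Ico_succ_top (by omega), mul_add]
      linarith
  have h1 := key w le_rfl
  have h2 : 0 ≤ Ev (t₁ + w) (fun P => (1 - Dn (Ds f f) P) * capf θ (b P)) := by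
    refine Ev_nonneg fun P _ => ?_
    apply mul_nonneg (by linarith [hDH1 P])
    exact le_min zero_le_one (div_nonneg (hb0 P) hθ.le)
  have h3 : Ev t₁ (fun P => (1 - Dn (Ds f f) P) * capf θ (b P))
      ≤ 1 / θ * Ev t₁ (fun P => (1 - Dn (Ds f f) P) * b P) := by
    rw [← Ev_const_mul]
    refine Ev_mono fun P _ => ?_
    have h4 : capf θ (b P) ≤ b P / θ := min_le_right _ _
    have h5 : 0 ≤ 1 - Dn (Ds f f) P := by linarith [hDH1 P]
    calc (1 - Dn (Ds f f) P) * capf θ (b P) ≤ (1 - Dn (Ds f f) P) * (b P / θ) :=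
          mul_le_mul_of_nonneg_left h4 h5
      _ = _ := by ring
  have h6 : 1 / (9 * θ) * Ev t₁ (fun P => (1 - Dn (Ds f f) P) * b P)
      = (1 / θ * Ev t₁ (fun P => (1 - Dn (Ds f f) P) * b P)) / 9 := by
    field_simp
  rw [h6]
  linarith

end UF
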