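import Pool.Agent.UF.Base
import Pool.Agent.UF.Jo1

set_option autoImplicit false
set_option linter.unusedSectionVars false
set_option linter.unusedVariables false
open Finset

namespace UF
variable {α : Type*} [Fintype α] [DecidableEq α]

/-- `U^i v ≤ v + P(next hit within i levels)`, `v = 1-u` -/
theorem Up_iter_v_le {f : Finset α → ℝ} (hf0 : ∀ Q, 0 ≤ f Q) (hf1 : ∀ Q, f Q ≤ 1)
    (T : Finset α) (i : ℕ) (hi : T.card + i ≤ Fintype.card α) :
    (Up^[i] (fun Q => 1 - Us f f Q)) T
      ≤ (1 - Us f f T) + Us f (fun Q => f Q * (if Q.card < T.card + i then 1 else 0)) T := by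
  induction i generalizing T with
  | zero =>
    simp only [Function.iterate_zero, id_eq]
    have h0 : 0 ≤ Us f (fun Q => f Q * (if Q.card < T.card + 0 then 1 else 0)) T := by
      apply Us_nonneg hf1
      intro Q
      apply mul_nonneg (hf0 Q)
      split_ifs <;> norm_num
    linarith
  | succ i ih =>
    rw [Function.iterate_succ_apply']
    have hT : T ≠ univ := by
      rintro rfl
      rw [Finset.card_univ] at hi
      omega
    set s : Finset α → ℝ := fun Q => f Q * (if Q.card < T.card + (i + 1) then 1 else 0) with hs
    have h1 : Up (Up^[i] (fun Q => 1 - Us f f Q)) T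
        ≤ Up (fun Q => (1 - Us f f Q) + Us f s Q) T := by
      apply Up_mono
      intro w hw
      have hc : (insert w T).card = T.card + 1 := Finset.card_insert_of_notMem hw
      have h2 := ih (insert w T) (by rw [hc]; omega)
      have h3 : (fun Q : Finset α => f Q * (if Q.card < (insert w T).card + i then (1:ℝ) else 0))
          = s := by
        rw [hs, hc]
        have : T.card + 1 + i = T.card + (i + 1) := by omega
        rw [this]
      rw [h3] at h2
      exact h2
    rw [Up_add, Up_one_sub hT] at h1
    have hsT : s T = f T := by
      rw [hs]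
      have : T.card < T.card + (i + 1) := by omega
      simp [this]
    have hle : Up (Us f s) T ≤ Up (Us f f) T := by
      apply Up_mono
      intro w _
      apply Us_mono hf1
      intro Q
      rw [hs]
      dsimp only
      split_ifs
      · rw [mul_one]
      · rw [mul_zero]; exact hf0 Q
    have e1 := Us_eq f f T
    have e2 := Us_eq f s T
    rw [hsT] at e2
    have hprod : 0 ≤ f T * (Up (Us f f) T - Up (Us f s) T) :=
      mul_nonneg (hf0 T) (by linarith)
    rw [e1, e2]
    have h1' : Up (Up^[i] (fun Q => 1 - Us f f Q)) T
        ≤ 1 - Up (Us f f) T + Up (Us f s) T := h1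
    nlinarith [h1', hprod]

end UF
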