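import Pool.Agent.UF.Base
import Pool.Agent.UF.Jo2

set_option autoImplicit false
set_option linter.unusedSectionVars false
set_option linter.unusedVariables false
open Finset

namespace UF
variable {α : Type*} [Fintype α] [DecidableEq α]

theorem Up_iter_mem_aux (g : Finset α → ℝ) {x : α} (j : ℕ) : ∀ {S : Finset α}, x ∈ S →
    (Up^[j] (fun Y => if x ∈ Y then g Y else 0)) S = (Up^[j] g) S := by
  induction j with
  | zero =>
    intro S hS
    simp [hS]
  | succ j ih =>
    intro S hS
    rw [Function.iterate_succ_apply', Function.iterate_succ_apply']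
    apply Up_congr
    intro w hw
    exact ih (Finset.mem_insert_of_mem hS)

/-- prescribing that `x` is among the added elements -/
theorem Up_iter_insert (g : Finset α → ℝ) {x : α} {T : Finset α} (hx : x ∉ T) (j : ℕ)
    (hj : T.card + j + 1 ≤ Fintype.card α) :
    (Up^[j + 1] (fun Y => if x ∈ Y then g Y else 0)) T
      = ((j : ℝ) + 1) / ((Fintype.card α : ℝ) - T.card) * (Up^[j] g) (insert x T) := by
  induction j generalizing T with
  | zero =>
    have hN : ((Tᶜ.card : ℕ) : ℝ) = (Fintype.card α : ℝ) - T.card := by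
      rw [Finset.card_compl, Nat.cast_sub (Finset.card_le_univ T)]
    rw [Function.iterate_succ_apply', Function.iterate_zero]
    simp only [id]
    unfold Up
    rw [hN]
    have hsum : ∑ w ∈ Tᶜ, (if x ∈ insert w T then g (insert w T) else 0) = g (insert x T) := by
      rw [Finset.sum_eq_single x]
      · simp
      · intro w hw hwx
        have : x ∉ insert w T := by
          simp [hx, Ne.symm hwx]
        simp [this]
      · intro h
        exact absurd (by simpa using hx) h
    rw [hsum]
    simp [div_eq_mul_inv, mul_comm]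
  | succ j ih =>
    have hN : ((Tᶜ.card : ℕ) : ℝ) = (Fintype.card α : ℝ) - T.card := by
      rw [Finset.card_compl, Nat.cast_sub (Finset.card_le_univ T)]
    have hN2 : (2 : ℝ) ≤ (Fintype.card α : ℝ) - T.card := by
      have : T.card + 2 ≤ Fintype.card α := by omega
      have h' : ((T.card + 2 : ℕ) : ℝ) ≤ (Fintype.card α : ℝ) := by exact_mod_cast this
      push_cast at h'
      linarith
    rw [Function.iterate_succ_apply']
    set F : Finset α → ℝ := fun Y => if x ∈ Y then g Y else 0 with hF
    have hstep : Up (Up^[j + 1] F) T =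
        (∑ w ∈ Tᶜ, (Up^[j + 1] F) (insert w T)) / ((Fintype.card α : ℝ) - T.card) := by
      rw [Up, hN]
    rw [hstep]
    have hxT : x ∈ Tᶜ := by simpa using hx
    rw [← Finset.add_sum_erase _ _ hxT, Up_iter_mem_aux g (j + 1) (Finset.mem_insert_self x T)]
    have hc : Tᶜ.erase x = (insert x T)ᶜ := by
      ext a; simp
    have h2 : ∀ w ∈ Tᶜ.erase x, (Up^[j + 1] F) (insert w T) =
        ((j : ℝ) + 1) / ((Fintype.card α : ℝ) - T.card - 1) *
          (Up^[j] g) (insert w (insert x T)) := by
      intro w hw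
      rw [Finset.mem_erase, Finset.mem_compl] at hw
      have hx' : x ∉ insert w T := by
        simp [hx, Ne.symm hw.1]
      rw [ih hx' (by rw [Finset.card_insert_of_notMem hw.2]; omega),
        Finset.card_insert_of_notMem hw.2, Finset.insert_comm]
      push_cast
      ring
    rw [Finset.sum_congr rfl h2, ← Finset.mul_sum, hc]
    have h3 : ∑ w ∈ (insert x T)ᶜ, (Up^[j] g) (insert w (insert x T)) =
        ((Fintype.card α : ℝ) - T.card - 1) * (Up^[j + 1] g) (insert x T) := by
      rw [Function.iterate_succ_apply', Up, Finset.card_compl, Finset.card_insert_of_notMem hx,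
        Nat.cast_sub (by omega)]
      push_cast
      have : (Fintype.card α : ℝ) - (T.card + 1) ≠ 0 := by
        have : (0:ℝ) < (Fintype.card α : ℝ) - (T.card + 1) := by linarith
        exact this.ne'
      field_simp
      ring
    rw [h3]
    have h4 : (Fintype.card α : ℝ) - T.card - 1 ≠ 0 := by
      have : (0:ℝ) < (Fintype.card α : ℝ) - T.card - 1 := by linarith
      exact this.ne'
    have h5 : (Fintype.card α : ℝ) - T.card ≠ 0 := by
      have : (0:ℝ) < (Fintype.card α : ℝ) - T.card := by linarith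
      exact this.ne'
    push_cast
    field_simp
    ring

theorem Up_iter_sum_aux {ι : Type*} (s : Finset ι) (j : ℕ) :
    ∀ (g : ι → Finset α → ℝ) (P : Finset α),
      (Up^[j] (fun Q => ∑ i ∈ s, g i Q)) P = ∑ i ∈ s, (Up^[j] (g i)) P := by
  induction j with
  | zero => intro g P; simp
  | succ j ih =>
    intro g P
    rw [Function.iterate_succ_apply']
    have : Up^[j] (fun Q => ∑ i ∈ s, g i Q) = fun Q => ∑ i ∈ s, (Up^[j] (g i)) Q := by
      funext Q
      exact ih g Q
    rw [this, Up_sum]
    refine Finset.sum_congr rfl fun i _ => ?_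
    rw [Function.iterate_succ_apply']

theorem Up_iter_le_one_aux (j : ℕ) : ∀ (g : Finset α → ℝ), (∀ Q, g Q ≤ 1) →
    ∀ P, (Up^[j] g) P ≤ 1 := by
  induction j with
  | zero => intro g hg P; simpa using hg P
  | succ j ih =>
    intro g hg P
    rw [Function.iterate_succ_apply']
    exact Up_le_of_le zero_le_one fun w _ => ih g hg _

/-- exchangeability bound: if `χ` vanishes below level `s₀` then
`∑_{x ∉ P} rho x (P+x) ≤ (n-p)/(s₀-p)` -/
theorem Rbar_bound {f : Finset α → ℝ} (hf0 : ∀ Q, 0 ≤ f Q) (hf1 : ∀ Q, f Q ≤ 1)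
    (z : Finset α → α) {χ : ℕ → ℝ} (hχ0 : ∀ s, 0 ≤ χ s) (hχ1 : ∀ s, χ s ≤ 1)
    {s₀ : ℕ} (hs₀ : ∀ s, s < s₀ → χ s = 0) (hs₀n : s₀ ≤ Fintype.card α)
    (P : Finset α) (hP : P.card < s₀) :
    ∑ x ∈ Pᶜ, rho f z χ x (insert x P)
      ≤ ((Fintype.card α : ℝ) - P.card) / ((s₀ : ℝ) - P.card) := by
  have hstep : ∀ (x : α) (Y : Finset α), Y.card < s₀ →
      rho f z χ x Y ≤ Up (rho f z χ x) Y := by
    intro x Y hY
    have h0 : 0 ≤ Up (rho f z χ x) Y :=
      Up_nonneg fun w _ => rho_nonneg hf0 hf1 z hχ0 x _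
    have h1 : rho f z χ x Y = (1 - f Y) * Up (rho f z χ x) Y := by
      conv_lhs => rw [rho, Us_eq]
      rw [hs₀ _ hY]
      simp [rho]
    rw [h1]
    have := hf0 Y
    nlinarith
  have hiter : ∀ (i : ℕ) (x : α) (Y : Finset α), Y.card + i ≤ s₀ →
      rho f z χ x Y ≤ (Up^[i] (rho f z χ x)) Y := by
    intro i
    induction i with
    | zero => intro x Y _; simp
    | succ i ih =>
      intro x Y hY
      rw [Function.iterate_succ_apply']
      refine le_trans (hstep x Y (by omega)) (Up_mono fun w hw => ih x _ ?_)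
      rw [Finset.card_insert_of_notMem hw]
      omega
  obtain ⟨i, hi⟩ : ∃ i, s₀ = P.card + i + 1 := ⟨s₀ - P.card - 1, by omega⟩
  have hsp : (s₀ : ℝ) - P.card = (i : ℝ) + 1 := by
    rw [hi]; push_cast; ring
  have hNpos : (0 : ℝ) < (Fintype.card α : ℝ) - P.card := by
    have : P.card < Fintype.card α := by omega
    have h' : (P.card : ℝ) < (Fintype.card α : ℝ) := by exact_mod_cast this
    linarith
  have hbound : ∀ x ∈ Pᶜ, rho f z χ x (insert x P) ≤
      ((Fintype.card α : ℝ) - P.card) / ((s₀ : ℝ) - P.card) *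
        (Up^[i + 1] (fun Y => if x ∈ Y then rho f z χ x Y else 0)) P := by
    intro x hx
    have hx' : x ∉ P := by simpa using hx
    have h1 := hiter i x (insert x P) (by rw [Finset.card_insert_of_notMem hx']; omega)
    rw [Up_iter_insert (rho f z χ x) hx' i (by omega), hsp]
    have hi1 : (0 : ℝ) < (i : ℝ) + 1 := by positivity
    have : ((Fintype.card α : ℝ) - P.card) / ((i : ℝ) + 1) *
        (((i : ℝ) + 1) / ((Fintype.card α : ℝ) - P.card) *
          (Up^[i] (rho f z χ x)) (insert x P)) = (Up^[i] (rho f z χ x)) (insert x P) := by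
      field_simp
    rw [this]
    exact h1
  refine le_trans (Finset.sum_le_sum hbound) ?_
  rw [← Finset.mul_sum, ← Up_iter_sum_aux]
  have hle : (Up^[i + 1] (fun Q => ∑ x ∈ Pᶜ, if x ∈ Q then rho f z χ x Q else 0)) P ≤ 1 := by
    apply Up_iter_le_one_aux
    intro Q
    rw [← Finset.sum_filter]
    exact sum_rho_le_one hf0 hf1 z hχ0 hχ1 _ Q
  have hnn : 0 ≤ ((Fintype.card α : ℝ) - P.card) / ((s₀ : ℝ) - P.card) := by
    rw [hsp]
    positivity
  calc _ ≤ ((Fintype.card α : ℝ) - P.card) / ((s₀ : ℝ) - P.card) * 1 :=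
        mul_le_mul_of_nonneg_left hle hnn
    _ = _ := mul_one _

end UF
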