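import Pool.Agent.UF.Base

set_option autoImplicit false
set_option linter.unusedSectionVars false
set_option linter.unusedVariables false
open Finset

namespace UF
variable {α : Type*} [Fintype α] [DecidableEq α]

theorem dbl_sum (p : ℕ) (Φ : Finset α → α → ℝ) :
    ∑ P ∈ powersetCard p (univ : Finset α), ∑ w ∈ Pᶜ, Φ P w
      = ∑ Q ∈ powersetCard (p + 1) (univ : Finset α), ∑ y ∈ Q, Φ (Q.erase y) y := by
  rw [Finset.sum_sigma', Finset.sum_sigma']
  refine Finset.sum_bij' (fun a _ => ⟨insert a.2 a.1, a.2⟩) (fun a _ => ⟨a.1.erase a.2, a.2⟩)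
    ?_ ?_ ?_ ?_ ?_
  · rintro ⟨P, w⟩ h
    simp only [Finset.mem_sigma, Finset.mem_powersetCard, Finset.mem_compl] at h ⊢
    refine ⟨⟨Finset.subset_univ _, ?_⟩, Finset.mem_insert_self _ _⟩
    rw [Finset.card_insert_of_notMem h.2, h.1.2]
  · rintro ⟨Q, y⟩ h
    simp only [Finset.mem_sigma, Finset.mem_powersetCard, Finset.mem_compl] at h ⊢
    refine ⟨⟨Finset.subset_univ _, ?_⟩, Finset.notMem_erase _ _⟩
    rw [Finset.card_erase_of_mem h.2, h.1.2]; rfl
  · rintro ⟨P, w⟩ h
    simp only [Finset.mem_sigma, Finset.mem_powersetCard, Finset.mem_compl] at h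
    simp [Finset.erase_insert h.2]
  · rintro ⟨Q, y⟩ h
    simp only [Finset.mem_sigma, Finset.mem_powersetCard] at h
    simp [Finset.insert_erase h.2]
  · rintro ⟨P, w⟩ h
    simp only [Finset.mem_sigma, Finset.mem_powersetCard, Finset.mem_compl] at h
    simp [Finset.erase_insert h.2]

theorem dbl_sum2 (p : ℕ) (Φ : Finset α → α → α → ℝ) :
    ∑ P ∈ powersetCard p (univ : Finset α), ∑ x ∈ Pᶜ, ∑ y ∈ Pᶜ.erase x, Φ P x y
      = ∑ T ∈ powersetCard (p + 2) (univ : Finset α),
          ∑ x ∈ T, ∑ y ∈ T.erase x, Φ ((T.erase x).erase y) x y := by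
  rw [dbl_sum p (fun P x => ∑ y ∈ Pᶜ.erase x, Φ P x y)]
  have e1 : ∀ Q ∈ powersetCard (p + 1) (univ : Finset α),
      ∑ x ∈ Q, ∑ y ∈ (Q.erase x)ᶜ.erase x, Φ (Q.erase x) x y
        = ∑ y ∈ Qᶜ, ∑ x ∈ Q, Φ (Q.erase x) x y := by
    intro Q _
    rw [Finset.sum_comm]
    refine Finset.sum_congr rfl fun x hx => ?_
    refine Finset.sum_congr ?_ fun y _ => rfl
    ext a
    simp only [Finset.mem_erase, Finset.mem_compl, not_and]
    constructor
    · rintro ⟨h1, h2⟩; exact h2 h1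
    · intro h
      exact ⟨fun h3 => h (h3 ▸ hx), fun _ => h⟩
  rw [Finset.sum_congr rfl e1, dbl_sum (p + 1) (fun Q y => ∑ x ∈ Q, Φ (Q.erase x) x y)]
  refine Finset.sum_congr rfl fun T _ => ?_
  rw [Finset.sum_comm' (s' := fun x => T.erase x) (t' := T)]
  · refine Finset.sum_congr rfl fun x _ => Finset.sum_congr rfl fun y _ => ?_
    rw [Finset.erase_right_comm]
  · intro x y
    simp only [Finset.mem_erase]
    tauto

/-- double counting of pairs -/
theorem Ev_double2 {p : ℕ} (hp : p + 2 ≤ Fintype.card α) (Φ : Finset α → α → α → ℝ) :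
    Ev p (fun P => ∑ x ∈ Pᶜ, ∑ y ∈ Pᶜ.erase x, Φ P x y)
        / (((Fintype.card α : ℝ) - p) * ((Fintype.card α : ℝ) - p - 1))
      = Ev (p + 2) (fun T => ∑ x ∈ T, ∑ y ∈ T.erase x, Φ ((T.erase x).erase y) x y)
        / (((p : ℝ) + 2) * ((p : ℝ) + 1)) := by
  unfold Ev
  rw [dbl_sum2, div_div, div_div]
  congr 1
  have h1 : ((Fintype.card α).choose (p + 1) : ℝ) * (p + 1)
      = (Fintype.card α).choose p * ((Fintype.card α : ℝ) - p) := by
    have h := Nat.choose_succ_right_eq (Fintype.card α) p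
    have h' := congrArg (Nat.cast (R := ℝ)) h
    rw [Nat.cast_mul, Nat.cast_mul, Nat.cast_sub (by omega)] at h'
    push_cast at h'
    exact h'
  have h2 : ((Fintype.card α).choose (p + 2) : ℝ) * (p + 2)
      = (Fintype.card α).choose (p + 1) * ((Fintype.card α : ℝ) - p - 1) := by
    have h := Nat.choose_succ_right_eq (Fintype.card α) (p + 1)
    have h' := congrArg (Nat.cast (R := ℝ)) h
    rw [Nat.cast_mul, Nat.cast_mul, Nat.cast_sub (by omega)] at h'
    push_cast at h'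
    rw [show p + 2 = p + 1 + 1 from rfl]
    linarith
  calc ((Fintype.card α).choose p : ℝ) * (((Fintype.card α : ℝ) - p) * ((Fintype.card α : ℝ) - p - 1))
      = ((Fintype.card α).choose p * ((Fintype.card α : ℝ) - p)) * ((Fintype.card α : ℝ) - p - 1) := by
        ring
    _ = ((Fintype.card α).choose (p + 1) * ((Fintype.card α : ℝ) - p - 1)) * (p + 1) := by
        rw [← h1]; ring
    _ = (Fintype.card α).choose (p + 2) * (((p : ℝ) + 2) * ((p : ℝ) + 1)) := by
        rw [← h2]; ring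

end UF
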