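import Pool.Agent.UF.Base

set_option autoImplicit false
set_option linter.unusedSectionVars false
set_option linter.unusedVariables false
open Finset

namespace UF
variable {α : Type*} [Fintype α] [DecidableEq α]

theorem sum_pos_part_range {a : ℝ} (ha : 0 < a) (J : ℕ) : ∀ R : ℝ, 0 ≤ R →
    ∑ j ∈ range J, max (R - a * ((j + 1 : ℕ) : ℝ)) 0 ≤ R ^ 2 / (2 * a) := by
  induction J with
  | zero =>
    intro R _
    simp
    positivity
  | succ J ih =>
    intro R hR
    rw [Finset.sum_range_succ']
    rcases le_or_gt a R with h | h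
    · have h1 := ih (R - a) (by linarith)
      have h2 : ∑ j ∈ range J, max (R - a * ((j + 1 + 1 : ℕ) : ℝ)) 0
          = ∑ j ∈ range J, max (R - a - a * ((j + 1 : ℕ) : ℝ)) 0 := by
        apply Finset.sum_congr rfl
        intro j _
        congr 1
        push_cast
        ring
      rw [h2]
      have h3 : max (R - a * ((0 + 1 : ℕ) : ℝ)) 0 = R - a := by
        push_cast
        rw [mul_one]
        exact max_eq_left (by linarith)
      rw [h3]
      have h4 : (R - a) ^ 2 / (2 * a) + (R - a) ≤ R ^ 2 / (2 * a) := by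
        have h5 : (R - a) ^ 2 / (2 * a) + (R - a) = R ^ 2 / (2 * a) - a / 2 := by
          field_simp
          ring
        rw [h5]
        linarith
      linarith
    · have h1 : ∀ j : ℕ, max (R - a * ((j + 1 : ℕ) : ℝ)) 0 = 0 := by
        intro j
        apply max_eq_right
        push_cast
        have : (0 : ℝ) ≤ a * j := by positivity
        nlinarith
      rw [Finset.sum_eq_zero (fun j _ => h1 (j + 1)), h1 0, zero_add]
      positivity

theorem sum_pos_part {R a : ℝ} (hR : 0 ≤ R) (ha : 0 < a) (J : ℕ) :
    ∑ j ∈ Icc 1 J, max (R - a * j) 0 ≤ R ^ 2 / (2 * a) := by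
  have h : ∑ j ∈ Icc 1 J, max (R - a * j) 0
      = ∑ j ∈ range J, max (R - a * ((j + 1 : ℕ) : ℝ)) 0 := by
    induction J with
    | zero => simp
    | succ J ih =>
      rw [Finset.sum_Icc_succ_top (by omega), Finset.sum_range_succ, ih]
  rw [h]
  exact sum_pos_part_range ha J R hR

end UF
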