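import Pool.Agent.UF.Base

set_option autoImplicit false
set_option linter.unusedSectionVars false
set_option linter.unusedVariables false
open Finset

namespace UF
variable {α : Type*} [Fintype α] [DecidableEq α]

/-- `E_t[(1-DH)(1-u)]` does not depend on `t` -/
theorem nu_identity (f : Finset α → ℝ) {t : ℕ} (ht : t ≤ Fintype.card α) :
    Ev t (fun P => (1 - Dn (Ds f f) P) * (1 - Us f f P)) = 1 - Ds f f (univ : Finset α) := by
  have key : ∀ k t : ℕ, t + k = Fintype.card α →
      Ev t (fun P => (1 - Dn (Ds f f) P) * (1 - Us f f P)) = 1 - Ds f f (univ : Finset α) := by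
    intro k
    induction k with
    | zero =>
      intro t ht
      rw [Nat.add_zero] at ht
      subst ht
      rw [Ev_top, Us_eq f f univ, Up_univ, Ds_eq f f univ]
      ring
    | succ k ih =>
      intro t ht
      have hlt : t < Fintype.card α := by omega
      rw [← ih (t + 1) (by omega)]
      have e1 : Ev t (fun P => (1 - Dn (Ds f f) P) * (1 - Us f f P)) =
          Ev t (fun P => (fun P => 1 - Ds f f P) P * Up (fun Q => 1 - Us f f Q) P) := by
        refine Ev_congr fun P hP => ?_
        have hPu : P ≠ univ := by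
          rintro rfl
          rw [Finset.card_univ] at hP
          omega
        rw [Up_one_sub hPu]
        have h1 := Us_eq f f P
        have h2 := Ds_eq f f P
        have h3 : 1 - Us f f P = (1 - f P) * (1 - Up (Us f f) P) := by rw [h1]; ring
        have h4 : 1 - Ds f f P = (1 - f P) * (1 - Dn (Ds f f) P) := by rw [h2]; ring
        show (1 - Dn (Ds f f) P) * (1 - Us f f P) = (1 - Ds f f P) * (1 - Up (Us f f) P)
        rw [h3, h4]
        ring
      rw [e1, Ev_Up_mul hlt]
      refine Ev_congr fun Q hQ => ?_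
      have hQe : Q ≠ ∅ := by
        rintro rfl
        simp at hQ
      rw [Dn_one_sub hQe]
  exact key (Fintype.card α - t) t (by omega)

/-- expected number of hits minus probability of a hit (down version) -/
theorem T_identity (f : Finset α → ℝ) :
    ∑ p ∈ range (Fintype.card α + 1), Ev p f
      - ∑ p ∈ range (Fintype.card α + 1), Ev p (fun P => f P * Dn (Ds f f) P)
      = Ds f f (univ : Finset α) := by
  rw [← Finset.sum_sub_distrib]
  have e1 : ∀ p, Ev p f - Ev p (fun P => f P * Dn (Ds f f) P) =
      Ev p (Ds f f) - Ev p (Dn (Ds f f)) := by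
    intro p
    have h1 := Ev_sub p f (fun P => f P * Dn (Ds f f) P)
    have h2 := Ev_sub p (Ds f f) (Dn (Ds f f))
    rw [← h1, ← h2]
    refine Ev_congr fun P _ => ?_
    rw [Ds_eq f f P]
    ring
  rw [Finset.sum_congr rfl fun p _ => e1 p, Finset.sum_range_succ']
  have e2 : ∑ k ∈ range (Fintype.card α), (Ev (k + 1) (Ds f f) - Ev (k + 1) (Dn (Ds f f))) =
      ∑ k ∈ range (Fintype.card α), (Ev (k + 1) (Ds f f) - Ev k (Ds f f)) := by
    refine Finset.sum_congr rfl fun k hk => ?_
    rw [Ev_Dn (Finset.mem_range.1 hk)]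
  rw [e2, Finset.sum_range_sub (fun k => Ev k (Ds f f)), Ev_top, Ev_zero, Ev_zero, Dn_empty]
  ring

/-- expected number of hits minus probability of a hit (up version) -/
theorem T_identity_up (f : Finset α → ℝ) :
    ∑ p ∈ range (Fintype.card α + 1), Ev p f
      - ∑ p ∈ range (Fintype.card α + 1), Ev p (fun P => f P * Up (Us f f) P)
      = Us f f (∅ : Finset α) := by
  rw [← Finset.sum_sub_distrib]
  have e1 : ∀ p, Ev p f - Ev p (fun P => f P * Up (Us f f) P) =
      Ev p (Us f f) - Ev p (Up (Us f f)) := by
    intro p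
    have h1 := Ev_sub p f (fun P => f P * Up (Us f f) P)
    have h2 := Ev_sub p (Us f f) (Up (Us f f))
    rw [← h1, ← h2]
    refine Ev_congr fun P _ => ?_
    rw [Us_eq f f P]
    ring
  rw [Finset.sum_congr rfl fun p _ => e1 p, Finset.sum_range_succ]
  have e2 : ∑ k ∈ range (Fintype.card α), (Ev k (Us f f) - Ev k (Up (Us f f))) =
      ∑ k ∈ range (Fintype.card α), (Ev k (Us f f) - Ev (k + 1) (Us f f)) := by
    refine Finset.sum_congr rfl fun k hk => ?_
    rw [Ev_Up (Finset.mem_range.1 hk)]
  rw [e2, Finset.sum_range_sub' (fun k => Ev k (Us f f)), Ev_top, Ev_top, Ev_zero, Up_univ]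
  ring

theorem G_eq_up (f : Finset α → ℝ) :
    ∑ p ∈ range (Fintype.card α + 1), Ev p (fun P => f P * Dn (Ds f f) P)
      = ∑ p ∈ range (Fintype.card α + 1), Ev p (fun P => f P * Up (Us f f) P) := by
  have h1 := T_identity f
  have h2 := T_identity_up f
  have h3 := nu_identity f (Nat.zero_le (Fintype.card α))
  rw [Ev_zero, Dn_empty] at h3
  linarith

end UF
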