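import Pool.Agent.UF.Base
import Pool.Agent.UF.Jo2

set_option autoImplicit false
set_option linter.unusedSectionVars false
set_option linter.unusedVariables false
open Finset

namespace UF
variable {α : Type*} [Fintype α] [DecidableEq α]

theorem J4781_psi {f : Finset α → ℝ} (z : Finset α → α) (χ : ℕ → ℝ)
    (hz : ∀ C, f C ≠ 0 → z C ∈ C) (Q : Finset α) :
    psi f z χ Q = f Q * χ Q.card + (1 - f Q) * ∑ x ∈ Q, Up (rho f z χ x) Q := by
  unfold psi
  have h1 : ∀ x ∈ Q, rho f z χ x Q = (if z Q = x then f Q * χ Q.card else 0) +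
      (1 - f Q) * Up (rho f z χ x) Q := fun x _ => Us_eq f _ Q
  rw [Finset.sum_congr rfl h1, Finset.sum_add_distrib, ← Finset.mul_sum, Finset.sum_ite_eq]
  congr 1
  by_cases hf : f Q = 0
  · rw [hf]; simp
  · rw [if_pos (hz Q hf)]

theorem J4781_Up_psi (f : Finset α → ℝ) (z : Finset α → α) (χ : ℕ → ℝ) (Q : Finset α) :
    Up (psi f z χ) Q = Rh f z χ Q + ∑ x ∈ Q, Up (rho f z χ x) Q := by
  have h1 : ∀ w ∈ Qᶜ, psi f z χ (insert w Q) = rho f z χ w (insert w Q) +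
      ∑ x ∈ Q, rho f z χ x (insert w Q) := by
    intro w hw
    unfold psi
    rw [Finset.sum_insert (Finset.mem_compl.1 hw)]
  have h2 : ∑ x ∈ Q, Up (rho f z χ x) Q =
      (∑ w ∈ Qᶜ, ∑ x ∈ Q, rho f z χ x (insert w Q)) / (Qᶜ.card : ℝ) := by
    unfold Up
    rw [Finset.sum_comm, Finset.sum_div]
  rw [h2, Rh, ← add_div, ← Finset.sum_add_distrib, Up, Finset.sum_congr rfl h1]

/-- one step of the telescoping identity for `E_t[psi DH]` -/
theorem psi_block_step {f : Finset α → ℝ} (z : Finset α → α) (χ : ℕ → ℝ)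
    (hz : ∀ C, f C ≠ 0 → z C ∈ C) {t : ℕ} (ht : t < Fintype.card α) :
    Ev t (fun Q => psi f z χ Q * Dn (Ds f f) Q)
      = Ev t (fun Q => f Q * χ Q.card * Dn (Ds f f) Q)
        + Ev (t + 1) (fun Q => psi f z χ Q * Dn (Ds f f) Q)
        - Ev t (fun Q => Ds f f Q * Rh f z χ Q)
        - Ev t (fun Q => f Q * ∑ x ∈ Q, Up (rho f z χ x) Q) := by
  have h1 : Ev (t + 1) (fun Q => psi f z χ Q * Dn (Ds f f) Q) =
      Ev t (fun P => Ds f f P * Up (psi f z χ) P) := by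
    rw [Ev_Up_mul ht]
    exact Ev_congr fun Q _ => mul_comm _ _
  rw [h1, ← Ev_add, ← Ev_sub, ← Ev_sub]
  apply Ev_congr
  intro Q _
  rw [J4781_psi z χ hz Q, J4781_Up_psi]
  have h2 := Ds_eq f f Q
  have h3 : (1 - f Q) * Dn (Ds f f) Q = Ds f f Q - f Q := by linarith
  linear_combination (∑ x ∈ Q, Up (rho f z χ x) Q) * h3

theorem block_identity {f : Finset α → ℝ} (z : Finset α → α) (χ : ℕ → ℝ)
    (hz : ∀ C, f C ≠ 0 → z C ∈ C) :
    ∑ p ∈ range (Fintype.card α + 1), Ev p (fun Q => f Q * χ Q.card * Dn (Ds f f) Q)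
      = ∑ q ∈ range (Fintype.card α), Ev q (fun Q => Ds f f Q * Rh f z χ Q)
        + ∑ p ∈ range (Fintype.card α), Ev p (fun Q => f Q * ∑ x ∈ Q, Up (rho f z χ x) Q) := by
  set S : ℕ → ℝ := fun t => Ev t (fun Q => psi f z χ Q * Dn (Ds f f) Q) with hS
  have hstep : ∀ t ∈ range (Fintype.card α), Ev t (fun Q => f Q * χ Q.card * Dn (Ds f f) Q) =
      (S t - S (t + 1)) + (Ev t (fun Q => Ds f f Q * Rh f z χ Q) +
        Ev t (fun Q => f Q * ∑ x ∈ Q, Up (rho f z χ x) Q)) := by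
    intro t ht
    have := psi_block_step z χ hz (Finset.mem_range.1 ht)
    rw [hS]
    show _ = (Ev t (fun Q => psi f z χ Q * Dn (Ds f f) Q) -
      Ev (t + 1) (fun Q => psi f z χ Q * Dn (Ds f f) Q)) + _
    linarith
  have h0 : S 0 = 0 := by
    rw [hS]
    show Ev 0 (fun Q => psi f z χ Q * Dn (Ds f f) Q) = 0
    rw [Ev_zero, Dn_empty, mul_zero]
  have hn : Ev (Fintype.card α) (fun Q => f Q * χ Q.card * Dn (Ds f f) Q) = S (Fintype.card α) := by
    rw [hS]
    show _ = Ev (Fintype.card α) (fun Q => psi f z χ Q * Dn (Ds f f) Q)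
    rw [Ev_top, Ev_top, J4781_psi z χ hz univ]
    have : ∑ x ∈ (univ : Finset α), Up (rho f z χ x) univ = 0 :=
      Finset.sum_eq_zero fun x _ => Up_univ _
    rw [this, mul_zero, add_zero]
  rw [Finset.sum_range_succ, hn, Finset.sum_congr rfl hstep, Finset.sum_add_distrib,
    Finset.sum_range_sub', h0, Finset.sum_add_distrib]
  ring

end UF
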