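import Pool.Agent.UF.Base

set_option autoImplicit false
set_option linter.unusedSectionVars false
set_option linter.unusedVariables false
open Finset

namespace UF
variable {α : Type*} [Fintype α] [DecidableEq α]

theorem Dn_sq_le (g : Finset α → ℝ) (Q : Finset α) :
    (Dn g Q) ^ 2 ≤ Dn (fun P => g P ^ 2) Q := by
  by_cases hQ : Q = ∅
  · subst hQ; rw [Dn_empty, Dn_empty]; norm_num
  · unfold Dn
    have h : (0:ℝ) < (Q.card : ℝ) := by
      exact_mod_cast (Finset.nonempty_iff_ne_empty.2 hQ).card_pos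
    have h1 := sq_sum_le_card_mul_sum_sq (s := Q) (f := fun y => g (Q.erase y))
    rw [div_pow, div_le_div_iff₀ (by positivity) h]
    have h2 := mul_le_mul_of_nonneg_right h1 h.le
    calc (∑ y ∈ Q, g (Q.erase y)) ^ 2 * (Q.card : ℝ)
        ≤ ((Q.card : ℝ) * ∑ i ∈ Q, g (Q.erase i) ^ 2) * (Q.card : ℝ) := h2
      _ = (∑ y ∈ Q, g (Q.erase y) ^ 2) * (Q.card : ℝ) ^ 2 := by ring

theorem Ds0_eq (s : Finset α → ℝ) (Q : Finset α) :
    Ds (fun _ => 0) s Q = s Q + Dn (Ds (fun _ => 0) s) Q := by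
  rw [Ds_eq]; ring

theorem Ev_Ds0 (s : Finset α → ℝ) (p : ℕ) (hp : p ≤ Fintype.card α) :
    Ev p (Ds (fun _ => 0) s) = ∑ i ∈ range (p + 1), Ev i s := by
  induction p with
  | zero =>
    rw [Ev_zero, Ds0_eq, Dn_empty, Finset.sum_range_one, Ev_zero, add_zero]
  | succ p ih =>
    have h1 : Ev (p + 1) (Dn (Ds (fun _ => 0) s)) = Ev p (Ds (fun _ => 0) s) :=
      Ev_Dn (by omega) _
    rw [Finset.sum_range_succ, ← ih (by omega), ← h1, ← Ev_add]
    refine Ev_congr fun P _ => ?_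
    rw [Ds0_eq]; ring

theorem Ds0_univ (s : Finset α → ℝ) :
    Ds (fun _ => 0) s (univ : Finset α) = ∑ i ∈ range (Fintype.card α + 1), Ev i s := by
  rw [← Ev_Ds0 s _ le_rfl, Ev_top]

theorem Ds0_sq_le (f : Finset α → ℝ) (Q : Finset α) :
    (Ds (fun _ => 0) f Q) ^ 2
      ≤ Ds (fun _ => 0) (fun P => f P ^ 2 + 2 * (f P * Dn (Ds (fun _ => 0) f) P)) Q := by
  induction hn : Q.card using Nat.strong_induction_on generalizing Q with
  | _ n ih =>
    rw [Ds0_eq, Ds0_eq (fun P => f P ^ 2 + 2 * (f P * Dn (Ds (fun _ => 0) f) P))]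
    have h1 := Dn_sq_le (Ds (fun _ => 0) f) Q
    have h2 : Dn (fun P => (Ds (fun _ => 0) f P) ^ 2) Q
        ≤ Dn (Ds (fun _ => 0) (fun P => f P ^ 2 + 2 * (f P * Dn (Ds (fun _ => 0) f) P))) Q := by
      apply Dn_mono
      intro y hy
      exact ih _ (by rw [← hn]; exact Finset.card_erase_lt_of_mem hy) _ rfl
    nlinarith [h1, h2]

theorem second_moment {f : Finset α → ℝ} (hf0 : ∀ Q, 0 ≤ f Q) :
    (∑ p ∈ range (Fintype.card α + 1), Ev p f) ^ 2
      ≤ ∑ p ∈ range (Fintype.card α + 1), Ev p (fun P => f P ^ 2)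
        + 2 * ∑ p ∈ range (Fintype.card α + 1), Ev p (fun P => f P * Dn (Ds (fun _ => 0) f) P) := by
  have h := Ds0_sq_le f (univ : Finset α)
  rw [Ds0_univ, Ds0_univ] at h
  refine h.trans (le_of_eq ?_)
  rw [Finset.mul_sum, ← Finset.sum_add_distrib]
  refine Finset.sum_congr rfl fun p _ => ?_
  rw [Ev_add, Ev_const_mul]

end UF
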