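import Pool.Agent.UF.Base
import Pool.Agent.UF.Jo1

set_option autoImplicit false
set_option linter.unusedSectionVars false
set_option linter.unusedVariables false
open Finset

namespace UF
variable {α : Type*} [Fintype α] [DecidableEq α]

theorem K_le_H {f : Finset α → ℝ} (hf0 : ∀ Q, 0 ≤ f Q) (hf1 : ∀ Q, f Q ≤ 1) {κ : ℝ}
    (hκ : 0 ≤ κ) (hD : ∀ C, f C ≠ 0 → (1 + κ) * Dn (Ds f f) C ≤ κ) (Q : Finset α) :
    Ds (fun _ => 0) f Q ≤ (1 + κ) * Ds f f Q := by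
  refine Ds_le (k := fun _ => 0) (s := f) (X := fun Q => (1 + κ) * Ds f f Q)
    (fun _ => zero_le_one) (fun P _ => ?_)
  rw [Dn_const_mul]
  beta_reduce
  rw [Ds_eq f f P]
  have key : f P * ((1 + κ) * Dn (Ds f f) P) ≤ f P * κ := by
    by_cases h : f P = 0
    · rw [h]; simp
    · exact mul_le_mul_of_nonneg_left (hD P h) (hf0 P)
  nlinarith [key]

theorem H_le_K {f : Finset α → ℝ} (hf0 : ∀ Q, 0 ≤ f Q) (hf1 : ∀ Q, f Q ≤ 1) (Q : Finset α) :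
    Ds f f Q ≤ Ds (fun _ => 0) f Q := by
  refine Ds_le (k := f) (s := f) (X := Ds (fun _ => 0) f) hf1 (fun P _ => ?_)
  rw [Ds_eq (fun _ => 0) f P]
  have h1 : 0 ≤ Dn (Ds (fun _ => 0) f) P :=
    Dn_nonneg (fun y _ => Ds_nonneg (fun _ => zero_le_one) hf0 _)
  nlinarith [hf0 P, mul_nonneg (hf0 P) h1]

theorem Dn_H_le_H {f : Finset α → ℝ} (hf0 : ∀ Q, 0 ≤ f Q) (hf1 : ∀ Q, f Q ≤ 1) (Q : Finset α) :
    Dn (Ds f f) Q ≤ Ds f f Q := by
  have h1 : Dn (Ds f f) Q ≤ 1 :=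
    Dn_le_of_le zero_le_one (fun y _ => Ds_le_one hf1 (fun _ => le_rfl) _)
  rw [Ds_eq f f Q]
  nlinarith [hf0 Q, mul_nonneg (hf0 Q) (sub_nonneg.2 h1)]

theorem Ev_K (f : Finset α → ℝ) {q : ℕ} (hq : q ≤ Fintype.card α) :
    Ev q (Ds (fun _ => 0) f) = ∑ p ∈ range (q + 1), Ev p f := by
  induction q with
  | zero =>
    rw [Ev_zero, Ds_eq, Dn_empty]
    simp [Ev_zero]
  | succ q ih =>
    rw [Finset.sum_range_succ, ← ih (by omega)]
    have h1 : Ev (q + 1) (Ds (fun _ => 0) f) =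
        Ev (q + 1) (fun Q => f Q + Dn (Ds (fun _ => 0) f) Q) := by
      refine Ev_congr fun Q _ => ?_
      rw [Ds_eq (fun _ => 0) f Q]
      ring
    have h2 : Ev (q + 1) (fun Q => Dn (Ds (fun _ => 0) f) Q) = Ev q (Ds (fun _ => 0) f) :=
      Ev_Dn (by omega) _
    rw [h1, Ev_add, h2, add_comm]

end UF
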