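import Pool.Agent.UF.Base
import Pool.Agent.UF.Jo1

set_option autoImplicit false
set_option linter.unusedSectionVars false
set_option linter.unusedVariables false
open Finset

namespace UF
variable {α : Type*} [Fintype α] [DecidableEq α]

theorem Us_le_sum {f s : Finset α → ℝ} (hf0 : ∀ Q, 0 ≤ f Q) (hf1 : ∀ Q, f Q ≤ 1)
    (hs : ∀ Q, 0 ≤ s Q) (P : Finset α) :
    Us f s P ≤ ∑ i ∈ range (Fintype.card α - P.card + 1), (Up^[i] s) P := by
  have main : ∀ n : ℕ, ∀ P : Finset α, Fintype.card α - P.card = n →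
      Us f s P ≤ ∑ i ∈ range (Fintype.card α - P.card + 1), (Up^[i] s) P := by
    intro n
    induction n with
    | zero =>
      intro P hP
      have hle : P.card ≤ Fintype.card α := Finset.card_le_univ P
      have hPu : P = univ := by
        rw [← Finset.card_eq_iff_eq_univ]
        omega
      rw [Us_eq, hPu, Up_univ]
      simp
    | succ n ih =>
      intro P hP
      rw [Us_eq]
      have hU0 : 0 ≤ Up (Us f s) P := Up_nonneg fun w _ => Us_nonneg hf1 hs _
      have h1 : (1 - f P) * Up (Us f s) P ≤ Up (Us f s) P := by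
        nlinarith [hf0 P]
      have h2 : Up (Us f s) P ≤ Up (fun Q => ∑ i ∈ range (n + 1), (Up^[i] s) Q) P := by
        refine Up_mono fun w hw => ?_
        have hc : Fintype.card α - (insert w P).card = n := by
          rw [Finset.card_insert_of_notMem hw]
          omega
        have h3 := ih (insert w P) hc
        rwa [hc] at h3
      rw [Up_sum] at h2
      rw [hP, Finset.sum_range_succ']
      have h4 : ∀ i ∈ range (n + 1), Up (fun Q => (Up^[i] s) Q) P = (Up^[i + 1] s) P := by
        intro i _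
        rw [Function.iterate_succ_apply']
      rw [Finset.sum_congr rfl h4] at h2
      have h5 : (Up^[0] s) P = s P := rfl
      rw [h5]
      linarith
  exact main _ P rfl

/-- iterated duality -/
theorem Ev_iter (h g : Finset α → ℝ) {t i : ℕ} (hti : t + i ≤ Fintype.card α) :
    Ev t (fun P => h P * (Up^[i] g) P) = Ev (t + i) (fun C => (Dn^[i] h) C * g C) := by
  induction i generalizing h t with
  | zero => rfl
  | succ i ih =>
    have h1 : Ev t (fun P => h P * (Up^[i + 1] g) P) =
        Ev t (fun P => h P * Up (Up^[i] g) P) := by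
      rw [Function.iterate_succ_apply']
    rw [h1, Ev_Up_mul (by omega), ih (Dn h) (t := t + 1) (by omega)]
    rw [show t + 1 + i = t + (i + 1) by ring, Function.iterate_succ_apply]

/-- the fundamental duality bound for `rho` -/
theorem rho_dual {f : Finset α → ℝ} (hf0 : ∀ Q, 0 ≤ f Q) (hf1 : ∀ Q, f Q ≤ 1)
    (z : Finset α → α) {χ : ℕ → ℝ} (hχ0 : ∀ s, 0 ≤ χ s)
    (g : α → Finset α → ℝ) (hg : ∀ x Q, 0 ≤ g x Q) {t : ℕ} (ht : t ≤ Fintype.card α) :
    Ev t (fun T => ∑ x, g x T * rho f z χ x T)
      ≤ ∑ s ∈ Icc t (Fintype.card α),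
          Ev s (fun C => f C * χ C.card * (Dn^[s - t] (g (z C))) C) := by
  set N := Fintype.card α with hN
  set S : α → Finset α → ℝ := fun x Q => if z Q = x then f Q * χ Q.card else 0 with hS
  have hS0 : ∀ x Q, 0 ≤ S x Q := by
    intro x Q
    simp only [hS]
    split_ifs
    · exact mul_nonneg (hf0 _) (hχ0 _)
    · exact le_rfl
  have step1 : Ev t (fun T => ∑ x, g x T * rho f z χ x T) ≤
      Ev t (fun T => ∑ i ∈ range (N - t + 1), ∑ x, g x T * (Up^[i] (S x)) T) := by
    refine Ev_mono fun T hT => ?_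
    rw [Finset.sum_comm]
    refine Finset.sum_le_sum fun x _ => ?_
    rw [← Finset.mul_sum]
    refine mul_le_mul_of_nonneg_left ?_ (hg x T)
    have h := Us_le_sum hf0 hf1 (hS0 x) T
    rw [hT] at h
    exact h
  refine step1.trans (le_of_eq ?_)
  rw [Ev_sum]
  have step2 : ∀ i ∈ range (N - t + 1), Ev t (fun T => ∑ x, g x T * (Up^[i] (S x)) T) =
      Ev (t + i) (fun C => f C * χ C.card * (Dn^[t + i - t] (g (z C))) C) := by
    intro i hi
    have hi' : t + i ≤ N := by
      have := Finset.mem_range.1 hi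
      omega
    rw [Ev_sum]
    have h1 : ∀ x ∈ (univ : Finset α), Ev t (fun T => g x T * (Up^[i] (S x)) T) =
        Ev (t + i) (fun C => (Dn^[i] (g x)) C * S x C) := by
      intro x _
      exact Ev_iter (g x) (S x) hi'
    rw [Finset.sum_congr rfl h1, ← Ev_sum]
    refine Ev_congr fun C _ => ?_
    rw [Nat.add_sub_cancel_left]
    simp only [hS]
    rw [Finset.sum_eq_single (z C)]
    · simp only [if_true]
      ring
    · intro x _ hx
      rw [if_neg (Ne.symm hx), mul_zero]
    · intro h
      exact absurd (Finset.mem_univ _) h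
  rw [Finset.sum_congr rfl step2]
  have h6 : Icc t N = (range (N - t + 1)).map (addLeftEmbedding t) := by
    rw [Finset.range_eq_Ico, Finset.map_add_left_Ico]
    ext a
    simp only [Finset.mem_Icc, Finset.mem_Ico]
    omega
  rw [h6, Finset.sum_map]
  rfl

theorem rho_dual_mem {f : Finset α → ℝ} (hf0 : ∀ Q, 0 ≤ f Q) (hf1 : ∀ Q, f Q ≤ 1)
    (z : Finset α → α) {χ : ℕ → ℝ} (hχ0 : ∀ s, 0 ≤ χ s)
    (g : α → Finset α → ℝ) (hg : ∀ x Q, 0 ≤ g x Q) {t : ℕ} (ht : t ≤ Fintype.card α) :
    Ev t (fun T => ∑ x ∈ T, g x T * rho f z χ x T)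
      ≤ ∑ s ∈ Icc t (Fintype.card α),
          Ev s (fun C => f C * χ C.card *
            (Dn^[s - t] (fun T => if z C ∈ T then g (z C) T else 0)) C) := by
  have h := rho_dual hf0 hf1 z hχ0 (fun x T => if x ∈ T then g x T else 0)
    (fun x Q => by
      split_ifs
      · exact hg x Q
      · exact le_rfl) ht
  refine le_trans (le_of_eq ?_) h
  refine Ev_congr fun T _ => ?_
  simp only [ite_mul, zero_mul]
  rw [Finset.sum_ite_mem, Finset.univ_inter]

end UF
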