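import Pool.Agent.UF.Base

set_option autoImplicit false
set_option linter.unusedSectionVars false
set_option linter.unusedVariables false
open Finset

namespace UF
variable {α : Type*} [Fintype α] [DecidableEq α]

theorem Dn_iter_succ (g : Finset α → ℝ) (i : ℕ) (Q : Finset α) :
    (Dn^[i + 1] g) Q = (∑ y ∈ Q, (Dn^[i] g) (Q.erase y)) / (Q.card : ℝ) := by
  rw [Function.iterate_succ_apply']
  rfl

theorem Dn_iter_eq_zero {g : Finset α → ℝ} {i : ℕ} {Q : Finset α}
    (H : ∀ P, P ⊆ Q → g P = 0) : (Dn^[i] g) Q = 0 := by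
  induction i generalizing Q with
  | zero => exact H Q (Finset.Subset.refl _)
  | succ i ih =>
    rw [Dn_iter_succ]
    rw [Finset.sum_eq_zero, zero_div]
    intro y hy
    exact ih fun P hP => H P (hP.trans (Finset.erase_subset _ _))

theorem Dn_iter_eq_one {g : Finset α → ℝ} {i : ℕ} {Q : Finset α}
    (H : ∀ P, P ⊆ Q → g P = 1) (hi : i ≤ Q.card) : (Dn^[i] g) Q = 1 := by
  induction i generalizing Q with
  | zero => exact H Q (Finset.Subset.refl _)
  | succ i ih =>
    rw [Dn_iter_succ]
    have h1 : ∀ y ∈ Q, (Dn^[i] g) (Q.erase y) = 1 := by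
      intro y hy
      refine ih (fun P hP => H P (hP.trans (Finset.erase_subset _ _))) ?_
      rw [Finset.card_erase_of_mem hy]
      omega
    rw [Finset.sum_congr rfl h1, Finset.sum_const, nsmul_eq_mul, mul_one]
    have : (Q.card : ℝ) ≠ 0 := by
      have : Q.card ≠ 0 := by omega
      exact_mod_cast this
    exact div_self this

theorem Dn_iter_mem {C : Finset α} {x : α} (hx : x ∈ C) {i : ℕ} (hi : i ≤ C.card) :
    (Dn^[i] (fun T => if x ∈ T then (1 : ℝ) else 0)) C = ((C.card : ℝ) - i) / C.card := by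
  induction i generalizing C with
  | zero =>
    have : (C.card : ℝ) ≠ 0 := by
      have : C.card ≠ 0 := (Finset.card_pos.2 ⟨x, hx⟩).ne'
      exact_mod_cast this
    simp only [Function.iterate_zero, id_eq, if_pos hx, Nat.cast_zero, sub_zero]
    exact (div_self this).symm
  | succ i ih =>
    rw [Dn_iter_succ]
    congr 1
    rw [← Finset.add_sum_erase C _ hx]
    have h0 : (Dn^[i] (fun T => if x ∈ T then (1 : ℝ) else 0)) (C.erase x) = 0 := by
      apply Dn_iter_eq_zero
      intro P hP
      have : x ∉ P := fun h => Finset.notMem_erase x C (hP h)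
      rw [if_neg this]
    rw [h0, zero_add]
    have h1 : ∀ y ∈ C.erase x, (Dn^[i] (fun T => if x ∈ T then (1 : ℝ) else 0)) (C.erase y) =
        (((C.card - 1 : ℕ) : ℝ) - i) / ((C.card - 1 : ℕ) : ℝ) := by
      intro y hy
      rw [Finset.mem_erase] at hy
      have hc := Finset.card_erase_of_mem hy.2
      rw [ih (Finset.mem_erase.2 ⟨fun h => hy.1 h.symm, hx⟩) (by rw [hc]; omega), hc]
    rw [Finset.sum_congr rfl h1, Finset.sum_const, nsmul_eq_mul, Finset.card_erase_of_mem hx]
    obtain ⟨c, hc⟩ : ∃ c, C.card = c + 1 := ⟨C.card - 1, by omega⟩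
    rw [hc]
    have e1 : c + 1 - 1 = c := by omega
    rw [e1]
    rcases Nat.eq_zero_or_pos c with h | h
    · subst h
      have : i = 0 := by omega
      subst this
      simp
    · have hc' : (c : ℝ) ≠ 0 := by exact_mod_cast h.ne'
      field_simp
      push_cast
      ring

theorem Dn_iter_notMem {C : Finset α} {x : α} (hx : x ∈ C) {i : ℕ} (hi : i ≤ C.card) :
    (Dn^[i] (fun T => if x ∈ T then (0 : ℝ) else 1)) C = (i : ℝ) / C.card := by
  induction i generalizing C with
  | zero =>
    simp only [Function.iterate_zero, id_eq, if_pos hx, Nat.cast_zero, zero_div]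
  | succ i ih =>
    rw [Dn_iter_succ]
    congr 1
    rw [← Finset.add_sum_erase C _ hx]
    have h0 : (Dn^[i] (fun T => if x ∈ T then (0 : ℝ) else 1)) (C.erase x) = 1 := by
      apply Dn_iter_eq_one
      · intro P hP
        have : x ∉ P := fun h => Finset.notMem_erase x C (hP h)
        rw [if_neg this]
      · rw [Finset.card_erase_of_mem hx]; omega
    rw [h0]
    have h1 : ∀ y ∈ C.erase x, (Dn^[i] (fun T => if x ∈ T then (0 : ℝ) else 1)) (C.erase y) =
        (i : ℝ) / ((C.card - 1 : ℕ) : ℝ) := by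
      intro y hy
      rw [Finset.mem_erase] at hy
      have hc := Finset.card_erase_of_mem hy.2
      rw [ih (Finset.mem_erase.2 ⟨fun h => hy.1 h.symm, hx⟩) (by rw [hc]; omega), hc]
    rw [Finset.sum_congr rfl h1, Finset.sum_const, nsmul_eq_mul, Finset.card_erase_of_mem hx]
    obtain ⟨c, hc⟩ : ∃ c, C.card = c + 1 := ⟨C.card - 1, by omega⟩
    rw [hc]
    have e1 : c + 1 - 1 = c := by omega
    rw [e1]
    rcases Nat.eq_zero_or_pos c with h | h
    · subst h
      have : i = 0 := by omega
      subst this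
      simp
    · have hc' : (c : ℝ) ≠ 0 := by exact_mod_cast h.ne'
      field_simp
      push_cast
      ring

theorem Dn_iter_mono {g h : Finset α → ℝ} {i : ℕ} {Q : Finset α}
    (H : ∀ P, P ⊆ Q → P.card + i = Q.card → g P ≤ h P) (hi : i ≤ Q.card) :
    (Dn^[i] g) Q ≤ (Dn^[i] h) Q := by
  induction i generalizing Q with
  | zero => exact H Q (Finset.Subset.refl _) (by omega)
  | succ i ih =>
    rw [Function.iterate_succ_apply', Function.iterate_succ_apply']
    refine Dn_mono fun y hy => ?_
    have hc := Finset.card_erase_of_mem hy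
    refine ih (fun P hP hPc => H P (hP.trans (Finset.erase_subset _ _)) ?_) ?_
    · rw [hc] at hPc
      omega
    · rw [hc]
      omega

/-- iterated `Dn` is the average over `i`-element deletions -/
theorem Dn_iter_eq (g : Finset α → ℝ) {i : ℕ} {Q : Finset α} (hi : i ≤ Q.card) :
    (Dn^[i] g) Q = (∑ V ∈ powersetCard i Q, g (Q \ V)) / (Q.card.choose i : ℝ) := by
  induction i generalizing Q with
  | zero => simp
  | succ i ih =>
    rw [Dn_iter_succ]
    obtain ⟨q, hq⟩ : ∃ q, Q.card = q + 1 := ⟨Q.card - 1, by omega⟩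
    have h1 : ∀ y ∈ Q, (Dn^[i] g) (Q.erase y) =
        (∑ V ∈ powersetCard i (Q.erase y), g (Q.erase y \ V)) / (q.choose i : ℝ) := by
      intro y hy
      have hc := Finset.card_erase_of_mem hy
      rw [ih (by rw [hc]; omega), hc, hq]
      rfl
    rw [Finset.sum_congr rfl h1, ← Finset.sum_div]
    have e3 : ∑ y ∈ Q, ∑ V ∈ powersetCard i (Q.erase y), g (Q.erase y \ V)
        = ∑ V ∈ powersetCard (i + 1) Q, ∑ _y ∈ V, g (Q \ V) := by
      rw [Finset.sum_sigma', Finset.sum_sigma']
      refine Finset.sum_bij' (fun a _ => ⟨insert a.1 a.2, a.1⟩) (fun a _ => ⟨a.2, a.1.erase a.2⟩)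
        ?_ ?_ ?_ ?_ ?_
      · rintro ⟨y, V⟩ h
        simp only [Finset.mem_sigma, Finset.mem_powersetCard, Finset.subset_erase] at h ⊢
        refine ⟨⟨Finset.insert_subset h.1 h.2.1.1, ?_⟩, Finset.mem_insert_self _ _⟩
        rw [Finset.card_insert_of_notMem h.2.1.2, h.2.2]
      · rintro ⟨V, y⟩ h
        simp only [Finset.mem_sigma, Finset.mem_powersetCard, Finset.subset_erase] at h ⊢
        refine ⟨h.1.1 h.2, ⟨(Finset.erase_subset _ _).trans h.1.1, Finset.notMem_erase _ _⟩, ?_⟩
        rw [Finset.card_erase_of_mem h.2, h.1.2]; rfl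
      · rintro ⟨y, V⟩ h
        simp only [Finset.mem_sigma, Finset.mem_powersetCard, Finset.subset_erase] at h
        simp [Finset.erase_insert h.2.1.2]
      · rintro ⟨V, y⟩ h
        simp only [Finset.mem_sigma, Finset.mem_powersetCard] at h
        simp [Finset.insert_erase h.2]
      · rintro ⟨y, V⟩ h
        congr 1
        ext z
        simp only [Finset.mem_sdiff, Finset.mem_erase, Finset.mem_insert, not_or]
        tauto
    have e4 : ∑ V ∈ powersetCard (i + 1) Q, ∑ _y ∈ V, g (Q \ V) =
        ((i : ℝ) + 1) * ∑ V ∈ powersetCard (i + 1) Q, g (Q \ V) := by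
      rw [Finset.mul_sum]
      refine Finset.sum_congr rfl fun V hV => ?_
      rw [Finset.sum_const, (Finset.mem_powersetCard.1 hV).2, nsmul_eq_mul]
      push_cast
      ring
    rw [e3, e4, hq]
    have h2 : (q + 1) * q.choose i = (q + 1).choose (i + 1) * (i + 1) := Nat.add_one_mul_choose_eq q i
    have h2' : ((q : ℝ) + 1) * (q.choose i : ℝ) = ((q + 1).choose (i + 1) : ℝ) * ((i : ℝ) + 1) := by
      exact_mod_cast h2
    have h3 : (q.choose i : ℝ) ≠ 0 := by
      have : 0 < q.choose i := Nat.choose_pos (by omega)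
      exact_mod_cast this.ne'
    have h4 : ((q + 1).choose (i + 1) : ℝ) ≠ 0 := by
      have : 0 < (q + 1).choose (i + 1) := Nat.choose_pos (by omega)
      exact_mod_cast this.ne'
    have h5 : (q : ℝ) + 1 ≠ 0 := by positivity
    push_cast
    rw [div_div, div_eq_div_iff (mul_ne_zero h3 h5) h4]
    have : (q.choose i : ℝ) * ((q : ℝ) + 1) = ((q + 1).choose (i + 1) : ℝ) * ((i : ℝ) + 1) := by
      rw [← h2']; ring
    rw [this]
    ring

theorem Dn_iter_mem_le (g : Finset α → ℝ) (hg : ∀ Q, 0 ≤ g Q) {i : ℕ} {P : Finset α} {x : α}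
    (hx : x ∈ P) (hi : i + 1 ≤ P.card) :
    (Dn^[i] (fun X => if x ∈ X then g X else 0)) P
      ≤ (∑ V ∈ powersetCard i (P.erase x), g (P \ V)) / ((P.erase x).card.choose i : ℝ) := by
  rw [Dn_iter_eq _ (by omega)]
  have h1 : ∑ V ∈ powersetCard i P, (if x ∈ P \ V then g (P \ V) else 0) =
      ∑ V ∈ powersetCard i (P.erase x), g (P \ V) := by
    rw [← Finset.sum_filter]
    refine Finset.sum_congr ?_ fun _ _ => rfl
    ext V
    simp only [Finset.mem_filter, Finset.mem_powersetCard, Finset.mem_sdiff, Finset.subset_erase]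
    tauto
  rw [h1]
  have hc := Finset.card_erase_of_mem hx
  have h2 : 0 ≤ ∑ V ∈ powersetCard i (P.erase x), g (P \ V) := Finset.sum_nonneg fun V _ => hg _
  have h3 : (0 : ℝ) < ((P.erase x).card.choose i : ℝ) := by
    have : 0 < (P.erase x).card.choose i := Nat.choose_pos (by rw [hc]; omega)
    exact_mod_cast this
  have h4 : ((P.erase x).card.choose i : ℝ) ≤ (P.card.choose i : ℝ) := by
    have : (P.erase x).card.choose i ≤ P.card.choose i :=
      Nat.choose_le_choose i (by rw [hc]; omega)
    exact_mod_cast this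
  exact div_le_div_of_nonneg_left h2 h3 h4

end UF
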