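import Pool.Agent.UF.Base
import Pool.Agent.UF.Jo7
import Pool.Agent.UF.Jo8

set_option autoImplicit false
set_option linter.unusedSectionVars false
set_option linter.unusedVariables false
open Finset

namespace UF
variable {α : Type*} [Fintype α] [DecidableEq α]

/-- `E_q[Rh] = E_{q+1}[psi]/(q+1)` -/
theorem Ev_Rh (f : Finset α → ℝ) (z : Finset α → α) (χ : ℕ → ℝ) {q : ℕ}
    (hq : q < Fintype.card α) :
    Ev q (Rh f z χ) = Ev (q + 1) (fun Q => psi f z χ Q / (Q.card : ℝ)) := by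
  have h := Ev_double hq (fun P w => rho f z χ w (insert w P))
  have e1 : Ev q (Rh f z χ) =
      Ev q (fun P => (∑ w ∈ Pᶜ, rho f z χ w (insert w P)) / (Pᶜ.card : ℝ)) := rfl
  rw [e1, h]
  apply Ev_congr
  intro Q _
  unfold psi
  congr 1
  apply Finset.sum_congr rfl
  intro y hy
  rw [Finset.insert_erase hy]

theorem Ev_psi_le {f : Finset α → ℝ} (hf0 : ∀ Q, 0 ≤ f Q) (hf1 : ∀ Q, f Q ≤ 1)
    (z : Finset α → α) (hz : ∀ C, f C ≠ 0 → z C ∈ C) {χ : ℕ → ℝ} (hχ0 : ∀ s, 0 ≤ χ s)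
    {t : ℕ} (ht : t ≤ Fintype.card α) :
    Ev t (psi f z χ) ≤ ∑ s ∈ Icc t (Fintype.card α), (t : ℝ) / s * χ s * Ev s f := by
  have h := rho_dual_mem hf0 hf1 z hχ0 (fun _ _ => (1 : ℝ)) (fun _ _ => zero_le_one) ht
  have e1 : Ev t (psi f z χ) = Ev t (fun T => ∑ x ∈ T, (1 : ℝ) * rho f z χ x T) := by
    apply Ev_congr
    intro Q _
    unfold psi
    simp only [one_mul]
  rw [e1]
  refine h.trans (le_of_eq ?_)
  apply Finset.sum_congr rfl
  intro s hs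
  have hts : t ≤ s := (Finset.mem_Icc.1 hs).1
  rw [← Ev_const_mul]
  apply Ev_congr
  intro C hC
  by_cases hf : f C = 0
  · rw [hf]; ring
  · rw [Dn_iter_mem (hz C hf) (by omega), hC, Nat.cast_sub hts]
    ring

theorem Ev_Rh_le {f : Finset α → ℝ} (hf0 : ∀ Q, 0 ≤ f Q) (hf1 : ∀ Q, f Q ≤ 1)
    (z : Finset α → α) (hz : ∀ C, f C ≠ 0 → z C ∈ C) {χ : ℕ → ℝ} (hχ0 : ∀ s, 0 ≤ χ s)
    {q : ℕ} (hq : q < Fintype.card α) :
    Ev q (Rh f z χ) ≤ ∑ s ∈ Icc (q + 1) (Fintype.card α), 1 / (s : ℝ) * χ s * Ev s f := by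
  have h := Ev_psi_le hf0 hf1 z hz hχ0 (t := q + 1) hq
  have hq0 : (0 : ℝ) < ((q + 1 : ℕ) : ℝ) := by positivity
  have e1 : Ev (q + 1) (fun Q => psi f z χ Q / (Q.card : ℝ)) =
      (((q + 1 : ℕ) : ℝ))⁻¹ * Ev (q + 1) (psi f z χ) := by
    rw [← Ev_const_mul]
    apply Ev_congr
    intro Q hQ
    rw [hQ, div_eq_inv_mul]
  rw [Ev_Rh f z χ hq, e1]
  calc (((q + 1 : ℕ) : ℝ))⁻¹ * Ev (q + 1) (psi f z χ)
      ≤ (((q + 1 : ℕ) : ℝ))⁻¹ *
        ∑ s ∈ Icc (q + 1) (Fintype.card α), ((q + 1 : ℕ) : ℝ) / s * χ s * Ev s f :=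
        mul_le_mul_of_nonneg_left h (inv_nonneg.2 hq0.le)
    _ = _ := by
        rw [Finset.mul_sum]
        apply Finset.sum_congr rfl
        intro s _
        field_simp

theorem Ev_Uout_le {f : Finset α → ℝ} (hf0 : ∀ Q, 0 ≤ f Q) (hf1 : ∀ Q, f Q ≤ 1)
    (z : Finset α → α) (hz : ∀ C, f C ≠ 0 → z C ∈ C) {χ : ℕ → ℝ} (hχ0 : ∀ s, 0 ≤ χ s)
    {t : ℕ} (ht : t ≤ Fintype.card α) :
    Ev t (Uout f z χ)
      ≤ ∑ s ∈ Icc t (Fintype.card α), ((s : ℝ) - t) / s * χ s * Ev s f := by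
  have h := rho_dual hf0 hf1 z hχ0 (fun x T => if x ∈ T then (0 : ℝ) else 1)
    (fun _ _ => by split_ifs <;> norm_num) ht
  have e1 : Ev t (Uout f z χ) =
      Ev t (fun T => ∑ x, (if x ∈ T then (0 : ℝ) else 1) * rho f z χ x T) := by
    apply Ev_congr
    intro Q _
    unfold Uout
    rw [← Finset.sum_compl_add_sum Q]
    have h1 : ∑ x ∈ Q, (if x ∈ Q then (0 : ℝ) else 1) * rho f z χ x Q = 0 :=
      Finset.sum_eq_zero fun x hx => by rw [if_pos hx, zero_mul]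
    rw [h1, add_zero]
    apply Finset.sum_congr rfl
    intro x hx
    rw [if_neg (Finset.mem_compl.1 hx), one_mul]
  rw [e1]
  refine h.trans (le_of_eq ?_)
  apply Finset.sum_congr rfl
  intro s hs
  have hts : t ≤ s := (Finset.mem_Icc.1 hs).1
  rw [← Ev_const_mul]
  apply Ev_congr
  intro C hC
  by_cases hf : f C = 0
  · rw [hf]; ring
  · rw [Dn_iter_notMem (hz C hf) (by omega), hC, Nat.cast_sub hts]
    ring

end UF
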