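import Pool.Agent.UF.Base

set_option autoImplicit false
set_option linter.unusedSectionVars false
set_option linter.unusedVariables false
open Finset

namespace UF
variable {α : Type*} [Fintype α] [DecidableEq α]

theorem choose_gauss_aux {m : ℕ} (hm : 1 ≤ m) (j : ℕ) : j ≤ m →
    (((2 * m).choose (m + j) : ℕ) : ℝ) ≤ ((2 * m).choose m : ℝ) * Real.exp (-((j : ℝ) ^ 2) / (2 * m)) := by
  have hmR : (0 : ℝ) < m := by exact_mod_cast hm
  induction j with
  | zero => intro _; simp
  | succ j ih =>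
    intro hj
    have ih' := ih (by omega)
    have h1 := Nat.choose_succ_right_eq (2 * m) (m + j)
    have h2 : (((2 * m).choose (m + (j + 1)) : ℕ) : ℝ) * ((m : ℝ) + j + 1)
        = ((2 * m).choose (m + j) : ℝ) * ((m : ℝ) - j) := by
      have h3 : 2 * m - (m + j) = m - j := by omega
      rw [h3] at h1
      have h4 : (((m - j : ℕ)) : ℝ) = (m : ℝ) - j := by
        rw [Nat.cast_sub (by omega)]
      rw [← h4]
      have h5 : m + (j + 1) = m + j + 1 := by ring
      rw [h5]
      exact_mod_cast h1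
    have hjR : (j : ℝ) + 1 ≤ m := by exact_mod_cast hj
    have hj0 : (0 : ℝ) ≤ j := Nat.cast_nonneg j
    have hpos : (0 : ℝ) < (m : ℝ) + j + 1 := by linarith
    have h6 : ((m : ℝ) - j) / ((m : ℝ) + j + 1) ≤ Real.exp (-(2 * (j : ℝ) + 1) / (2 * m)) := by
      have h7 : ((m : ℝ) - j) / ((m : ℝ) + j + 1) ≤ -(2 * (j : ℝ) + 1) / (2 * m) + 1 := by
        have h8 : ((m : ℝ) - j) / ((m : ℝ) + j + 1) = 1 - (2 * (j : ℝ) + 1) / ((m : ℝ) + j + 1) := by
          field_simp; ring
        have h9 : (2 * (j : ℝ) + 1) / (2 * m) ≤ (2 * (j : ℝ) + 1) / ((m : ℝ) + j + 1) := by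
          apply div_le_div_of_nonneg_left (by linarith) hpos (by linarith)
        rw [h8, neg_div]
        linarith
      exact h7.trans (Real.add_one_le_exp _)
    have h10 : (((2 * m).choose (m + (j + 1)) : ℕ) : ℝ)
        = ((2 * m).choose (m + j) : ℝ) * (((m : ℝ) - j) / ((m : ℝ) + j + 1)) := by
      rw [mul_div_assoc', eq_div_iff hpos.ne']
      exact h2
    have h11 : Real.exp (-(((j + 1 : ℕ) : ℝ) ^ 2) / (2 * m))
        = Real.exp (-((j : ℝ) ^ 2) / (2 * m)) * Real.exp (-(2 * (j : ℝ) + 1) / (2 * m)) := by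
      rw [← Real.exp_add]
      congr 1
      push_cast
      ring
    rw [h10, h11, ← mul_assoc]
    exact mul_le_mul ih' h6 (div_nonneg (by linarith) hpos.le) (by positivity)

theorem choose_gauss {m : ℕ} (hm : 1 ≤ m) (j : ℕ) :
    (((2 * m).choose (m + j) : ℕ) : ℝ) ≤ ((2 * m).choose m : ℝ) * Real.exp (-((j : ℝ) ^ 2) / (2 * m)) := by
  rcases le_or_gt j m with h | h
  · exact choose_gauss_aux hm j h
  · rw [Nat.choose_eq_zero_of_lt (by omega)]
    push_cast
    positivity

theorem wt_le_exp {m : ℕ} (hm : 1 ≤ m) (p : ℕ) :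
    wt m p ≤ Real.exp (-(((p : ℝ) - m) ^ 2) / (2 * m)) := by
  have hc : (0 : ℝ) < ((2 * m).choose m : ℝ) := by
    exact_mod_cast Nat.choose_pos (by omega)
  unfold wt
  rw [div_le_iff₀ hc, mul_comm (Real.exp _)]
  rcases le_total m p with h | h
  · obtain ⟨j, rfl⟩ := Nat.exists_eq_add_of_le h
    have h1 : (((m + j : ℕ) : ℝ) - m) = j := by push_cast; ring
    rw [h1]
    exact choose_gauss hm j
  · obtain ⟨j, hj⟩ := Nat.exists_eq_add_of_le h
    have h1 : ((p : ℝ) - m) ^ 2 = (j : ℝ) ^ 2 := by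
      have : (m : ℝ) = p + j := by exact_mod_cast hj
      rw [this]; ring
    have h2 : (2 * m).choose p = (2 * m).choose (m + j) := Nat.choose_symm_of_eq_add (by omega)
    rw [h1, h2]
    exact choose_gauss hm j

end UF
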