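import Pool.Agent.UF.Base
import Pool.Agent.UF.Jw1

set_option autoImplicit false
set_option linter.unusedSectionVars false
set_option linter.unusedVariables false
open Finset

namespace UF
variable {α : Type*} [Fintype α] [DecidableEq α]

theorem wt_nonneg (m p : ℕ) : 0 ≤ wt m p := by
  unfold wt; positivity

theorem wt_le_one (m p : ℕ) : wt m p ≤ 1 := by
  unfold wt
  have h1 : (2 * m).choose p ≤ (2 * m).choose m := Nat.choose_le_centralBinom p m
  have h2 : (0 : ℝ) < ((2 * m).choose m : ℝ) := by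
    exact_mod_cast Nat.choose_pos (by omega)
  rw [div_le_one h2]
  exact_mod_cast h1

/-- `1 - wt ≥ min(1, j²/m)/4` -/
theorem one_sub_wt_ge {m : ℕ} (hm : 1 ≤ m) (p : ℕ) :
    1 / 4 * min 1 (((p : ℝ) - m) ^ 2 / m) ≤ 1 - wt m p := by
  have hm0 : (0 : ℝ) < m := by exact_mod_cast hm
  set x : ℝ := ((p : ℝ) - m) ^ 2 / (2 * m) with hx
  have hx0 : 0 ≤ x := by positivity
  have h1 : wt m p ≤ Real.exp (-x) := by
    have := wt_le_exp hm p
    rwa [neg_div] at this
  have h2 : ((p : ℝ) - m) ^ 2 / m = 2 * x := by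
    rw [hx]; field_simp
  have h3 : Real.exp (-x) ≤ 1 / (1 + x) := by
    rw [Real.exp_neg, one_div]
    apply inv_anti₀ (by positivity)
    linarith [Real.add_one_le_exp x]
  have h4 : x / (1 + x) ≤ 1 - wt m p := by
    have : x / (1 + x) = 1 - 1 / (1 + x) := by field_simp; ring
    rw [this]; linarith
  refine le_trans ?_ h4
  rw [h2, le_div_iff₀ (by positivity)]
  rcases le_total x (1 / 2) with h | h
  · have : min 1 (2 * x) ≤ 2 * x := min_le_right _ _
    nlinarith
  · have : min 1 (2 * x) ≤ 1 := min_le_left _ _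
    nlinarith

end UF
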