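import Pool.Agent.UF.Base
import Pool.Agent.UF.Jo1
import Pool.Agent.UF.Jo10
import Pool.Agent.UF.Jo2
import Pool.Agent.UF.Jo6
import Pool.Agent.UF.Jw2

set_option autoImplicit false
set_option linter.unusedSectionVars false
set_option linter.unusedVariables false
open Finset

namespace UF
variable {α : Type*} [Fintype α] [DecidableEq α]

theorem Sys.f_nonneg (S : Sys α) (Q : Finset α) : 0 ≤ S.f Q := by
  unfold Sys.f
  split_ifs
  · exact wt_nonneg _ _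
  · exact le_rfl

theorem Sys.f_le_one (S : Sys α) (Q : Finset α) : S.f Q ≤ 1 := by
  unfold Sys.f
  split_ifs
  · exact wt_le_one _ _
  · norm_num

theorem Sys.mem_of_f (S : Sys α) {C : Finset α} (h : S.f C ≠ 0) : C ∈ S.F := by
  unfold Sys.f at h
  by_contra hC
  rw [if_neg hC] at h
  exact h rfl

theorem Sys.z_mem (S : Sys α) {C : Finset α} (h : S.f C ≠ 0) : S.z C ∈ C :=
  (S.hz C (S.mem_of_f h)).1

theorem Sys.H_nonneg (S : Sys α) (Q : Finset α) : 0 ≤ S.H Q :=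
  Ds_nonneg S.f_le_one S.f_nonneg Q

theorem Sys.H_le_one (S : Sys α) (Q : Finset α) : S.H Q ≤ 1 :=
  Ds_le_one S.f_le_one (fun _ => le_rfl) Q

theorem Sys.u_nonneg (S : Sys α) (Q : Finset α) : 0 ≤ S.u Q :=
  Us_nonneg S.f_le_one S.f_nonneg Q

theorem Sys.u_le_one (S : Sys α) (Q : Finset α) : S.u Q ≤ 1 :=
  Us_le_one S.f_le_one (fun _ => le_rfl) Q

theorem Sys.Dn_H_nonneg (S : Sys α) (Q : Finset α) : 0 ≤ Dn S.H Q :=
  Dn_nonneg fun y _ => S.H_nonneg _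

theorem Sys.Dn_H_le_one (S : Sys α) (Q : Finset α) : Dn S.H Q ≤ 1 :=
  Dn_le_of_le zero_le_one fun y _ => S.H_le_one _

theorem Sys.ph_nonneg (S : Sys α) (s : ℕ) : 0 ≤ S.ph s :=
  Ev_nonneg fun P _ => S.f_nonneg P

theorem Sys.ph_eq_zero (S : Sys α) {s : ℕ} (hs : s + S.h < S.m ∨ S.m + S.h < s) :
    S.ph s = 0 := by
  unfold Sys.ph
  have h1 : Ev s S.f = Ev s (fun _ : Finset α => (0:ℝ)) := by
    refine Ev_congr fun P hP => ?_
    by_contra hne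
    have hF := S.mem_of_f hne
    have h1 := S.hlo P hF
    have h2 := S.hhi P hF
    omega
  rw [h1]
  simp [Ev]

theorem Sys.nu_nonneg (S : Sys α) : 0 ≤ S.nu := by
  unfold Sys.nu
  have := S.H_le_one (univ : Finset α)
  linarith

theorem Sys.b_nonneg (S : Sys α) (Q : Finset α) : 0 ≤ S.b Q := by
  unfold Sys.b psi
  have := sum_rho_le_one S.f_nonneg S.f_le_one S.z (χ := fun _ => 1) (fun _ => zero_le_one)
    (fun _ => le_rfl) Q Q
  linarith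

theorem Sys.b_le_one (S : Sys α) (Q : Finset α) : S.b Q ≤ 1 := by
  unfold Sys.b
  have := psi_nonneg S.f_nonneg S.f_le_one S.z (χ := fun _ => 1) (fun _ => zero_le_one) Q
  linarith

theorem Sys.b_ge (S : Sys α) (Q : Finset α) : (1 - S.f Q) * Up S.b Q ≤ S.b Q :=
  one_sub_psi_ge S.f_nonneg S.f_le_one S.z (χ := fun _ => 1) (fun _ => zero_le_one)
    (fun _ => le_rfl) Q

theorem Sys.rho_nonneg (S : Sys α) {χ : ℕ → ℝ} (hχ0 : ∀ s, 0 ≤ χ s) (x : α) (Q : Finset α) :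
    0 ≤ rho S.f S.z χ x Q :=
  UF.rho_nonneg S.f_nonneg S.f_le_one S.z hχ0 x Q

theorem Sys.rho_le_one (S : Sys α) {χ : ℕ → ℝ} (hχ0 : ∀ s, 0 ≤ χ s) (hχ1 : ∀ s, χ s ≤ 1)
    (x : α) (Q : Finset α) : rho S.f S.z χ x Q ≤ 1 := by
  have := sum_rho_le_one S.f_nonneg S.f_le_one S.z hχ0 hχ1 {x} Q
  simpa using this

theorem Sys.a_nonneg (S : Sys α) {χ : ℕ → ℝ} (hχ0 : ∀ s, 0 ≤ χ s) (x : α) (Q : Finset α) :
    0 ≤ S.a χ x Q := by
  unfold Sys.a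
  split_ifs
  · exact S.rho_nonneg hχ0 x Q
  · exact le_rfl

theorem Sys.a_le_rho (S : Sys α) {χ : ℕ → ℝ} (hχ0 : ∀ s, 0 ≤ χ s) (x : α) (Q : Finset α) :
    S.a χ x Q ≤ rho S.f S.z χ x Q := by
  unfold Sys.a
  split_ifs
  · exact le_rfl
  · exact S.rho_nonneg hχ0 x Q

theorem Sys.sum_a_le_one (S : Sys α) {χ : ℕ → ℝ} (hχ0 : ∀ s, 0 ≤ χ s) (hχ1 : ∀ s, χ s ≤ 1)
    (A : Finset α) (Q : Finset α) : ∑ x ∈ A, S.a χ x Q ≤ 1 :=
  (Finset.sum_le_sum fun x _ => S.a_le_rho hχ0 x Q).trans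
    (sum_rho_le_one S.f_nonneg S.f_le_one S.z hχ0 hχ1 A Q)

theorem Sys.Ga_nonneg (S : Sys α) (k : ℕ) (T : Finset α) (x y : α) : 0 ≤ S.Ga k T x y :=
  le_max_right _ _

theorem Sys.Ga_le_one (S : Sys α) (k : ℕ) (T : Finset α) (x y : α) : S.Ga k T x y ≤ 1 := by
  unfold Sys.Ga
  refine max_le ?_ zero_le_one
  have h1 : Hb S.F (S.bk k) ((T.erase x).erase y) ≤ 1 := by
    unfold Hb
    refine Ds_le_one (fun Q => ?_) (fun _ => le_rfl) _
    unfold Fb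
    split_ifs
    · exact le_rfl
    · norm_num
  have h2 : 0 ≤ S.dl k := by unfold Sys.dl; positivity
  linarith

theorem Sys.Om_nonneg (S : Sys α) {χ : ℕ → ℝ} (hχ0 : ∀ s, 0 ≤ χ s) (k : ℕ) (T : Finset α) :
    0 ≤ S.Om χ k T := by
  unfold Sys.Om
  exact Finset.sum_nonneg fun x _ => Finset.sum_nonneg fun y _ =>
    mul_nonneg (mul_nonneg (S.a_nonneg hχ0 _ _) (S.a_nonneg hχ0 _ _)) (S.Ga_nonneg _ _ _ _)

theorem Sys.eh_nonneg (S : Sys α) {χ : ℕ → ℝ} (hχ0 : ∀ s, 0 ≤ χ s) (P : Finset α) :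
    0 ≤ S.eh χ P := by
  unfold Sys.eh Sys.Rg Rh
  rw [← sub_div, ← Finset.sum_sub_distrib]
  apply div_nonneg _ (by positivity)
  exact Finset.sum_nonneg fun x _ => sub_nonneg.2 (S.a_le_rho hχ0 x _)

theorem Sys.Rg_nonneg (S : Sys α) {χ : ℕ → ℝ} (hχ0 : ∀ s, 0 ≤ χ s) (P : Finset α) :
    0 ≤ S.Rg χ P := by
  unfold Sys.Rg
  exact div_nonneg (Finset.sum_nonneg fun x _ => S.a_nonneg hχ0 x _) (by positivity)

theorem Sys.y_nonneg (S : Sys α) (j : ℕ) : 0 ≤ S.y j := by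
  unfold Sys.y
  positivity

end UF
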