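import Pool.Agent.UF.Base
import Pool.Agent.UF.Jo6
import Pool.Agent.UF.Js1
import Pool.Agent.UF.Jw2

set_option autoImplicit false
set_option linter.unusedSectionVars false
set_option linter.unusedVariables false
open Finset

namespace UF
variable {α : Type*} [Fintype α] [DecidableEq α]

theorem Sys.y_step (S : Sys α) (hm : 1 ≤ S.m) (a : ℕ) :
    S.y (a + 1) ≤ 1 / 64 * (1 / (1 + (a : ℝ) ^ 2 / S.m) - 1 / (1 + ((a : ℝ) + 1) ^ 2 / S.m)) := by
  have hm0 : (0 : ℝ) < S.m := by exact_mod_cast hm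
  have ha : (0 : ℝ) ≤ a := Nat.cast_nonneg a
  unfold Sys.y
  push_cast
  set A : ℝ := (a : ℝ) ^ 2 / S.m with hA
  set B : ℝ := ((a : ℝ) + 1) ^ 2 / S.m with hB
  have hA0 : 0 ≤ A := by positivity
  have hB0 : 0 ≤ B := by positivity
  have hAB : A ≤ B := by
    rw [hA, hB]
    apply div_le_div_of_nonneg_right _ hm0.le
    nlinarith
  have hd : ((a : ℝ) + 1) / S.m ≤ B - A := by
    rw [hA, hB, ← sub_div]
    apply div_le_div_of_nonneg_right _ hm0.le
    nlinarith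
  have h1 : 1 / (1 + A) - 1 / (1 + B) = (B - A) / ((1 + A) * (1 + B)) := by
    field_simp
    ring
  have h2 : (((a : ℝ) + 1) / S.m) / (1 + B) ^ 2 ≤ (B - A) / ((1 + A) * (1 + B)) := by
    have hc0 : 0 ≤ ((a : ℝ) + 1) / S.m := by positivity
    apply div_le_div₀ (by linarith) hd (by positivity)
    nlinarith
  rw [h1]
  calc 1 / 64 * (((a : ℝ) + 1) / S.m) / (1 + B) ^ 2
      = 1 / 64 * ((((a : ℝ) + 1) / S.m) / (1 + B) ^ 2) := by ring
    _ ≤ _ := by
      apply mul_le_mul_of_nonneg_left h2 (by norm_num)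

theorem Sys.y_sum (S : Sys α) (hm : 1 ≤ S.m) (a : ℕ) :
    ∑ j ∈ range a, S.y (j + 1) ≤ 1 / 64 * (1 - 1 / (1 + (a : ℝ) ^ 2 / S.m)) := by
  induction a with
  | zero => simp
  | succ a ih =>
    rw [Finset.sum_range_succ]
    have := S.y_step hm a
    push_cast
    linarith

theorem Sys.y_sum_le (S : Sys α) (hm : 1 ≤ S.m) {p : ℕ} (hp : p < S.m) :
    ∑ q ∈ Ico p S.m, S.y (S.m - q) ≤ 1 / 16 * (1 - wt S.m p) := by
  have hm0 : (0 : ℝ) < S.m := by exact_mod_cast hm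
  have h1 : ∑ q ∈ Ico p S.m, S.y (S.m - q) = ∑ j ∈ range (S.m - p), S.y (j + 1) := by
    rw [Finset.sum_Ico_eq_sum_range, ← Finset.sum_range_reflect]
    apply Finset.sum_congr rfl
    intro j hj
    rw [Finset.mem_range] at hj
    congr 1
    omega
  rw [h1]
  refine (S.y_sum hm _).trans ?_
  have hw := one_sub_wt_ge hm p
  have hcast : ((S.m - p : ℕ) : ℝ) = (S.m : ℝ) - p := by
    rw [Nat.cast_sub hp.le]
  rw [hcast]
  have hsq : ((S.m : ℝ) - p) ^ 2 = ((p : ℝ) - S.m) ^ 2 := by ring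
  rw [hsq]
  set x : ℝ := ((p : ℝ) - S.m) ^ 2 / S.m with hx
  have hx0 : 0 ≤ x := by positivity
  have h2 : 1 - 1 / (1 + x) ≤ min 1 x := by
    apply le_min
    · have : 0 ≤ 1 / (1 + x) := by positivity
      linarith
    · have h3 : 1 - x ≤ 1 / (1 + x) := by
        rw [le_div_iff₀ (by positivity)]
        nlinarith
      linarith
  linarith

theorem Sys.Ev_H_le (S : Sys α) {q : ℕ} (hq : q ≤ 2 * S.m) :
    Ev q S.H ≤ ∑ p ∈ range (q + 1), S.ph p := by
  have h1 : Ev q S.H ≤ Ev q (Ds (fun _ => 0) S.f) :=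
    Ev_mono (fun P _ => H_le_K S.f_nonneg S.f_le_one P)
  refine h1.trans (le_of_eq ?_)
  rw [Ev_K S.f (by rw [S.hcard]; exact hq)]
  rfl

theorem Sys.charge_bound (S : Sys α) (hm : 1 ≤ S.m) :
    ∑ q ∈ range S.m, S.y (S.m - q) * Ev q S.H ≤ 1 / 16 * S.cost := by
  have h1 : ∑ q ∈ range S.m, S.y (S.m - q) * Ev q S.H ≤
      ∑ q ∈ range S.m, ∑ p ∈ range (q + 1), S.y (S.m - q) * S.ph p := by
    apply Finset.sum_le_sum
    intro q hq
    rw [Finset.mem_range] at hq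
    rw [← Finset.mul_sum]
    exact mul_le_mul_of_nonneg_left (S.Ev_H_le (by omega)) (S.y_nonneg _)
  have h2 : ∑ q ∈ range S.m, ∑ p ∈ range (q + 1), S.y (S.m - q) * S.ph p =
      ∑ p ∈ range S.m, ∑ q ∈ Ico p S.m, S.y (S.m - q) * S.ph p := by
    apply Finset.sum_comm'
    intro q p
    simp only [Finset.mem_range, Finset.mem_Ico]
    omega
  have h3 : ∑ p ∈ range S.m, ∑ q ∈ Ico p S.m, S.y (S.m - q) * S.ph p ≤
      ∑ p ∈ range S.m, 1 / 16 * ((1 - wt S.m p) * S.ph p) := by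
    apply Finset.sum_le_sum
    intro p hp
    rw [Finset.mem_range] at hp
    rw [← Finset.sum_mul, ← mul_assoc]
    exact mul_le_mul_of_nonneg_right (S.y_sum_le hm hp) (S.ph_nonneg p)
  have h4 : ∑ p ∈ range S.m, 1 / 16 * ((1 - wt S.m p) * S.ph p) ≤
      ∑ p ∈ range (2 * S.m + 1), 1 / 16 * ((1 - wt S.m p) * S.ph p) := by
    apply Finset.sum_le_sum_of_subset_of_nonneg
    · intro p hp
      rw [Finset.mem_range] at hp ⊢
      omega
    · intro p _ _
      have := wt_le_one S.m p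
      have h0 := S.ph_nonneg p
      have : 0 ≤ 1 - wt S.m p := by linarith
      positivity
  have h5 : ∑ p ∈ range (2 * S.m + 1), 1 / 16 * ((1 - wt S.m p) * S.ph p) = 1 / 16 * S.cost := by
    unfold Sys.cost
    rw [Finset.mul_sum]
  linarith

end UF
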