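import Pool.Agent.UF.Base
import Pool.Agent.UF.Jo10
import Pool.Agent.UF.Jo9
import Pool.Agent.UF.Js1
import Pool.Agent.UF.Jw2

set_option autoImplicit false
set_option linter.unusedSectionVars false
set_option linter.unusedVariables false
open Finset

namespace UF
variable {α : Type*} [Fintype α] [DecidableEq α]

theorem Sys.Ev_Rh_bound (S : Sys α) (hR : S.Reg) {χ : ℕ → ℝ} (hχ0 : ∀ s, 0 ≤ χ s)
    {t : ℕ} (ht : t < 2 * S.m) :
    Ev t (Rh S.f S.z χ) ≤ 2 / S.m * ∑ s ∈ range (2 * S.m + 1), χ s * S.ph s := by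
  have hm : 0 < S.m := by have := hR.1; omega
  have hm' : (0:ℝ) < S.m := by exact_mod_cast hm
  have h1 := Ev_Rh_le S.f_nonneg S.f_le_one S.z (fun C hC => S.z_mem hC) hχ0 (q := t)
    (by rw [S.hcard]; exact ht)
  refine h1.trans ?_
  rw [S.hcard, Finset.mul_sum]
  calc ∑ s ∈ Icc (t + 1) (2 * S.m), 1 / (s : ℝ) * χ s * Ev s S.f
      ≤ ∑ s ∈ Icc (t + 1) (2 * S.m), 2 / S.m * (χ s * S.ph s) := by
        refine Finset.sum_le_sum fun s hs => ?_
        have hp0 := S.ph_nonneg s
        have hs1 : 1 ≤ s := by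
          have := (Finset.mem_Icc.1 hs).1
          omega
        have hs' : (0:ℝ) < s := by exact_mod_cast hs1
        by_cases h : s + S.h < S.m
        · have h5 := S.ph_eq_zero (Or.inl h)
          have h6 : Ev s S.f = 0 := h5
          rw [h5, h6]; simp
        · have h2 : 5000 * S.h ≤ S.m := hR.2
          have h3 : S.m ≤ 2 * s := by omega
          have h3' : (S.m : ℝ) ≤ 2 * s := by exact_mod_cast h3
          have h4 : 1 / (s:ℝ) ≤ 2 / S.m := by
            rw [div_le_div_iff₀ hs' hm']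
            linarith
          have h7 : 0 ≤ χ s * S.ph s := mul_nonneg (hχ0 s) hp0
          have h8 := mul_le_mul_of_nonneg_right h4 h7
          have h9 : 1 / (s : ℝ) * χ s * Ev s S.f = 1 / (s : ℝ) * (χ s * S.ph s) := by
            unfold Sys.ph
            ring
          rw [h9]
          exact h8
    _ ≤ ∑ s ∈ range (2 * S.m + 1), 2 / S.m * (χ s * S.ph s) := by
        refine Finset.sum_le_sum_of_subset_of_nonneg ?_ ?_
        · intro s hs
          rw [Finset.mem_Icc] at hs
          rw [Finset.mem_range]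
          omega
        · intro s _ _
          exact mul_nonneg (by positivity) (mul_nonneg (hχ0 s) (S.ph_nonneg s))

theorem Sys.upper_half (S : Sys α) {χ : ℕ → ℝ} (hχ0 : ∀ s, 0 ≤ χ s) :
    ∑ q ∈ Ico S.m (2 * S.m), Ev q (fun P => S.H P * Rh S.f S.z χ P)
      ≤ ∑ s ∈ range (2 * S.m + 1), max ((s : ℝ) - S.m) 0 / S.m * (χ s * S.ph s) := by
  have h1 : ∀ q ∈ Ico S.m (2 * S.m), Ev q (fun P => S.H P * Rh S.f S.z χ P) ≤
      ∑ s ∈ range (2 * S.m + 1), if q < s then 1 / (s : ℝ) * (χ s * S.ph s) else 0 := by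
    intro q hq
    have hq' := Finset.mem_Ico.1 hq
    have h2 : Ev q (fun P => S.H P * Rh S.f S.z χ P) ≤ Ev q (Rh S.f S.z χ) := by
      refine Ev_mono fun P _ => ?_
      have h3 := Rh_nonneg S.f_nonneg S.f_le_one S.z hχ0 P
      exact mul_le_of_le_one_left h3 (S.H_le_one P)
    have h4 := Ev_Rh_le S.f_nonneg S.f_le_one S.z (fun C hC => S.z_mem hC) hχ0 (q := q)
      (by rw [S.hcard]; exact hq'.2)
    refine (h2.trans h4).trans (le_of_eq ?_)
    rw [S.hcard, ← Finset.sum_filter]
    have h5 : (range (2 * S.m + 1)).filter (fun s => q < s) = Icc (q + 1) (2 * S.m) := by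
      ext s
      simp only [Finset.mem_filter, Finset.mem_range, Finset.mem_Icc]
      omega
    rw [h5]
    refine Finset.sum_congr rfl fun s _ => ?_
    unfold Sys.ph
    ring
  refine (Finset.sum_le_sum h1).trans ?_
  rw [Finset.sum_comm]
  refine Finset.sum_le_sum fun s hs => ?_
  rw [← Finset.sum_filter, Finset.sum_const, nsmul_eq_mul]
  have hs' : s < 2 * S.m + 1 := Finset.mem_range.1 hs
  have h6 : (Ico S.m (2 * S.m)).filter (fun q => q < s) = Ico S.m s := by
    ext q
    simp only [Finset.mem_filter, Finset.mem_Ico]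
    omega
  rw [h6, Nat.card_Ico]
  have h7 : 0 ≤ χ s * S.ph s := mul_nonneg (hχ0 s) (S.ph_nonneg s)
  rcases Nat.lt_or_ge S.m s with h | h
  · have hm : 0 < S.m := by omega
    have hm' : (0:ℝ) < S.m := by exact_mod_cast hm
    have h8 : (S.m : ℝ) < s := by exact_mod_cast h
    have hs0 : (0:ℝ) < s := by linarith
    rw [Nat.cast_sub h.le, max_eq_left (by linarith), ← mul_assoc]
    refine mul_le_mul_of_nonneg_right ?_ h7
    rw [mul_one_div, div_le_div_iff₀ hs0 hm']
    nlinarith
  · have h9 : s - S.m = 0 := by omega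
    rw [h9]
    simp only [Nat.cast_zero, zero_mul]
    exact mul_nonneg (div_nonneg (le_max_right _ _) (Nat.cast_nonneg _)) h7

end UF
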