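import Pool.Agent.UF.Base
import Pool.Agent.UF.Jo1
import Pool.Agent.UF.Jo6

set_option autoImplicit false
set_option linter.unusedSectionVars false
set_option linter.unusedVariables false
open Finset

namespace UF
variable {α : Type*} [Fintype α] [DecidableEq α]

theorem xiR_nonneg (F : Finset (Finset α)) (C B : Finset α) : 0 ≤ xiR F C B := by
  unfold xiR
  split_ifs <;> norm_num

theorem xiR_le_one (F : Finset (Finset α)) (C B : Finset α) : xiR F C B ≤ 1 := by
  unfold xiR
  split_ifs <;> norm_num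

theorem xiR_anti (F : Finset (Finset α)) (C : Finset α) {B B' : Finset α} (h : B ⊆ B') :
    xiR F C B' ≤ xiR F C B := by
  by_cases h1 : xi F C B'
  · have h2 : xi F C B := by
      obtain ⟨A, hA, hB, hC⟩ := h1
      exact ⟨A, hA, h.trans hB, hC⟩
    unfold xiR
    rw [if_pos h1, if_pos h2]
  · have h3 : xiR F C B' = 0 := by
      unfold xiR
      rw [if_neg h1]
    rw [h3]
    exact xiR_nonneg F C B

theorem xiR_eq_one {F : Finset (Finset α)} {C A B : Finset α} (hA : A ∈ F) (hAC : A ⊂ C)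
    (hB : B ⊆ A) : xiR F C B = 1 := by
  unfold xiR
  rw [if_pos ⟨A, hA, hB, hAC⟩]

theorem Fb_nonneg (F : Finset (Finset α)) (b : ℕ) (Q : Finset α) : 0 ≤ Fb F b Q := by
  unfold Fb
  split_ifs <;> norm_num

theorem Fb_le_one (F : Finset (Finset α)) (b : ℕ) (Q : Finset α) : Fb F b Q ≤ 1 := by
  unfold Fb
  split_ifs <;> norm_num

theorem Hb_nonneg (F : Finset (Finset α)) (b : ℕ) (Q : Finset α) : 0 ≤ Hb F b Q :=
  Ds_nonneg (Fb_le_one F b) (Fb_nonneg F b) Q

theorem Hb_le_one (F : Finset (Finset α)) (b : ℕ) (Q : Finset α) : Hb F b Q ≤ 1 :=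
  Ds_le_one (Fb_le_one F b) (fun _ => le_rfl) Q

theorem Hb_of_card_lt (F : Finset (Finset α)) (b : ℕ) (Q : Finset α) (h : Q.card < b) :
    Hb F b Q = 0 := by
  have key : ∀ n : ℕ, ∀ Q : Finset α, Q.card = n → Q.card < b → Hb F b Q = 0 := by
    intro n
    induction n using Nat.strong_induction_on with
    | _ n ih =>
      intro Q hQ hQb
      have h1 : Hb F b Q = Fb F b Q + (1 - Fb F b Q) * Dn (Hb F b) Q := Ds_eq _ _ Q
      have h2 : Fb F b Q = 0 := by
        unfold Fb
        rw [if_neg]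
        rintro ⟨_, h3⟩
        omega
      have h3 : Dn (Hb F b) Q = 0 := by
        unfold Dn
        have h4 : ∑ y ∈ Q, Hb F b (Q.erase y) = 0 := by
          refine Finset.sum_eq_zero fun y hy => ?_
          have h5 := Finset.card_erase_of_mem hy
          have h6 := Finset.card_pos.2 ⟨y, hy⟩
          exact ih (Q.erase y).card (by omega) _ rfl (by omega)
        rw [h4, zero_div]
      rw [h1, h2, h3]
      ring
  exact key Q.card Q rfl h

theorem Dn_Hb_le (F : Finset (Finset α)) (b : ℕ) (Q : Finset α) :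
    Dn (Hb F b) Q ≤ Hb F b Q :=
  Dn_H_le_H (Fb_nonneg F b) (Fb_le_one F b) Q

end UF
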