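import Pool.Agent.UF.Base
import Pool.Agent.UF.Jo15
import Pool.Agent.UF.Jo2
import Pool.Agent.UF.Js1
import Pool.Agent.UF.Ju2

set_option autoImplicit false
set_option linter.unusedSectionVars false
set_option linter.unusedVariables false
open Finset

namespace UF
variable {α : Type*} [Fintype α] [DecidableEq α]

theorem Sys.dl_nonneg' (S : Sys α) (k : ℕ) : 0 ≤ S.dl k := by
  unfold Sys.dl
  positivity

theorem Sys.Rg_le_Rh' (S : Sys α) {χ : ℕ → ℝ} (hχ0 : ∀ s, 0 ≤ χ s) (P : Finset α) :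
    S.Rg χ P ≤ Rh S.f S.z χ P := by
  unfold Sys.Rg Rh
  apply div_le_div_of_nonneg_right _ (by positivity)
  exact Finset.sum_le_sum fun x _ => S.a_le_rho hχ0 x _

theorem sq_sum_erase' (A : Finset α) (a : α → ℝ) :
    (∑ x ∈ A, a x) ^ 2 = ∑ x ∈ A, a x ^ 2 + ∑ x ∈ A, ∑ y ∈ A.erase x, a x * a y := by
  rw [sq, Finset.sum_mul_sum, ← Finset.sum_add_distrib]
  refine Finset.sum_congr rfl fun x hx => ?_
  rw [← Finset.add_sum_erase A (fun y => a x * a y) hx]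
  ring

theorem Sys.second_pairs (S : Sys α) {χ : ℕ → ℝ} (hχ0 : ∀ s, 0 ≤ χ s) (hχ1 : ∀ s, χ s ≤ 1)
    (k : ℕ) {t : ℕ} (ht : t + 2 ≤ 2 * S.m) :
    Ev t (fun P => max (Hb S.F (S.bk k) P - S.dl k) 0 * S.Rg χ P ^ 2)
      ≤ 1 / (2 * (S.m : ℝ) - t) * Ev t (Rh S.f S.z χ)
        + 1 / (((t : ℝ) + 1) * ((t : ℝ) + 2)) * Ev (t + 2) (S.Om χ k) := by
  have hcard := S.hcard
  have hN2 : (2:ℝ) ≤ 2 * (S.m : ℝ) - t := by
    have : ((t + 2 : ℕ) : ℝ) ≤ ((2 * S.m : ℕ) : ℝ) := by exact_mod_cast ht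
    push_cast at this
    linarith
  set N : ℝ := 2 * (S.m : ℝ) - t with hN
  set W : Finset α → ℝ := fun P => max (Hb S.F (S.bk k) P - S.dl k) 0 with hW
  have hW0 : ∀ P, 0 ≤ W P := fun P => le_max_right _ _
  have hW1 : ∀ P, W P ≤ 1 := by
    intro P
    apply max_le
    · linarith [Hb_le_one S.F (S.bk k) P, S.dl_nonneg' k]
    · norm_num
  set Φ : Finset α → α → α → ℝ := fun P x y =>
    S.a χ x (insert x P) * S.a χ y (insert y P) * W P with hΦ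
  have hpt : ∀ P : Finset α, P.card = t → W P * S.Rg χ P ^ 2 ≤
      1 / N * Rh S.f S.z χ P + 1 / (N * (N - 1)) * (∑ x ∈ Pᶜ, ∑ y ∈ Pᶜ.erase x, Φ P x y) := by
    intro P hP
    have hPc : (Pᶜ.card : ℝ) = N := by
      rw [Finset.card_compl, hcard, hP, Nat.cast_sub (by omega)]
      push_cast
      rfl
    set A : ℝ := ∑ x ∈ Pᶜ, S.a χ x (insert x P) with hA
    have hRg : S.Rg χ P = A / N := by
      unfold Sys.Rg
      rw [hPc]
    have hN0 : 0 < N := by linarith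
    have h1 : A ^ 2 = ∑ x ∈ Pᶜ, S.a χ x (insert x P) ^ 2 +
        ∑ x ∈ Pᶜ, ∑ y ∈ Pᶜ.erase x, S.a χ x (insert x P) * S.a χ y (insert y P) :=
      sq_sum_erase' _ _
    have h2 : ∑ x ∈ Pᶜ, S.a χ x (insert x P) ^ 2 ≤ A := by
      rw [hA]
      refine Finset.sum_le_sum fun x _ => ?_
      have e1 := S.a_nonneg hχ0 x (insert x P)
      have e2 : S.a χ x (insert x P) ≤ 1 :=
        (S.a_le_rho hχ0 x _).trans (S.rho_le_one hχ0 hχ1 x _)
      nlinarith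
    set Z : ℝ := ∑ x ∈ Pᶜ, ∑ y ∈ Pᶜ.erase x, S.a χ x (insert x P) * S.a χ y (insert y P) with hZ
    have hZ0 : 0 ≤ Z := Finset.sum_nonneg fun x _ => Finset.sum_nonneg fun y _ =>
      mul_nonneg (S.a_nonneg hχ0 x _) (S.a_nonneg hχ0 y _)
    have hZΦ : ∑ x ∈ Pᶜ, ∑ y ∈ Pᶜ.erase x, Φ P x y = Z * W P := by
      rw [hZ, Finset.sum_mul]
      refine Finset.sum_congr rfl fun x _ => ?_
      rw [Finset.sum_mul]
    have hA0 : 0 ≤ A := Finset.sum_nonneg fun x _ => S.a_nonneg hχ0 x _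
    have hRR : A / N ≤ Rh S.f S.z χ P := by
      rw [← hRg]
      exact S.Rg_le_Rh' hχ0 P
    rw [hRg, hZΦ]
    have h3 : W P * (A / N) ^ 2 ≤ 1 / N * (A / N) + 1 / N ^ 2 * (Z * W P) := by
      have e1 : (A / N) ^ 2 = A ^ 2 / N ^ 2 := div_pow _ _ _
      rw [e1, h1]
      have e2 : W P * ((∑ x ∈ Pᶜ, S.a χ x (insert x P) ^ 2 + Z) / N ^ 2) =
          (W P * ∑ x ∈ Pᶜ, S.a χ x (insert x P) ^ 2) / N ^ 2 + 1 / N ^ 2 * (Z * W P) := by ring
      rw [e2]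
      have e3 : 1 / N * (A / N) = A / N ^ 2 := by
        field_simp
      rw [e3]
      have e4 : W P * ∑ x ∈ Pᶜ, S.a χ x (insert x P) ^ 2 ≤ A := by
        have e5 : 0 ≤ ∑ x ∈ Pᶜ, S.a χ x (insert x P) ^ 2 := Finset.sum_nonneg fun x _ => sq_nonneg _
        calc W P * ∑ x ∈ Pᶜ, S.a χ x (insert x P) ^ 2 ≤ 1 * ∑ x ∈ Pᶜ, S.a χ x (insert x P) ^ 2 :=
              mul_le_mul_of_nonneg_right (hW1 P) e5
          _ ≤ A := by rw [one_mul]; exact h2
      have e6 := div_le_div_of_nonneg_right e4 (show (0:ℝ) ≤ N ^ 2 by positivity)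
      linarith
    have h4 : 1 / N ^ 2 * (Z * W P) ≤ 1 / (N * (N - 1)) * (Z * W P) := by
      apply mul_le_mul_of_nonneg_right _ (mul_nonneg hZ0 (hW0 P))
      apply one_div_le_one_div_of_le
      · nlinarith
      · nlinarith
    have h5 : 1 / N * (A / N) ≤ 1 / N * Rh S.f S.z χ P :=
      mul_le_mul_of_nonneg_left hRR (by positivity)
    linarith
  have hp2 : t + 2 ≤ Fintype.card α := by rw [hcard]; exact ht
  have hD := Ev_double2 hp2 Φ
  have hcR : (Fintype.card α : ℝ) = 2 * (S.m : ℝ) := by rw [hcard]; push_cast; ring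
  rw [hcR] at hD
  have hOm : Ev (t + 2) (fun T => ∑ x ∈ T, ∑ y ∈ T.erase x, Φ ((T.erase x).erase y) x y) =
      Ev (t + 2) (S.Om χ k) := by
    refine Ev_congr fun T _ => ?_
    unfold Sys.Om
    refine Finset.sum_congr rfl fun x hx => Finset.sum_congr rfl fun y hy => ?_
    rw [Finset.mem_erase] at hy
    have e1 : insert x ((T.erase x).erase y) = T.erase y := by
      rw [Finset.erase_right_comm, Finset.insert_erase]
      exact Finset.mem_erase.2 ⟨fun h => hy.1 h.symm, hx⟩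
    have e2 : insert y ((T.erase x).erase y) = T.erase x := by
      rw [Finset.insert_erase]
      exact Finset.mem_erase.2 hy
    simp only [hΦ]
    rw [e1, e2]
    rfl
  rw [hOm] at hD
  calc Ev t (fun P => W P * S.Rg χ P ^ 2) ≤ Ev t (fun P => 1 / N * Rh S.f S.z χ P +
        1 / (N * (N - 1)) * (∑ x ∈ Pᶜ, ∑ y ∈ Pᶜ.erase x, Φ P x y)) := Ev_mono hpt
    _ = 1 / N * Ev t (Rh S.f S.z χ) + 1 / (N * (N - 1)) * Ev t (fun P => ∑ x ∈ Pᶜ, ∑ y ∈ Pᶜ.erase x, Φ P x y) := by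
        rw [Ev_add, Ev_const_mul, Ev_const_mul]
    _ = 1 / N * Ev t (Rh S.f S.z χ) + 1 / (((t : ℝ) + 1) * ((t : ℝ) + 2)) * Ev (t + 2) (S.Om χ k) := by
        rw [one_div_mul_eq_div (N * (N - 1)), hD, mul_comm ((t : ℝ) + 1), one_div_mul_eq_div (((t : ℝ) + 2) * _)]

end UF
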