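import Pool.Agent.UF.Base

set_option autoImplicit false
set_option linter.unusedSectionVars false
set_option linter.unusedVariables false
open Finset

namespace UF
variable {α : Type*} [Fintype α] [DecidableEq α]

theorem Sys.sqrt_facts (S : Sys α) (hR : S.Reg) :
    (10000 : ℝ) ≤ Real.sqrt S.m ∧ Real.sqrt S.m * Real.sqrt S.m = S.m := by
  have hm : (100000000 : ℝ) ≤ S.m := by exact_mod_cast hR.1
  refine ⟨?_, Real.mul_self_sqrt (by positivity)⟩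
  rw [show (10000 : ℝ) = Real.sqrt (10000 ^ 2) by rw [Real.sqrt_sq (by norm_num)]]
  exact Real.sqrt_le_sqrt (by norm_num; exact_mod_cast hR.1)

theorem Sys.r_bounds (S : Sys α) (hR : S.Reg) :
    Real.sqrt S.m ≤ S.r ∧ (S.r : ℝ) ≤ 1.001 * Real.sqrt S.m ∧ (S.r : ℝ) ≤ S.m / 5000 := by
  obtain ⟨h1, h2⟩ := S.sqrt_facts hR
  have h3 : (S.r : ℝ) = (Nat.sqrt S.m : ℝ) + 1 := by
    unfold Sys.r; push_cast; ring
  have h4 : Real.sqrt S.m ≤ (Nat.sqrt S.m : ℝ) + 1 := by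
    rw [Real.sqrt_le_left (by positivity)]
    have := Nat.lt_succ_sqrt S.m
    have h5 : (S.m : ℝ) < ((Nat.sqrt S.m).succ * (Nat.sqrt S.m).succ : ℕ) := by exact_mod_cast this
    push_cast at h5
    nlinarith
  have h5 : (Nat.sqrt S.m : ℝ) ≤ Real.sqrt S.m := by
    apply Real.le_sqrt_of_sq_le
    have := Nat.sqrt_le' S.m
    exact_mod_cast this
  have h6 : (S.r : ℝ) ≤ 1.001 * Real.sqrt S.m := by
    rw [h3]; linarith
  refine ⟨by rw [h3]; exact h4, h6, ?_⟩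
  refine h6.trans ?_
  rw [le_div_iff₀ (by norm_num)]
  nlinarith [mul_le_mul_of_nonneg_right h1 (Real.sqrt_nonneg (S.m : ℝ))]

theorem Sys.k_bounds (S : Sys α) (hR : S.Reg) {k : ℕ} (hk : k < S.M) :
    k * S.r ≤ S.h ∧ (k + 1) * S.r ≤ S.m ∧ ((S.bk k : ℕ) : ℝ) = S.m - ((k : ℝ) + 1) * S.r
      ∧ 1 ≤ S.bk k ∧ ((k : ℝ) + 1) * S.r ≤ S.m / 2500 := by
  obtain ⟨-, -, hr⟩ := S.r_bounds hR
  have h1 : k * S.r ≤ S.h := by
    have h2 : k ≤ S.h / S.r := by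
      unfold Sys.M at hk; omega
    exact (Nat.mul_le_mul_right _ h2).trans (Nat.div_mul_le_self _ _)
  have h1' : (k : ℝ) * S.r ≤ S.h := by exact_mod_cast h1
  have hh : 5000 * (S.h : ℝ) ≤ S.m := by exact_mod_cast hR.2
  have hm : (100000000 : ℝ) ≤ S.m := by exact_mod_cast hR.1
  have h3 : ((k : ℝ) + 1) * S.r ≤ S.m / 2500 := by
    have : ((k : ℝ) + 1) * S.r = k * S.r + S.r := by ring
    rw [this]; linarith
  have h4 : (k + 1) * S.r ≤ S.m := by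
    have : ((k : ℝ) + 1) * S.r ≤ S.m := by linarith
    exact_mod_cast this
  have h5 : ((S.bk k : ℕ) : ℝ) = S.m - ((k : ℝ) + 1) * S.r := by
    unfold Sys.bk
    rw [Nat.cast_sub h4]
    push_cast; ring
  refine ⟨h1, h4, h5, ?_, h3⟩
  have : (1 : ℝ) ≤ ((S.bk k : ℕ) : ℝ) := by rw [h5]; linarith
  exact_mod_cast this

theorem Sys.card_bounds (S : Sys α) (hR : S.Reg) {C : Finset α} (hC : C ∈ S.F) :
    (S.m : ℝ) * (4999 / 5000) ≤ C.card ∧ (C.card : ℝ) ≤ S.m * (5001 / 5000) := by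
  have h1 : (S.m : ℝ) ≤ C.card + S.h := by exact_mod_cast S.hlo C hC
  have h2 : (C.card : ℝ) ≤ S.m + S.h := by exact_mod_cast S.hhi C hC
  have hh : 5000 * (S.h : ℝ) ≤ S.m := by exact_mod_cast hR.2
  constructor <;> linarith

end UF
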