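import Pool.Agent.UF.Base
import Pool.Agent.UF.Jo10
import Pool.Agent.UF.Jo11
import Pool.Agent.UF.Jo16
import Pool.Agent.UF.Js1
import Pool.Agent.UF.Js12
import Pool.Agent.UF.Js3
import Pool.Agent.UF.Ju2

set_option autoImplicit false
set_option linter.unusedSectionVars false
set_option linter.unusedVariables false
open Finset

namespace UF
variable {α : Type*} [Fintype α] [DecidableEq α]

theorem Sys.far_k_pt (S : Sys α) {χ : ℕ → ℝ} (hχ0 : ∀ s, 0 ≤ χ s)
    (k J : ℕ) {a : ℝ} (ha : 0 < a) (hdl : 0 ≤ S.dl k) (P : Finset α) :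
    Hb S.F (S.bk k) P * ∑ j ∈ Icc 1 J, max (Rh S.f S.z χ P - a * j) 0
      ≤ (J : ℝ) * (S.dl k * Rh S.f S.z χ P + S.eh χ P)
        + 1 / (2 * a) * (max (Hb S.F (S.bk k) P - S.dl k) 0 * S.Rg χ P ^ 2) := by
  have hR0 : 0 ≤ Rh S.f S.z χ P := Rh_nonneg S.f_nonneg S.f_le_one S.z hχ0 P
  have hg0 := S.Rg_nonneg hχ0 P
  have he0 := S.eh_nonneg hχ0 P
  have hb0 := Hb_nonneg S.F (S.bk k) P
  have hb1 := Hb_le_one S.F (S.bk k) P
  have heq : Rh S.f S.z χ P = S.Rg χ P + S.eh χ P := by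
    unfold Sys.eh; ring
  set A := ∑ j ∈ Icc 1 J, max (Rh S.f S.z χ P - a * j) 0 with hA
  have hA0 : 0 ≤ A := Finset.sum_nonneg fun j _ => le_max_right _ _
  have hA1 : A ≤ J * Rh S.f S.z χ P := by
    calc A ≤ ∑ j ∈ Icc 1 J, Rh S.f S.z χ P := by
          refine Finset.sum_le_sum fun j _ => ?_
          apply max_le _ hR0
          have : 0 ≤ a * (j : ℝ) := by positivity
          linarith
      _ = J * Rh S.f S.z χ P := by
          rw [Finset.sum_const, Nat.card_Icc, nsmul_eq_mul]; simp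
  have hA2 : A ≤ S.Rg χ P ^ 2 / (2 * a) + J * S.eh χ P := by
    calc A ≤ ∑ j ∈ Icc 1 J, (max (S.Rg χ P - a * j) 0 + S.eh χ P) := by
          refine Finset.sum_le_sum fun j _ => ?_
          apply max_le
          · have := le_max_left (S.Rg χ P - a * (j : ℝ)) 0
            rw [heq]; linarith
          · have := le_max_right (S.Rg χ P - a * (j : ℝ)) 0
            linarith
      _ = ∑ j ∈ Icc 1 J, max (S.Rg χ P - a * j) 0 + J * S.eh χ P := by
          rw [Finset.sum_add_distrib, Finset.sum_const, Nat.card_Icc, nsmul_eq_mul]; simp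
      _ ≤ S.Rg χ P ^ 2 / (2 * a) + J * S.eh χ P := by
          have := sum_pos_part hg0 ha J
          linarith
  set M := max (Hb S.F (S.bk k) P - S.dl k) 0 with hM
  have hM0 : 0 ≤ M := le_max_right _ _
  have hM1 : M ≤ 1 := max_le (by linarith) zero_le_one
  have hHM : Hb S.F (S.bk k) P ≤ S.dl k + M := by
    have := le_max_left (Hb S.F (S.bk k) P - S.dl k) 0
    linarith
  have hJ0 : (0 : ℝ) ≤ J := Nat.cast_nonneg J
  have h1 : Hb S.F (S.bk k) P * A ≤ (S.dl k + M) * A := mul_le_mul_of_nonneg_right hHM hA0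
  have h2 : S.dl k * A ≤ S.dl k * (J * Rh S.f S.z χ P) := mul_le_mul_of_nonneg_left hA1 hdl
  have h3 : M * A ≤ M * (S.Rg χ P ^ 2 / (2 * a) + J * S.eh χ P) :=
    mul_le_mul_of_nonneg_left hA2 hM0
  have h4 : M * (J * S.eh χ P) ≤ 1 * (J * S.eh χ P) :=
    mul_le_mul_of_nonneg_right hM1 (mul_nonneg hJ0 he0)
  have h5 : M * (S.Rg χ P ^ 2 / (2 * a)) = 1 / (2 * a) * (M * S.Rg χ P ^ 2) := by ring
  rw [mul_add] at h3
  rw [add_mul] at h1
  rw [← h5]
  linarith

theorem Sys.far_k (S : Sys α) (hR : S.Reg) {χ : ℕ → ℝ} (hχ0 : ∀ s, 0 ≤ χ s)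
    (hχ1 : ∀ s, χ s ≤ 1) {c : ℝ} (hc : 0 < c) {t₁ w k : ℕ} (hk : k < S.M)
    (htw : t₁ + w ≤ S.m) (hχ : ∀ s, s ≤ t₁ + w → χ s = 0) :
    (w : ℝ) * ∑ q ∈ range t₁, Ev q (fun P =>
        Hb S.F (S.bk k) P * max (Rh S.f S.z χ P - c * S.y (S.m - q)) 0)
      ≤ ∑ t ∈ Ico t₁ (t₁ + w),
        (((k : ℝ) + 1) * S.r * (S.dl k * Ev t (Rh S.f S.z χ) + Ev t (S.eh χ))
          + 800 * ((k : ℝ) + 1) ^ 4 * S.m / c
            * (1 / (2 * (S.m : ℝ) - t) * Ev t (Rh S.f S.z χ)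
              + 1 / (((t : ℝ) + 1) * ((t : ℝ) + 2)) * Ev (t + 2) (S.Om χ k))) := by
  obtain ⟨hr1, hr2, hr3⟩ := S.r_bounds hR
  obtain ⟨hk1, hk2, hk3, hk4, hk5⟩ := S.k_bounds hR hk
  have hm0 : (100000000 : ℝ) ≤ S.m := by exact_mod_cast hR.1
  have hmpos : (0 : ℝ) < S.m := by linarith
  have hkp : (0 : ℝ) ≤ (k : ℝ) := Nat.cast_nonneg k
  set J : ℕ := (k + 1) * S.r with hJ
  have hJc : (J : ℝ) = ((k : ℝ) + 1) * S.r := by rw [hJ]; push_cast; ring
  have hbk : S.bk k = S.m - J := rfl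
  set a : ℝ := c / (1600 * ((k : ℝ) + 1) ^ 4 * S.m) with ha
  have hapos : 0 < a := by rw [ha]; positivity
  have h2a : 1 / (2 * a) = 800 * ((k : ℝ) + 1) ^ 4 * S.m / c := by
    rw [ha]; field_simp; norm_num
  have hdl : 0 ≤ S.dl k := by unfold Sys.dl; positivity
  -- comparison of charges
  have hcy : ∀ j : ℕ, j ≤ J → a * (j : ℝ) ≤ c * S.y j := by
    intro j hj
    have hj0 : (0 : ℝ) ≤ j := Nat.cast_nonneg j
    have hjJ : (j : ℝ) ≤ ((k : ℝ) + 1) * S.r := by rw [← hJc]; exact_mod_cast hj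
    have hs : Real.sqrt S.m ^ 2 = S.m := Real.sq_sqrt hmpos.le
    have hs0 := Real.sqrt_nonneg (S.m : ℝ)
    have hr0 : (0 : ℝ) ≤ S.r := Nat.cast_nonneg _
    have hr2' : (S.r : ℝ) ^ 2 ≤ 4 * S.m := by
      have : (S.r : ℝ) ^ 2 ≤ (1.001 * Real.sqrt S.m) ^ 2 := by
        apply pow_le_pow_left₀ hr0 hr2
      rw [mul_pow, hs] at this
      nlinarith
    have hj2 : (j : ℝ) ^ 2 ≤ 4 * ((k : ℝ) + 1) ^ 2 * S.m := by
      calc (j : ℝ) ^ 2 ≤ (((k : ℝ) + 1) * S.r) ^ 2 := pow_le_pow_left₀ hj0 hjJ 2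
        _ = ((k : ℝ) + 1) ^ 2 * (S.r : ℝ) ^ 2 := by ring
        _ ≤ ((k : ℝ) + 1) ^ 2 * (4 * S.m) := by gcongr
        _ = _ := by ring
    have hx : 1 + (j : ℝ) ^ 2 / S.m ≤ 5 * ((k : ℝ) + 1) ^ 2 := by
      have h1 : (j : ℝ) ^ 2 / S.m ≤ 4 * ((k : ℝ) + 1) ^ 2 := by
        rw [div_le_iff₀ hmpos]; exact hj2
      nlinarith
    have hx0 : 0 < 1 + (j : ℝ) ^ 2 / S.m := by positivity
    have hx2 : (1 + (j : ℝ) ^ 2 / S.m) ^ 2 ≤ 25 * ((k : ℝ) + 1) ^ 4 := by
      calc (1 + (j : ℝ) ^ 2 / S.m) ^ 2 ≤ (5 * ((k : ℝ) + 1) ^ 2) ^ 2 :=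
            pow_le_pow_left₀ hx0.le hx 2
        _ = _ := by ring
    unfold Sys.y
    have h25 : (0 : ℝ) < 25 * ((k : ℝ) + 1) ^ 4 := by positivity
    have e1 : a * (j : ℝ) = c * (1 / 64 * ((j : ℝ) / S.m) / (25 * ((k : ℝ) + 1) ^ 4)) := by
      rw [ha]; field_simp; ring
    rw [e1]
    gcongr
  -- each level t
  have key : ∀ t ∈ Ico t₁ (t₁ + w),
      ∑ q ∈ range t₁, Ev q (fun P =>
        Hb S.F (S.bk k) P * max (Rh S.f S.z χ P - c * S.y (S.m - q)) 0)
      ≤ (((k : ℝ) + 1) * S.r * (S.dl k * Ev t (Rh S.f S.z χ) + Ev t (S.eh χ))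
          + 800 * ((k : ℝ) + 1) ^ 4 * S.m / c
            * (1 / (2 * (S.m : ℝ) - t) * Ev t (Rh S.f S.z χ)
              + 1 / (((t : ℝ) + 1) * ((t : ℝ) + 2)) * Ev (t + 2) (S.Om χ k))) := by
    intro t ht
    rw [Finset.mem_Ico] at ht
    have hmN : 100000000 ≤ S.m := hR.1
    have htm : t < S.m := by omega
    have hg0 : ∀ j : ℕ, 0 ≤ Ev t (fun P =>
        Hb S.F (S.bk k) P * max (Rh S.f S.z χ P - a * (j : ℝ)) 0) := by
      intro j
      refine Ev_nonneg fun P _ => mul_nonneg (Hb_nonneg _ _ _) (le_max_right _ _)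
    -- step 1
    have s1 : ∑ q ∈ range t₁, Ev q (fun P =>
        Hb S.F (S.bk k) P * max (Rh S.f S.z χ P - c * S.y (S.m - q)) 0)
        ≤ ∑ q ∈ (range t₁).filter (fun q => S.bk k ≤ q), Ev t (fun P =>
          Hb S.F (S.bk k) P * max (Rh S.f S.z χ P - a * ((S.m - q : ℕ) : ℝ)) 0) := by
      rw [Finset.sum_filter]
      refine Finset.sum_le_sum fun q hq => ?_
      rw [Finset.mem_range] at hq
      by_cases hbq : S.bk k ≤ q
      · rw [if_pos hbq]
        have hjJ : S.m - q ≤ J := by rw [hbk] at hbq; omega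
        calc Ev q (fun P =>
              Hb S.F (S.bk k) P * max (Rh S.f S.z χ P - c * S.y (S.m - q)) 0)
            ≤ Ev q (fun P =>
              Hb S.F (S.bk k) P * max (Rh S.f S.z χ P - a * ((S.m - q : ℕ) : ℝ)) 0) := by
              refine Ev_mono fun P _ => ?_
              apply mul_le_mul_of_nonneg_left _ (Hb_nonneg _ _ _)
              apply max_le_max _ le_rfl
              have := hcy (S.m - q) hjJ
              linarith
          _ ≤ _ := by
              refine domination S.f_nonneg S.f_le_one S.z hχ0 (by omega)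
                (by rw [S.hcard]; omega) ?_ _ (Hb_nonneg _ _) (Dn_Hb_le _ _) _
              intro s _ hs
              exact hχ s (by omega)
      · rw [if_neg hbq]
        apply le_of_eq
        have : Ev q (fun P =>
              Hb S.F (S.bk k) P * max (Rh S.f S.z χ P - c * S.y (S.m - q)) 0)
            = Ev (α := α) q (fun _ => (0 : ℝ)) := by
          refine Ev_congr fun P hP => ?_
          rw [Hb_of_card_lt S.F (S.bk k) P (by omega), zero_mul]
        rw [this]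
        exact Ev_const (by rw [S.hcard]; omega) 0
    -- step 2
    have s2 : ∑ q ∈ (range t₁).filter (fun q => S.bk k ≤ q), Ev t (fun P =>
          Hb S.F (S.bk k) P * max (Rh S.f S.z χ P - a * ((S.m - q : ℕ) : ℝ)) 0)
        ≤ ∑ j ∈ Icc 1 J, Ev t (fun P =>
          Hb S.F (S.bk k) P * max (Rh S.f S.z χ P - a * (j : ℝ)) 0) := by
      have himg : ∑ q ∈ (range t₁).filter (fun q => S.bk k ≤ q), Ev t (fun P =>
          Hb S.F (S.bk k) P * max (Rh S.f S.z χ P - a * ((S.m - q : ℕ) : ℝ)) 0)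
          = ∑ j ∈ ((range t₁).filter (fun q => S.bk k ≤ q)).image (fun q => S.m - q),
            Ev t (fun P =>
              Hb S.F (S.bk k) P * max (Rh S.f S.z χ P - a * (j : ℝ)) 0) := by
        rw [Finset.sum_image]
        intro x hx y hy hxy
        simp only [Finset.coe_filter, Finset.mem_range, Set.mem_setOf_eq] at hx hy
        simp only at hxy
        omega
      rw [himg]
      refine Finset.sum_le_sum_of_subset_of_nonneg ?_ fun j _ _ => hg0 j
      intro j hj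
      rw [Finset.mem_image] at hj
      obtain ⟨q, hq, rfl⟩ := hj
      rw [Finset.mem_filter, Finset.mem_range] at hq
      rw [Finset.mem_Icc]
      have := hq.2
      rw [hbk] at this
      omega
    -- step 3
    have s3 : ∑ j ∈ Icc 1 J, Ev t (fun P =>
          Hb S.F (S.bk k) P * max (Rh S.f S.z χ P - a * (j : ℝ)) 0)
        = Ev t (fun P => Hb S.F (S.bk k) P *
            ∑ j ∈ Icc 1 J, max (Rh S.f S.z χ P - a * (j : ℝ)) 0) := by
      rw [← Ev_sum]
      refine Ev_congr fun P _ => ?_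
      rw [Finset.mul_sum]
    have s4 : Ev t (fun P => Hb S.F (S.bk k) P *
            ∑ j ∈ Icc 1 J, max (Rh S.f S.z χ P - a * (j : ℝ)) 0)
        ≤ (J : ℝ) * (S.dl k * Ev t (Rh S.f S.z χ) + Ev t (S.eh χ))
          + 1 / (2 * a) * Ev t (fun P =>
            max (Hb S.F (S.bk k) P - S.dl k) 0 * S.Rg χ P ^ 2) := by
      calc _ ≤ Ev t (fun P => (J : ℝ) * (S.dl k * Rh S.f S.z χ P + S.eh χ P)
            + 1 / (2 * a) * (max (Hb S.F (S.bk k) P - S.dl k) 0 * S.Rg χ P ^ 2)) :=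
            Ev_mono fun P _ => S.far_k_pt hχ0 k J hapos hdl P
        _ = _ := by
            rw [Ev_add t (fun P => (J : ℝ) * (S.dl k * Rh S.f S.z χ P + S.eh χ P))
              (fun P => 1 / (2 * a) * (max (Hb S.F (S.bk k) P - S.dl k) 0 * S.Rg χ P ^ 2)),
              Ev_const_mul t (J : ℝ) (fun P => S.dl k * Rh S.f S.z χ P + S.eh χ P),
              Ev_const_mul t (1 / (2 * a))
                (fun P => max (Hb S.F (S.bk k) P - S.dl k) 0 * S.Rg χ P ^ 2),
              Ev_add t (fun P => S.dl k * Rh S.f S.z χ P) (fun P => S.eh χ P),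
              Ev_const_mul t (S.dl k) (fun P => Rh S.f S.z χ P)]
    have s5 := S.second_pairs hχ0 hχ1 k (t := t) (by omega)
    have h2a0 : 0 ≤ 1 / (2 * a) := by positivity
    have s6 := mul_le_mul_of_nonneg_left s5 h2a0
    rw [h2a] at s6
    rw [h2a] at s4
    rw [hJc] at s4
    rw [s3] at s2
    linarith
  have hfin := Finset.sum_le_sum key
  rw [Finset.sum_const, Nat.card_Ico, nsmul_eq_mul] at hfin
  have hw : t₁ + w - t₁ = w := by omega
  rw [hw] at hfin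
  exact hfin

end UF
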