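import Pool.Agent.UF.Base
import Pool.Agent.UF.Jo8
import Pool.Agent.UF.Ju2

set_option autoImplicit false
set_option linter.unusedSectionVars false
set_option linter.unusedVariables false
open Finset

namespace UF
variable {α : Type*} [Fintype α] [DecidableEq α]

theorem Dn_iter_one (i : ℕ) : ∀ Q : Finset α, i ≤ Q.card → (Dn^[i] (fun _ : Finset α => (1 : ℝ))) Q = 1 := by
  induction i with
  | zero => intro Q _; rfl
  | succ i ih =>
    intro Q hQ
    rw [Function.iterate_succ_apply']
    have hne : Q ≠ ∅ := by rintro rfl; simp at hQ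
    have h1 : Dn (Dn^[i] (fun _ : Finset α => (1 : ℝ))) Q = Dn (fun _ => 1) Q := by
      apply Dn_congr
      intro y hy
      apply ih
      rw [Finset.card_erase_of_mem hy]; omega
    rw [h1, Dn_const hne]

theorem Hb_le_iter_aux (F : Finset (Finset α)) (C : Finset α) (z : α) {b : ℕ} (i : ℕ) :
    ∀ P : Finset α, P ⊂ C → P.card = b + i →
    Hb F b P ≤ (Dn^[i] (fun X => if z ∈ X then xiR F C X else 1)) P := by
  induction i with
  | zero =>
    intro P hPC hP
    show Hb F b P ≤ if z ∈ P then xiR F C P else 1
    by_cases hF : P ∈ F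
    · rw [xiR_eq_one hF hPC (Finset.Subset.refl P), ite_self]
      exact Hb_le_one F b P
    · have h0 : Hb F b P = 0 := by
        unfold Hb
        rw [Ds_eq]
        have : Fb F b P = 0 := by unfold Fb; rw [if_neg (fun h => hF h.1)]
        rw [this]
        have h2 : Dn (Ds (Fb F b) (Fb F b)) P = 0 := by
          unfold Dn
          rw [Finset.sum_eq_zero, zero_div]
          intro y hy
          apply Hb_of_card_lt F b
          rw [Finset.card_erase_of_mem hy]
          have : 0 < P.card := Finset.card_pos.2 ⟨y, hy⟩
          omega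
        rw [h2]; ring
      rw [h0]
      split_ifs
      · exact xiR_nonneg _ _ _
      · exact zero_le_one
  | succ i ih =>
    intro P hPC hP
    by_cases hF : P ∈ F
    · refine (Hb_le_one F b P).trans ?_
      refine (Dn_iter_one (i + 1) P (by omega)).ge.trans ?_
      apply Dn_iter_mono (g := fun _ : Finset α => (1 : ℝ)) _ (by omega)
      intro X hX _
      by_cases hz : z ∈ X
      · rw [if_pos hz, xiR_eq_one hF hPC hX]
      · rw [if_neg hz]
    · have h0 : Hb F b P = Dn (Hb F b) P := by
        unfold Hb
        rw [Ds_eq]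
        have : Fb F b P = 0 := by unfold Fb; rw [if_neg (fun h => hF h.1)]
        rw [this]; ring
      rw [h0, Function.iterate_succ_apply']
      apply Dn_mono
      intro y hy
      apply ih
      · exact (Finset.erase_subset y P).trans_ssubset hPC
      · rw [Finset.card_erase_of_mem hy]; omega

theorem Hb_le_iter (F : Finset (Finset α)) (C : Finset α) (z : α) {b : ℕ} {P : Finset α}
    (hPC : P ⊂ C) (hb : b ≤ P.card) :
    Hb F b P ≤ (Dn^[P.card - b] (fun X => if z ∈ X then xiR F C X else 1)) P :=
  Hb_le_iter_aux F C z (P.card - b) P hPC (by omega)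

end UF
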