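import Pool.Agent.UF.Base
import Pool.Agent.UF.Jm5a
import Pool.Agent.UF.Jo8
import Pool.Agent.UF.Ju2

set_option autoImplicit false
set_option linter.unusedSectionVars false
set_option linter.unusedVariables false
open Finset

namespace UF
variable {α : Type*} [Fintype α] [DecidableEq α]

/-- iterated deletion is dominated by a product random deletion -/
theorem Dn_iter_xi_le (F : Finset (Finset α)) (C : Finset α) {P : Finset α} {z : α} (hz : z ∈ P)
    {i : ℕ} (hi : i + 1 ≤ P.card) {q : ℝ} (hq0 : 0 ≤ q) (hq1 : q ≤ 1)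
    (hq : 4 * (i : ℝ) ≤ q * ((P.card : ℝ) - 1)) :
    (Dn^[i] (fun X => if z ∈ X then xiR F C X else 0)) P
      ≤ 9 / 5 * mu q (P.erase z) (fun V => xiR F C (P \ V)) := by
  have h1 := Dn_iter_mem_le (xiR F C) (xiR_nonneg F C) hz hi
  refine h1.trans ?_
  have hcard : ((P.erase z).card : ℝ) = (P.card : ℝ) - 1 := by
    rw [Finset.card_erase_of_mem hz, Nat.cast_sub (by omega)]
    simp
  refine unif_le_mu hq0 hq1 (P.erase z) i (by rw [hcard]; exact hq) (fun V => xiR F C (P \ V)) ?_ ?_
  · intro V W hVW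
    exact xiR_anti F C (Finset.sdiff_subset_sdiff (Finset.Subset.refl P) hVW)
  · intro V
    exact xiR_nonneg F C _

theorem Dn_iter_member_le (F : Finset (Finset α)) (C : Finset α) {z : α} (hC : Centre F C z)
    {i : ℕ} (hi1 : 1 ≤ i) (hi : i + 1 ≤ C.card) {q : ℝ} (hq0 : 0 ≤ q) (hq1 : q ≤ 1)
    (hq : 4 * (i : ℝ) ≤ q * ((C.card : ℝ) - 1)) :
    (Dn^[i] (fun X => if z ∈ X then (if X ∈ F then (1 : ℝ) else 0) else 0)) C
      ≤ 9 / 5 * (256 * q ^ 2) := by
  have h1 : (Dn^[i] (fun X => if z ∈ X then (if X ∈ F then (1 : ℝ) else 0) else 0)) C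
      ≤ (Dn^[i] (fun X => if z ∈ X then xiR F C X else 0)) C := by
    refine Dn_iter_mono (fun P hPC hcard => ?_) (by omega)
    by_cases hz : z ∈ P
    · simp only [hz, if_true]
      by_cases hPF : P ∈ F
      · simp only [hPF, if_true]
        have hss : P ⊂ C := by
          refine ⟨hPC, fun h => ?_⟩
          have := Finset.card_le_card h
          omega
        rw [xiR_eq_one hPF hss (Finset.Subset.refl P)]
      · simp only [hPF, if_false]
        exact xiR_nonneg F C P
    · simp [hz]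
  refine h1.trans ?_
  refine (Dn_iter_xi_le F C hC.1 hi hq0 hq1 hq).trans ?_
  have h2 := hC.2 q hq0 hq1
  linarith

end UF
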