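import Pool.Agent.UF.Base
import Pool.Agent.UF.Jo8
import Pool.Agent.UF.Ju2
import Pool.Agent.UF.Ju3
import Pool.Agent.UF.Ju4

set_option autoImplicit false
set_option linter.unusedSectionVars false
set_option linter.unusedVariables false
open Finset

namespace UF
variable {α : Type*} [Fintype α] [DecidableEq α]

theorem Dn_iter_add (g h : Finset α → ℝ) (i : ℕ) (Q : Finset α) :
    (Dn^[i] (fun X => g X + h X)) Q = (Dn^[i] g) Q + (Dn^[i] h) Q := by
  induction i generalizing g h with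
  | zero => rfl
  | succ i ih =>
    rw [Function.iterate_succ_apply, Function.iterate_succ_apply, Function.iterate_succ_apply]
    have e : Dn (fun X => g X + h X) = fun X => Dn g X + Dn h X := funext fun X => Dn_add g h X
    rw [e]
    exact ih (Dn g) (Dn h)

theorem Dn_iter_Psi (F : Finset (Finset α)) (C : Finset α) {z : α} {b : ℕ} {P : Finset α}
    (hzP : z ∈ P) (hb1 : 1 ≤ b) (hb : b ≤ P.card) {q : ℝ} (hq0 : 0 ≤ q)
    (hq1 : q ≤ 1) (hq : 4 * ((P.card : ℝ) - b) ≤ q * ((P.card : ℝ) - 1)) :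
    (Dn^[P.card - b] (fun X => if z ∈ X then xiR F C X else 1)) P ≤ ((P.card : ℝ) - b) / P.card
      + 9 / 5 * mu q (P.erase z) (fun V => xiR F C (P \ V)) := by
  have e : (fun X : Finset α => if z ∈ X then xiR F C X else 1) =
      fun X => (if z ∈ X then (0 : ℝ) else 1) + (if z ∈ X then xiR F C X else 0) := by
    funext X
    split_ifs <;> simp
  have hc : ((P.card - b : ℕ) : ℝ) = (P.card : ℝ) - b := by
    rw [Nat.cast_sub hb]
  rw [e, Dn_iter_add, Dn_iter_notMem hzP (Nat.sub_le _ _), hc]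
  have h1 := Dn_iter_xi_le F C hzP (i := P.card - b) (by omega) hq0 hq1 (by rw [hc]; exact hq)
  linarith

theorem Hb_bound (F : Finset (Finset α)) (C : Finset α) {z : α} {b : ℕ} {P : Finset α}
    (hPC : P ⊂ C) (hzP : z ∈ P) (hb1 : 1 ≤ b) (hb : b ≤ P.card) {q : ℝ} (hq0 : 0 ≤ q)
    (hq1 : q ≤ 1) (hq : 4 * ((P.card : ℝ) - b) ≤ q * ((P.card : ℝ) - 1)) :
    Hb F b P ≤ ((P.card : ℝ) - b) / P.card
      + 9 / 5 * mu q (P.erase z) (fun V => xiR F C (P \ V)) :=
  (Hb_le_iter F C z hPC hb).trans (Dn_iter_Psi F C hzP hb1 hb hq0 hq1 hq)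

theorem DHb_bound (F : Finset (Finset α)) (C : Finset α) {z : α} (hC : Centre F C z) {b : ℕ}
    (hb1 : 1 ≤ b) (hb : b < C.card) {q : ℝ} (hq0 : 0 ≤ q)
    (hq1 : q ≤ 1) (hq : 4 * ((C.card : ℝ) - b) ≤ q * ((C.card : ℝ) - 1)) :
    Dn (Hb F b) C ≤ ((C.card : ℝ) - b) / C.card + 9 / 5 * (256 * q ^ 2) := by
  have h1 : Dn (Hb F b) C ≤
      Dn (Dn^[C.card - 1 - b] (fun X => if z ∈ X then xiR F C X else 1)) C := by
    apply Dn_mono
    intro y hy
    have h2 := Hb_le_iter F C z (P := C.erase y) (b := b) (Finset.erase_ssubset hy)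
      (by rw [Finset.card_erase_of_mem hy]; omega)
    rwa [Finset.card_erase_of_mem hy] at h2
  rw [← Function.iterate_succ_apply' Dn] at h1
  have h3 : (C.card - 1 - b).succ = C.card - b := by omega
  rw [h3] at h1
  have h4 := Dn_iter_Psi F C hC.1 hb1 hb.le hq0 hq1 hq
  have h5 := hC.2 q hq0 hq1
  linarith

end UF
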