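import Pool.Agent.UF.Base
import Pool.Agent.UF.Js3
import Pool.Agent.UF.Ju2
import Pool.Agent.UF.Ju5

set_option autoImplicit false
set_option linter.unusedSectionVars false
set_option linter.unusedVariables false
open Finset

namespace UF
variable {α : Type*} [Fintype α] [DecidableEq α]

theorem Sys.DHb_small (S : Sys α) (hR : S.Reg) {k : ℕ} (hk : k < S.M) {C : Finset α}
    (hC : C ∈ S.F) :
    11 / 10 * Dn (Hb S.F (S.bk k)) C ≤ 1 / 10 ∧
    Dn (Hb S.F (S.bk k)) C
      ≤ 6 * (((k : ℝ) + 1) / Real.sqrt S.m + max ((C.card : ℝ) - S.m) 0 / S.m) := by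
  obtain ⟨hr1, hr2, hr3⟩ := S.r_bounds hR
  obtain ⟨hk1, hk2, hk3, hk4, hk5⟩ := S.k_bounds hR hk
  obtain ⟨hc1, hc2⟩ := S.card_bounds hR hC
  have hM : (100000000 : ℝ) ≤ S.m := by exact_mod_cast hR.1
  have hM0 : (0 : ℝ) < S.m := by linarith
  have hsq0 : 0 < Real.sqrt S.m := Real.sqrt_pos.2 hM0
  have hsq : Real.sqrt S.m * Real.sqrt S.m = S.m := Real.mul_self_sqrt hM0.le
  have hK : (1 : ℝ) ≤ (k : ℝ) + 1 := by
    have : (0 : ℝ) ≤ k := Nat.cast_nonneg k
    linarith
  have hRHS : 0 ≤ ((k : ℝ) + 1) / Real.sqrt S.m + max ((C.card : ℝ) - S.m) 0 / S.m := by positivity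
  rcases le_or_gt C.card (S.bk k) with hle | hlt
  · have h0 : Dn (Hb S.F (S.bk k)) C ≤ 0 := by
      apply Dn_le_of_le le_rfl
      intro y hy
      rw [Hb_of_card_lt]
      rw [Finset.card_erase_of_mem hy]
      have : 0 < C.card := Finset.card_pos.2 ⟨y, hy⟩
      omega
    constructor <;> linarith
  · have hs1 : (0 : ℝ) < (C.card : ℝ) - 1 := by linarith
    have hs1' : (9997 / 10000 : ℝ) * S.m ≤ (C.card : ℝ) - 1 := by linarith
    have hD0 : (0 : ℝ) < (C.card : ℝ) - (S.bk k : ℕ) := by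
      have : ((S.bk k : ℕ) : ℝ) < C.card := by exact_mod_cast hlt
      linarith
    set D : ℝ := (C.card : ℝ) - (S.bk k : ℕ) with hD
    have hD1 : D ≤ 3 / 5000 * S.m := by rw [hD, hk3]; linarith
    set X : ℝ := D / ((C.card : ℝ) - 1) with hX
    have hX0 : 0 ≤ X := by rw [hX]; positivity
    have hX1 : X ≤ 61 / 100000 := by
      rw [hX, div_le_iff₀ hs1]
      nlinarith
    have hb := DHb_bound S.F C (S.hz C hC) hk4 hlt (q := 4 * X) (by linarith) (by linarith)
      (by rw [hX]; field_simp; rw [hD])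
    have hDs : D / C.card ≤ X := by
      rw [hX]
      apply div_le_div_of_nonneg_left hD0.le hs1
      linarith
    set E : ℝ := ((k : ℝ) + 1) / Real.sqrt S.m + max ((C.card : ℝ) - S.m) 0 / S.m with hE
    have hME : S.m * E = ((k : ℝ) + 1) * Real.sqrt S.m + max ((C.card : ℝ) - S.m) 0 := by
      rw [hE, mul_add]
      congr 1
      · nth_rewrite 1 [← hsq]
        field_simp
      · field_simp
    have hDE : D ≤ 1001 / 1000 * (S.m * E) := by
      rw [hME, hD, hk3]
      have h1 : (C.card : ℝ) - S.m ≤ max ((C.card : ℝ) - S.m) 0 := le_max_left _ _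
      have h2 : 0 ≤ max ((C.card : ℝ) - S.m) 0 := le_max_right _ _
      have h3 : ((k : ℝ) + 1) * S.r ≤ ((k : ℝ) + 1) * (1.001 * Real.sqrt S.m) :=
        mul_le_mul_of_nonneg_left hr2 (by linarith)
      norm_num at h3 ⊢
      linarith
    have hXE : X ≤ 1002 / 1000 * E := by
      rw [hX, div_le_iff₀ hs1]
      have h4 : 0 ≤ E := hRHS
      have h5 : E * ((9997 / 10000 : ℝ) * S.m) ≤ E * ((C.card : ℝ) - 1) :=
        mul_le_mul_of_nonneg_left hs1' h4
      have h6 : 0 ≤ S.m * E := by positivity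
      nlinarith
    have hfin : Dn (Hb S.F (S.bk k)) C ≤ 55 / 10 * X := by
      refine hb.trans ?_
      have h7 : X * X ≤ 61 / 100000 * X := mul_le_mul_of_nonneg_right hX1 hX0
      nlinarith
    constructor
    · linarith
    · have : 0 ≤ E := hRHS
      linarith

end UF
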