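import Pool.Agent.UF.Base
import Pool.Agent.UF.Jo1
import Pool.Agent.UF.Jo6
import Pool.Agent.UF.Js1
import Pool.Agent.UF.Js3
import Pool.Agent.UF.Js4
import Pool.Agent.UF.Ju2
import Pool.Agent.UF.Jw1
import Pool.Agent.UF.Jw2

set_option autoImplicit false
set_option linter.unusedSectionVars false
set_option linter.unusedVariables false
open Finset

namespace UF
variable {α : Type*} [Fintype α] [DecidableEq α]

theorem Sys.f_le_shell (S : Sys α) (hR : S.Reg) (Q : Finset α) :
    S.f Q ≤ ∑ k ∈ range S.M, omk k * Fb S.F (S.bk k) Q := by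
  have hterm : ∀ k, 0 ≤ omk k * Fb S.F (S.bk k) Q := fun k =>
    mul_nonneg (Real.exp_pos _).le (Fb_nonneg _ _ _)
  by_cases hQ : Q ∈ S.F
  · have hf : S.f Q = wt S.m Q.card := by unfold Sys.f; rw [if_pos hQ]
    have key : ∀ k, k < S.M → S.bk k ≤ Q.card → wt S.m Q.card ≤ omk k →
        S.f Q ≤ ∑ k ∈ range S.M, omk k * Fb S.F (S.bk k) Q := by
      intro k hk hb hw
      have h1 : Fb S.F (S.bk k) Q = 1 := by unfold Fb; rw [if_pos ⟨hQ, hb⟩]
      have h2 : omk k * Fb S.F (S.bk k) Q ≤ ∑ k ∈ range S.M, omk k * Fb S.F (S.bk k) Q :=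
        Finset.single_le_sum (f := fun k => omk k * Fb S.F (S.bk k) Q)
          (fun i _ => hterm i) (mem_range.2 hk)
      rw [h1, mul_one] at h2
      rw [hf]; exact hw.trans h2
    by_cases hc : S.m ≤ Q.card
    · refine key 0 ?_ ?_ ?_
      · unfold Sys.M; exact Nat.succ_pos _
      · unfold Sys.bk; omega
      · have : omk 0 = 1 := by simp [omk]
        rw [this]; exact wt_le_one _ _
    · rw [not_le] at hc
      have hlo := S.hlo Q hQ
      have hr : 0 < S.r := by unfold Sys.r; omega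
      set a := S.m - Q.card with ha
      have hah : a ≤ S.h := by omega
      have hk1 : a / S.r * S.r ≤ a := Nat.div_mul_le_self a S.r
      have hk2 : a < (a / S.r + 1) * S.r := by
        rw [add_mul, one_mul]
        exact Nat.lt_div_mul_add hr
      refine key (a / S.r) ?_ ?_ ?_
      · unfold Sys.M
        have := Nat.div_le_div_right (c := S.r) hah
        omega
      · unfold Sys.bk; omega
      · have hm : 1 ≤ S.m := by have := hR.1; omega
        refine (wt_le_exp hm _).trans ?_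
        unfold omk
        apply Real.exp_le_exp.2
        have hmR : (0:ℝ) < S.m := by exact_mod_cast hm
        have haR : (a : ℝ) = S.m - Q.card := by
          rw [ha, Nat.cast_sub hc.le]
        have hsq : Real.sqrt S.m ≤ S.r := (S.r_bounds hR).1
        have h1 : ((a / S.r : ℕ) : ℝ) * Real.sqrt S.m ≤ a := by
          calc ((a / S.r : ℕ) : ℝ) * Real.sqrt S.m ≤ ((a / S.r : ℕ) : ℝ) * S.r :=
                mul_le_mul_of_nonneg_left hsq (by positivity)
            _ ≤ a := by exact_mod_cast hk1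
        have h2 : ((a / S.r : ℕ) : ℝ) ^ 2 * S.m ≤ (a : ℝ) ^ 2 := by
          have h3 : (((a / S.r : ℕ) : ℝ) * Real.sqrt S.m) ^ 2 ≤ (a : ℝ) ^ 2 :=
            pow_le_pow_left₀ (by positivity) h1 2
          rw [mul_pow, Real.sq_sqrt hmR.le] at h3
          exact h3
        have h4 : ((Q.card : ℝ) - S.m) ^ 2 = (a : ℝ) ^ 2 := by rw [haR]; ring
        rw [h4, neg_div, neg_div, neg_le_neg_iff, div_le_div_iff₀ (by norm_num) (by positivity)]
        nlinarith
  · have hf : S.f Q = 0 := by unfold Sys.f; rw [if_neg hQ]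
    rw [hf]
    exact Finset.sum_nonneg fun k _ => hterm k

theorem Sys.H_le_shell (S : Sys α) (hR : S.Reg) (Q : Finset α) :
    S.H Q ≤ 11 / 10 * ∑ k ∈ range S.M, omk k * Hb S.F (S.bk k) Q := by
  have h1 : S.H Q ≤ Ds (fun _ => 0) S.f Q := H_le_K S.f_nonneg S.f_le_one Q
  have h2 : Ds (fun _ => 0) S.f Q ≤
      Ds (fun _ => 0) (fun Q => ∑ k ∈ range S.M, omk k * Fb S.F (S.bk k) Q) Q :=
    Ds_mono (fun _ => zero_le_one) (S.f_le_shell hR) Q
  have h3 : Ds (fun _ => 0) (fun Q => ∑ k ∈ range S.M, omk k * Fb S.F (S.bk k) Q) Q ≤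
      ∑ k ∈ range S.M, omk k * Ds (fun _ => 0) (Fb S.F (S.bk k)) Q := by
    refine Ds_le (X := fun Q => ∑ k ∈ range S.M, omk k * Ds (fun _ => 0) (Fb S.F (S.bk k)) Q)
      (fun _ => zero_le_one) fun P _ => ?_
    have hD : Dn (fun Q => ∑ k ∈ range S.M, omk k * Ds (fun _ => 0) (Fb S.F (S.bk k)) Q) P =
        ∑ k ∈ range S.M, omk k * Dn (Ds (fun _ => 0) (Fb S.F (S.bk k))) P := by
      rw [Dn_sum (range S.M) (fun k Q => omk k * Ds (fun _ => 0) (Fb S.F (S.bk k)) Q) P]
      refine Finset.sum_congr rfl fun k _ => ?_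
      rw [Dn_const_mul]
    have hE : ∑ k ∈ range S.M, omk k * Ds (fun _ => 0) (Fb S.F (S.bk k)) P =
        ∑ k ∈ range S.M, omk k * Fb S.F (S.bk k) P +
        ∑ k ∈ range S.M, omk k * Dn (Ds (fun _ => 0) (Fb S.F (S.bk k))) P := by
      rw [← Finset.sum_add_distrib]
      refine Finset.sum_congr rfl fun k _ => ?_
      rw [Ds_eq (fun _ => 0) (Fb S.F (S.bk k)) P]
      ring
    beta_reduce
    rw [hD, hE, sub_zero, one_mul]
  refine (h1.trans (h2.trans h3)).trans ?_
  rw [Finset.mul_sum]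
  refine Finset.sum_le_sum fun k hk => ?_
  have h4 : Ds (fun _ => 0) (Fb S.F (S.bk k)) Q ≤ (1 + 1 / 10) * Ds (Fb S.F (S.bk k)) (Fb S.F (S.bk k)) Q := by
    refine K_le_H (Fb_nonneg _ _) (Fb_le_one _ _) (by norm_num) ?_ Q
    intro C hC
    have hCF : C ∈ S.F := by
      by_contra h
      apply hC
      unfold Fb
      rw [if_neg (fun hh => h hh.1)]
    have := (S.DHb_small hR (mem_range.1 hk) hCF).1
    have e : (1 + 1 / 10 : ℝ) = 11 / 10 := by norm_num
    rw [e]
    exact this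
  have h5 : (0:ℝ) ≤ omk k := (Real.exp_pos _).le
  calc omk k * Ds (fun _ => 0) (Fb S.F (S.bk k)) Q
      ≤ omk k * ((1 + 1 / 10) * Ds (Fb S.F (S.bk k)) (Fb S.F (S.bk k)) Q) :=
        mul_le_mul_of_nonneg_left h4 h5
    _ = 11 / 10 * (omk k * Hb S.F (S.bk k) Q) := by
        unfold Hb; ring

end UF
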