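import Pool.Agent.UF.Base
import Pool.Agent.UF.Jo10
import Pool.Agent.UF.Js1
import Pool.Agent.UF.Js13
import Pool.Agent.UF.Js5
import Pool.Agent.UF.Ju2

set_option autoImplicit false
set_option linter.unusedSectionVars false
set_option linter.unusedVariables false
open Finset

namespace UF
variable {α : Type*} [Fintype α] [DecidableEq α]

theorem Sys.far_bound (S : Sys α) (hR : S.Reg) {χ : ℕ → ℝ} (hχ0 : ∀ s, 0 ≤ χ s)
    (hχ1 : ∀ s, χ s ≤ 1) {c : ℝ} (hc : 0 < c) {t₁ w : ℕ}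
    (htw : t₁ + w ≤ S.m) (hχ : ∀ s, s ≤ t₁ + w → χ s = 0) :
    (w : ℝ) * S.Far χ c t₁
      ≤ 11 / 10 * ∑ k ∈ range S.M, omk k * ∑ t ∈ Ico t₁ (t₁ + w),
        (((k : ℝ) + 1) * S.r * (S.dl k * Ev t (Rh S.f S.z χ) + Ev t (S.eh χ))
          + 800 * ((k : ℝ) + 1) ^ 4 * S.m / c
            * (1 / (2 * (S.m : ℝ) - t) * Ev t (Rh S.f S.z χ)
              + 1 / (((t : ℝ) + 1) * ((t : ℝ) + 2)) * Ev (t + 2) (S.Om χ k))) := by
  have hom : ∀ k, 0 ≤ omk k := fun k => (Real.exp_pos _).le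
  have h1 : S.Far χ c t₁ ≤ 11 / 10 * ∑ k ∈ range S.M, omk k * ∑ q ∈ range t₁, Ev q (fun P =>
      Hb S.F (S.bk k) P * max (Rh S.f S.z χ P - c * S.y (S.m - q)) 0) := by
    unfold Sys.Far
    have h2 : ∀ q ∈ range t₁, Ev q (fun P => S.H P * max (Rh S.f S.z χ P - c * S.y (S.m - q)) 0) ≤
        11 / 10 * ∑ k ∈ range S.M, omk k * Ev q (fun P =>
          Hb S.F (S.bk k) P * max (Rh S.f S.z χ P - c * S.y (S.m - q)) 0) := by
      intro q _
      have h3 : Ev q (fun P => S.H P * max (Rh S.f S.z χ P - c * S.y (S.m - q)) 0) ≤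
          Ev q (fun P => 11 / 10 * ∑ k ∈ range S.M, omk k *
            (Hb S.F (S.bk k) P * max (Rh S.f S.z χ P - c * S.y (S.m - q)) 0)) := by
        apply Ev_mono
        intro P _
        have h4 : 11 / 10 * ∑ k ∈ range S.M, omk k *
            (Hb S.F (S.bk k) P * max (Rh S.f S.z χ P - c * S.y (S.m - q)) 0) =
            (11 / 10 * ∑ k ∈ range S.M, omk k * Hb S.F (S.bk k) P) *
              max (Rh S.f S.z χ P - c * S.y (S.m - q)) 0 := by
          rw [mul_assoc, Finset.sum_mul]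
          congr 1
          apply Finset.sum_congr rfl
          intro k _
          ring
        rw [h4]
        exact mul_le_mul_of_nonneg_right (S.H_le_shell hR P) (le_max_right _ _)
      refine le_trans h3 (le_of_eq ?_)
      rw [Ev_const_mul, Ev_sum]
      congr 1
      apply Finset.sum_congr rfl
      intro k _
      rw [Ev_const_mul]
    refine le_trans (Finset.sum_le_sum h2) (le_of_eq ?_)
    rw [← Finset.mul_sum, Finset.sum_comm]
    congr 1
    apply Finset.sum_congr rfl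
    intro k _
    rw [Finset.mul_sum]
  have hw : (0 : ℝ) ≤ w := Nat.cast_nonneg w
  refine le_trans (mul_le_mul_of_nonneg_left h1 hw) ?_
  have h5 : (w : ℝ) * (11 / 10 * ∑ k ∈ range S.M, omk k * ∑ q ∈ range t₁, Ev q (fun P =>
      Hb S.F (S.bk k) P * max (Rh S.f S.z χ P - c * S.y (S.m - q)) 0)) =
      11 / 10 * ∑ k ∈ range S.M, omk k * ((w : ℝ) * ∑ q ∈ range t₁, Ev q (fun P =>
      Hb S.F (S.bk k) P * max (Rh S.f S.z χ P - c * S.y (S.m - q)) 0)) := by
    rw [mul_left_comm, Finset.mul_sum]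
    congr 1
    apply Finset.sum_congr rfl
    intro k _
    ring
  rw [h5]
  refine mul_le_mul_of_nonneg_left (Finset.sum_le_sum fun k hk => ?_) (by norm_num)
  exact mul_le_mul_of_nonneg_left (S.far_k hR hχ0 hχ1 hc (Finset.mem_range.1 hk) htw hχ) (hom k)

end UF
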