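import Pool.Agent.UF.Base
import Pool.Agent.UF.Jo3
import Pool.Agent.UF.Js1
import Pool.Agent.UF.Jw2

set_option autoImplicit false
set_option linter.unusedSectionVars false
set_option linter.unusedVariables false
open Finset

namespace UF
variable {α : Type*} [Fintype α] [DecidableEq α]

theorem Sys.f_sq (S : Sys α) : ∑ p ∈ range (2 * S.m + 1), Ev p (fun P => S.f P ^ 2)
    = S.T - S.cost := by
  unfold Sys.T Sys.cost
  rw [← Finset.sum_sub_distrib]
  refine Finset.sum_congr rfl fun p _ => ?_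
  have h1 : Ev p (fun P => S.f P ^ 2) = Ev p (fun P => wt S.m p * S.f P) := by
    refine Ev_congr fun P hP => ?_
    unfold Sys.f
    by_cases h : P ∈ S.F
    · rw [if_pos h, hP]; ring
    · rw [if_neg h]; ring
  rw [h1, Ev_const_mul]
  unfold Sys.ph
  ring

theorem Sys.T_eq (S : Sys α) : S.T = 1 - S.nu + S.G := by
  have h := T_identity S.f
  rw [S.hcard] at h
  unfold Sys.T Sys.nu Sys.G Sys.ph Sys.H
  linarith

theorem Sys.G_eq_up (S : Sys α) :
    S.G = ∑ p ∈ range (2 * S.m + 1), Ev p (fun P => S.f P * Up S.u P) := by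
  have h := UF.G_eq_up S.f
  rw [S.hcard] at h
  exact h

theorem Sys.Ev_nu (S : Sys α) {t : ℕ} (ht : t ≤ 2 * S.m) :
    Ev t (fun P => (1 - Dn S.H P) * (1 - S.u P)) = S.nu := by
  have h := nu_identity S.f (t := t) (by rw [S.hcard]; exact ht)
  exact h

theorem Sys.G_nonneg (S : Sys α) : 0 ≤ S.G := by
  unfold Sys.G
  exact Finset.sum_nonneg fun p _ => Ev_nonneg fun P _ =>
    mul_nonneg (S.f_nonneg P) (S.Dn_H_nonneg P)

theorem Sys.cost_nonneg (S : Sys α) : 0 ≤ S.cost := by
  unfold Sys.cost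
  exact Finset.sum_nonneg fun s _ =>
    mul_nonneg (by have := wt_le_one S.m s; linarith) (S.ph_nonneg s)

end UF
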