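import Pool.Agent.UF.Base
import Pool.Agent.UF.Jo2
import Pool.Agent.UF.Jo9
import Pool.Agent.UF.Js1
import Pool.Agent.UF.Js2

set_option autoImplicit false
set_option linter.unusedSectionVars false
set_option linter.unusedVariables false
open Finset

namespace UF
variable {α : Type*} [Fintype α] [DecidableEq α]

theorem Sys.Ev_b_bound (S : Sys α) {t : ℕ} (ht : t ≤ 2 * S.m) :
    Ev t (fun Q => (1 - Dn S.H Q) * S.b Q)
      ≤ S.nu + ∑ s ∈ Icc t (2 * S.m), ((s : ℝ) - t) / s * S.ph s := by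
  have hb : ∀ Q, S.b Q = (1 - S.u Q) + Uout S.f S.z (fun _ => 1) Q := by
    intro Q
    have h1 := psi_add_Uout S.f S.z (fun _ => 1) Q
    simp only [mul_one] at h1
    have h2 : Us S.f (fun Q => S.f Q) Q = S.u Q := rfl
    rw [h2] at h1
    have h3 : S.b Q = 1 - psi S.f S.z (fun _ => 1) Q := rfl
    rw [h3]; linarith
  have hU0 : ∀ Q, 0 ≤ Uout S.f S.z (fun _ => 1) Q := fun Q =>
    Finset.sum_nonneg fun x _ => S.rho_nonneg (fun _ => zero_le_one) x Q
  have h1 : Ev t (fun Q => (1 - Dn S.H Q) * S.b Q) ≤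
      Ev t (fun Q => (1 - Dn S.H Q) * (1 - S.u Q) + Uout S.f S.z (fun _ => 1) Q) := by
    refine Ev_mono fun Q _ => ?_
    rw [hb]
    have h2 := mul_nonneg (S.Dn_H_nonneg Q) (hU0 Q)
    nlinarith
  refine h1.trans ?_
  rw [Ev_add, S.Ev_nu ht]
  have h2 := Ev_Uout_le (f := S.f) S.f_nonneg S.f_le_one S.z (fun C hC => S.z_mem hC)
    (χ := fun _ => 1) (fun _ => zero_le_one) (t := t) (by rw [S.hcard]; exact ht)
  rw [S.hcard] at h2
  simp only [mul_one] at h2
  have h3 : Ev t (Uout S.f S.z (fun _ => 1)) = Ev t (fun Q => Uout S.f S.z (fun _ => 1) Q) := rfl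
  rw [h3] at h2
  have h4 : ∀ s, S.ph s = Ev s S.f := fun _ => rfl
  simp only [h4]
  linarith

end UF
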