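import Pool.Agent.UF.Base

set_option autoImplicit false
set_option linter.unusedSectionVars false
set_option linter.unusedVariables false
open Finset

namespace UF
variable {α : Type*} [Fintype α] [DecidableEq α]

theorem Cw_summable :
    Summable (fun k : ℕ => Real.exp (-((k : ℝ) ^ 2) / 2) * ((k : ℝ) + 2) ^ 10) := by
  have hr0 : 0 < Real.exp (-1/2) := Real.exp_pos _
  have hr1 : ‖Real.exp (-1/2)‖ < 1 := by
    rw [Real.norm_of_nonneg hr0.le]
    rw [Real.exp_lt_one_iff]
    norm_num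
  have h1 := summable_pow_mul_geometric_of_norm_lt_one 10 hr1
  have h2 := ((summable_nat_add_iff 2).2 h1).mul_left ((Real.exp (-1/2) ^ 2)⁻¹)
  refine Summable.of_nonneg_of_le (fun k => by positivity) (fun k => ?_) h2
  have e1 : (Real.exp (-1/2) ^ 2)⁻¹ * (((k + 2 : ℕ) : ℝ) ^ 10 * Real.exp (-1/2) ^ (k + 2)) =
      Real.exp (-1/2) ^ k * ((k : ℝ) + 2) ^ 10 := by
    push_cast
    rw [pow_add]
    field_simp
  rw [e1]
  apply mul_le_mul_of_nonneg_right _ (by positivity)
  rw [← Real.exp_nat_mul]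
  apply Real.exp_le_exp.2
  have hk : (k : ℝ) ≤ (k : ℝ) ^ 2 := by
    rcases Nat.eq_zero_or_pos k with h | h
    · subst h; norm_num
    · have : (1 : ℝ) ≤ k := by exact_mod_cast h
      nlinarith
  linarith

theorem shell_sum_le (M : ℕ) :
    ∑ k ∈ range M, Real.exp (-((k : ℝ) ^ 2) / 2) * ((k : ℝ) + 2) ^ 10 ≤ Cw := by
  exact Cw_summable.sum_le_tsum _ (fun k _ => by positivity)

theorem one_le_Cw : 1 ≤ Cw := by
  refine le_trans ?_ (shell_sum_le 1)
  rw [Finset.sum_range_one]
  norm_num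

end UF
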