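import Pool.Agent.UF.Base
import Pool.Agent.UF.Js3
import Pool.Agent.UF.Js4
import Pool.Agent.UF.Js5
import Pool.Agent.UF.Jw3

set_option autoImplicit false
set_option linter.unusedSectionVars false
set_option linter.unusedVariables false
open Finset

namespace UF
variable {α : Type*} [Fintype α] [DecidableEq α]

theorem Sys.DH_small (S : Sys α) (hR : S.Reg) {C : Finset α} (hC : C ∈ S.F) :
    Dn S.H C ≤ 7 * Cw * (1 / Real.sqrt S.m + max ((C.card : ℝ) - S.m) 0 / S.m) := by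
  set X : ℝ := max ((C.card : ℝ) - S.m) 0 with hX
  have hX0 : 0 ≤ X := le_max_right _ _
  set Y : ℝ := 1 / Real.sqrt S.m + X / S.m with hY
  have hY0 : 0 ≤ Y := by rw [hY]; positivity
  have h1 : Dn S.H C ≤ Dn (fun Q => 11 / 10 * ∑ k ∈ range S.M, omk k * Hb S.F (S.bk k) Q) C :=
    Dn_mono fun y _ => S.H_le_shell hR _
  have h2 : Dn (fun Q => 11 / 10 * ∑ k ∈ range S.M, omk k * Hb S.F (S.bk k) Q) C =
      11 / 10 * ∑ k ∈ range S.M, omk k * Dn (Hb S.F (S.bk k)) C := by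
    rw [Dn_const_mul (11 / 10) (fun Q => ∑ k ∈ range S.M, omk k * Hb S.F (S.bk k) Q) C,
      Dn_sum (range S.M) (fun k Q => omk k * Hb S.F (S.bk k) Q) C]
    congr 1
    refine Finset.sum_congr rfl fun k _ => ?_
    exact Dn_const_mul _ _ _
  have h3 : ∑ k ∈ range S.M, omk k * Dn (Hb S.F (S.bk k)) C ≤
      ∑ k ∈ range S.M, 6 * Y * (Real.exp (-((k : ℝ) ^ 2) / 2) * ((k : ℝ) + 2) ^ 10) := by
    refine Finset.sum_le_sum fun k hk => ?_
    have h4 := (S.DHb_small hR (Finset.mem_range.1 hk) hC).2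
    rw [← hX] at h4
    have hk0 : (0:ℝ) ≤ k := Nat.cast_nonneg k
    have h5 : ((k : ℝ) + 1) / Real.sqrt S.m + X / S.m ≤ ((k : ℝ) + 1) * Y := by
      have e : ((k : ℝ) + 1) * Y = ((k : ℝ) + 1) / Real.sqrt S.m + X / S.m + k * (X / S.m) := by
        rw [hY]; ring
      rw [e]
      have : 0 ≤ k * (X / S.m) := by positivity
      linarith
    have h6 : (k : ℝ) + 1 ≤ ((k : ℝ) + 2) ^ 10 := by
      have : (k : ℝ) + 2 ≤ ((k : ℝ) + 2) ^ 10 := le_self_pow₀ (by linarith) (by norm_num)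
      linarith
    have h7 : 6 * (((k : ℝ) + 1) / Real.sqrt S.m + X / S.m) ≤ 6 * Y * ((k : ℝ) + 2) ^ 10 := by
      have : ((k : ℝ) + 1) * Y ≤ ((k : ℝ) + 2) ^ 10 * Y := mul_le_mul_of_nonneg_right h6 hY0
      nlinarith
    have h8 : omk k * Dn (Hb S.F (S.bk k)) C ≤ omk k * (6 * Y * ((k : ℝ) + 2) ^ 10) :=
      mul_le_mul_of_nonneg_left (h4.trans h7) (Real.exp_pos _).le
    refine h8.trans (le_of_eq ?_)
    unfold omk
    ring
  rw [← Finset.mul_sum] at h3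
  have h9 := mul_le_mul_of_nonneg_left (shell_sum_le S.M) (show (0:ℝ) ≤ 6 * Y by positivity)
  have hC0 : (0:ℝ) ≤ Cw := le_trans zero_le_one one_le_Cw
  have h10 : 0 ≤ Cw * Y := mul_nonneg hC0 hY0
  calc Dn S.H C ≤ 11 / 10 * ∑ k ∈ range S.M, omk k * Dn (Hb S.F (S.bk k)) C := h1.trans h2.le
    _ ≤ 11 / 10 * (6 * Y * Cw) := by linarith
    _ ≤ 7 * Cw * Y := by nlinarith

end UF
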