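import Pool.Agent.UF.Base
import Pool.Agent.UF.Jo10
import Pool.Agent.UF.Jo2
import Pool.Agent.UF.Jo6
import Pool.Agent.UF.Jo7
import Pool.Agent.UF.Jo8
import Pool.Agent.UF.Js1
import Pool.Agent.UF.Js3
import Pool.Agent.UF.Js6
import Pool.Agent.UF.Ju4

set_option autoImplicit false
set_option linter.unusedSectionVars false
set_option linter.unusedVariables false
open Finset

namespace UF
variable {α : Type*} [Fintype α] [DecidableEq α]

theorem UF16_Cw_nonneg : 0 ≤ Cw := by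
  unfold Cw
  exact tsum_nonneg fun k => by positivity

/-- iterated averages of `Dn H` -/
theorem Sys.Dn_iter_DnH (S : Sys α) (i : ℕ) (C : Finset α) (hi : i ≤ C.card) :
    (Dn^[i] (Dn S.H)) C ≤ Dn S.H C := by
  induction i with
  | zero => simp
  | succ i ih =>
    rw [Function.iterate_succ_apply]
    refine le_trans (Dn_iter_mono (h := Dn S.H) ?_ (by omega)) (ih (by omega))
    intro P _ _
    exact Dn_mono fun y _ => Dn_H_le_H S.f_nonneg S.f_le_one (P.erase y)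

open Classical in
theorem Sys.Ev_eh_eq (S : Sys α) (χ : ℕ → ℝ) {t : ℕ} (ht : t < Fintype.card α) :
    Ev t (S.eh χ) = 1 / ((t : ℝ) + 1) *
      Ev (t + 1) (fun Q => if S.Good Q then 0 else psi S.f S.z χ Q) := by
  have h1 := Ev_double ht (fun P w => rho S.f S.z χ w (insert w P) - S.a χ w (insert w P))
  have h2 : Ev t (S.eh χ) = Ev t (fun P => (∑ w ∈ Pᶜ, (rho S.f S.z χ w (insert w P) -
      S.a χ w (insert w P))) / (Pᶜ.card : ℝ)) := by
    refine Ev_congr fun P _ => ?_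
    unfold Sys.eh Rh Sys.Rg
    rw [Finset.sum_sub_distrib, sub_div]
  rw [h2, h1, ← Ev_const_mul]
  refine Ev_congr fun Q hQ => ?_
  have h3 : ∑ y ∈ Q, (rho S.f S.z χ y (insert y (Q.erase y)) - S.a χ y (insert y (Q.erase y))) =
      if S.Good Q then 0 else psi S.f S.z χ Q := by
    have h4 : ∑ y ∈ Q, (rho S.f S.z χ y (insert y (Q.erase y)) -
        S.a χ y (insert y (Q.erase y))) = ∑ y ∈ Q, (rho S.f S.z χ y Q - S.a χ y Q) := by
      refine Finset.sum_congr rfl fun y hy => ?_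
      rw [Finset.insert_erase hy]
    rw [h4]
    split_ifs with hg
    · refine Finset.sum_eq_zero fun y _ => ?_
      unfold Sys.a
      rw [if_pos hg, sub_self]
    · unfold psi
      refine Finset.sum_congr rfl fun y _ => ?_
      unfold Sys.a
      rw [if_neg hg, sub_zero]
  show (∑ y ∈ Q, (rho S.f S.z χ y (insert y (Q.erase y)) - S.a χ y (insert y (Q.erase y)))) /
    (Q.card : ℝ) = _
  rw [h3, hQ]
  push_cast
  ring

theorem Sys.psi_le_one (S : Sys α) {χ : ℕ → ℝ} (hχ0 : ∀ s, 0 ≤ χ s)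
    (hχ1 : ∀ s, χ s ≤ 1) (Q : Finset α) : psi S.f S.z χ Q ≤ 1 :=
  sum_rho_le_one S.f_nonneg S.f_le_one S.z hχ0 hχ1 Q Q

open Classical in
theorem Sys.bad_ptwise (S : Sys α) {χ : ℕ → ℝ} (hχ0 : ∀ s, 0 ≤ χ s)
    (hχ1 : ∀ s, χ s ≤ 1) (Q : Finset α) :
    (if S.Good Q then 0 else psi S.f S.z χ Q) ≤
      (∑ x ∈ Q, (if Q ∈ S.F then (1 : ℝ) else 0) * rho S.f S.z χ x Q) +
      10 * (∑ x ∈ Q, Dn S.H Q * rho S.f S.z χ x Q) + 28 * ((1 - Dn S.H Q) * S.b Q) := by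
  have hp0 := psi_nonneg S.f_nonneg S.f_le_one S.z hχ0 Q
  have hp1 := S.psi_le_one hχ0 hχ1 Q
  have hd0 := S.Dn_H_nonneg Q
  have hd1 := S.Dn_H_le_one Q
  have hb0 := S.b_nonneg Q
  rw [← Finset.mul_sum, ← Finset.mul_sum]
  have hpsi : ∑ x ∈ Q, rho S.f S.z χ x Q = psi S.f S.z χ Q := rfl
  rw [hpsi]
  have hA : 0 ≤ (if Q ∈ S.F then (1 : ℝ) else 0) * psi S.f S.z χ Q := by
    split_ifs <;> simp [hp0]
  have hB : 0 ≤ 10 * (Dn S.H Q * psi S.f S.z χ Q) := by positivity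
  have hC : 0 ≤ 28 * ((1 - Dn S.H Q) * S.b Q) := by
    have : 0 ≤ 1 - Dn S.H Q := by linarith
    positivity
  split_ifs with hg hF hF
  · rw [if_pos hF] at hA; linarith
  · rw [if_neg hF] at hA; linarith
  · linarith
  · unfold Sys.Good at hg
    by_cases hd : Dn S.H Q ≤ 1 / 10
    · have hb : 1 / 25 < S.b Q := by
        by_contra hc
        exact hg ⟨hF, hd, not_lt.1 hc⟩
      nlinarith
    · have hd' : 1 / 10 < Dn S.H Q := not_le.1 hd
      nlinarith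

theorem Sys.dual_aux (S : Sys α) {χ : ℕ → ℝ} (hχ0 : ∀ s, 0 ≤ χ s)
    (g : α → Finset α → ℝ) (hg : ∀ x Q, 0 ≤ g x Q) {t : ℕ} (ht : t ≤ 2 * S.m)
    (B : ℕ → ℝ) (hB : ∀ s, 0 ≤ B s)
    (H : ∀ C, C ∈ S.F → t ≤ C.card → χ C.card ≠ 0 →
      (Dn^[C.card - t] (fun T => if S.z C ∈ T then g (S.z C) T else 0)) C ≤ B C.card) :
    Ev t (fun T => ∑ x ∈ T, g x T * rho S.f S.z χ x T) ≤
      ∑ s ∈ range (2 * S.m + 1), χ s * S.ph s * B s := by
  have h1 := rho_dual_mem S.f_nonneg S.f_le_one S.z hχ0 g hg (t := t) (by rw [S.hcard]; exact ht)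
  refine h1.trans ?_
  have h2 : ∀ s ∈ Icc t (Fintype.card α), Ev s (fun C => S.f C * χ C.card *
            (Dn^[s - t] (fun T => if S.z C ∈ T then g (S.z C) T else 0)) C) ≤
            χ s * S.ph s * B s := by
    intro s hs
    rw [Finset.mem_Icc] at hs
    have h3 : χ s * S.ph s * B s = Ev s (fun C => (χ s * B s) * S.f C) := by
      rw [Ev_const_mul]
      unfold Sys.ph
      ring
    rw [h3]
    refine Ev_mono fun C hC => ?_
    by_cases hf : S.f C = 0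
    · rw [hf]; simp
    · by_cases hχ : χ s = 0
      · rw [hC, hχ]; simp
      · have h4 := H C (S.mem_of_f hf) (by omega) (by rw [hC]; exact hχ)
        rw [hC] at h4
        rw [hC]
        have h5 := S.f_nonneg C
        have h6 := hχ0 s
        have h7 : 0 ≤ S.f C * χ s := mul_nonneg h5 h6
        calc S.f C * χ s * (Dn^[s - t] (fun T => if S.z C ∈ T then g (S.z C) T else 0)) C
            ≤ S.f C * χ s * B s := mul_le_mul_of_nonneg_left h4 h7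
          _ = χ s * B s * S.f C := by ring
  refine (Finset.sum_le_sum h2).trans ?_
  refine Finset.sum_le_sum_of_subset_of_nonneg ?_ ?_
  · intro s hs
    rw [Finset.mem_Icc, S.hcard] at hs
    rw [Finset.mem_range]
    omega
  · intro s _ _
    exact mul_nonneg (mul_nonneg (hχ0 s) (S.ph_nonneg s)) (hB s)

open Classical in
theorem Sys.bad_F (S : Sys α) (hR : S.Reg) {χ : ℕ → ℝ} (hχ0 : ∀ s, 0 ≤ χ s)
    {t : ℕ} (ht9 : 9 * S.m ≤ 10 * t) (htm : t + 1 ≤ S.m)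
    (hχ : ∀ s, s ≤ t + 1 → χ s = 0) :
    Ev (t + 1) (fun Q => ∑ x ∈ Q, (if Q ∈ S.F then (1 : ℝ) else 0) * rho S.f S.z χ x Q) ≤
      ∑ s ∈ range (2 * S.m + 1), χ s * S.ph s *
          (10000 * ((s : ℝ) - t) ^ 2 / (S.m : ℝ) ^ 2) := by
  refine S.dual_aux hχ0 (fun _ Q => if Q ∈ S.F then (1 : ℝ) else 0)
    (fun _ Q => by split_ifs <;> norm_num) (t := t + 1) (by omega)
    (fun s => 10000 * ((s : ℝ) - t) ^ 2 / (S.m : ℝ) ^ 2) (fun s => by positivity) ?_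
  intro C hC hCt hχC
  have hs : t + 2 ≤ C.card := by
    by_contra hc
    exact hχC (hχ _ (by omega))
  obtain ⟨hb1, hb2⟩ := S.card_bounds hR hC
  have hm1 : (100000000 : ℝ) ≤ S.m := by exact_mod_cast hR.1
  have ht9' : 9 * (S.m : ℝ) ≤ 10 * t := by exact_mod_cast ht9
  set s := C.card with hsdef
  have hs' : (t : ℝ) + 2 ≤ s := by exact_mod_cast hs
  have hcast : ((s - (t + 1) : ℕ) : ℝ) = (s : ℝ) - t - 1 := by
    rw [Nat.cast_sub (by omega)]
    push_cast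
    ring
  have hs1 : 0 < (s : ℝ) - 1 := by linarith
  set q : ℝ := 4 * ((s : ℝ) - t - 1) / ((s : ℝ) - 1) with hq
  have hq0 : 0 ≤ q := by
    rw [hq]
    apply div_nonneg _ hs1.le
    linarith
  have hq1 : q ≤ 1 := by
    rw [hq, div_le_one hs1]
    nlinarith
  have h1 := Dn_iter_member_le S.F C (S.hz C hC) (i := s - (t + 1)) (by omega) (by omega) hq0 hq1
    (by
      rw [hcast, hq, ← hsdef]
      rw [div_mul_cancel₀ _ hs1.ne'])
  refine h1.trans ?_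
  have h2 : q ≤ 4 * 1.001 * ((s : ℝ) - t) / S.m := by
    rw [hq, div_le_div_iff₀ hs1 (by linarith)]
    have h3 : (S.m : ℝ) ≤ 1.001 * ((s : ℝ) - 1) := by nlinarith
    have h4 : 0 ≤ (s : ℝ) - t - 1 := by linarith
    nlinarith
  have h5 : q ^ 2 ≤ (4 * 1.001 * ((s : ℝ) - t) / S.m) ^ 2 := by gcongr
  calc 9 / 5 * (256 * q ^ 2) ≤ 9 / 5 * (256 * (4 * 1.001 * ((s : ℝ) - t) / S.m) ^ 2) := by gcongr
    _ = (9 / 5 * 256 * 16 * 1.001 ^ 2) * (((s : ℝ) - t) ^ 2 / (S.m : ℝ) ^ 2) := by ring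
    _ ≤ 10000 * (((s : ℝ) - t) ^ 2 / (S.m : ℝ) ^ 2) := by
        have : 0 ≤ ((s : ℝ) - t) ^ 2 / (S.m : ℝ) ^ 2 := by positivity
        nlinarith
    _ = 10000 * ((s : ℝ) - t) ^ 2 / (S.m : ℝ) ^ 2 := by ring

theorem Sys.bad_H (S : Sys α) (hR : S.Reg) {χ : ℕ → ℝ} (hχ0 : ∀ s, 0 ≤ χ s)
    {t : ℕ} (htm : t + 1 ≤ S.m) :
    Ev (t + 1) (fun Q => ∑ x ∈ Q, Dn S.H Q * rho S.f S.z χ x Q) ≤
      ∑ s ∈ range (2 * S.m + 1), χ s * S.ph s *
          (7 * Cw * (1 / Real.sqrt S.m + max ((s : ℝ) - S.m) 0 / S.m)) := by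
  refine S.dual_aux hχ0 (fun _ Q => Dn S.H Q)
    (fun _ Q => S.Dn_H_nonneg Q) (t := t + 1) (by omega)
    (fun s => 7 * Cw * (1 / Real.sqrt S.m + max ((s : ℝ) - S.m) 0 / S.m)) (fun s => ?_) ?_
  · have := UF16_Cw_nonneg
    positivity
  · intro C hC hCt hχC
    refine le_trans ?_ (S.DH_small hR hC)
    refine le_trans ?_ (S.Dn_iter_DnH (C.card - (t + 1)) C (by omega))
    refine Dn_iter_mono ?_ (by omega)
    intro P _ _
    split_ifs
    · exact le_rfl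
    · exact S.Dn_H_nonneg P

theorem Sys.Ev_eh_le (S : Sys α) (hR : S.Reg) {χ : ℕ → ℝ} (hχ0 : ∀ s, 0 ≤ χ s)
    (hχ1 : ∀ s, χ s ≤ 1) {t : ℕ} (ht9 : 9 * S.m ≤ 10 * t) (htm : t + 1 ≤ S.m)
    (hχ : ∀ s, s ≤ t + 1 → χ s = 0) :
    Ev t (S.eh χ) ≤ 2 / S.m *
      (∑ s ∈ range (2 * S.m + 1), χ s * S.ph s *
          (10000 * ((s : ℝ) - t) ^ 2 / (S.m : ℝ) ^ 2
            + 100 * Cw * (1 / Real.sqrt S.m + max ((s : ℝ) - S.m) 0 / S.m))
        + 28 * Ev (t + 1) (fun Q => (1 - Dn S.H Q) * S.b Q)) := by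
  classical
  have hm1 : (100000000 : ℝ) ≤ S.m := by exact_mod_cast hR.1
  have ht9' : 9 * (S.m : ℝ) ≤ 10 * t := by exact_mod_cast ht9
  rw [S.Ev_eh_eq χ (t := t) (by rw [S.hcard]; omega)]
  have h1 : Ev (t + 1) (fun Q => if S.Good Q then 0 else psi S.f S.z χ Q) ≤
      ∑ s ∈ range (2 * S.m + 1), χ s * S.ph s *
          (10000 * ((s : ℝ) - t) ^ 2 / (S.m : ℝ) ^ 2
            + 100 * Cw * (1 / Real.sqrt S.m + max ((s : ℝ) - S.m) 0 / S.m))
        + 28 * Ev (t + 1) (fun Q => (1 - Dn S.H Q) * S.b Q) := by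
    have h2 : Ev (t + 1) (fun Q => if S.Good Q then 0 else psi S.f S.z χ Q) ≤
        Ev (t + 1) (fun Q => (∑ x ∈ Q, (if Q ∈ S.F then (1 : ℝ) else 0) * rho S.f S.z χ x Q) +
      10 * (∑ x ∈ Q, Dn S.H Q * rho S.f S.z χ x Q) + 28 * ((1 - Dn S.H Q) * S.b Q)) :=
      Ev_mono fun Q _ => S.bad_ptwise hχ0 hχ1 Q
    refine h2.trans ?_
    rw [Ev_add, Ev_add, Ev_const_mul, Ev_const_mul]
    have h3 := S.bad_F hR hχ0 ht9 htm hχ
    have h4 := S.bad_H hR hχ0 (χ := χ) htm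
    have h5 : ∑ s ∈ range (2 * S.m + 1), χ s * S.ph s *
          (10000 * ((s : ℝ) - t) ^ 2 / (S.m : ℝ) ^ 2) + 10 * ∑ s ∈ range (2 * S.m + 1), χ s * S.ph s *
          (7 * Cw * (1 / Real.sqrt S.m + max ((s : ℝ) - S.m) 0 / S.m)) ≤
          ∑ s ∈ range (2 * S.m + 1), χ s * S.ph s *
          (10000 * ((s : ℝ) - t) ^ 2 / (S.m : ℝ) ^ 2
            + 100 * Cw * (1 / Real.sqrt S.m + max ((s : ℝ) - S.m) 0 / S.m)) := by
      rw [Finset.mul_sum, ← Finset.sum_add_distrib]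
      refine Finset.sum_le_sum fun s _ => ?_
      have h6 : 0 ≤ χ s * S.ph s := mul_nonneg (hχ0 s) (S.ph_nonneg s)
      have h7 : 0 ≤ Cw * (1 / Real.sqrt S.m + max ((s : ℝ) - S.m) 0 / S.m) := by
        have := UF16_Cw_nonneg
        positivity
      have h8 : 0 ≤ χ s * S.ph s * (Cw * (1 / Real.sqrt S.m + max ((s : ℝ) - S.m) 0 / S.m)) :=
        mul_nonneg h6 h7
      nlinarith
    linarith
  have h9 : 0 ≤ Ev (t + 1) (fun Q => if S.Good Q then 0 else psi S.f S.z χ Q) := by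
    refine Ev_nonneg fun Q _ => ?_
    split_ifs
    · exact le_rfl
    · exact psi_nonneg S.f_nonneg S.f_le_one S.z hχ0 Q
  have h10 : 1 / ((t : ℝ) + 1) ≤ 2 / S.m := by
    rw [div_le_div_iff₀ (by positivity) (by linarith)]
    linarith
  exact mul_le_mul h10 h1 h9 (by positivity)

end UF
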