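import Pool.Agent.UF.Base
import Pool.Agent.UF.Jm1a
import Pool.Agent.UF.Jm1b
import Pool.Agent.UF.Jm5a
import Pool.Agent.UF.Jm5b
import Pool.Agent.UF.Jo8
import Pool.Agent.UF.Ju2
import Pool.Agent.UF.Ju5

set_option autoImplicit false
set_option linter.unusedSectionVars false
set_option linter.unusedVariables false
open Finset

namespace UF
variable {α : Type*} [Fintype α] [DecidableEq α]

theorem pairs_C_claimA (F : Finset (Finset α)) (C : Finset α) {z : α} {b t : ℕ}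
    (hb1 : 1 ≤ b) (ht4 : 4 ≤ t) {q₂ δ : ℝ} (hq20 : 0 ≤ q₂)
    (hq21 : q₂ ≤ 1) (hδ0 : 0 ≤ δ) (hδ : ((t : ℝ) - 2 - b) / ((t : ℝ) - 2) ≤ δ)
    (hq2 : 4 * ((t : ℝ) - 2 - b) ≤ q₂ * ((t : ℝ) - 3))
    (T : Finset α) (hTC : T ⊆ C) (hT : T.card = t) (hzT : z ∈ T) (x y : α)
    (hx : x ∈ T.erase z) (hy : y ∈ (T.erase z).erase x) :
    max (Hb F b ((T.erase x).erase y) - δ) 0
      ≤ 9 / 5 * mu q₂ (T.erase z) (fun V => xiR F C (T \ insert x (insert y V))) := by
  have hx1 : x ≠ z := Finset.ne_of_mem_erase hx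
  have hx2 : x ∈ T := Finset.mem_of_mem_erase hx
  have hy1 : y ≠ x := Finset.ne_of_mem_erase hy
  have hy2 : y ≠ z := Finset.ne_of_mem_erase (Finset.mem_of_mem_erase hy)
  have hy3 : y ∈ T := Finset.mem_of_mem_erase (Finset.mem_of_mem_erase hy)
  set P := (T.erase x).erase y with hP
  have hPcard : P.card = t - 2 := by
    rw [hP, Finset.card_erase_of_mem (Finset.mem_erase.2 ⟨hy1, hy3⟩),
      Finset.card_erase_of_mem hx2, hT]; omega
  have hPT : P ⊆ T := (Finset.erase_subset _ _).trans (Finset.erase_subset _ _)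
  have hzP : z ∈ P := Finset.mem_erase.2 ⟨hy2.symm, Finset.mem_erase.2 ⟨hx1.symm, hzT⟩⟩
  have hPC : P ⊂ C := by
    refine ⟨hPT.trans hTC, fun h => ?_⟩
    have := h (hTC hx2)
    rw [hP] at this
    simp at this
  have hmono : Monotone (fun V : Finset α => xiR F C (T \ insert x (insert y V))) := by
    intro V W hVW
    exact xiR_anti F C (Finset.sdiff_subset_sdiff le_rfl
      (Finset.insert_subset_insert _ (Finset.insert_subset_insert _ hVW)))
  have hnn : 0 ≤ mu q₂ (T.erase z) (fun V => xiR F C (T \ insert x (insert y V))) :=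
    mu_nonneg hq20 hq21 _ fun V _ => xiR_nonneg _ _ _
  have h1 : mu q₂ (P.erase z) (fun V => xiR F C (P \ V))
      ≤ mu q₂ (T.erase z) (fun V => xiR F C (T \ insert x (insert y V))) := by
    have e : mu q₂ (P.erase z) (fun V => xiR F C (P \ V))
        = mu q₂ (P.erase z) (fun V => xiR F C (T \ insert x (insert y V))) := by
      refine mu_congr _ fun V _ => ?_
      congr 1
      ext a
      simp only [hP, Finset.mem_sdiff, Finset.mem_erase, Finset.mem_insert]
      tauto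
    rw [e]
    exact mu_subset hq20 hq21 (Finset.erase_subset_erase _ hPT) hmono
  apply max_le _ (by positivity)
  by_cases hb : b ≤ P.card
  · have hPr : (P.card : ℝ) = (t:ℝ) - 2 := by
      rw [hPcard, Nat.cast_sub (by omega)]; norm_num
    have h2 := Hb_bound F C hPC hzP hb1 hb hq20 hq21 (by rw [hPr]; linarith)
    rw [hPr] at h2
    linarith
  · rw [Hb_of_card_lt F b P (by omega)]
    linarith

/-- pairs lemma below a member `C` (two-round exposure) -/
theorem pairs_C (F : Finset (Finset α)) (C : Finset α) {z : α} (hC : Centre F C z) {b t : ℕ}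
    (hb1 : 1 ≤ b) (ht4 : 4 ≤ t) (htC : t ≤ C.card) {N : ℝ} (hN1 : 1 ≤ N)
    (hN : (C.card : ℝ) ≤ N) {q₀ q₂ δ : ℝ} (hq00 : 0 ≤ q₀) (hq01 : q₀ ≤ 1) (hq20 : 0 ≤ q₂)
    (hq21 : q₂ ≤ 1) (hδ0 : 0 ≤ δ) (hδ : ((t : ℝ) - 2 - b) / ((t : ℝ) - 2) ≤ δ)
    (hq0 : 4 * ((C.card : ℝ) - t) ≤ q₀ * ((C.card : ℝ) - 1))
    (hq2 : 4 * ((t : ℝ) - 2 - b) ≤ q₂ * ((t : ℝ) - 3))
    (ω : Finset α → α → α → ℝ) (hω0 : ∀ T x y, 0 ≤ ω T x y)
    (hrow : ∀ T, ∀ x ∈ T, ∑ y ∈ T, ω T x y ≤ 1) (hcol : ∀ T, ∀ y ∈ T, ∑ x ∈ T, ω T x y ≤ 1) :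
    (Dn^[C.card - t] (fun T => if z ∈ T then
        ∑ x ∈ T.erase z, ∑ y ∈ (T.erase z).erase x,
          ω T x y * max (Hb F b ((T.erase x).erase y) - δ) 0 else 0)) C
      ≤ 6636 * N * (q₀ + Real.sqrt (1 / N) + q₂) ^ 2 := by
  classical
  obtain ⟨hzC, hCen⟩ := hC
  set q₁ := Real.sqrt (1 / N) with hq1def
  have hq10 : 0 ≤ q₁ := Real.sqrt_nonneg _
  have hq11 : q₁ ≤ 1 := by
    rw [hq1def]
    rw [Real.sqrt_le_left (by norm_num), one_pow]
    rw [div_le_one (by linarith)]; exact hN1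
  set S := C.erase z with hS
  set Γ : Finset α → ℝ := fun X => mu q₁ S (fun V₁ => mu q₂ S (fun V₂ => xiR F C (X \ (V₁ ∪ V₂))))
    with hΓ
  have hΓ0 : ∀ X, 0 ≤ Γ X := fun X =>
    mu_nonneg hq10 hq11 _ fun V _ => mu_nonneg hq20 hq21 _ fun W _ => xiR_nonneg _ _ _
  have hΓanti : ∀ X Y, X ⊆ Y → Γ Y ≤ Γ X := fun X Y hXY =>
    mu_mono hq10 hq11 _ fun V _ => mu_mono hq20 hq21 _ fun W _ =>
      xiR_anti F C (Finset.sdiff_subset_sdiff hXY le_rfl)
  have hi : C.card - t ≤ C.card := Nat.sub_le _ _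
  -- the pointwise bound
  have hpt : ∀ T, T ⊆ C → T.card + (C.card - t) = C.card →
      (if z ∈ T then
        ∑ x ∈ T.erase z, ∑ y ∈ (T.erase z).erase x,
          ω T x y * max (Hb F b ((T.erase x).erase y) - δ) 0 else 0)
      ≤ (if z ∈ T then 72 / 5 * N * Γ T else 0) := by
    intro T hTC hTcard
    have hT : T.card = t := by omega
    split_ifs with hzT
    swap
    · exact le_rfl
    set M := T.erase z with hM
    set g : Finset α → ℝ := fun W => xiR F C (T \ W) with hg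
    have hgmono : Monotone g := fun V W hVW =>
      xiR_anti F C (Finset.sdiff_subset_sdiff le_rfl hVW)
    have hg0 : ∀ V, 0 ≤ g V := fun V => xiR_nonneg _ _ _
    have hMC : M ⊆ S := Finset.erase_subset_erase _ hTC
    have hMN : (M.card : ℝ) ≤ N := by
      have h1 : M.card ≤ C.card := (Finset.card_le_card hMC).trans
        (Finset.card_le_card (Finset.erase_subset _ _))
      exact le_trans (by exact_mod_cast h1) hN
    have hrow' : ∀ x ∈ M, ∑ y ∈ M, ω T x y ≤ 1 := by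
      intro x hx
      refine le_trans ?_ (hrow T x (Finset.mem_of_mem_erase hx))
      exact Finset.sum_le_sum_of_subset_of_nonneg (Finset.erase_subset _ _)
        fun y _ _ => hω0 T x y
    have hcol' : ∀ y ∈ M, ∑ x ∈ M, ω T x y ≤ 1 := by
      intro y hy
      refine le_trans ?_ (hcol T y (Finset.mem_of_mem_erase hy))
      exact Finset.sum_le_sum_of_subset_of_nonneg (Finset.erase_subset _ _)
        fun x _ _ => hω0 T x y
    have h2r := two_round hq20 hq21 M N hN1 hMN (ω T) (hω0 T) hrow' hcol' g hgmono hg0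
    have hsum : ∑ x ∈ M, ∑ y ∈ M.erase x, ω T x y * max (Hb F b ((T.erase x).erase y) - δ) 0
        ≤ 9 / 5 * ∑ x ∈ M, ∑ y ∈ M.erase x,
            ω T x y * mu q₂ M (fun V => g (insert x (insert y V))) := by
      rw [Finset.mul_sum]
      refine Finset.sum_le_sum fun x hx => ?_
      rw [Finset.mul_sum]
      refine Finset.sum_le_sum fun y hy => ?_
      have hA := pairs_C_claimA F C hb1 ht4 hq20 hq21 hδ0 hδ hq2 T hTC hT hzT x y hx hy
      calc ω T x y * max (Hb F b ((T.erase x).erase y) - δ) 0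
          ≤ ω T x y * (9 / 5 * mu q₂ M (fun V => g (insert x (insert y V)))) :=
            mul_le_mul_of_nonneg_left hA (hω0 T x y)
        _ = 9 / 5 * (ω T x y * mu q₂ M (fun V => g (insert x (insert y V)))) := by ring
    have hbig : mu q₁ M (fun V₁ => mu q₂ M (fun V₂ => g (V₁ ∪ V₂))) ≤ Γ T := by
      calc mu q₁ M (fun V₁ => mu q₂ M (fun V₂ => g (V₁ ∪ V₂)))
          ≤ mu q₁ M (fun V₁ => mu q₂ S (fun V₂ => g (V₁ ∪ V₂))) := by
            refine mu_mono hq10 hq11 _ fun V₁ _ => ?_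
            exact mu_subset hq20 hq21 hMC fun V W hVW =>
              hgmono (Finset.union_subset_union le_rfl hVW)
        _ ≤ mu q₁ S (fun V₁ => mu q₂ S (fun V₂ => g (V₁ ∪ V₂))) := by
            refine mu_subset hq10 hq11 hMC fun V W hVW => ?_
            exact mu_mono hq20 hq21 _ fun V₂ _ =>
              hgmono (Finset.union_subset_union hVW le_rfl)
    have hN0 : 0 < N := by linarith
    have h3 : ∑ x ∈ M, ∑ y ∈ M.erase x, ω T x y * mu q₂ M (fun V => g (insert x (insert y V)))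
        ≤ 8 * N * Γ T := by
      have h4 := h2r.trans hbig
      rw [one_div, inv_mul_le_iff₀ (by positivity)] at h4
      exact h4
    linarith
  refine (Dn_iter_mono hpt hi).trans ?_
  have hK0 : ∀ Q, 0 ≤ 72 / 5 * N * Γ Q := fun Q => by
    have := hΓ0 Q
    positivity
  refine (Dn_iter_mem_le (fun T => 72 / 5 * N * Γ T) hK0 hzC (by omega)).trans ?_
  have hScard : (S.card : ℝ) = (C.card : ℝ) - 1 := by
    rw [hS, Finset.card_erase_of_mem hzC, Nat.cast_sub (by omega)]; norm_num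
  have hu := unif_le_mu hq00 hq01 S (C.card - t)
    (by rw [hScard, Nat.cast_sub htC]; exact hq0) (fun V => 72 / 5 * N * Γ (C \ V))
    (fun V W hVW => by
      have := hΓanti (C \ W) (C \ V) (Finset.sdiff_subset_sdiff le_rfl hVW)
      have hN0 : 0 < N := by linarith
      exact mul_le_mul_of_nonneg_left this (by positivity))
    (fun V => hK0 _)
  refine hu.trans ?_
  rw [mu_const_mul]
  set q' := 1 - (1 - q₁) * (1 - q₂) with hq'
  set qs := 1 - (1 - q₀) * (1 - q') with hqs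
  have hmu : mu q₀ S (fun V => Γ (C \ V)) = mu qs S (fun V => xiR F C (C \ V)) := by
    rw [hqs, ← mu_union]
    refine mu_congr _ fun V₀ _ => ?_
    rw [hq', ← mu_union q₁ q₂ S (fun V₂ => xiR F C (C \ (V₀ ∪ V₂)))]
    refine mu_congr _ fun V₁ _ => mu_congr _ fun V₂ _ => ?_
    congr 1
    ext a
    simp only [Finset.mem_sdiff, Finset.mem_union]
    tauto
  rw [hmu]
  have hqsv : 1 - qs = (1 - q₀) * ((1 - q₁) * (1 - q₂)) := by
    rw [hqs, hq']; ring
  have hprod0 : 0 ≤ (1 - q₀) * ((1 - q₁) * (1 - q₂)) :=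
    mul_nonneg (by linarith) (mul_nonneg (by linarith) (by linarith))
  have h12 : (1 - q₁) * (1 - q₂) ≤ 1 := by nlinarith
  have h120 : 0 ≤ (1 - q₁) * (1 - q₂) := mul_nonneg (by linarith) (by linarith)
  have hprod1 : (1 - q₀) * ((1 - q₁) * (1 - q₂)) ≤ 1 := by nlinarith
  have hqs0 : 0 ≤ qs := by linarith
  have hqs1 : qs ≤ 1 := by linarith
  have hqsle : qs ≤ q₀ + q₁ + q₂ := by
    have h5 : 1 - (q₁ + q₂) ≤ (1 - q₁) * (1 - q₂) := by nlinarith
    have h6 : 1 - (q₀ + q₁ + q₂) ≤ (1 - q₀) * ((1 - q₁) * (1 - q₂)) := by nlinarith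
    linarith
  have hcen := hCen qs hqs0 hqs1
  have hsq : qs ^ 2 ≤ (q₀ + q₁ + q₂) ^ 2 := pow_le_pow_left₀ hqs0 hqsle 2
  have hN0 : 0 < N := by linarith
  have h7 : mu qs S (fun V => xiR F C (C \ V)) ≤ 256 * (q₀ + q₁ + q₂) ^ 2 := by
    linarith
  have h8 : 9 / 5 * (72 / 5 * N * mu qs S (fun V => xiR F C (C \ V)))
      ≤ 9 / 5 * (72 / 5 * N * (256 * (q₀ + q₁ + q₂) ^ 2)) := by
    apply mul_le_mul_of_nonneg_left _ (by norm_num)
    exact mul_le_mul_of_nonneg_left h7 (by positivity)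
  refine h8.trans ?_
  have h9 : 0 ≤ N * (q₀ + q₁ + q₂) ^ 2 := by positivity
  nlinarith

end UF
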