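import Pool.Agent.UF.Base
import Pool.Agent.UF.Jo10
import Pool.Agent.UF.Jo7
import Pool.Agent.UF.Js1
import Pool.Agent.UF.Js3
import Pool.Agent.UF.Ju2
import Pool.Agent.UF.Ju7

set_option autoImplicit false
set_option linter.unusedSectionVars false
set_option linter.unusedVariables false
open Finset

namespace UF
variable {α : Type*} [Fintype α] [DecidableEq α]

/-- splitting the pair sum at `z` -/
theorem pair_split_aux {T : Finset α} {z : α} (hz : z ∈ T) (w : α → α → ℝ) (G : α → α → ℝ)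
    (hw : ∀ x y, 0 ≤ w x y) (hG0 : ∀ x y, 0 ≤ G x y) (hG1 : ∀ x y, G x y ≤ 1)
    (hrow : ∀ x ∈ T, ∑ y ∈ T, w x y ≤ 1) (hcol : ∀ y ∈ T, ∑ x ∈ T, w x y ≤ 1) :
    ∑ x ∈ T, ∑ y ∈ T.erase x, w x y * G x y ≤
      2 + ∑ x ∈ T.erase z, ∑ y ∈ (T.erase z).erase x, w x y * G x y := by
  have h1 : ∑ x ∈ T, ∑ y ∈ T.erase x, w x y * G x y =
      ∑ y ∈ T.erase z, w z y * G z y + ∑ x ∈ T.erase z, ∑ y ∈ T.erase x, w x y * G x y := by
    rw [← Finset.add_sum_erase T _ hz]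
  have h2 : ∀ x ∈ T.erase z, ∑ y ∈ T.erase x, w x y * G x y =
      w x z * G x z + ∑ y ∈ (T.erase z).erase x, w x y * G x y := by
    intro x hx
    have hzx : z ∈ T.erase x := Finset.mem_erase.2 ⟨fun h => (Finset.mem_erase.1 hx).1 h.symm, hz⟩
    rw [← Finset.add_sum_erase (T.erase x) _ hzx, Finset.erase_right_comm]
  rw [h1, Finset.sum_congr rfl h2, Finset.sum_add_distrib]
  have hle : ∀ x y, w x y * G x y ≤ w x y := fun x y =>
    mul_le_of_le_one_right (hw x y) (hG1 x y)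
  have h3 : ∑ y ∈ T.erase z, w z y * G z y ≤ 1 :=
    (Finset.sum_le_sum fun y _ => hle z y).trans
      ((Finset.sum_le_sum_of_subset_of_nonneg (Finset.erase_subset z T)
        (fun y _ _ => hw z y)).trans (hrow z hz))
  have h4 : ∑ x ∈ T.erase z, w x z * G x z ≤ 1 :=
    (Finset.sum_le_sum fun x _ => hle x z).trans
      ((Finset.sum_le_sum_of_subset_of_nonneg (Finset.erase_subset z T)
        (fun x _ _ => hw x z)).trans (hcol z hz))
  linarith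

/-- the numerical part of the averaged pairs lemma -/
theorem num_aux {m X Y q : ℝ} (hm : 0 < m) (hX : 0 ≤ X) (hY : 1 ≤ Y)
    (hq : q = 4.1 * X / m) :
    6636 * (2 * m) * (q + Real.sqrt (1 / (2 * m)) + 4.5 * Y / Real.sqrt m) ^ 2 ≤
      540000 * ((Y + 1) ^ 2 + X ^ 2 / m) := by
  have hs : 0 < Real.sqrt m := Real.sqrt_pos.2 hm
  have hss : Real.sqrt m ^ 2 = m := Real.sq_sqrt hm.le
  have h1 : Real.sqrt (1 / (2 * m)) ≤ 4.5 / Real.sqrt m := by
    rw [Real.sqrt_le_left (by positivity), div_pow, hss, div_le_div_iff₀ (by positivity) hm]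
    nlinarith
  have h2 : q = 4.1 * (X / Real.sqrt m) / Real.sqrt m := by
    rw [hq, mul_div_assoc, mul_div_assoc, div_div, ← pow_two, hss]
  have h3 : q + Real.sqrt (1 / (2 * m)) + 4.5 * Y / Real.sqrt m ≤
      (4.1 * (X / Real.sqrt m) + 4.5 * (Y + 1)) / Real.sqrt m := by
    rw [h2, add_div, mul_add, add_div (4.5 * Y), mul_one]
    linarith
  have h0 : 0 ≤ q + Real.sqrt (1 / (2 * m)) + 4.5 * Y / Real.sqrt m := by
    rw [hq]; positivity
  have h4 : (q + Real.sqrt (1 / (2 * m)) + 4.5 * Y / Real.sqrt m) ^ 2 ≤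
      ((4.1 * (X / Real.sqrt m) + 4.5 * (Y + 1)) / Real.sqrt m) ^ 2 :=
    pow_le_pow_left₀ h0 h3 2
  have h5 : ((4.1 * (X / Real.sqrt m) + 4.5 * (Y + 1)) / Real.sqrt m) ^ 2 =
      (4.1 * (X / Real.sqrt m) + 4.5 * (Y + 1)) ^ 2 / m := by
    rw [div_pow, hss]
  have h6 : (4.1 * (X / Real.sqrt m) + 4.5 * (Y + 1)) ^ 2 ≤
      37.06 * ((Y + 1) ^ 2 + (X / Real.sqrt m) ^ 2) := by
    nlinarith [sq_nonneg (4.5 * (X / Real.sqrt m) - 4.1 * (Y + 1))]
  have h7 : (X / Real.sqrt m) ^ 2 = X ^ 2 / m := by rw [div_pow, hss]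
  rw [h7] at h6
  have hpos : 0 ≤ (Y + 1) ^ 2 + X ^ 2 / m := by positivity
  calc 6636 * (2 * m) * (q + Real.sqrt (1 / (2 * m)) + 4.5 * Y / Real.sqrt m) ^ 2
      ≤ 6636 * (2 * m) * ((4.1 * (X / Real.sqrt m) + 4.5 * (Y + 1)) ^ 2 / m) := by
        rw [← h5]
        exact mul_le_mul_of_nonneg_left h4 (by positivity)
    _ = 13272 * (4.1 * (X / Real.sqrt m) + 4.5 * (Y + 1)) ^ 2 := by
        field_simp
        ring
    _ ≤ 13272 * (37.06 * ((Y + 1) ^ 2 + X ^ 2 / m)) :=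
        mul_le_mul_of_nonneg_left h6 (by norm_num)
    _ ≤ 540000 * ((Y + 1) ^ 2 + X ^ 2 / m) := by
        nlinarith

/-- averaged pairs lemma: centre inside `T`, pairs avoiding the centre -/
theorem Sys.pairs_level (S : Sys α) (hR : S.Reg) {k : ℕ} (hk : k < S.M)
    (ω : Finset α → α → α → ℝ) (hω0 : ∀ T x y, 0 ≤ ω T x y)
    (hrow : ∀ T, ∀ x ∈ T, ∑ y ∈ T, ω T x y ≤ 1) (hcol : ∀ T, ∀ y ∈ T, ∑ x ∈ T, ω T x y ≤ 1)
    {χ : ℕ → ℝ} (hχ0 : ∀ s, 0 ≤ χ s) (hχ1 : ∀ s, χ s ≤ 1)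
    {t : ℕ} (ht9 : 9 * S.m ≤ 10 * t) (htm : t ≤ S.m) :
    Ev t (fun T => psi S.f S.z χ T * ∑ x ∈ T, ∑ y ∈ T.erase x, ω T x y * S.Ga k T x y)
      ≤ 2 * Ev t (psi S.f S.z χ) + ∑ s ∈ Icc t (2 * S.m), χ s * S.ph s *
            (540000 * (((k : ℝ) + 2) ^ 2 + ((s : ℝ) - t) ^ 2 / S.m)) := by
  have hm : (100000000 : ℝ) ≤ S.m := by exact_mod_cast hR.1
  have hm0 : (0 : ℝ) < S.m := by linarith
  obtain ⟨hr1, hr2, hr3⟩ := S.r_bounds hR
  obtain ⟨hk1, hk2, hk3, hk4, hk5⟩ := S.k_bounds hR hk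
  have hsq : 0 < Real.sqrt S.m := Real.sqrt_pos.2 hm0
  have hss : Real.sqrt S.m * Real.sqrt S.m = S.m := Real.mul_self_sqrt hm0.le
  have hk0 : (0 : ℝ) ≤ k := Nat.cast_nonneg k
  have ht9' : 9 * (S.m : ℝ) ≤ 10 * t := by exact_mod_cast ht9
  have htm' : (t : ℝ) ≤ S.m := by exact_mod_cast htm
  have hkr : ((k : ℝ) + 1) * Real.sqrt S.m ≤ S.m / 2500 :=
    (mul_le_mul_of_nonneg_left hr1 (by linarith)).trans hk5
  have hkr2 : ((k : ℝ) + 1) * S.r ≤ 1.001 * (((k : ℝ) + 1) * Real.sqrt S.m) := by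
    have := mul_le_mul_of_nonneg_left hr2 (show (0 : ℝ) ≤ (k : ℝ) + 1 by linarith)
    linarith
  have hks : 2500 * ((k : ℝ) + 1) ≤ Real.sqrt S.m := by
    have h1 : 2500 * ((k : ℝ) + 1) * Real.sqrt S.m ≤ Real.sqrt S.m * Real.sqrt S.m := by
      rw [hss]; linarith
    exact le_of_mul_le_mul_right h1 hsq
  -- first step
  have hstep : Ev t (fun T => psi S.f S.z χ T * ∑ x ∈ T, ∑ y ∈ T.erase x, ω T x y * S.Ga k T x y)
      ≤ 2 * Ev t (psi S.f S.z χ) + Ev t (fun T => ∑ x ∈ T,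
        (fun (z : α) (T : Finset α) => ∑ x ∈ T.erase z, ∑ y ∈ (T.erase z).erase x,
          ω T x y * S.Ga k T x y) x T * rho S.f S.z χ x T) := by
    rw [← Ev_const_mul, ← Ev_add]
    apply Ev_mono
    intro T _
    have h1 : psi S.f S.z χ T * ∑ x ∈ T, ∑ y ∈ T.erase x, ω T x y * S.Ga k T x y =
        ∑ z ∈ T, rho S.f S.z χ z T * ∑ x ∈ T, ∑ y ∈ T.erase x, ω T x y * S.Ga k T x y := by
      rw [psi, Finset.sum_mul]
    have h2 : 2 * psi S.f S.z χ T + ∑ z ∈ T,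
        (∑ x ∈ T.erase z, ∑ y ∈ (T.erase z).erase x,
          ω T x y * S.Ga k T x y) * rho S.f S.z χ z T =
        ∑ z ∈ T, rho S.f S.z χ z T * (2 + ∑ x ∈ T.erase z, ∑ y ∈ (T.erase z).erase x,
          ω T x y * S.Ga k T x y) := by
      rw [psi, Finset.mul_sum, ← Finset.sum_add_distrib]
      exact Finset.sum_congr rfl fun z _ => by ring
    rw [h1]
    refine le_trans ?_ (le_of_eq h2.symm)
    apply Finset.sum_le_sum
    intro z hz
    exact mul_le_mul_of_nonneg_left (pair_split_aux hz (ω T) (S.Ga k T) (hω0 T)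
      (S.Ga_nonneg k T) (S.Ga_le_one k T) (hrow T) (hcol T)) (S.rho_nonneg hχ0 z T)
  refine hstep.trans (add_le_add le_rfl ?_)
  have htc : t ≤ Fintype.card α := by rw [S.hcard]; omega
  refine (rho_dual_mem S.f_nonneg S.f_le_one S.z hχ0 _ ?_ htc).trans ?_
  · intro x Q
    exact Finset.sum_nonneg fun x _ => Finset.sum_nonneg fun y _ =>
      mul_nonneg (hω0 _ _ _) (S.Ga_nonneg _ _ _ _)
  rw [S.hcard]
  apply Finset.sum_le_sum
  intro s hs
  rw [Finset.mem_Icc] at hs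
  rw [Sys.ph, mul_right_comm, ← Ev_const_mul]
  apply Ev_mono
  intro C hC
  by_cases hf : S.f C = 0
  · rw [hf]; simp
  have hCF := S.mem_of_f hf
  obtain ⟨hc1, hc2⟩ := S.card_bounds hR hCF
  have hts : (t : ℝ) ≤ C.card := by rw [hC]; exact_mod_cast hs.1
  subst hC
  have hX : 0 ≤ (C.card : ℝ) - t := by linarith
  have hb : (t : ℝ) - 2 - S.bk k ≤ 1.001 * (((k : ℝ) + 1) * Real.sqrt S.m) := by
    rw [hk3]; linarith
  have hks0 : 0 ≤ ((k : ℝ) + 1) * Real.sqrt S.m := by positivity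
  have hmain := pairs_C S.F C (S.hz C hCF) (b := S.bk k) (t := t) hk4 (by
      have : (4 : ℝ) ≤ t := by linarith
      exact_mod_cast this) hs.1 (N := 2 * S.m) (by linarith) (by linarith)
    (q₀ := 4.1 * ((C.card : ℝ) - t) / S.m) (q₂ := 4.5 * ((k : ℝ) + 1) / Real.sqrt S.m)
    (δ := S.dl k) (by positivity) (by
      rw [div_le_one hm0]; linarith) (by positivity) (by
      rw [div_le_one hsq]; linarith) (by
      unfold Sys.dl; positivity) (by
      unfold Sys.dl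
      rw [div_le_div_iff₀ (by linarith) hsq]
      have e1 : ((t : ℝ) - 2 - S.bk k) * Real.sqrt S.m ≤
          1.001 * (((k : ℝ) + 1) * Real.sqrt S.m) * Real.sqrt S.m :=
        mul_le_mul_of_nonneg_right hb hsq.le
      have e2 : 1.001 * (((k : ℝ) + 1) * Real.sqrt S.m) * Real.sqrt S.m =
          1.001 * ((k : ℝ) + 1) * S.m := by
        rw [mul_assoc, mul_assoc, hss]; ring
      have e3 : 1.001 * ((k : ℝ) + 1) * S.m ≤ 2 * ((k : ℝ) + 1) * ((t : ℝ) - 2) := by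
        have : 1.001 * (S.m : ℝ) ≤ 2 * ((t : ℝ) - 2) := by linarith
        have := mul_le_mul_of_nonneg_left this (show (0 : ℝ) ≤ (k : ℝ) + 1 by linarith)
        linarith
      linarith) (by
      have e1 : 4 ≤ 4.1 / S.m * ((C.card : ℝ) - 1) := by
        rw [div_mul_eq_mul_div, le_div_iff₀ hm0]; linarith
      calc 4 * ((C.card : ℝ) - t) ≤ 4.1 / S.m * ((C.card : ℝ) - 1) * ((C.card : ℝ) - t) :=
            mul_le_mul_of_nonneg_right e1 hX
        _ = _ := by ring) (by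
      have e1 : 4.5 * ((k : ℝ) + 1) / Real.sqrt S.m * ((t : ℝ) - 3) =
          4.5 * ((k : ℝ) + 1) * ((t : ℝ) - 3) / Real.sqrt S.m := by ring
      rw [e1, le_div_iff₀ hsq]
      have e2 : ((t : ℝ) - 2 - S.bk k) * Real.sqrt S.m ≤
          1.001 * (((k : ℝ) + 1) * Real.sqrt S.m) * Real.sqrt S.m :=
        mul_le_mul_of_nonneg_right hb hsq.le
      have e3 : 1.001 * (((k : ℝ) + 1) * Real.sqrt S.m) * Real.sqrt S.m =
          1.001 * ((k : ℝ) + 1) * S.m := by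
        rw [mul_assoc, mul_assoc, hss]; ring
      have e4 : 4 * (1.001 * (S.m : ℝ)) ≤ 4.5 * ((t : ℝ) - 3) := by linarith
      have e5 := mul_le_mul_of_nonneg_left e4 (show (0 : ℝ) ≤ (k : ℝ) + 1 by linarith)
      linarith) ω hω0 hrow hcol
  have hnum := num_aux (m := S.m) (X := (C.card : ℝ) - t) (Y := (k : ℝ) + 1)
    (q := 4.1 * ((C.card : ℝ) - t) / S.m) hm0 hX (by linarith) rfl
  have hD := hmain.trans hnum
  have e6 : (k : ℝ) + 1 + 1 = k + 2 := by ring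
  rw [e6] at hD
  have h8 : 0 ≤ χ C.card * S.f C := mul_nonneg (hχ0 _) (S.f_nonneg _)
  have h9 := mul_le_mul_of_nonneg_left hD h8
  refine (le_of_eq ?_).trans (h9.trans (le_of_eq ?_))
  · rw [mul_comm (S.f C) (χ C.card)]
    rfl
  · ring

end UF
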