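import Pool.Agent.UF.Base
import Pool.Agent.UF.Jo10
import Pool.Agent.UF.Jo12
import Pool.Agent.UF.Jo2
import Pool.Agent.UF.Js1
import Pool.Agent.UF.Js17

set_option autoImplicit false
set_option linter.unusedSectionVars false
set_option linter.unusedVariables false
open Finset

namespace UF
variable {α : Type*} [Fintype α] [DecidableEq α]

open Classical in
/-- indicator of the good sets -/
noncomputable def S18_h (S : Sys α) (Q : Finset α) : ℝ := if S.Good Q then 1 else 0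

open Classical in
/-- indicator of `1/2 ≤ b` -/
noncomputable def S18_g (S : Sys α) (Q : Finset α) : ℝ := if 10 * (1 / 20 : ℝ) ≤ S.b Q then 1 else 0

theorem S18_h_nonneg (S : Sys α) (Q : Finset α) : 0 ≤ S18_h S Q := by
  unfold S18_h; split_ifs <;> norm_num

theorem S18_g_nonneg (S : Sys α) (Q : Finset α) : 0 ≤ S18_g S Q := by
  unfold S18_g; split_ifs <;> norm_num

/-- pointwise bound by the number of good facets -/
theorem S18_point (S : Sys α) (k : ℕ)
    (ω : Finset α → α → α → ℝ) (hω0 : ∀ T x y, 0 ≤ ω T x y)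
    (hcol : ∀ T, ∀ y ∈ T, ∑ x ∈ T, ω T x y ≤ 1)
    (hsupp : ∀ T x y, ω T x y ≠ 0 → S.Good (T.erase y)) (T : Finset α) :
    ∑ x ∈ T, ∑ y ∈ T.erase x, ω T x y * S.Ga k T x y ≤ ∑ y ∈ T, S18_h S (T.erase y) := by
  classical
  have h1 : ∀ x y, ω T x y * S.Ga k T x y ≤ ω T x y * S18_h S (T.erase y) := by
    intro x y
    by_cases h : ω T x y = 0
    · rw [h, zero_mul, zero_mul]
    · apply mul_le_mul_of_nonneg_left _ (hω0 T x y)
      unfold S18_h
      rw [if_pos (hsupp T x y h)]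
      exact S.Ga_le_one k T x y
  calc ∑ x ∈ T, ∑ y ∈ T.erase x, ω T x y * S.Ga k T x y
      ≤ ∑ x ∈ T, ∑ y ∈ T, ω T x y * S18_h S (T.erase y) := by
        refine Finset.sum_le_sum fun x _ => ?_
        calc ∑ y ∈ T.erase x, ω T x y * S.Ga k T x y
            ≤ ∑ y ∈ T.erase x, ω T x y * S18_h S (T.erase y) :=
              Finset.sum_le_sum fun y _ => h1 x y
          _ ≤ ∑ y ∈ T, ω T x y * S18_h S (T.erase y) :=
              Finset.sum_le_sum_of_subset_of_nonneg (Finset.erase_subset _ _)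
                fun y _ _ => mul_nonneg (hω0 T x y) (S18_h_nonneg S _)
    _ = ∑ y ∈ T, (∑ x ∈ T, ω T x y) * S18_h S (T.erase y) := by
        rw [Finset.sum_comm]
        exact Finset.sum_congr rfl fun y _ => by rw [Finset.sum_mul]
    _ ≤ ∑ y ∈ T, S18_h S (T.erase y) := by
        refine Finset.sum_le_sum fun y hy => ?_
        calc (∑ x ∈ T, ω T x y) * S18_h S (T.erase y) ≤ 1 * S18_h S (T.erase y) :=
              mul_le_mul_of_nonneg_right (hcol T y hy) (S18_h_nonneg S _)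
          _ = _ := one_mul _

/-- the step from good sets -/
theorem S18_step (S : Sys α) (P : Finset α) :
    S18_h S P * Up (S18_g S) P ≤ 10 / 9 * (if Up S.b P ≤ 1 / 20 then
        (1 - Ds S.f S.f P) * Up (fun R => if 10 * (1 / 20 : ℝ) ≤ S.b R then (1 : ℝ) else 0) P
        else 0) := by
  classical
  have hUp : Up (S18_g S) P = Up (fun R => if 10 * (1 / 20 : ℝ) ≤ S.b R then (1 : ℝ) else 0) P := by
    apply Up_congr
    intro w _
    unfold S18_g
    split_ifs <;> rfl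
  have hUp0 : 0 ≤ Up (fun R => if 10 * (1 / 20 : ℝ) ≤ S.b R then (1 : ℝ) else 0) P := by
    rw [← hUp]
    exact Up_nonneg fun w _ => S18_g_nonneg S _
  have hH1 : Ds S.f S.f P ≤ 1 := S.H_le_one P
  by_cases hG : S.Good P
  · obtain ⟨hPF, hD, hb⟩ := hG
    have hf : S.f P = 0 := by
      unfold Sys.f
      rw [if_neg hPF]
    have h1 := S.b_ge P
    rw [hf, sub_zero, one_mul] at h1
    have h2 : Ds S.f S.f P ≤ 1 / 10 := by
      rw [Ds_eq, hf, zero_add, sub_zero, one_mul]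
      exact hD
    rw [if_pos (by linarith : Up S.b P ≤ 1 / 20), hUp]
    unfold S18_h
    rw [if_pos ⟨hPF, hD, hb⟩, one_mul]
    nlinarith
  · unfold S18_h
    rw [if_neg hG, zero_mul]
    have : 0 ≤ (if Up S.b P ≤ 1 / 20 then
        (1 - Ds S.f S.f P) * Up (fun R => if 10 * (1 / 20 : ℝ) ≤ S.b R then (1 : ℝ) else 0) P
        else 0) := by
      split_ifs
      · exact mul_nonneg (by linarith) hUp0
      · exact le_rfl
    linarith

/-- window bound for fractional matchings supported on good pairs -/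
theorem Sys.window_bound (S : Sys α) (hR : S.Reg) {k : ℕ} (hk : k < S.M)
    (ω : Finset α → α → α → ℝ) (hω0 : ∀ T x y, 0 ≤ ω T x y)
    (hrow : ∀ T, ∀ x ∈ T, ∑ y ∈ T, ω T x y ≤ 1) (hcol : ∀ T, ∀ y ∈ T, ∑ x ∈ T, ω T x y ≤ 1)
    (hsupp : ∀ T x y, ω T x y ≠ 0 → S.Good (T.erase y))
    {τ w : ℕ} (hτ9 : 9 * S.m ≤ 10 * τ) (hτw : τ + w ≤ S.m + 1) :
    ∑ t ∈ Ico τ (τ + w), Ev t (fun T => ∑ x ∈ T, ∑ y ∈ T.erase x, ω T x y * S.Ga k T x y)
      ≤ ∑ t ∈ Ico τ (τ + w), (4 + 2 * ∑ s ∈ Icc t (2 * S.m), S.ph s *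
            (540000 * (((k : ℝ) + 2) ^ 2 + ((s : ℝ) - t) ^ 2 / S.m)))
        + 5 * S.m * Ev (τ - 1) (fun Q => (1 - Dn S.H Q) * S.b Q) := by
  classical
  have hm : 100000000 ≤ S.m := hR.1
  have hcard := S.hcard
  have hτ1 : 1 ≤ τ := by omega
  set Q0 : Finset α → ℝ := fun P => if Up S.b P ≤ 1 / 20 then
        (1 - Ds S.f S.f P) * Up (fun R => if 10 * (1 / 20 : ℝ) ≤ S.b R then (1 : ℝ) else 0) P
        else 0 with hQ0
  have hQ0nn : ∀ P, 0 ≤ Q0 P := by
    intro P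
    have hUp0 : 0 ≤ Up (fun R => if 10 * (1 / 20 : ℝ) ≤ S.b R then (1 : ℝ) else 0) P :=
      Up_nonneg fun w _ => by split_ifs <;> norm_num
    have hH1 : Ds S.f S.f P ≤ 1 := S.H_le_one P
    simp only [hQ0]
    split_ifs
    · exact mul_nonneg (by linarith) hUp0
    · exact le_rfl
  have key : ∀ t ∈ Ico τ (τ + w),
      Ev t (fun T => ∑ x ∈ T, ∑ y ∈ T.erase x, ω T x y * S.Ga k T x y) ≤
      (4 + 2 * ∑ s ∈ Icc t (2 * S.m), S.ph s *
            (540000 * (((k : ℝ) + 2) ^ 2 + ((s : ℝ) - t) ^ 2 / S.m))) +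
      10 / 9 * S.m * Ev (t - 1) Q0 := by
    intro t ht
    rw [Finset.mem_Ico] at ht
    have htm : t ≤ S.m := by omega
    have ht1 : 1 ≤ t := by omega
    have ht9 : 9 * S.m ≤ 10 * t := by omega
    have hpl := S.pairs_level hR hk ω hω0 hrow hcol (χ := fun _ => 1) (fun _ => zero_le_one)
      (fun _ => le_rfl) ht9 htm
    have hpsi : Ev t (psi S.f S.z (fun _ => 1)) ≤ 1 := by
      calc Ev t (psi S.f S.z (fun _ => 1)) ≤ Ev (α := α) t (fun _ => (1 : ℝ)) := by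
            apply Ev_mono
            intro P _
            exact sum_rho_le_one S.f_nonneg S.f_le_one S.z (fun _ => zero_le_one)
              (fun _ => le_rfl) P P
        _ = 1 := Ev_const (by omega) 1
    have hOm0 : ∀ T : Finset α, 0 ≤ ∑ x ∈ T, ∑ y ∈ T.erase x, ω T x y * S.Ga k T x y := by
      intro T
      exact Finset.sum_nonneg fun x _ => Finset.sum_nonneg fun y _ =>
        mul_nonneg (hω0 T x y) (S.Ga_nonneg k T x y)
    have hpt : ∀ T : Finset α, T.card = t →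
        ∑ x ∈ T, ∑ y ∈ T.erase x, ω T x y * S.Ga k T x y ≤
        2 * (psi S.f S.z (fun _ => 1) T * ∑ x ∈ T, ∑ y ∈ T.erase x, ω T x y * S.Ga k T x y) +
        t * (Dn (S18_h S) T * S18_g S T) := by
      intro T hT
      have hb : S.b T = 1 - psi S.f S.z (fun _ => 1) T := rfl
      have hDn0 : 0 ≤ Dn (S18_h S) T := Dn_nonneg fun y _ => S18_h_nonneg S _
      have hg0 := S18_g_nonneg S T
      have hψ0 := psi_nonneg S.f_nonneg S.f_le_one S.z (χ := fun _ => 1)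
        (fun _ => zero_le_one) T
      by_cases h : 10 * (1 / 20 : ℝ) ≤ S.b T
      · have h1 := S18_point S k ω hω0 hcol hsupp T
        have h2 : (t : ℝ) * (Dn (S18_h S) T * S18_g S T) = ∑ y ∈ T, S18_h S (T.erase y) := by
          unfold S18_g Dn
          rw [if_pos h, mul_one, hT]
          have : (t : ℝ) ≠ 0 := by positivity
          field_simp
        rw [h2]
        have := mul_nonneg hψ0 (hOm0 T)
        linarith
      · have h1 : 1 / 2 ≤ psi S.f S.z (fun _ => 1) T := by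
          rw [hb] at h
          linarith
        have h2 : 0 ≤ (t : ℝ) * (Dn (S18_h S) T * S18_g S T) := by positivity
        nlinarith [hOm0 T, mul_le_mul_of_nonneg_right h1 (hOm0 T)]
    have hev : Ev t (fun T => ∑ x ∈ T, ∑ y ∈ T.erase x, ω T x y * S.Ga k T x y) ≤
        2 * Ev t (fun T => psi S.f S.z (fun _ => 1) T *
          ∑ x ∈ T, ∑ y ∈ T.erase x, ω T x y * S.Ga k T x y) +
        t * Ev t (fun T => Dn (S18_h S) T * S18_g S T) := by
      rw [← Ev_const_mul, ← Ev_const_mul, ← Ev_add]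
      exact Ev_mono hpt
    have hB : Ev t (fun T => Dn (S18_h S) T * S18_g S T) ≤ 10 / 9 * Ev (t - 1) Q0 := by
      obtain ⟨q, rfl⟩ : ∃ q, t = q + 1 := ⟨t - 1, by omega⟩
      rw [Nat.add_sub_cancel, ← Ev_Up_mul (by omega), ← Ev_const_mul]
      exact Ev_mono fun P _ => S18_step S P
    have hE0 : 0 ≤ Ev (t - 1) Q0 := Ev_nonneg fun P _ => hQ0nn P
    have htm' : (t : ℝ) ≤ S.m := by exact_mod_cast htm
    have hBt : (t : ℝ) * Ev t (fun T => Dn (S18_h S) T * S18_g S T) ≤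
        10 / 9 * S.m * Ev (t - 1) Q0 := by
      calc (t : ℝ) * Ev t (fun T => Dn (S18_h S) T * S18_g S T)
          ≤ (t : ℝ) * (10 / 9 * Ev (t - 1) Q0) := mul_le_mul_of_nonneg_left hB (by positivity)
        _ ≤ S.m * (10 / 9 * Ev (t - 1) Q0) := mul_le_mul_of_nonneg_right htm' (by positivity)
        _ = _ := by ring
    simp only [one_mul] at hpl
    linarith
  have hdrop := drop_lemma S.f_nonneg S.f_le_one S.b S.b_nonneg S.b_le_one S.b_ge
    (θ := 1 / 20) (by norm_num) (t₁ := τ - 1) (w := w) (by omega)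
  have hre : ∑ t ∈ Ico τ (τ + w), Ev (t - 1) Q0 = ∑ t ∈ Ico (τ - 1) (τ - 1 + w), Ev t Q0 := by
    obtain ⟨q, rfl⟩ : ∃ q, τ = q + 1 := ⟨τ - 1, by omega⟩
    rw [Nat.add_sub_cancel, show q + 1 + w = (q + w) + 1 by omega]
    rw [← Finset.sum_Ico_add' (fun t => Ev (t - 1) Q0) q (q + w) 1]
    rfl
  have hE : 0 ≤ Ev (τ - 1) (fun Q => (1 - Dn S.H Q) * S.b Q) :=
    Ev_nonneg fun P _ => mul_nonneg (by linarith [S.Dn_H_le_one P]) (S.b_nonneg P)
  have hsum : ∑ t ∈ Ico τ (τ + w), Ev (t - 1) Q0 ≤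
      20 / 9 * Ev (τ - 1) (fun Q => (1 - Dn S.H Q) * S.b Q) := by
    rw [hre]
    refine hdrop.trans (le_of_eq ?_)
    norm_num
    rfl
  calc ∑ t ∈ Ico τ (τ + w), Ev t (fun T => ∑ x ∈ T, ∑ y ∈ T.erase x, ω T x y * S.Ga k T x y)
      ≤ ∑ t ∈ Ico τ (τ + w), ((4 + 2 * ∑ s ∈ Icc t (2 * S.m), S.ph s *
            (540000 * (((k : ℝ) + 2) ^ 2 + ((s : ℝ) - t) ^ 2 / S.m))) +
          10 / 9 * S.m * Ev (t - 1) Q0) := Finset.sum_le_sum key
    _ = ∑ t ∈ Ico τ (τ + w), (4 + 2 * ∑ s ∈ Icc t (2 * S.m), S.ph s *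
            (540000 * (((k : ℝ) + 2) ^ 2 + ((s : ℝ) - t) ^ 2 / S.m))) +
          10 / 9 * S.m * ∑ t ∈ Ico τ (τ + w), Ev (t - 1) Q0 := by
        rw [Finset.sum_add_distrib, Finset.mul_sum]
    _ ≤ ∑ t ∈ Ico τ (τ + w), (4 + 2 * ∑ s ∈ Icc t (2 * S.m), S.ph s *
            (540000 * (((k : ℝ) + 2) ^ 2 + ((s : ℝ) - t) ^ 2 / S.m))) +
          5 * S.m * Ev (τ - 1) (fun Q => (1 - Dn S.H Q) * S.b Q) := by
        apply add_le_add le_rfl
        calc 10 / 9 * (S.m : ℝ) * ∑ t ∈ Ico τ (τ + w), Ev (t - 1) Q0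
            ≤ 10 / 9 * (S.m : ℝ) * (20 / 9 * Ev (τ - 1) (fun Q => (1 - Dn S.H Q) * S.b Q)) :=
              mul_le_mul_of_nonneg_left hsum (by positivity)
          _ = 200 / 81 * ((S.m : ℝ) * Ev (τ - 1) (fun Q => (1 - Dn S.H Q) * S.b Q)) := by ring
          _ ≤ 5 * ((S.m : ℝ) * Ev (τ - 1) (fun Q => (1 - Dn S.H Q) * S.b Q)) :=
              mul_le_mul_of_nonneg_right (by norm_num) (by positivity)
          _ = 5 * S.m * Ev (τ - 1) (fun Q => (1 - Dn S.H Q) * S.b Q) := by rw [mul_assoc]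

end UF
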