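import Pool.Agent.UF.Base
import Pool.Agent.UF.Jo1
import Pool.Agent.UF.Js1
import Pool.Agent.UF.Js3
import Pool.Agent.UF.Ju2
import Pool.Agent.UF.Ju5
import Pool.Agent.UF.Jw2

set_option autoImplicit false
set_option linter.unusedSectionVars false
set_option linter.unusedVariables false
open Finset

namespace UF
variable {α : Type*} [Fintype α] [DecidableEq α]

theorem Sys.DH_tenth (S : Sys α) (hR : S.Reg) {C : Finset α} (hC : C ∈ S.F) :
    11 / 10 * Dn S.H C ≤ 1 / 10 := by
  obtain ⟨hm, hh⟩ := hR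
  have hmr : (100000000 : ℝ) ≤ S.m := by exact_mod_cast hm
  have hhr : 5000 * (S.h : ℝ) ≤ S.m := by exact_mod_cast hh
  obtain ⟨b, hb⟩ : ∃ b : ℕ, S.m = b + S.h := ⟨S.m - S.h, by omega⟩
  have hbr : (S.m : ℝ) = b + S.h := by exact_mod_cast hb
  have hfFb : ∀ Q, S.f Q ≤ Fb S.F b Q := by
    intro Q
    unfold Sys.f Fb
    by_cases hQ : Q ∈ S.F
    · have h1 := S.hlo Q hQ
      rw [if_pos hQ, if_pos ⟨hQ, by omega⟩]
      exact wt_le_one _ _
    · rw [if_neg hQ]
      split_ifs <;> norm_num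
  have hHHb : ∀ Q, S.H Q ≤ Hb S.F b Q := by
    intro Q
    unfold Sys.H
    apply Ds_le (fun Q => S.f_le_one Q)
    intro Q' _
    have e : Hb S.F b Q' = Fb S.F b Q' + (1 - Fb S.F b Q') * Dn (Hb S.F b) Q' := by
      unfold Hb
      exact Ds_eq _ _ _
    rw [e]
    have h1 := hfFb Q'
    have h2 : Dn (Hb S.F b) Q' ≤ 1 := (Dn_Hb_le S.F b Q').trans (Hb_le_one S.F b Q')
    nlinarith
  have hDn : Dn S.H C ≤ Dn (Hb S.F b) C := Dn_mono fun y _ => hHHb _
  have hlo := S.hlo C hC
  have hhi := S.hhi C hC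
  have hhir : (C.card : ℝ) ≤ S.m + S.h := by exact_mod_cast hhi
  have hlor : (S.m : ℝ) ≤ C.card + S.h := by exact_mod_cast hlo
  have hkey : Dn (Hb S.F b) C ≤ 1 / 100 := by
    rcases Nat.lt_or_ge b C.card with hbc | hbc
    · have hbcr : (b : ℝ) < C.card := by exact_mod_cast hbc
      have h1 := DHb_bound S.F C (S.hz C hC) (b := b) (by omega) hbc (q := 1 / 600) (by norm_num)
        (by norm_num) (by linarith)
      refine h1.trans ?_
      have hcpos : (0 : ℝ) < C.card := by linarith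
      have h2 : ((C.card : ℝ) - b) / C.card ≤ 1 / 1000 := by
        rw [div_le_div_iff₀ hcpos (by norm_num)]
        linarith
      have h3 : (9 : ℝ) / 5 * (256 * (1 / 600) ^ 2) ≤ 1 / 500 := by norm_num
      linarith
    · refine (Dn_le_of_le (c := 0) le_rfl ?_).trans (by norm_num)
      intro y hy
      have h1 := Finset.card_erase_lt_of_mem hy
      exact (Hb_of_card_lt S.F b _ (by omega)).le
  linarith

end UF
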