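import Pool.Agent.UF.Base
import Pool.Agent.UF.Jo5
import Pool.Agent.UF.Jo6
import Pool.Agent.UF.Js1
import Pool.Agent.UF.Js2
import Pool.Agent.UF.Js7

set_option autoImplicit false
set_option linter.unusedSectionVars false
set_option linter.unusedVariables false
open Finset

namespace UF
variable {α : Type*} [Fintype α] [DecidableEq α]

theorem Sys.second (S : Sys α) (hR : S.Reg) :
    S.T ^ 2 ≤ S.T - S.cost + 11 / 5 * S.G := by
  have h1 := second_moment (f := S.f) S.f_nonneg
  rw [S.hcard] at h1
  have h2 : ∑ p ∈ range (2 * S.m + 1), Ev p (fun P => S.f P * Dn (Ds (fun _ => 0) S.f) P)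
      ≤ 11 / 10 * S.G := by
    unfold Sys.G
    rw [Finset.mul_sum]
    refine Finset.sum_le_sum fun p _ => ?_
    rw [← Ev_const_mul]
    refine Ev_mono fun P _ => ?_
    have h3 : Dn (Ds (fun _ => 0) S.f) P ≤ 11 / 10 * Dn S.H P := by
      rw [← Dn_const_mul]
      refine Dn_mono fun y _ => ?_
      have h5 := K_le_H S.f_nonneg S.f_le_one (κ := 1 / 10) (by norm_num) (fun C hC => by
        have h6 := S.DH_tenth hR (S.mem_of_f hC)
        have h7 : Dn (Ds S.f S.f) C = Dn S.H C := rfl
        rw [h7]; linarith) (P.erase y)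
      have h8 : Ds S.f S.f (P.erase y) = S.H (P.erase y) := rfl
      rw [h8] at h5
      linarith
    have h9 := mul_le_mul_of_nonneg_left h3 (S.f_nonneg P)
    linarith
  have h4 := S.f_sq
  have h5 : S.T = ∑ p ∈ range (2 * S.m + 1), Ev p S.f := rfl
  rw [h4] at h1
  rw [← h5] at h1
  linarith

end UF
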