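import Pool.Agent.UF.Base
import Pool.Agent.UF.Jo1
import Pool.Agent.UF.Jo6
import Pool.Agent.UF.Jo8
import Pool.Agent.UF.Ju2
import Pool.Agent.UF.Ju4

set_option autoImplicit false
set_option linter.unusedSectionVars false
set_option linter.unusedVariables false
open Finset

namespace UF
variable {α : Type*} [Fintype α] [DecidableEq α]

theorem Dn_iter_congr_sub {g h : Finset α → ℝ} (i : ℕ) : ∀ P : Finset α,
    (∀ X, X ⊆ P → g X = h X) → (Dn^[i] g) P = (Dn^[i] h) P := by
  induction i with
  | zero => intro P H; exact H P (Finset.Subset.refl _)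
  | succ i ih =>
    intro P H
    rw [Function.iterate_succ']
    simp only [Function.comp]
    exact Dn_congr fun y _ => ih _ fun X hX => H X (hX.trans (Finset.erase_subset _ _))

theorem Dn_iter_nonneg' {g : Finset α → ℝ} (hg : ∀ X, 0 ≤ g X) (i : ℕ) : ∀ P : Finset α,
    0 ≤ (Dn^[i] g) P := by
  induction i with
  | zero => intro P; exact hg P
  | succ i ih =>
    intro P
    rw [Function.iterate_succ']
    simp only [Function.comp]
    exact Dn_nonneg fun y _ => ih _

/-- hits containing `z` -/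
noncomputable def fz (F : Finset (Finset α)) (b : ℕ) (z : α) (A : Finset α) : ℝ :=
  if z ∈ A then Fb F b A else 0

theorem fz_nonneg (F : Finset (Finset α)) (b : ℕ) (z : α) (A : Finset α) : 0 ≤ fz F b z A := by
  unfold fz
  split_ifs
  · exact Fb_nonneg F b A
  · exact le_rfl

theorem fz_le_one (F : Finset (Finset α)) (b : ℕ) (z : α) (A : Finset α) : fz F b z A ≤ 1 := by
  unfold fz
  split_ifs
  · exact Fb_le_one F b A
  · exact zero_le_one

theorem fz_zero_or (F : Finset (Finset α)) (b : ℕ) (z : α) (A : Finset α) :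
    fz F b z A = 0 ∨ (fz F b z A = 1 ∧ z ∈ A ∧ A ∈ F ∧ b ≤ A.card) := by
  unfold fz Fb
  by_cases h : z ∈ A
  · by_cases h2 : A ∈ F ∧ b ≤ A.card
    · right
      simp [h, h2]
    · left
      simp [h2]
  · left
    simp [h]

theorem Hz_le_Hb (F : Finset (Finset α)) (b : ℕ) (z : α) (Q : Finset α) :
    Ds (fz F b z) (fz F b z) Q ≤ Hb F b Q := by
  apply Ds_le (fun Q => fz_le_one F b z Q)
  intro Q _
  by_cases h : z ∈ Q
  · have e : fz F b z Q = Fb F b Q := by simp [fz, h]
    rw [e]
    exact (Ds_eq (Fb F b) (Fb F b) Q).ge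
  · have e : fz F b z Q = 0 := by simp [fz, h]
    rw [e]
    have := Dn_Hb_le F b Q
    linarith

theorem Hz_claim (F : Finset (Finset α)) (C : Finset α) (z : α) {b : ℕ} (hb1 : 1 ≤ b) (n : ℕ) :
    ∀ P : Finset α, P.card = n → P ⊂ C → b ≤ P.card →
    ((b : ℝ) / (P.card : ℝ)) * Ds (fz F b z) (fz F b z) P
      ≤ (Dn^[P.card - b] (fun X => if z ∈ X then xiR F C X else 0)) P := by
  have hg : ∀ X : Finset α, 0 ≤ (fun X => if z ∈ X then xiR F C X else 0) X := by
    intro X
    simp only
    split_ifs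
    · exact xiR_nonneg F C X
    · exact le_rfl
  have hHz0 : ∀ Q : Finset α, 0 ≤ Ds (fz F b z) (fz F b z) Q := fun Q =>
    Ds_nonneg (fun Q => fz_le_one F b z Q) (fun Q => fz_nonneg F b z Q) Q
  induction n with
  | zero =>
    intro P hP _ hb
    omega
  | succ n ih =>
    intro P hP hPC hb
    have hbR : (1:ℝ) ≤ (b:ℝ) := by exact_mod_cast hb1
    have hPpos : (0:ℝ) < (P.card : ℝ) := by
      have : (b:ℝ) ≤ (P.card:ℝ) := by exact_mod_cast hb
      linarith
    rcases fz_zero_or F b z P with h0 | ⟨h1, hz, hPF, _⟩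
    · have e : Ds (fz F b z) (fz F b z) P = Dn (Ds (fz F b z) (fz F b z)) P := by
        conv_lhs => rw [Ds_eq, h0]
        ring
      rcases Nat.lt_or_ge b P.card with hlt | hge
      · have hsplit : P.card - b = (n - b) + 1 := by omega
        rw [hsplit, Function.iterate_succ', e]
        simp only [Function.comp]
        rw [← Dn_const_mul]
        apply Dn_mono
        intro y hy
        have hc : (P.erase y).card = n := by
          rw [Finset.card_erase_of_mem hy, hP]
          rfl
        have hsub : P.erase y ⊂ C := lt_of_le_of_lt (Finset.erase_subset _ _) hPC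
        have hbn : b ≤ n := by omega
        have hI := ih (P.erase y) hc hsub (by rw [hc]; exact hbn)
        rw [hc] at hI
        refine le_trans ?_ hI
        apply mul_le_mul_of_nonneg_right _ (hHz0 _)
        have hnpos : (0:ℝ) < (n:ℝ) := by
          have : (b:ℝ) ≤ (n:ℝ) := by exact_mod_cast hbn
          linarith
        apply div_le_div_of_nonneg_left (by linarith) hnpos
        rw [hP]
        push_cast
        linarith
      · have hPb : P.card = b := le_antisymm hge hb
        have hzero : Ds (fz F b z) (fz F b z) P ≤ 0 := by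
          rw [e]
          apply Dn_le_of_le le_rfl
          intro y hy
          have hlt : (P.erase y).card < b := by
            rw [Finset.card_erase_of_mem hy]
            omega
          have := Hz_le_Hb F b z (P.erase y)
          rw [Hb_of_card_lt F b _ hlt] at this
          exact this
        have h2 : ((b : ℝ) / (P.card : ℝ)) * Ds (fz F b z) (fz F b z) P ≤ 0 :=
          mul_nonpos_of_nonneg_of_nonpos (by positivity) hzero
        exact h2.trans (Dn_iter_nonneg' hg _ P)
    · have e : Ds (fz F b z) (fz F b z) P = 1 := by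
        rw [Ds_eq, h1]
        ring
      rw [e, mul_one]
      have hcong := Dn_iter_congr_sub (g := fun X => if z ∈ X then xiR F C X else 0)
        (h := fun X => if z ∈ X then (1:ℝ) else 0) (P.card - b) P (by
          intro X hX
          rw [xiR_eq_one hPF hPC hX])
      rw [hcong, Dn_iter_mem hz (Nat.sub_le _ _)]
      rw [Nat.cast_sub hb]
      have : (P.card : ℝ) - ((P.card : ℝ) - (b:ℝ)) = b := by ring
      rw [this]

/-- expected number of members of size `≥ b` containing the centre, strictly below `C` -/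
theorem Nz_bound (F : Finset (Finset α)) (C : Finset α) {z : α} (hC : Centre F C z) {b : ℕ}
    (hb1 : 1 ≤ b) (hb : b < C.card) {κ : ℝ} (hκ : 0 ≤ κ)
    (hD : ∀ A ∈ F, b ≤ A.card → (1 + κ) * Dn (Hb F b) A ≤ κ) {q : ℝ} (hq0 : 0 ≤ q)
    (hq1 : q ≤ 1) (hq : 4 * ((C.card : ℝ) - b) ≤ q * ((C.card : ℝ) - 1)) :
    Dn (Ds (fun _ => 0) (fun A => if z ∈ A then Fb F b A else 0)) C
      ≤ (1 + κ) * ((C.card : ℝ) / b) * (9 / 5 * (256 * q ^ 2)) := by
  have hHz0 : ∀ Q : Finset α, 0 ≤ Ds (fz F b z) (fz F b z) Q := fun Q =>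
    Ds_nonneg (fun Q => fz_le_one F b z Q) (fun Q => fz_nonneg F b z Q) Q
  have hbR : (1:ℝ) ≤ (b:ℝ) := by exact_mod_cast hb1
  have hsR : (b:ℝ) < (C.card:ℝ) := by exact_mod_cast hb
  have hD' : ∀ A, fz F b z A ≠ 0 → (1 + κ) * Dn (Ds (fz F b z) (fz F b z)) A ≤ κ := by
    intro A hA
    rcases fz_zero_or F b z A with h0 | ⟨_, _, hAF, hAb⟩
    · exact absurd h0 hA
    · refine le_trans ?_ (hD A hAF hAb)
      apply mul_le_mul_of_nonneg_left _ (by linarith)
      exact Dn_mono fun y _ => Hz_le_Hb F b z _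
  have hK : ∀ Q, Ds (fun _ => 0) (fz F b z) Q ≤ (1 + κ) * Ds (fz F b z) (fz F b z) Q := fun Q =>
    K_le_H (fz_nonneg F b z) (fz_le_one F b z) hκ hD' Q
  have e0 : (fun A => if z ∈ A then Fb F b A else 0) = fz F b z := rfl
  rw [e0]
  have hstep : Dn (Ds (fun _ => 0) (fz F b z)) C ≤ (1 + κ) * Dn (Ds (fz F b z) (fz F b z)) C := by
    rw [← Dn_const_mul]
    exact Dn_mono fun y _ => hK _
  have hz : z ∈ C := hC.1
  have hmain : Dn (Ds (fz F b z) (fz F b z)) C
      ≤ ((C.card : ℝ) / b) * (Dn^[C.card - b] (fun X => if z ∈ X then xiR F C X else 0)) C := by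
    have hsplit : C.card - b = (C.card - 1 - b) + 1 := by omega
    rw [hsplit, Function.iterate_succ']
    simp only [Function.comp]
    rw [← Dn_const_mul]
    apply Dn_mono
    intro y hy
    have hc : (C.erase y).card = C.card - 1 := Finset.card_erase_of_mem hy
    have hsub : C.erase y ⊂ C := Finset.erase_ssubset hy
    have hI := Hz_claim F C z hb1 (C.card - 1) (C.erase y) hc hsub (by omega)
    rw [hc] at hI
    have hcR : ((C.card - 1 : ℕ) : ℝ) = (C.card : ℝ) - 1 := by
      rw [Nat.cast_sub (by omega)]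
      simp
    rw [hcR] at hI
    have hs1 : (0:ℝ) < (C.card : ℝ) - 1 := by linarith
    have h1 : Ds (fz F b z) (fz F b z) (C.erase y)
        = (((C.card : ℝ) - 1) / b) * (((b : ℝ) / ((C.card : ℝ) - 1))
          * Ds (fz F b z) (fz F b z) (C.erase y)) := by
      have hb0 : (b:ℝ) ≠ 0 := by linarith
      have hs0 : (C.card : ℝ) - 1 ≠ 0 := by linarith
      generalize Ds (fz F b z) (fz F b z) (C.erase y) = D
      generalize (C.card : ℝ) - 1 = t at hs0 ⊢
      rw [← mul_assoc, div_mul_div_comm, mul_comm t (b:ℝ), div_self (mul_ne_zero hb0 hs0), one_mul]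
    have hX0 : 0 ≤ ((b : ℝ) / ((C.card : ℝ) - 1)) * Ds (fz F b z) (fz F b z) (C.erase y) :=
      mul_nonneg (by positivity) (hHz0 _)
    rw [h1]
    have h2 : ((C.card : ℝ) - 1) / b ≤ (C.card : ℝ) / b :=
      div_le_div_of_nonneg_right (by linarith) (by linarith)
    calc (((C.card : ℝ) - 1) / b) * (((b : ℝ) / ((C.card : ℝ) - 1))
          * Ds (fz F b z) (fz F b z) (C.erase y))
        ≤ ((C.card : ℝ) / b) * (((b : ℝ) / ((C.card : ℝ) - 1))
          * Ds (fz F b z) (fz F b z) (C.erase y)) := mul_le_mul_of_nonneg_right h2 hX0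
      _ ≤ _ := mul_le_mul_of_nonneg_left hI (div_nonneg (Nat.cast_nonneg _) (Nat.cast_nonneg _))
  have hfin : (Dn^[C.card - b] (fun X => if z ∈ X then xiR F C X else 0)) C
      ≤ 9 / 5 * (256 * q ^ 2) := by
    have h1 := Dn_iter_xi_le F C hz (i := C.card - b) (by omega) hq0 hq1 (by
      rw [Nat.cast_sub hb.le]
      exact hq)
    refine h1.trans ?_
    have h2 := hC.2 q hq0 hq1
    linarith
  calc Dn (Ds (fun _ => 0) (fz F b z)) C ≤ (1 + κ) * Dn (Ds (fz F b z) (fz F b z)) C := hstep
    _ ≤ (1 + κ) * (((C.card : ℝ) / b)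
        * (Dn^[C.card - b] (fun X => if z ∈ X then xiR F C X else 0)) C) :=
        mul_le_mul_of_nonneg_left hmain (by linarith)
    _ ≤ (1 + κ) * (((C.card : ℝ) / b) * (9 / 5 * (256 * q ^ 2))) := by
        apply mul_le_mul_of_nonneg_left _ (by linarith)
        exact mul_le_mul_of_nonneg_left hfin (div_nonneg (Nat.cast_nonneg _) (Nat.cast_nonneg _))
    _ = _ := by ring

end UF
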