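import Pool.Agent.UF.Base
import Pool.Agent.UF.Jo1
import Pool.Agent.UF.Jo7
import Pool.Agent.UF.Js1
import Pool.Agent.UF.Js3
import Pool.Agent.UF.Js4
import Pool.Agent.UF.Js5
import Pool.Agent.UF.Ju2
import Pool.Agent.UF.Ju6
import Pool.Agent.UF.Jw3

set_option autoImplicit false
set_option linter.unusedSectionVars false
set_option linter.unusedVariables false
open Finset

namespace UF
variable {α : Type*} [Fintype α] [DecidableEq α]

theorem nc_iter {g : Finset α → ℝ} (hg : ∀ Q, 0 ≤ g Q) (N : ℕ) (Q : Finset α) :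
    ∑ i ∈ range N, (Dn^[i] g) Q ≤ Ds (fun _ => 0) g Q := by
  induction N generalizing Q with
  | zero =>
    rw [Finset.range_zero, Finset.sum_empty]
    exact Ds_nonneg (fun _ => zero_le_one) hg Q
  | succ N ih =>
    rw [Finset.sum_range_succ', Ds_eq]
    have h1 : ∑ i ∈ range N, (Dn^[i + 1] g) Q = Dn (fun P => ∑ i ∈ range N, (Dn^[i] g) P) Q := by
      rw [Dn_sum]
      refine Finset.sum_congr rfl (fun i _ => ?_)
      rw [Function.iterate_succ_apply']
    have h2 : Dn (fun P => ∑ i ∈ range N, (Dn^[i] g) P) Q ≤ Dn (Ds (fun _ => 0) g) Q :=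
      Dn_mono (fun y _ => ih _)
    rw [h1]
    simp only [Function.iterate_zero, id_eq, sub_zero, one_mul]
    linarith

theorem nc_iter' {g : Finset α → ℝ} (hg : ∀ Q, 0 ≤ g Q) (N : ℕ) (Q : Finset α) :
    ∑ i ∈ range N, (Dn^[i] (Dn g)) Q ≤ Dn (Ds (fun _ => 0) g) Q := by
  have h1 : ∑ i ∈ range N, (Dn^[i] (Dn g)) Q = Dn (fun P => ∑ i ∈ range N, (Dn^[i] g) P) Q := by
    rw [Dn_sum]
    refine Finset.sum_congr rfl (fun i _ => ?_)
    rw [← Function.iterate_succ_apply, Function.iterate_succ_apply']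
  rw [h1]
  exact Dn_mono (fun y _ => nc_iter hg N _)

theorem nc_shell (S : Sys α) (hR : S.Reg) (z : α) (Q : Finset α) :
    Ds (fun _ => 0) (fun A => if z ∈ A then S.f A else 0) Q ≤
      ∑ k ∈ range S.M, omk k *
        Ds (fun _ => 0) (fun A => if z ∈ A then Fb S.F (S.bk k) A else 0) Q := by
  refine Ds_le (X := fun Q => ∑ k ∈ range S.M, omk k *
        Ds (fun _ => 0) (fun A => if z ∈ A then Fb S.F (S.bk k) A else 0) Q)
    (fun _ => zero_le_one) (fun P _ => ?_)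
  have h1 : Dn (fun Q => ∑ k ∈ range S.M, omk k *
        Ds (fun _ => 0) (fun A => if z ∈ A then Fb S.F (S.bk k) A else 0) Q) P =
      ∑ k ∈ range S.M, omk k *
        Dn (Ds (fun _ => 0) (fun A => if z ∈ A then Fb S.F (S.bk k) A else 0)) P := by
    rw [Dn_sum]
    refine Finset.sum_congr rfl (fun k _ => ?_)
    rw [Dn_const_mul]
  have h2 : (if z ∈ P then S.f P else 0) ≤
      ∑ k ∈ range S.M, omk k * (if z ∈ P then Fb S.F (S.bk k) P else 0) := by
    by_cases hz : z ∈ P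
    · simp only [if_pos hz]
      exact S.f_le_shell hR P
    · simp only [if_neg hz, mul_zero, Finset.sum_const_zero, le_refl]
  have h3 : ∑ k ∈ range S.M, omk k *
        Ds (fun _ => 0) (fun A => if z ∈ A then Fb S.F (S.bk k) A else 0) P =
      ∑ k ∈ range S.M, omk k * (if z ∈ P then Fb S.F (S.bk k) P else 0) +
      ∑ k ∈ range S.M, omk k *
        Dn (Ds (fun _ => 0) (fun A => if z ∈ A then Fb S.F (S.bk k) A else 0)) P := by
    rw [← Finset.sum_add_distrib]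
    refine Finset.sum_congr rfl (fun k _ => ?_)
    rw [Ds_eq]
    ring
  show (if z ∈ P then S.f P else 0) + (1 - 0) * Dn (fun Q => ∑ k ∈ range S.M, omk k *
        Ds (fun _ => 0) (fun A => if z ∈ A then Fb S.F (S.bk k) A else 0) Q) P ≤
      ∑ k ∈ range S.M, omk k *
        Ds (fun _ => 0) (fun A => if z ∈ A then Fb S.F (S.bk k) A else 0) P
  rw [h1, h3]
  linarith

theorem nc_zero (F : Finset (Finset α)) (z : α) (b : ℕ) (Q : Finset α) (hQ : Q.card < b) :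
    Ds (fun _ => 0) (fun A => if z ∈ A then Fb F b A else 0) Q ≤ 0 := by
  refine Ds_le (X := fun _ => 0) (fun _ => zero_le_one) (fun P hP => ?_)
  have h1 : P.card < b := lt_of_le_of_lt (card_le_card hP) hQ
  have h2 : Fb F b P = 0 := by
    unfold Fb
    rw [if_neg]
    intro h
    omega
  have h3 : Dn (fun _ : Finset α => (0 : ℝ)) P = 0 := by
    unfold Dn
    simp
  show (if z ∈ P then Fb F b P else 0) + (1 - 0) * Dn (fun _ : Finset α => (0 : ℝ)) P ≤ 0
  rw [h2, h3]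
  simp

/-- the pure arithmetic of one shell -/
theorem nc_arith {m s b r k : ℝ} (hm : 100000000 ≤ m) (hr0 : 0 ≤ r) (hk : 0 ≤ k)
    (hr : r ^ 2 ≤ 1003 / 1000 * m) (hb : b = m - (k + 1) * r) (hkr : (k + 1) * r ≤ m / 2500)
    (hs1 : m * (4999 / 5000) ≤ s) (hs2 : s ≤ m * (5001 / 5000)) (hbs : b < s) :
    0 ≤ 4 * (s - b) / (s - 1) ∧ 4 * (s - b) / (s - 1) ≤ 1 ∧
    4 * (s - b) ≤ (4 * (s - b) / (s - 1)) * (s - 1) ∧
    (1 + 1 / 10) * (s / b) * (9 / 5 * (256 * (4 * (s - b) / (s - 1)) ^ 2)) ≤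
      16400 * ((s - m) ^ 2 / m ^ 2 + (k + 1) ^ 2 / m) := by
  have hs10 : 0 < s - 1 := by linarith
  have hb0 : 0 < b := by rw [hb]; linarith
  have hm0 : 0 < m := by linarith
  refine ⟨div_nonneg (by linarith) hs10.le, ?_, ?_, ?_⟩
  · rw [div_le_one hs10]
    rw [hb]
    linarith
  · rw [div_mul_cancel₀ _ hs10.ne']
  · have h1 : s / b ≤ 1001 / 1000 := by
      rw [div_le_iff₀ hb0, hb]
      linarith
    have h2 : (s - b) ^ 2 ≤ 2 * (s - m) ^ 2 + 2 * (k + 1) ^ 2 * (1003 / 1000 * m) := by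
      have e1 : s - b = (s - m) + (k + 1) * r := by rw [hb]; ring
      rw [e1]
      have e2 : (k + 1) ^ 2 * r ^ 2 ≤ (k + 1) ^ 2 * (1003 / 1000 * m) := by gcongr
      nlinarith [sq_nonneg ((s - m) - (k + 1) * r)]
    have h3 : 9997 / 10000 * m ≤ s - 1 := by linarith
    have h4 : (9997 / 10000 * m) ^ 2 ≤ (s - 1) ^ 2 := by gcongr
    have h5 : (4 * (s - b) / (s - 1)) ^ 2 ≤
        16 * (2 * (s - m) ^ 2 + 2 * (k + 1) ^ 2 * (1003 / 1000 * m)) / (9997 / 10000 * m) ^ 2 := by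
      rw [div_pow, mul_pow]
      have e3 : (4 : ℝ) ^ 2 = 16 := by norm_num
      rw [e3]
      gcongr
    calc (1 + 1 / 10) * (s / b) * (9 / 5 * (256 * (4 * (s - b) / (s - 1)) ^ 2))
        ≤ (1 + 1 / 10) * (1001 / 1000) * (9 / 5 * (256 *
          (16 * (2 * (s - m) ^ 2 + 2 * (k + 1) ^ 2 * (1003 / 1000 * m)) /
            (9997 / 10000 * m) ^ 2))) := by gcongr
      _ ≤ 16400 * ((s - m) ^ 2 / m ^ 2 + (k + 1) ^ 2 / m) := by
          have e4 : (1 + 1 / 10) * (1001 / 1000) * (9 / 5 * (256 *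
            (16 * (2 * (s - m) ^ 2 + 2 * (k + 1) ^ 2 * (1003 / 1000 * m)) /
              (9997 / 10000 * m) ^ 2))) =
            ((1 + 1 / 10) * (1001 / 1000) * (9 / 5 * (256 * 32)) / (9997 / 10000) ^ 2) *
              ((s - m) ^ 2 / m ^ 2) +
            ((1 + 1 / 10) * (1001 / 1000) * (9 / 5 * (256 * 32)) * (1003 / 1000) /
              (9997 / 10000) ^ 2) * ((k + 1) ^ 2 / m) := by
            field_simp
            ring
          rw [e4, mul_add]
          have e5 : 0 ≤ (s - m) ^ 2 / m ^ 2 := by positivity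
          have e6 : 0 ≤ (k + 1) ^ 2 / m := by positivity
          refine add_le_add (mul_le_mul_of_nonneg_right ?_ e5) (mul_le_mul_of_nonneg_right ?_ e6)
          · norm_num
          · norm_num

theorem nc_one (S : Sys α) (hR : S.Reg) {C : Finset α} (hC : C ∈ S.F) {k : ℕ}
    (hk : k < S.M) :
    Dn (Ds (fun _ => 0) (fun A => if S.z C ∈ A then Fb S.F (S.bk k) A else 0)) C ≤
      16400 * (((C.card : ℝ) - S.m) ^ 2 / (S.m : ℝ) ^ 2 + ((k : ℝ) + 1) ^ 2 / S.m) := by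
  have hm8 : (100000000 : ℝ) ≤ S.m := by exact_mod_cast hR.1
  have hRHS : 0 ≤ 16400 * (((C.card : ℝ) - S.m) ^ 2 / (S.m : ℝ) ^ 2 + ((k : ℝ) + 1) ^ 2 / S.m) := by
    positivity
  by_cases hb : S.bk k < C.card
  · obtain ⟨hr1, hr2, hr3⟩ := S.r_bounds hR
    obtain ⟨hk1, hk2, hk3, hk4, hk5⟩ := S.k_bounds hR hk
    obtain ⟨hs1, hs2⟩ := S.card_bounds hR hC
    have hrr : (S.r : ℝ) ^ 2 ≤ 1003 / 1000 * S.m := by
      have h1 : (S.r : ℝ) ^ 2 ≤ (1.001 * Real.sqrt S.m) ^ 2 := by gcongr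
      rw [mul_pow, Real.sq_sqrt (by positivity)] at h1
      have h2 : (1.001 : ℝ) ^ 2 * S.m ≤ 1003 / 1000 * S.m := by
        have : (1.001 : ℝ) ^ 2 ≤ 1003 / 1000 := by norm_num
        gcongr
      exact h1.trans h2
    have hbs : ((S.bk k : ℕ) : ℝ) < C.card := by exact_mod_cast hb
    obtain ⟨h0, h1, h2, h3⟩ := nc_arith (m := S.m) (s := C.card) (b := (S.bk k : ℕ)) (r := S.r)
      (k := k) hm8 (by positivity) (by positivity) hrr hk3 hk5 hs1 hs2 hbs
    have h4 := Nz_bound S.F C (S.hz C hC) hk4 hb (κ := 1 / 10) (by norm_num)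
      (fun A hA _ => by
        have := (S.DHb_small hR hk hA).1
        linarith) h0 h1 h2
    exact h4.trans h3
  · rw [not_lt] at hb
    refine le_trans ?_ hRHS
    have h1 : Dn (Ds (fun _ => 0) (fun A => if S.z C ∈ A then Fb S.F (S.bk k) A else 0)) C ≤
        Dn (fun _ => (0 : ℝ)) C := by
      refine Dn_mono (fun y hy => ?_)
      apply nc_zero
      rw [Finset.card_erase_of_mem hy]
      have := Finset.card_pos.2 ⟨y, hy⟩
      omega
    refine h1.trans (le_of_eq ?_)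
    unfold Dn
    simp

theorem nc_all (S : Sys α) (hR : S.Reg) {C : Finset α} (hC : C ∈ S.F) :
    Dn (Ds (fun _ => 0) (fun A => if S.z C ∈ A then S.f A else 0)) C ≤
      20000 * Cw * (1 / S.m + ((C.card : ℝ) - S.m) ^ 2 / (S.m : ℝ) ^ 2) := by
  have hm8 : (100000000 : ℝ) ≤ S.m := by exact_mod_cast hR.1
  set X : ℝ := ((C.card : ℝ) - S.m) ^ 2 / (S.m : ℝ) ^ 2 with hX
  have hX0 : 0 ≤ X := by positivity
  have hCw := one_le_Cw
  have h1 : Dn (Ds (fun _ => 0) (fun A => if S.z C ∈ A then S.f A else 0)) C ≤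
      ∑ k ∈ range S.M, omk k *
        Dn (Ds (fun _ => 0) (fun A => if S.z C ∈ A then Fb S.F (S.bk k) A else 0)) C := by
    refine (Dn_mono (h := fun Q => ∑ k ∈ range S.M, omk k *
        Ds (fun _ => 0) (fun A => if S.z C ∈ A then Fb S.F (S.bk k) A else 0) Q)
        (fun y _ => nc_shell S hR (S.z C) (C.erase y))).trans (le_of_eq ?_)
    rw [Dn_sum]
    refine Finset.sum_congr rfl (fun k _ => ?_)
    rw [Dn_const_mul]
  refine h1.trans ?_
  have h2 : ∀ k ∈ range S.M, omk k *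
        Dn (Ds (fun _ => 0) (fun A => if S.z C ∈ A then Fb S.F (S.bk k) A else 0)) C ≤
      (16400 * (X + 1 / S.m)) * (Real.exp (-((k : ℝ) ^ 2) / 2) * ((k : ℝ) + 2) ^ 10) := by
    intro k hk
    have h3 := nc_one S hR hC (Finset.mem_range.1 hk)
    have hom : 0 < omk k := Real.exp_pos _
    have hk0 : (0 : ℝ) ≤ k := Nat.cast_nonneg k
    have h4 : (1 : ℝ) ≤ ((k : ℝ) + 2) ^ 10 := one_le_pow₀ (by linarith)
    have h5 : ((k : ℝ) + 1) ^ 2 ≤ ((k : ℝ) + 2) ^ 10 := by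
      calc ((k : ℝ) + 1) ^ 2 ≤ ((k : ℝ) + 2) ^ 2 := by gcongr; norm_num
        _ ≤ ((k : ℝ) + 2) ^ 10 := pow_le_pow_right₀ (by linarith) (by norm_num)
    calc omk k * Dn (Ds (fun _ => 0) (fun A => if S.z C ∈ A then Fb S.F (S.bk k) A else 0)) C
        ≤ omk k * (16400 * (X + ((k : ℝ) + 1) ^ 2 / S.m)) := by gcongr
      _ ≤ omk k * (16400 * (X * ((k : ℝ) + 2) ^ 10 + ((k : ℝ) + 2) ^ 10 / S.m)) := by
          gcongr
          exact le_mul_of_one_le_right hX0 h4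
      _ = _ := by
          unfold omk
          ring
  refine (Finset.sum_le_sum h2).trans ?_
  rw [← Finset.mul_sum]
  have h3 := shell_sum_le S.M
  have h4 : 0 ≤ X + 1 / (S.m : ℝ) := by positivity
  calc (16400 * (X + 1 / S.m)) * ∑ k ∈ range S.M, Real.exp (-((k : ℝ) ^ 2) / 2) * ((k : ℝ) + 2) ^ 10
      ≤ (16400 * (X + 1 / S.m)) * Cw := by gcongr
    _ ≤ (20000 * (X + 1 / S.m)) * Cw := by gcongr; norm_num
    _ = 20000 * Cw * (1 / S.m + X) := by ring

theorem Sys.NC_bound (S : Sys α) (hR : S.Reg) {χ : ℕ → ℝ} (hχ0 : ∀ s, 0 ≤ χ s)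
    (hχ1 : ∀ s, χ s ≤ 1) :
    ∑ p ∈ range (2 * S.m), Ev p (fun Q => S.f Q * ∑ x ∈ Q, Up (rho S.f S.z χ x) Q)
      ≤ 20000 * Cw * ∑ s ∈ range (2 * S.m + 1),
          χ s * S.ph s * (1 / S.m + ((s : ℝ) - S.m) ^ 2 / (S.m : ℝ) ^ 2) := by
  have hcard : Fintype.card α = 2 * S.m := S.hcard
  set g0 : α → Finset α → ℝ := fun x Q => if x ∈ Q then S.f Q else 0 with hg0
  have hg00 : ∀ x Q, 0 ≤ g0 x Q := by
    intro x Q
    simp only [hg0]
    split_ifs
    · exact S.f_nonneg Q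
    · exact le_refl _
  set Φ : ℕ → ℕ → ℝ := fun p s => Ev s (fun C => S.f C * χ C.card *
    (Dn^[s - (p + 1)] (Dn (g0 (S.z C)))) C) with hΦ
  have hstep1 : ∀ p ∈ range (2 * S.m), Ev p (fun Q => S.f Q * ∑ x ∈ Q, Up (rho S.f S.z χ x) Q) ≤
      ∑ s ∈ Icc (p + 1) (2 * S.m), Φ p s := by
    intro p hp
    rw [Finset.mem_range] at hp
    have hp' : p < Fintype.card α := by rw [hcard]; exact hp
    have e1 : Ev p (fun Q => S.f Q * ∑ x ∈ Q, Up (rho S.f S.z χ x) Q) =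
        Ev p (fun Q => ∑ x, g0 x Q * Up (rho S.f S.z χ x) Q) := by
      refine Ev_congr (fun Q _ => ?_)
      simp only [hg0, ite_mul, zero_mul]
      rw [Finset.sum_ite_mem, Finset.univ_inter, Finset.mul_sum]
    have e2 : Ev p (fun Q => ∑ x, g0 x Q * Up (rho S.f S.z χ x) Q) =
        Ev (p + 1) (fun T => ∑ x, Dn (g0 x) T * rho S.f S.z χ x T) := by
      rw [Ev_sum, Ev_sum]
      refine Finset.sum_congr rfl (fun x _ => ?_)
      exact Ev_Up_mul hp' (g0 x) (rho S.f S.z χ x)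
    rw [e1, e2]
    have h3 := rho_dual S.f_nonneg S.f_le_one S.z hχ0 (fun x => Dn (g0 x))
      (fun x Q => Dn_nonneg (fun y _ => hg00 x _)) (t := p + 1) (by omega)
    rw [hcard] at h3
    exact h3
  refine (Finset.sum_le_sum hstep1).trans ?_
  have hswap : ∑ p ∈ range (2 * S.m), ∑ s ∈ Icc (p + 1) (2 * S.m), Φ p s =
      ∑ s ∈ range (2 * S.m + 1), ∑ p ∈ range s, Φ p s := by
    refine Finset.sum_comm' (fun p s => ?_)
    simp only [Finset.mem_range, Finset.mem_Icc]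
    omega
  rw [hswap, Finset.mul_sum]
  refine Finset.sum_le_sum (fun s _ => ?_)
  have e3 : ∑ p ∈ range s, Φ p s = Ev s (fun C => S.f C * χ C.card *
      ∑ i ∈ range s, (Dn^[i] (Dn (g0 (S.z C)))) C) := by
    simp only [hΦ]
    rw [← Ev_sum]
    refine Ev_congr (fun C _ => ?_)
    rw [← Finset.mul_sum]
    congr 1
    rw [← Finset.sum_range_reflect]
    refine Finset.sum_congr rfl (fun p hp => ?_)
    rw [Finset.mem_range] at hp
    have : s - (s - 1 - p + 1) = p := by omega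
    rw [this]
  rw [e3]
  have e4 : Ev s (fun C => S.f C * χ C.card * ∑ i ∈ range s, (Dn^[i] (Dn (g0 (S.z C)))) C) ≤
      Ev s (fun C => (χ s * (20000 * Cw * (1 / S.m + ((s : ℝ) - S.m) ^ 2 / (S.m : ℝ) ^ 2))) *
        S.f C) := by
    refine Ev_mono (fun C hC => ?_)
    by_cases hf : S.f C = 0
    · rw [hf]; simp
    · have hCF := S.mem_of_f hf
      have h1 := nc_iter' (hg00 (S.z C)) s C
      have h2 := nc_all S hR hCF
      rw [hC] at h2 ⊢
      have h3 := S.f_nonneg C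
      have h4 := hχ0 s
      have h5 : ∑ i ∈ range s, (Dn^[i] (Dn (g0 (S.z C)))) C ≤
        20000 * Cw * (1 / S.m + ((s : ℝ) - S.m) ^ 2 / (S.m : ℝ) ^ 2) := h1.trans h2
      calc S.f C * χ s * ∑ i ∈ range s, (Dn^[i] (Dn (g0 (S.z C)))) C
          ≤ S.f C * χ s * (20000 * Cw * (1 / S.m + ((s : ℝ) - S.m) ^ 2 / (S.m : ℝ) ^ 2)) := by
            gcongr
        _ = _ := by ring
  refine e4.trans (le_of_eq ?_)
  rw [Ev_const_mul]
  unfold Sys.ph
  ring

end UF
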