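import Pool.Agent.UF.Base
import Pool.Agent.UF.Js1

set_option autoImplicit false
set_option linter.unusedSectionVars false
set_option linter.unusedVariables false
open Finset

namespace UF
variable {α : Type*} [Fintype α] [DecidableEq α]

theorem Sys.a_le_one' (S : Sys α) {χ : ℕ → ℝ} (hχ0 : ∀ s, 0 ≤ χ s) (hχ1 : ∀ s, χ s ≤ 1)
    (x : α) (Q : Finset α) : S.a χ x Q ≤ 1 := by
  have h := S.sum_a_le_one hχ0 hχ1 {x} Q
  rwa [Finset.sum_singleton] at h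

theorem Sys.ka_nonneg (S : Sys α) {χ : ℕ → ℝ} (hχ0 : ∀ s, 0 ≤ χ s) (Q : Finset α) :
    0 ≤ S.ka χ Q := by
  unfold Sys.ka
  exact Finset.sum_nonneg fun y _ => S.a_nonneg hχ0 y Q

theorem Sys.ka_le_one (S : Sys α) {χ : ℕ → ℝ} (hχ0 : ∀ s, 0 ≤ χ s) (hχ1 : ∀ s, χ s ≤ 1)
    (Q : Finset α) : S.ka χ Q ≤ 1 := by
  exact S.sum_a_le_one hχ0 hχ1 Q Q

theorem Sys.ka_le_psi (S : Sys α) {χ : ℕ → ℝ} (hχ0 : ∀ s, 0 ≤ χ s) (Q : Finset α) :
    S.ka χ Q ≤ psi S.f S.z χ Q := by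
  unfold Sys.ka psi
  exact Finset.sum_le_sum fun y _ => S.a_le_rho hχ0 y Q

theorem Sys.rr_nonneg (S : Sys α) {χ : ℕ → ℝ} (hχ0 : ∀ s, 0 ≤ χ s) (y : α) (Q : Finset α) :
    0 ≤ S.rr χ y Q := by
  unfold Sys.rr
  exact div_nonneg (S.a_nonneg hχ0 y Q) (S.ka_nonneg hχ0 Q)

theorem Sys.sum_rr_le_one (S : Sys α) {χ : ℕ → ℝ} (hχ0 : ∀ s, 0 ≤ χ s) (Q : Finset α) :
    ∑ y ∈ Q, S.rr χ y Q ≤ 1 := by
  unfold Sys.rr
  rw [← Finset.sum_div]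
  exact div_self_le_one _

theorem Sys.rr_ne_zero (S : Sys α) {χ : ℕ → ℝ} {y : α} {Q : Finset α} (h : S.rr χ y Q ≠ 0) :
    S.Good Q := by
  by_contra hG
  apply h
  unfold Sys.rr Sys.a
  rw [if_neg hG, zero_div]

theorem Sys.om2_nonneg (S : Sys α) {χ : ℕ → ℝ} (hχ0 : ∀ s, 0 ≤ χ s) (T : Finset α) (x y : α) :
    0 ≤ S.om2 χ T x y := by
  unfold Sys.om2
  split_ifs
  · exact mul_nonneg (S.a_nonneg hχ0 _ _) (S.rr_nonneg hχ0 _ _)
  · exact le_rfl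

theorem Sys.om2_row (S : Sys α) {χ : ℕ → ℝ} (hχ0 : ∀ s, 0 ≤ χ s) (hχ1 : ∀ s, χ s ≤ 1)
    (T : Finset α) : ∀ x ∈ T, ∑ y ∈ T, S.om2 χ T x y ≤ 1 := by
  intro x hx
  have h0 : S.om2 χ T x x = 0 := by
    unfold Sys.om2
    rw [if_neg (fun h => h.2.2 rfl)]
  rw [← Finset.sum_erase T h0]
  refine le_trans (Finset.sum_le_sum fun y hy => ?_) (S.sum_rr_le_one hχ0 (T.erase x))
  rw [Finset.mem_erase] at hy
  unfold Sys.om2
  rw [if_pos ⟨hx, hy.2, fun h => hy.1 h.symm⟩]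
  exact mul_le_of_le_one_left (S.rr_nonneg hχ0 _ _) (S.a_le_one' hχ0 hχ1 _ _)

theorem Sys.om2_col (S : Sys α) {χ : ℕ → ℝ} (hχ0 : ∀ s, 0 ≤ χ s) (hχ1 : ∀ s, χ s ≤ 1)
    (T : Finset α) : ∀ y ∈ T, ∑ x ∈ T, S.om2 χ T x y ≤ 1 := by
  intro y hy
  have h0 : S.om2 χ T y y = 0 := by
    unfold Sys.om2
    rw [if_neg (fun h => h.2.2 rfl)]
  rw [← Finset.sum_erase T (f := fun x => S.om2 χ T x y) h0]
  refine le_trans (Finset.sum_le_sum fun x hx => ?_)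
    (S.sum_a_le_one hχ0 hχ1 (T.erase y) (T.erase y))
  rw [Finset.mem_erase] at hx
  unfold Sys.om2
  rw [if_pos ⟨hx.2, hy, hx.1⟩]
  refine mul_le_of_le_one_right (S.a_nonneg hχ0 _ _) ?_
  have hmem : y ∈ T.erase x := Finset.mem_erase.2 ⟨hx.1.symm, hy⟩
  exact (Finset.single_le_sum (f := fun y => S.rr χ y (T.erase x))
    (fun z _ => S.rr_nonneg hχ0 z _) hmem).trans (S.sum_rr_le_one hχ0 (T.erase x))

theorem Sys.om2_supp (S : Sys α) {χ : ℕ → ℝ} (T : Finset α) (x y : α)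
    (h : S.om2 χ T x y ≠ 0) : S.Good (T.erase y) ∧ S.Good (T.erase x) := by
  unfold Sys.om2 at h
  by_cases hc : x ∈ T ∧ y ∈ T ∧ x ≠ y
  · rw [if_pos hc] at h
    refine ⟨?_, S.rr_ne_zero (right_ne_zero_of_mul h)⟩
    by_contra hG
    apply left_ne_zero_of_mul h
    unfold Sys.a
    rw [if_neg hG]
  · rw [if_neg hc] at h
    exact absurd rfl h

theorem Sys.g2_nonneg (S : Sys α) {χ : ℕ → ℝ} (hχ0 : ∀ s, 0 ≤ χ s) (k : ℕ)
    (T : Finset α) (x : α) : 0 ≤ S.g2 χ k T x := by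
  unfold Sys.g2
  exact Finset.sum_nonneg fun y _ => mul_nonneg (S.om2_nonneg hχ0 T x y) (S.Ga_nonneg k T x y)

theorem Sys.g2_le_one (S : Sys α) {χ : ℕ → ℝ} (hχ0 : ∀ s, 0 ≤ χ s) (hχ1 : ∀ s, χ s ≤ 1)
    (k : ℕ) (T : Finset α) (x : α) : S.g2 χ k T x ≤ 1 := by
  unfold Sys.g2
  by_cases hx : x ∈ T
  · refine le_trans (Finset.sum_le_sum fun y _ => ?_)
      ((Finset.sum_le_sum_of_subset_of_nonneg (Finset.erase_subset x T)
        (fun y _ _ => S.om2_nonneg hχ0 T x y)).trans (S.om2_row hχ0 hχ1 T x hx))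
    exact mul_le_of_le_one_right (S.om2_nonneg hχ0 T x y) (S.Ga_le_one k T x y)
  · refine le_trans (le_of_eq ?_) zero_le_one
    refine Finset.sum_eq_zero fun y _ => ?_
    unfold Sys.om2
    rw [if_neg (fun h => hx h.1), zero_mul]

theorem Sys.g2_supp (S : Sys α) {χ : ℕ → ℝ} (k : ℕ) (T : Finset α) (x : α)
    (h : S.g2 χ k T x ≠ 0) : S.Good (T.erase x) := by
  unfold Sys.g2 at h
  obtain ⟨y, _, hy⟩ := Finset.exists_ne_zero_of_sum_ne_zero h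
  exact (S.om2_supp T x y (left_ne_zero_of_mul hy)).2

theorem Sys.Om_eq (S : Sys α) {χ : ℕ → ℝ} (hχ0 : ∀ s, 0 ≤ χ s) (k : ℕ) (T : Finset α) :
    S.Om χ k T = ∑ x ∈ T, S.ka χ (T.erase x) * S.g2 χ k T x := by
  unfold Sys.Om Sys.g2
  refine Finset.sum_congr rfl fun x hx => ?_
  rw [Finset.mul_sum]
  refine Finset.sum_congr rfl fun y hy => ?_
  have hy' := Finset.mem_erase.1 hy
  unfold Sys.om2
  rw [if_pos ⟨hx, hy'.2, fun h => hy'.1 h.symm⟩]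
  have key : S.ka χ (T.erase x) * S.rr χ y (T.erase x) = S.a χ y (T.erase x) := by
    unfold Sys.rr
    by_cases hk : S.ka χ (T.erase x) = 0
    · have h1 : S.a χ y (T.erase x) = 0 := by
        have h2 := (Finset.sum_eq_zero_iff_of_nonneg (s := T.erase x)
          (f := fun y => S.a χ y (T.erase x)) (fun z _ => S.a_nonneg hχ0 z _)).1 hk
        exact h2 y hy
      rw [hk, h1]; simp
    · rw [mul_div_cancel₀ _ hk]
  rw [← key]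
  ring

theorem Sys.Om2_eq (S : Sys α) (χ : ℕ → ℝ) (k : ℕ) (T : Finset α) :
    S.Om2 χ k T = ∑ x ∈ T, S.g2 χ k T x := by
  rfl

end UF
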