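import Pool.Agent.UF.Base
import Pool.Agent.UF.Jo14
import Pool.Agent.UF.Js1
import Pool.Agent.UF.Jt1

set_option autoImplicit false
set_option linter.unusedSectionVars false
set_option linter.unusedVariables false
open Finset

namespace UF
variable {α : Type*} [Fintype α] [DecidableEq α]

/-- exchangeability bound for the normalised matching -/
theorem Sys.g2_sum (S : Sys α) {χ : ℕ → ℝ} (hχ0 : ∀ s, 0 ≤ χ s) (hχ1 : ∀ s, χ s ≤ 1)
    (k : ℕ) {s₀ : ℕ} (hs₀ : ∀ s, s < s₀ → χ s = 0) (hs₀m : s₀ ≤ 2 * S.m) (Q : Finset α)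
    (hQ : Q.card < s₀) (hQ1 : 1 ≤ Q.card) :
    ∑ x ∈ Qᶜ, S.g2 χ k (insert x Q) x
      ≤ (2 * (S.m : ℝ) - Q.card + 1) / ((s₀ : ℝ) - Q.card + 1) := by
  have hcQ : (Q.card : ℝ) < s₀ := by exact_mod_cast hQ
  have hs2 : (s₀ : ℝ) ≤ 2 * (S.m : ℝ) := by exact_mod_cast hs₀m
  have hB0 : 0 ≤ (2 * (S.m : ℝ) - Q.card + 1) / ((s₀ : ℝ) - Q.card + 1) :=
    div_nonneg (by linarith) (by linarith)
  have h1 : ∀ x ∈ Qᶜ, S.g2 χ k (insert x Q) x ≤
      ∑ y ∈ Q, S.rr χ y Q * rho S.f S.z χ x (insert x (Q.erase y)) := by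
    intro x hx
    have hxQ : x ∉ Q := Finset.mem_compl.1 hx
    unfold Sys.g2
    rw [Finset.erase_insert hxQ]
    refine Finset.sum_le_sum (fun y hy => ?_)
    have hxy : x ≠ y := fun h => hxQ (h ▸ hy)
    unfold Sys.om2
    rw [if_pos ⟨Finset.mem_insert_self x Q, Finset.mem_insert_of_mem hy, hxy⟩,
      Finset.erase_insert hxQ, Finset.erase_insert_of_ne hxy]
    have hr := S.rr_nonneg hχ0 y Q
    have ha := S.a_nonneg hχ0 x (insert x (Q.erase y))
    calc S.a χ x (insert x (Q.erase y)) * S.rr χ y Q * S.Ga k (insert x Q) x y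
        ≤ S.a χ x (insert x (Q.erase y)) * S.rr χ y Q * 1 :=
          mul_le_mul_of_nonneg_left (S.Ga_le_one k _ x y) (mul_nonneg ha hr)
      _ = S.rr χ y Q * S.a χ x (insert x (Q.erase y)) := by ring
      _ ≤ _ := mul_le_mul_of_nonneg_left (S.a_le_rho hχ0 x _) hr
  refine (Finset.sum_le_sum h1).trans ?_
  rw [Finset.sum_comm]
  have h2 : ∀ y ∈ Q, ∑ x ∈ Qᶜ, S.rr χ y Q * rho S.f S.z χ x (insert x (Q.erase y)) ≤
      S.rr χ y Q * ((2 * (S.m : ℝ) - Q.card + 1) / ((s₀ : ℝ) - Q.card + 1)) := by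
    intro y hy
    rw [← Finset.mul_sum]
    refine mul_le_mul_of_nonneg_left ?_ (S.rr_nonneg hχ0 y Q)
    have hcard : (Q.erase y).card = Q.card - 1 := Finset.card_erase_of_mem hy
    have hb := Rbar_bound (S.f_nonneg) (S.f_le_one) S.z hχ0 hχ1 hs₀ (by rw [S.hcard]; exact hs₀m)
      (Q.erase y) (by rw [hcard]; omega)
    have hsub : ∑ x ∈ Qᶜ, rho S.f S.z χ x (insert x (Q.erase y)) ≤
        ∑ x ∈ (Q.erase y)ᶜ, rho S.f S.z χ x (insert x (Q.erase y)) := by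
      refine Finset.sum_le_sum_of_subset_of_nonneg ?_ (fun x _ _ => S.rho_nonneg hχ0 x _)
      intro x hx
      rw [Finset.mem_compl] at hx ⊢
      exact fun h => hx (Finset.mem_of_mem_erase h)
    refine hsub.trans (hb.trans (le_of_eq ?_))
    rw [hcard, S.hcard, Nat.cast_sub hQ1]
    push_cast
    congr 1 <;> ring
  refine (Finset.sum_le_sum h2).trans ?_
  rw [← Finset.sum_mul]
  exact mul_le_of_le_one_left hB0 (S.sum_rr_le_one hχ0 Q)

end UF
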