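import Pool.Agent.UF.Base

set_option autoImplicit false
set_option linter.unusedSectionVars false
set_option linter.unusedVariables false
open Finset

namespace UF
variable {α : Type*} [Fintype α] [DecidableEq α]

theorem Up_iter_const {i : ℕ} {P : Finset α} (hi : P.card + i ≤ Fintype.card α) (c : ℝ) :
    (Up^[i] (fun _ => c)) P = c := by
  induction i generalizing P with
  | zero => rfl
  | succ i ih =>
    rw [Function.iterate_succ_apply']
    have hP : P ≠ univ := by
      rintro rfl
      rw [card_univ] at hi
      omega
    rw [← Up_const hP c]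
    apply Up_congr
    intro w hw
    rw [Up_const hP c]
    apply ih
    rw [card_insert_of_notMem hw]
    omega

theorem Up_iter_mono {g h : Finset α → ℝ} {i : ℕ} {P : Finset α}
    (H : ∀ Q, P ⊆ Q → Q.card = P.card + i → g Q ≤ h Q) :
    (Up^[i] g) P ≤ (Up^[i] h) P := by
  induction i generalizing P with
  | zero => exact H P (Subset.refl _) rfl
  | succ i ih =>
    rw [Function.iterate_succ_apply', Function.iterate_succ_apply']
    apply Up_mono
    intro w hw
    apply ih
    intro Q hQ hc
    apply H Q ((subset_insert w P).trans hQ)
    rw [hc, card_insert_of_notMem hw]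
    omega

theorem Up_iter_add (g h : Finset α → ℝ) (i : ℕ) (P : Finset α) :
    (Up^[i] (fun Q => g Q + h Q)) P = (Up^[i] g) P + (Up^[i] h) P := by
  induction i generalizing P with
  | zero => rfl
  | succ i ih =>
    rw [Function.iterate_succ_apply', Function.iterate_succ_apply', Function.iterate_succ_apply',
      ← Up_add]
    exact Up_congr fun w _ => ih _

theorem Up_iter_const_mul (c : ℝ) (g : Finset α → ℝ) (i : ℕ) (P : Finset α) :
    (Up^[i] (fun Q => c * g Q)) P = c * (Up^[i] g) P := by
  induction i generalizing P with
  | zero => rfl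
  | succ i ih =>
    rw [Function.iterate_succ_apply', Function.iterate_succ_apply', ← Up_const_mul]
    exact Up_congr fun w _ => ih _

theorem Up_iter_sum {ι : Type*} (s : Finset ι) (g : ι → Finset α → ℝ) (i : ℕ)
    (P : Finset α) :
    (Up^[i] (fun Q => ∑ j ∈ s, g j Q)) P = ∑ j ∈ s, (Up^[i] (g j)) P := by
  induction i generalizing P with
  | zero => rfl
  | succ i ih =>
    rw [Function.iterate_succ_apply']
    rw [Finset.sum_congr rfl (fun j _ => congrFun (Function.iterate_succ_apply' Up i (g j)) P)]
    rw [← Up_sum]
    exact Up_congr fun w _ => ih _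

theorem Up_iter_zero_of_mem (g : Finset α → ℝ) {x : α} (i : ℕ) {T : Finset α} (hx : x ∈ T) :
    (Up^[i] (fun A => if x ∈ A then 0 else g (insert x A))) T = 0 := by
  induction i generalizing T with
  | zero => simp [hx]
  | succ i ih =>
    rw [Function.iterate_succ_apply', Up, Finset.sum_eq_zero, zero_div]
    intro w _
    exact ih (mem_insert_of_mem hx)

/-- prescribing that `x` is not among the first `i` added elements and is added next -/
theorem Up_iter_avoid (g : Finset α → ℝ) {x : α} {T : Finset α} (hx : x ∉ T) (i : ℕ)
    (hi : T.card + i + 1 ≤ Fintype.card α) :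
    (Up^[i] (fun A => if x ∈ A then 0 else g (insert x A))) T
      = ((Fintype.card α : ℝ) - T.card - i) / ((Fintype.card α : ℝ) - T.card)
        * (Up^[i] g) (insert x T) := by
  induction i generalizing T with
  | zero =>
    have h1 : (T.card : ℝ) + 1 ≤ Fintype.card α := by exact_mod_cast hi
    have h2 : (Fintype.card α : ℝ) - T.card ≠ 0 := by linarith
    simp only [Function.iterate_zero, id_eq, hx, if_false, Nat.cast_zero, sub_zero]
    rw [div_self h2, one_mul]
  | succ i ih =>
    have hcompl : Tᶜ = insert x (insert x T)ᶜ := by
      ext a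
      simp only [mem_compl, mem_insert, not_or]
      by_cases ha : a = x
      · subst ha; simp [hx]
      · simp [ha]
    have hxn : x ∉ (insert x T)ᶜ := by simp
    have hc1 : ((Tᶜ.card : ℕ) : ℝ) = (Fintype.card α : ℝ) - T.card := by
      rw [card_compl, Nat.cast_sub (card_le_univ T)]
    have hc2 : (((insert x T)ᶜ.card : ℕ) : ℝ) = (Fintype.card α : ℝ) - (T.card + 1) := by
      rw [card_compl, Nat.cast_sub (card_le_univ _), card_insert_of_notMem hx]
      push_cast
      rfl
    rw [Function.iterate_succ_apply', Function.iterate_succ_apply', Up, Up, hc1, hc2]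
    rw [hcompl, Finset.sum_insert hxn, Up_iter_zero_of_mem g i (mem_insert_self x T), zero_add]
    have hs : ∑ w ∈ (insert x T)ᶜ, (Up^[i] (fun A => if x ∈ A then 0 else g (insert x A))) (insert w T)
        = ∑ w ∈ (insert x T)ᶜ, ((Fintype.card α : ℝ) - (T.card + 1) - i) /
          ((Fintype.card α : ℝ) - (T.card + 1)) * (Up^[i] g) (insert w (insert x T)) := by
      apply Finset.sum_congr rfl
      intro w hw
      have hw' : w ≠ x ∧ w ∉ T := by simpa [not_or] using hw
      have hxw : x ∉ insert w T := by
        simp only [mem_insert, not_or]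
        exact ⟨fun h => hw'.1 h.symm, hx⟩
      rw [ih hxw (by rw [card_insert_of_notMem hw'.2]; omega), card_insert_of_notMem hw'.2,
        Finset.insert_comm x w T]
      push_cast
      rfl
    rw [hs, ← Finset.mul_sum]
    push_cast
    ring

end UF
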