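import Pool.Agent.UF.Base
import Pool.Agent.UF.Jo1

set_option autoImplicit false
set_option linter.unusedSectionVars false
set_option linter.unusedVariables false
open Finset

namespace UF
variable {α : Type*} [Fintype α] [DecidableEq α]

theorem Up_iter_nonneg {h : Finset α → ℝ} (hh : ∀ Q, 0 ≤ h Q) (n : ℕ) : ∀ Q, 0 ≤ (Up^[n] h) Q := by
  induction n with
  | zero => exact hh
  | succ n ih =>
    intro Q
    rw [Function.iterate_succ_apply']
    exact Up_nonneg fun w _ => ih _

/-- dropping the killing up to level `s₁` -/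
theorem Us_le_iter {f : Finset α → ℝ} (hf0 : ∀ Q, 0 ≤ f Q) (hf1 : ∀ Q, f Q ≤ 1)
    {χ : ℕ → ℝ} (hχ0 : ∀ s, 0 ≤ χ s) (hχ1 : ∀ s, χ s ≤ 1) {s₁ : ℕ}
    (hχs : ∀ s, s₁ < s → χ s = 0) (hs₁ : s₁ ≤ Fintype.card α)
    (h : Finset α → ℝ) (hh : ∀ Q, 0 ≤ h Q) {Q : Finset α} (hQ : Q.card ≤ s₁) :
    Us f (fun C => f C * χ C.card * (Up^[s₁ - C.card] h) C) Q ≤ (Up^[s₁ - Q.card] h) Q := by
  classical
  set X : Finset α → ℝ := fun P => if P.card ≤ s₁ then (Up^[s₁ - P.card] h) P else 0 with hX
  have hXQ : X Q = (Up^[s₁ - Q.card] h) Q := by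
    rw [hX]; exact if_pos hQ
  rw [← hXQ]
  refine Us_le hf1 ?_
  intro P hQP
  rcases lt_trichotomy P.card s₁ with hlt | heq | hgt
  · have hA : (Up^[s₁ - P.card] h) P = Up (Up^[s₁ - (P.card + 1)] h) P := by
      have : s₁ - P.card = (s₁ - (P.card + 1)) + 1 := by omega
      rw [this, Function.iterate_succ_apply']
    have hUp : Up X P = (Up^[s₁ - P.card] h) P := by
      rw [hA]
      refine Up_congr fun w hw => ?_
      have hc : (insert w P).card = P.card + 1 := Finset.card_insert_of_notMem hw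
      rw [hX]
      simp only
      rw [hc, if_pos (by omega)]
    have hXP : X P = (Up^[s₁ - P.card] h) P := by
      rw [hX]; exact if_pos hlt.le
    rw [hUp, hXP]
    have hA0 := Up_iter_nonneg hh (s₁ - P.card) P
    have h1 : f P * χ P.card * (Up^[s₁ - P.card] h) P ≤ f P * (Up^[s₁ - P.card] h) P := by
      refine mul_le_mul_of_nonneg_right ?_ hA0
      calc f P * χ P.card ≤ f P * 1 := mul_le_mul_of_nonneg_left (hχ1 _) (hf0 P)
        _ = f P := mul_one _
    show f P * χ P.card * (Up^[s₁ - P.card] h) P + (1 - f P) * (Up^[s₁ - P.card] h) P ≤ (Up^[s₁ - P.card] h) P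
    linarith
  · have hUp : Up X P = 0 := by
      have : Up X P = Up (fun Q => (0 : ℝ) * X Q) P := by
        refine Up_congr fun w hw => ?_
        have hc : (insert w P).card = P.card + 1 := Finset.card_insert_of_notMem hw
        rw [hX]
        simp only
        rw [hc, if_neg (by omega), mul_zero]
      rw [this, Up_const_mul, zero_mul]
    have hXP : X P = h P := by
      rw [hX]
      simp only
      rw [if_pos heq.le, heq, Nat.sub_self]
      rfl
    rw [hUp, hXP, mul_zero, add_zero]
    show f P * χ P.card * (Up^[s₁ - P.card] h) P ≤ h P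
    rw [heq, Nat.sub_self]
    show f P * χ s₁ * h P ≤ h P
    have h1 : f P * χ s₁ ≤ 1 := by
      calc f P * χ s₁ ≤ 1 * 1 := mul_le_mul (hf1 P) (hχ1 _) (hχ0 _) zero_le_one
        _ = 1 := mul_one _
    calc f P * χ s₁ * h P ≤ 1 * h P := mul_le_mul_of_nonneg_right h1 (hh P)
      _ = h P := one_mul _
  · have hUp : Up X P = 0 := by
      have : Up X P = Up (fun Q => (0 : ℝ) * X Q) P := by
        refine Up_congr fun w hw => ?_
        have hc : (insert w P).card = P.card + 1 := Finset.card_insert_of_notMem hw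
        rw [hX]
        simp only
        rw [hc, if_neg (by omega), mul_zero]
      rw [this, Up_const_mul, zero_mul]
    have hXP : X P = 0 := by
      rw [hX]; exact if_neg (by omega)
    rw [hUp, hXP, mul_zero, add_zero]
    show f P * χ P.card * (Up^[s₁ - P.card] h) P ≤ 0
    rw [hχs _ hgt, mul_zero, zero_mul]

end UF
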