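import Pool.Agent.UF.Base
import Pool.Agent.UF.Jo1
import Pool.Agent.UF.Jo14
import Pool.Agent.UF.Jo2
import Pool.Agent.UF.Js1
import Pool.Agent.UF.Jt6
import Pool.Agent.UF.Jt7

set_option autoImplicit false
set_option linter.unusedSectionVars false
set_option linter.unusedVariables false
open Finset

namespace UF
variable {α : Type*} [Fintype α] [DecidableEq α]

noncomputable def Wf (S : Sys α) (χ : ℕ → ℝ) (s₁ : ℕ) (Q : Finset α) (h : Finset α → ℝ) : ℝ :=
  Us S.f (fun C => S.f C * χ C.card * (Up^[s₁ - C.card] h) C) Q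

theorem Wf_mono (S : Sys α) {χ : ℕ → ℝ} (hχ0 : ∀ s, 0 ≤ χ s) {s₁ : ℕ}
    (hχs : ∀ s, s₁ < s → χ s = 0) (Q : Finset α) {h h' : Finset α → ℝ}
    (H : ∀ A, A.card = s₁ → h A ≤ h' A) : Wf S χ s₁ Q h ≤ Wf S χ s₁ Q h' := by
  unfold Wf
  apply Us_mono S.f_le_one
  intro C
  by_cases hC : s₁ < C.card
  · rw [hχs _ hC]; simp
  · apply mul_le_mul_of_nonneg_left _ (mul_nonneg (S.f_nonneg C) (hχ0 _))
    apply Up_iter_mono
    intro A _ hA
    apply H; omega

theorem Wf_add (S : Sys α) (χ : ℕ → ℝ) (s₁ : ℕ) (Q : Finset α) (h h' : Finset α → ℝ) :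
    Wf S χ s₁ Q (fun A => h A + h' A) = Wf S χ s₁ Q h + Wf S χ s₁ Q h' := by
  unfold Wf
  rw [← Us_add]
  congr 1
  funext C
  rw [Up_iter_add, mul_add]

theorem Wf_const_mul (S : Sys α) (χ : ℕ → ℝ) (s₁ : ℕ) (Q : Finset α) (c : ℝ) (h : Finset α → ℝ) :
    Wf S χ s₁ Q (fun A => c * h A) = c * Wf S χ s₁ Q h := by
  unfold Wf
  rw [← Us_const_mul]
  congr 1
  funext C
  rw [Up_iter_const_mul]; ring

theorem Wf_sum {ι : Type*} (S : Sys α) (χ : ℕ → ℝ) (s₁ : ℕ) (Q : Finset α) (t : Finset ι)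
    (h : ι → Finset α → ℝ) :
    Wf S χ s₁ Q (fun A => ∑ i ∈ t, h i A) = ∑ i ∈ t, Wf S χ s₁ Q (h i) := by
  unfold Wf
  rw [← Us_sum]
  congr 1
  funext C
  rw [Up_iter_sum, Finset.mul_sum]

theorem Wf_le (S : Sys α) {χ : ℕ → ℝ} (hχ0 : ∀ s, 0 ≤ χ s) (hχ1 : ∀ s, χ s ≤ 1) {s₁ : ℕ}
    (hχs : ∀ s, s₁ < s → χ s = 0) (hs₁ : s₁ ≤ Fintype.card α) {Q : Finset α} (hQ : Q.card ≤ s₁)
    (h : Finset α → ℝ) (hh : ∀ Q, 0 ≤ h Q) : Wf S χ s₁ Q h ≤ (Up^[s₁ - Q.card] h) Q :=
  Us_le_iter S.f_nonneg S.f_le_one hχ0 hχ1 hχs hs₁ h hh hQ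

theorem Up_iter_nonneg_t8 {h : Finset α → ℝ} (hh : ∀ Q, 0 ≤ h Q) (i : ℕ) (P : Finset α) :
    0 ≤ (Up^[i] h) P := by
  induction i generalizing P with
  | zero => exact hh P
  | succ i ih =>
    rw [Function.iterate_succ_apply']
    exact Up_nonneg fun w _ => ih _

theorem iter_ind (S : Sys α) {x : α} {A : Finset α} (hx : x ∉ A) {j : ℕ}
    (hj : A.card + j ≤ 2 * S.m) :
    (Up^[j] (fun B => if x ∈ B then (1 : ℝ) else 0)) A = (j : ℝ) / (2 * (S.m : ℝ) - A.card) := by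
  cases j with
  | zero => simp [hx]
  | succ j =>
    have hn : (Fintype.card α : ℝ) = 2 * (S.m : ℝ) := by rw [S.hcard]; push_cast; ring
    have h1 := Up_iter_insert (fun _ => (1 : ℝ)) hx j (by rw [S.hcard]; omega)
    rw [Up_iter_const (by rw [S.hcard, Finset.card_insert_of_notMem hx]; omega)] at h1
    rw [h1, hn]; push_cast; ring

theorem iter_ind2 (S : Sys α) {x x' : α} {A : Finset α} (hx : x ∉ A) (hx' : x' ∉ A) (hne : x ≠ x')
    {j : ℕ} (hj0 : 1 ≤ j) (hj : A.card + j ≤ 2 * S.m) :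
    (Up^[j] (fun B => if x ∈ B then (if x' ∈ B then (1 : ℝ) else 0) else 0)) A
      ≤ ((j : ℝ) / (2 * (S.m : ℝ) - A.card)) ^ 2 := by
  obtain ⟨i, rfl⟩ : ∃ i, j = i + 1 := ⟨j - 1, by omega⟩
  have hn : (Fintype.card α : ℝ) = 2 * (S.m : ℝ) := by rw [S.hcard]; push_cast; ring
  have h1 := Up_iter_insert (fun B => if x' ∈ B then (1 : ℝ) else 0) hx i (by rw [S.hcard]; omega)
  have hx'' : x' ∉ insert x A := by
    rw [Finset.mem_insert]; push Not; exact ⟨hne.symm, hx'⟩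
  have hc : (insert x A).card = A.card + 1 := Finset.card_insert_of_notMem hx
  have h2 := iter_ind S hx'' (j := i) (by rw [hc]; omega)
  rw [h1, h2, hn, hc, sq]
  have h3 : (A.card : ℝ) + (i + 1) ≤ 2 * (S.m : ℝ) := by exact_mod_cast hj
  have hi : (0 : ℝ) ≤ i := Nat.cast_nonneg i
  have h4 : (0 : ℝ) < 2 * (S.m : ℝ) - A.card := by linarith
  push_cast
  apply mul_le_mul_of_nonneg_left _ (by positivity)
  rcases Nat.eq_zero_or_pos i with h0 | h0
  · subst h0; simp; linarith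
  · have hi' : (1 : ℝ) ≤ i := by exact_mod_cast h0
    rw [div_le_div_iff₀ (by linarith) h4]
    nlinarith

theorem point_bound (S : Sys α) {s₁ j : ℕ} (hj : 1 ≤ j) (hsj : s₁ + j ≤ 2 * S.m)
    {κ : ℝ} (hκ0 : 0 < κ) (X : Finset α)
    (g : α → ℝ) (hg0 : ∀ x, 0 ≤ g x) (hg1 : ∀ x, g x ≤ 1)
    (hsum : (∑ x ∈ X, g x) * ((j : ℝ) / (2 * (S.m : ℝ) - s₁)) ≤ 1) (A : Finset α)
    (hA : A.card = s₁) :
    ∑ x ∈ X, g x * (if x ∈ A then (0 : ℝ) else
      (Up^[j] (fun B => if x ∈ B then S.u B else 0)) A)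
      ≤ (κ / 8 * ((∑ x ∈ X, g x) * ((j : ℝ) / (2 * (S.m : ℝ) - s₁)))) * 1
        + 4 / κ * (Up^[j] S.u) A := by
  set Y := X.filter (fun x => x ∉ A) with hY
  have hYA : ∀ x ∈ Y, x ∉ A := fun x hx => (Finset.mem_filter.mp hx).2
  set lam : ℝ := (j : ℝ) / (2 * (S.m : ℝ) - s₁) with hlam
  have h3 : (s₁ : ℝ) + j ≤ 2 * (S.m : ℝ) := by exact_mod_cast hsj
  have hj' : (1 : ℝ) ≤ j := by exact_mod_cast hj
  have hlam0 : 0 ≤ lam := div_nonneg (by linarith) (by linarith)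
  set Gs := ∑ x ∈ X, g x with hGs
  have e1 : ∑ x ∈ X, g x * (if x ∈ A then (0 : ℝ) else
      (Up^[j] (fun B => if x ∈ B then S.u B else 0)) A) =
      ∑ x ∈ Y, g x * (Up^[j] (fun B => if x ∈ B then S.u B else 0)) A := by
    rw [hY, Finset.sum_filter]
    refine Finset.sum_congr rfl fun x _ => ?_
    by_cases hx : x ∈ A <;> simp [hx]
  have e2 : ∑ x ∈ Y, g x * (Up^[j] (fun B => if x ∈ B then S.u B else 0)) A =
      (Up^[j] (fun B => ∑ x ∈ Y, g x * (if x ∈ B then S.u B else 0))) A := by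
    rw [Up_iter_sum Y (fun x B => g x * (if x ∈ B then S.u B else 0))]
    refine Finset.sum_congr rfl fun x _ => ?_
    rw [Up_iter_const_mul]
  rw [e1, e2]
  have e3 : (Up^[j] (fun B => ∑ x ∈ Y, g x * (if x ∈ B then S.u B else 0))) A ≤
      (Up^[j] (fun B => κ / 16 * (∑ x ∈ Y, ∑ x' ∈ Y, g x * g x' *
        (if x ∈ B then (if x' ∈ B then (1 : ℝ) else 0) else 0)) + 4 / κ * S.u B)) A := by
    apply Up_iter_mono
    intro B _ _
    set N : ℝ := ∑ x ∈ Y, g x * (if x ∈ B then (1 : ℝ) else 0) with hN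
    have f1 : ∑ x ∈ Y, g x * (if x ∈ B then S.u B else 0) = N * S.u B := by
      rw [hN, Finset.sum_mul]
      refine Finset.sum_congr rfl fun x _ => ?_
      by_cases hx : x ∈ B <;> simp [hx]
    have f2 : ∑ x ∈ Y, ∑ x' ∈ Y, g x * g x' *
        (if x ∈ B then (if x' ∈ B then (1 : ℝ) else 0) else 0) = N * N := by
      rw [hN, Finset.sum_mul_sum]
      refine Finset.sum_congr rfl fun x _ => Finset.sum_congr rfl fun x' _ => ?_
      by_cases hx : x ∈ B <;> by_cases hx' : x' ∈ B <;> simp [hx, hx']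
    rw [f1, f2]
    have u0 := S.u_nonneg B
    have u1 := S.u_le_one B
    have f3 : N * S.u B ≤ κ / 16 * (N * N) + 4 / κ * (S.u B * S.u B) := by
      have : 0 ≤ (κ * N - 8 * S.u B) ^ 2 / (16 * κ) := by positivity
      have h5 : (κ * N - 8 * S.u B) ^ 2 / (16 * κ) =
          κ / 16 * (N * N) + 4 / κ * (S.u B * S.u B) - N * S.u B := by
        field_simp; ring
      linarith
    have f4 : 4 / κ * (S.u B * S.u B) ≤ 4 / κ * S.u B := by
      apply mul_le_mul_of_nonneg_left _ (by positivity)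
      nlinarith
    linarith
  refine e3.trans ?_
  rw [Up_iter_add (fun B => κ / 16 * (∑ x ∈ Y, ∑ x' ∈ Y, g x * g x' *
        (if x ∈ B then (if x' ∈ B then (1 : ℝ) else 0) else 0))) (fun B => 4 / κ * S.u B),
      Up_iter_const_mul, Up_iter_const_mul,
      Up_iter_sum Y (fun x B => ∑ x' ∈ Y, g x * g x' *
        (if x ∈ B then (if x' ∈ B then (1 : ℝ) else 0) else 0))]
  have e4 : ∑ x ∈ Y, (Up^[j] (fun B => ∑ x' ∈ Y, g x * g x' *
        (if x ∈ B then (if x' ∈ B then (1 : ℝ) else 0) else 0))) A ≤ 2 * (Gs * lam) := by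
    have e5 : ∀ x ∈ Y, (Up^[j] (fun B => ∑ x' ∈ Y, g x * g x' *
        (if x ∈ B then (if x' ∈ B then (1 : ℝ) else 0) else 0))) A ≤
        g x * lam + g x * (∑ x' ∈ Y, g x') * lam ^ 2 := by
      intro x hx
      rw [Up_iter_sum Y (fun x' B => g x * g x' *
        (if x ∈ B then (if x' ∈ B then (1 : ℝ) else 0) else 0))]
      have e6 : ∀ x' ∈ Y, (Up^[j] (fun B => g x * g x' *
          (if x ∈ B then (if x' ∈ B then (1 : ℝ) else 0) else 0))) A ≤
          (if x' = x then g x * lam else 0) + g x * g x' * lam ^ 2 := by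
        intro x' hx'
        rw [Up_iter_const_mul]
        by_cases hxx : x' = x
        · subst hxx
          rw [if_pos rfl]
          have h7 : (fun B : Finset α => if x' ∈ B then (if x' ∈ B then (1 : ℝ) else 0) else 0) =
              fun B => if x' ∈ B then (1 : ℝ) else 0 := by
            funext B; by_cases h : x' ∈ B <;> simp [h]
          rw [h7, iter_ind S (hYA x' hx') (by rw [hA]; exact hsj), hA, ← hlam]
          have g0 := hg0 x'
          have g1 := hg1 x'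
          have : g x' * g x' * lam ≤ g x' * lam := by
            apply mul_le_mul_of_nonneg_right _ hlam0
            nlinarith
          have : 0 ≤ g x' * g x' * lam ^ 2 := by positivity
          linarith
        · rw [if_neg hxx, zero_add]
          apply mul_le_mul_of_nonneg_left _ (mul_nonneg (hg0 x) (hg0 x'))
          have := iter_ind2 S (hYA x hx) (hYA x' hx') (Ne.symm hxx) hj (by rw [hA]; exact hsj)
          rw [hA] at this
          exact this
      refine (Finset.sum_le_sum e6).trans ?_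
      rw [Finset.sum_add_distrib, Finset.sum_ite_eq' Y x, if_pos hx, Finset.mul_sum, Finset.sum_mul]
    refine (Finset.sum_le_sum e5).trans ?_
    rw [Finset.sum_add_distrib, ← Finset.sum_mul, ← Finset.sum_mul, ← Finset.sum_mul]
    have hYG : ∑ x ∈ Y, g x ≤ Gs :=
      Finset.sum_le_sum_of_subset_of_nonneg (Finset.filter_subset _ _) fun i _ _ => hg0 i
    have hY0 : 0 ≤ ∑ x ∈ Y, g x := Finset.sum_nonneg fun i _ => hg0 i
    set YS := ∑ x ∈ Y, g x with hYS
    have k1 : YS * lam ≤ Gs * lam := mul_le_mul_of_nonneg_right hYG hlam0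
    have k2 : 0 ≤ YS * lam := mul_nonneg hY0 hlam0
    have k3 : YS * YS * lam ^ 2 = (YS * lam) * (YS * lam) := by ring
    rw [k3]
    nlinarith
  have hκ' : 0 ≤ κ / 16 := by positivity
  have := mul_le_mul_of_nonneg_left e4 hκ'
  linarith

theorem Sys.lb3_key (S : Sys α) {χ : ℕ → ℝ} (hχ0 : ∀ s, 0 ≤ χ s) (hχ1 : ∀ s, χ s ≤ 1)
    {s₁ j : ℕ} (hχs : ∀ s, s₁ < s → χ s = 0) (hj : 1 ≤ j) (hsj : s₁ + j ≤ 2 * S.m)
    {Q : Finset α} (hQ : Q.card ≤ s₁) {κ : ℝ} (hκ0 : 0 < κ)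
    (hκ : κ ≤ psi S.f S.z χ Q)
    (hsmall : ((s₁ : ℝ) - Q.card) / (2 * (S.m : ℝ) - Q.card) ≤ κ / 4)
    (X : Finset α) (hXQ : ∀ x ∈ X, x ∉ Q)
    (hX : ∀ x ∈ X, (Up^[s₁ - Q.card + j - 1] (fun R => 1 - S.u R)) (insert x Q) ≤ κ / 2)
    (g : α → ℝ) (hg0 : ∀ x, 0 ≤ g x) (hg1 : ∀ x, g x ≤ 1)
    (hsum : (∑ x ∈ X, g x) * ((j : ℝ) / (2 * (S.m : ℝ) - s₁)) ≤ 1) :
    (∑ x ∈ X, g x) * ((j : ℝ) / (2 * (S.m : ℝ) - s₁)) * κ ^ 2
      ≤ 32 * Us S.f (fun C => S.f C * χ C.card * Up S.u C) Q := by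
  have hn : (Fintype.card α : ℝ) = 2 * (S.m : ℝ) := by rw [S.hcard]; push_cast; ring
  have hs₁ : s₁ ≤ Fintype.card α := by rw [S.hcard]; omega
  have h3 : (s₁ : ℝ) + j ≤ 2 * (S.m : ℝ) := by exact_mod_cast hsj
  have hj' : (1 : ℝ) ≤ j := by exact_mod_cast hj
  have hQ' : (Q.card : ℝ) ≤ s₁ := by exact_mod_cast hQ
  set lam : ℝ := (j : ℝ) / (2 * (S.m : ℝ) - s₁) with hlam
  have hlam0 : 0 ≤ lam := div_nonneg (by linarith) (by linarith)
  set Gs := ∑ x ∈ X, g x with hGs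
  -- value at the constant function
  have w1 : κ ≤ Wf S χ s₁ Q (fun _ => 1) := by
    have e1 : Wf S χ s₁ Q (fun _ => 1) = Us S.f (fun Q => S.f Q * χ Q.card) Q := by
      unfold Wf
      congr 1
      funext C
      by_cases hC : s₁ < C.card
      · rw [hχs _ hC]; simp
      · rw [Up_iter_const (by omega), mul_one]
    rw [e1, ← psi_add_Uout S.f S.z χ Q]
    have : 0 ≤ Uout S.f S.z χ Q := Finset.sum_nonneg fun x _ => S.rho_nonneg hχ0 x Q
    linarith
  have w1' : Wf S χ s₁ Q (fun _ => 1) ≤ 1 := by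
    refine (Wf_le S hχ0 hχ1 hχs hs₁ hQ _ (fun _ => zero_le_one)).trans (le_of_eq ?_)
    exact Up_iter_const (by omega) 1
  -- lower bound
  have low : ∀ x ∈ X, lam * κ / 4 ≤ Wf S χ s₁ Q (fun A => if x ∈ A then (0 : ℝ) else
      (Up^[j] (fun B => if x ∈ B then S.u B else 0)) A) := by
    intro x hx
    have l1 : Wf S χ s₁ Q (fun A => if x ∈ A then (1 : ℝ) else 0) ≤ κ / 4 := by
      refine (Wf_le S hχ0 hχ1 hχs hs₁ hQ _ (fun A => ?_)).trans ?_
      · split_ifs <;> norm_num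
      · rw [iter_ind S (hXQ x hx) (by omega)]
        rw [Nat.cast_sub hQ]
        exact hsmall
    have v0 : ∀ R, 0 ≤ 1 - S.u R := fun R => by linarith [S.u_le_one R]
    have l2 : Wf S χ s₁ Q (fun A => if x ∈ A then (0 : ℝ) else
        (Up^[j - 1] (fun R => 1 - S.u R)) (insert x A)) ≤ κ / 2 := by
      refine (Wf_le S hχ0 hχ1 hχs hs₁ hQ _ (fun A => ?_)).trans ?_
      · split_ifs
        · exact le_rfl
        · exact Up_iter_nonneg_t8 v0 _ _
      · rw [Up_iter_avoid _ (hXQ x hx) _ (by rw [S.hcard]; omega), ← Function.iterate_add_apply, hn]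
        have h5 : s₁ - Q.card + (j - 1) = s₁ - Q.card + j - 1 := by omega
        rw [h5]
        have h6 := hX x hx
        have h7 : 0 ≤ (Up^[s₁ - Q.card + j - 1] (fun R => 1 - S.u R)) (insert x Q) :=
          Up_iter_nonneg_t8 v0 _ _
        have h8 : (2 * (S.m : ℝ) - Q.card - ((s₁ - Q.card : ℕ) : ℝ)) / (2 * (S.m : ℝ) - Q.card) ≤ 1 := by
          rw [Nat.cast_sub hQ, div_le_one (by linarith)]
          linarith
        nlinarith
    have l3 : Wf S χ s₁ Q (fun _ => lam * 1) ≤ Wf S χ s₁ Q (fun A => (if x ∈ A then (0 : ℝ) else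
        (Up^[j] (fun B => if x ∈ B then S.u B else 0)) A) +
        (lam * (if x ∈ A then (1 : ℝ) else 0) + lam * (if x ∈ A then (0 : ℝ) else
        (Up^[j - 1] (fun R => 1 - S.u R)) (insert x A)))) := by
      apply Wf_mono S hχ0 hχs
      intro A hA
      by_cases hxA : x ∈ A
      · simp [hxA]
      · simp only [hxA, if_false, mul_zero, zero_add]
        obtain ⟨i, rfl⟩ : ∃ i, j = i + 1 := ⟨j - 1, by omega⟩
        have hcard : (insert x A).card = s₁ + 1 := by rw [Finset.card_insert_of_notMem hxA, hA]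
        rw [Up_iter_insert _ hxA i (by rw [S.hcard]; omega), hn, hA, Nat.add_sub_cancel]
        have h9 : (Up^[i] S.u) (insert x A) + (Up^[i] (fun R => 1 - S.u R)) (insert x A) = 1 := by
          rw [← Up_iter_add]
          have : (fun Q => S.u Q + (1 - S.u Q)) = fun _ => (1 : ℝ) := by funext R; ring
          rw [this, Up_iter_const (by rw [hcard, S.hcard]; omega)]
        have h10 : ((i : ℝ) + 1) / (2 * (S.m : ℝ) - s₁) = lam := by
          rw [hlam]; push_cast; ring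
        rw [h10, ← mul_add]
        have h11 : (Up^[i] (fun Y => S.u Y)) (insert x A) = (Up^[i] S.u) (insert x A) := rfl
        rw [h11, h9]
    rw [Wf_const_mul S χ s₁ Q lam (fun _ => 1),
      Wf_add S χ s₁ Q (fun A => (if x ∈ A then (0 : ℝ) else
        (Up^[j] (fun B => if x ∈ B then S.u B else 0)) A)) (fun A =>
        (lam * (if x ∈ A then (1 : ℝ) else 0) + lam * (if x ∈ A then (0 : ℝ) else
        (Up^[j - 1] (fun R => 1 - S.u R)) (insert x A)))),
      Wf_add S χ s₁ Q (fun A => lam * (if x ∈ A then (1 : ℝ) else 0))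
        (fun A => lam * (if x ∈ A then (0 : ℝ) else
        (Up^[j - 1] (fun R => 1 - S.u R)) (insert x A))),
      Wf_const_mul, Wf_const_mul] at l3
    have m1 := mul_le_mul_of_nonneg_left w1 hlam0
    have m2 := mul_le_mul_of_nonneg_left l1 hlam0
    have m3 := mul_le_mul_of_nonneg_left l2 hlam0
    linarith
  -- upper bound
  have up : ∑ x ∈ X, g x * Wf S χ s₁ Q (fun A => if x ∈ A then (0 : ℝ) else
      (Up^[j] (fun B => if x ∈ B then S.u B else 0)) A) ≤
      κ / 8 * (Gs * lam) + 4 / κ * Wf S χ s₁ Q (fun A => (Up^[j] S.u) A) := by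
    have u1 : ∑ x ∈ X, g x * Wf S χ s₁ Q (fun A => if x ∈ A then (0 : ℝ) else
        (Up^[j] (fun B => if x ∈ B then S.u B else 0)) A) =
        Wf S χ s₁ Q (fun A => ∑ x ∈ X, g x * (if x ∈ A then (0 : ℝ) else
          (Up^[j] (fun B => if x ∈ B then S.u B else 0)) A)) := by
      rw [Wf_sum S χ s₁ Q X (fun x A => g x * (if x ∈ A then (0 : ℝ) else
          (Up^[j] (fun B => if x ∈ B then S.u B else 0)) A))]
      refine Finset.sum_congr rfl fun x _ => ?_
      rw [Wf_const_mul]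
    rw [u1]
    refine (Wf_mono S hχ0 hχs Q (fun A hA => point_bound S hj hsj hκ0 X g hg0 hg1 hsum A hA)).trans ?_
    rw [Wf_add S χ s₁ Q (fun A => (κ / 8 * ((∑ x ∈ X, g x) * ((j : ℝ) / (2 * (S.m : ℝ) - s₁)))) * 1)
      (fun A => 4 / κ * (Up^[j] S.u) A), Wf_const_mul S χ s₁ Q _ (fun _ => 1), Wf_const_mul]
    rw [← hGs, ← hlam]
    have hG0 : 0 ≤ Gs := Finset.sum_nonneg fun x _ => hg0 x
    have : κ / 8 * (Gs * lam) * Wf S χ s₁ Q (fun _ => 1) ≤ κ / 8 * (Gs * lam) * 1 :=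
      mul_le_mul_of_nonneg_left w1' (by positivity)
    linarith
  -- L u
  have hu : ∀ C, Up S.u C ≤ S.u C := by
    intro C
    have h5 : S.u C = S.f C + (1 - S.f C) * Up S.u C := Us_eq S.f S.f C
    have h6 : Up S.u C ≤ 1 := Up_le_of_le zero_le_one fun w _ => S.u_le_one _
    have h7 := S.f_nonneg C
    nlinarith
  have hui : ∀ i C, (Up^[i] S.u) C ≤ S.u C := by
    intro i
    induction i with
    | zero => intro C; exact le_rfl
    | succ i ih =>
      intro C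
      rw [Function.iterate_succ_apply']
      exact (Up_mono fun w _ => ih _).trans (hu C)
  have hui' : ∀ i C, 1 ≤ i → (Up^[i] S.u) C ≤ Up S.u C := by
    intro i C hi
    obtain ⟨i, rfl⟩ : ∃ i', i = i' + 1 := ⟨i - 1, by omega⟩
    rw [Function.iterate_succ_apply']
    exact Up_mono fun w _ => hui i _
  have lu : Wf S χ s₁ Q (fun A => (Up^[j] S.u) A) ≤
      Us S.f (fun C => S.f C * χ C.card * Up S.u C) Q := by
    unfold Wf
    apply Us_mono S.f_le_one
    intro C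
    apply mul_le_mul_of_nonneg_left _ (mul_nonneg (S.f_nonneg C) (hχ0 _))
    have : (Up^[s₁ - C.card] (fun A => (Up^[j] S.u) A)) C = (Up^[s₁ - C.card + j] S.u) C := by
      rw [Function.iterate_add_apply]
    rw [this]
    exact hui' _ _ (by omega)
  have low' : Gs * (lam * κ / 4) ≤ ∑ x ∈ X, g x * Wf S χ s₁ Q (fun A => if x ∈ A then (0 : ℝ) else
      (Up^[j] (fun B => if x ∈ B then S.u B else 0)) A) := by
    rw [hGs, Finset.sum_mul]
    exact Finset.sum_le_sum fun x hx => mul_le_mul_of_nonneg_left (low x hx) (hg0 x)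
  set WU := Wf S χ s₁ Q (fun A => (Up^[j] S.u) A) with hWU
  have fin1 : Gs * lam * κ / 8 ≤ 4 / κ * WU := by linarith
  have fin2 : Gs * lam * κ / 8 * κ ≤ 4 / κ * WU * κ := mul_le_mul_of_nonneg_right fin1 hκ0.le
  have fin3 : 4 / κ * WU * κ = 4 * WU := by field_simp
  rw [fin3] at fin2
  nlinarith

end UF
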