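import Pool.Agent.UF.Base
import Pool.Agent.UF.Jo7
import Pool.Agent.UF.Js1
import Pool.Agent.UF.Js2

set_option autoImplicit false
set_option linter.unusedSectionVars false
set_option linter.unusedVariables false
open Finset

namespace UF
variable {α : Type*} [Fintype α] [DecidableEq α]

theorem Ev_Up_iterate' (t i : ℕ) (hti : t + i ≤ Fintype.card α) (g : Finset α → ℝ) :
    Ev t (Up^[i] g) = Ev (t + i) g := by
  induction i generalizing g with
  | zero => rfl
  | succ i ih =>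
    rw [Function.iterate_succ_apply, ih (by omega), Ev_Up (by omega)]
    rfl

theorem Sys.Ev_s_le_G (S : Sys α) {χ : ℕ → ℝ} (hχ0 : ∀ s, 0 ≤ χ s) (hχ1 : ∀ s, χ s ≤ 1)
    {t : ℕ} (ht : t ≤ 2 * S.m) :
    Ev t (Us S.f (fun C => S.f C * χ C.card * Up S.u C)) ≤ S.G := by
  set s : Finset α → ℝ := fun C => S.f C * χ C.card * Up S.u C with hs
  have hUp : ∀ C, 0 ≤ Up S.u C := fun C => Up_nonneg (fun w _ => S.u_nonneg _)
  have hs0 : ∀ C, 0 ≤ s C := fun C => mul_nonneg (mul_nonneg (S.f_nonneg C) (hχ0 _)) (hUp C)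
  have hcard := S.hcard
  have h1 : Ev t (Us S.f s) ≤ Ev t (fun P => ∑ i ∈ range (2 * S.m - t + 1), (Up^[i] s) P) := by
    apply Ev_mono
    intro P hP
    have := Us_le_sum (f := S.f) (s := s) S.f_nonneg S.f_le_one hs0 P
    rw [hcard, hP] at this
    exact this
  have h2 : Ev t (fun P => ∑ i ∈ range (2 * S.m - t + 1), (Up^[i] s) P)
      = ∑ i ∈ range (2 * S.m - t + 1), Ev (t + i) s := by
    rw [Ev_sum]
    refine Finset.sum_congr rfl (fun i hi => ?_)
    rw [Finset.mem_range] at hi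
    exact Ev_Up_iterate' t i (by omega) s
  have h3 : ∑ i ∈ range (2 * S.m - t + 1), Ev (t + i) s = ∑ p ∈ Finset.Ico t (2 * S.m + 1), Ev p s := by
    rw [Finset.sum_Ico_eq_sum_range]
    rw [show 2 * S.m + 1 - t = 2 * S.m - t + 1 by omega]
  have h4 : ∑ p ∈ Finset.Ico t (2 * S.m + 1), Ev p s ≤ ∑ p ∈ range (2 * S.m + 1), Ev p s := by
    apply Finset.sum_le_sum_of_subset_of_nonneg
    · intro p hp
      rw [Finset.mem_Ico] at hp
      rw [Finset.mem_range]
      exact hp.2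
    · intro p _ _
      exact Ev_nonneg (fun P _ => hs0 P)
  have h5 : ∑ p ∈ range (2 * S.m + 1), Ev p s ≤ S.G := by
    rw [S.G_eq_up]
    refine Finset.sum_le_sum (fun p _ => Ev_mono (fun P _ => ?_))
    simp only [hs]
    apply mul_le_mul_of_nonneg_right _ (hUp P)
    calc S.f P * χ P.card ≤ S.f P * 1 := mul_le_mul_of_nonneg_left (hχ1 _) (S.f_nonneg P)
      _ = S.f P := mul_one _
  calc Ev t (Us S.f s) ≤ _ := h1
    _ = _ := h2
    _ = _ := h3
    _ ≤ _ := h4
    _ ≤ S.G := h5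

end UF
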