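import Pool.Agent.UF.Base
import Pool.Agent.UF.Js1
import Pool.Agent.UF.Js2
import Pool.Agent.UF.Js3
import Pool.Agent.UF.Jt1
import Pool.Agent.UF.Jt4
import Pool.Agent.UF.Jt8
import Pool.Agent.UF.Jt9

set_option autoImplicit false
set_option linter.unusedSectionVars false
set_option linter.unusedVariables false
open Finset

namespace UF
variable {α : Type*} [Fintype α] [DecidableEq α]

theorem lb3_Us_nonneg {k s : Finset α → ℝ} (hk : ∀ Q, k Q ≤ 1) (hs : ∀ Q, 0 ≤ s Q) :
    ∀ (N : ℕ) (P : Finset α), Pᶜ.card = N → 0 ≤ Us k s P := by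
  intro N
  induction N with
  | zero =>
    intro P hP
    rw [Us_eq]
    have : P = univ := by
      rw [Finset.card_eq_zero] at hP
      simpa using hP
    subst this
    rw [Up_univ, mul_zero, add_zero]
    exact hs _
  | succ N ih =>
    intro P hP
    rw [Us_eq]
    have h1 : 0 ≤ Up (Us k s) P := by
      apply Up_nonneg
      intro w hw
      apply ih
      have h2 : (insert w P)ᶜ = Pᶜ.erase w := by
        ext a; simp
      rw [h2, Finset.card_erase_of_mem (by simpa using hw), hP]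
      rfl
    have h2 := hk P
    have h3 := hs P
    have h4 : 0 ≤ (1 - k P) * Up (Us k s) P := mul_nonneg (by linarith) h1
    linarith

set_option maxHeartbeats 4000000 in
theorem Sys.lb3 (S : Sys α) (hR : S.Reg) {k : ℕ} (hk : k < S.M) {β t : ℕ} (hβ4 : 4 ≤ β)
    (hβ : (β : ℝ) ^ 2 ≤ S.m) (ht1 : S.m + 2 ≤ t + 4 * β) (ht2 : t + 3 * β ≤ S.m + 1) :
    Ev t (S.L3 (chiB S.m β) k (1 / Real.sqrt β) (S.m - β / 2 - t))
      ≤ 70 * S.m / Real.sqrt β * S.G := by
  classical
  have hm8 : 100000000 ≤ S.m := hR.1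
  have hm8' : (100000000 : ℝ) ≤ S.m := by exact_mod_cast hm8
  have hβ4' : (4 : ℝ) ≤ β := by exact_mod_cast hβ4
  have hm0 : (0 : ℝ) < S.m := by linarith
  -- β is small
  have hβm : (β : ℝ) * 10000 ≤ S.m := by
    by_contra hcon
    push Not at hcon
    by_cases h1 : (β : ℝ) ≤ 10000
    · nlinarith
    · push Not at h1
      nlinarith
  have hβmN : β * 10000 ≤ S.m := by exact_mod_cast hβm
  have hs0 : 0 < Real.sqrt β := Real.sqrt_pos.2 (by linarith)
  have hss : Real.sqrt β * Real.sqrt β = β := Real.mul_self_sqrt (by linarith)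
  set sq : ℝ := Real.sqrt β with hsq
  set θ : ℝ := 1 / sq with hθ
  have hθ0 : 0 < θ := by rw [hθ]; positivity
  set χ : ℕ → ℝ := chiB S.m β with hχdef
  have hχ0 : ∀ s, 0 ≤ χ s := by
    intro s; simp only [hχdef, chiB]; split_ifs <;> norm_num
  have hχ1 : ∀ s, χ s ≤ 1 := by
    intro s; simp only [hχdef, chiB]; split_ifs <;> norm_num
  have hχhi : ∀ s, S.m - β < s → χ s = 0 := by
    intro s hs
    simp only [hχdef, chiB]
    rw [if_neg]
    omega
  have hχlo : ∀ s, s < S.m - 2 * β + 1 → χ s = 0 := by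
    intro s hs
    simp only [hχdef, chiB]
    rw [if_neg]
    omega
  set sg : Finset α → ℝ := Us S.f (fun C => S.f C * χ C.card * Up S.u C) with hsg
  have hsg0 : ∀ Q, 0 ≤ sg Q := by
    intro Q
    apply lb3_Us_nonneg S.f_le_one _ _ Q rfl
    intro C
    have h1 := S.f_nonneg C
    have h2 := hχ0 C.card
    have h3 : 0 ≤ Up S.u C := Up_nonneg fun w _ => S.u_nonneg _
    positivity
  obtain ⟨p, rfl⟩ : ∃ p, t = p + 1 := ⟨t - 1, by omega⟩
  set E : ℕ := S.m - β / 2 - (p + 1) with hE
  set Φ : Finset α → α → ℝ := fun P w =>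
    if θ < S.ka χ P ∧ (Up^[E] (fun R => 1 - S.u R)) (insert w P) ≤ S.ka χ P / 2
    then S.ka χ P * S.g2 χ k (insert w P) w else 0 with hΦ
  have hp2m : p + 1 ≤ 2 * S.m := by omega
  have hpc : p < Fintype.card α := by rw [S.hcard]; omega
  have hstep1 : Ev (p + 1) (S.L3 χ k θ E) =
      ((p : ℝ) + 1) * Ev p (fun P => (∑ w ∈ Pᶜ, Φ P w) / (Pᶜ.card : ℝ)) := by
    rw [Ev_double hpc Φ, ← Ev_const_mul]
    refine Ev_congr fun Q hQ => ?_
    have hQ' : (Q.card : ℝ) = (p : ℝ) + 1 := by rw [hQ]; push_cast; ring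
    rw [hQ']
    have hp1 : (p : ℝ) + 1 ≠ 0 := by positivity
    rw [mul_div_cancel₀ _ hp1]
    simp only [Sys.L3, hΦ]
    refine Finset.sum_congr rfl fun x hx => ?_
    rw [Finset.insert_erase hx]
  rw [hstep1]
  -- pointwise bound
  have hkey : ∀ Q : Finset α, Q.card = p →
      ∑ w ∈ Qᶜ, Φ Q w ≤ 64 * (S.m + β) / sq * sg Q := by
    intro Q hQ
    have hB0 : 0 ≤ 64 * (S.m + β) / sq * sg Q := by
      have := hsg0 Q
      positivity
    by_cases hκθ : θ < S.ka χ Q
    · set κ : ℝ := S.ka χ Q with hκdef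
      set X : Finset α := Qᶜ.filter (fun x => (Up^[E] (fun R => 1 - S.u R)) (insert x Q) ≤ κ / 2)
        with hX
      have hκ0 : 0 < κ := hθ0.trans hκθ
      have e1 : ∑ w ∈ Qᶜ, Φ Q w = κ * ∑ x ∈ X, S.g2 χ k (insert x Q) x := by
        rw [hX, Finset.sum_filter, Finset.mul_sum]
        refine Finset.sum_congr rfl fun x hx => ?_
        simp only [hΦ]
        rw [← hκdef]
        by_cases h1 : (Up^[E] (fun R => 1 - S.u R)) (insert x Q) ≤ κ / 2
        · rw [if_pos ⟨hκθ, h1⟩, if_pos h1]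
        · rw [if_neg (fun h => h1 h.2), if_neg h1, mul_zero]
      have hsumle : ∑ x ∈ X, S.g2 χ k (insert x Q) x ≤ (S.m + 4 * β) / (β + 2) := by
        have h1 : ∑ x ∈ X, S.g2 χ k (insert x Q) x ≤ ∑ x ∈ Qᶜ, S.g2 χ k (insert x Q) x := by
          apply Finset.sum_le_sum_of_subset_of_nonneg (Finset.filter_subset _ _)
          intro x _ _
          exact S.g2_nonneg hχ0 _ _ _
        have h2 := S.g2_sum hχ0 hχ1 k (s₀ := S.m - 2 * β + 1) hχlo (by omega) Q (by omega) (by omega)
        refine h1.trans (h2.trans ?_)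
        have h3 : (((S.m - 2 * β + 1 : ℕ)) : ℝ) = S.m - 2 * β + 1 := by
          rw [Nat.cast_add, Nat.cast_sub (by omega)]
          push_cast
          ring
        rw [h3, hQ]
        have h4 : (S.m : ℝ) + 2 ≤ (p : ℝ) + 1 + 4 * β := by exact_mod_cast ht1
        have h5 : (p : ℝ) + 1 + 3 * β ≤ S.m + 1 := by exact_mod_cast ht2
        apply div_le_div₀ (by positivity) _ (by positivity) _
        · linarith
        · linarith
      have hjc : ((β - β / 2 : ℕ) : ℝ) ≤ ((β : ℝ) + 1) / 2 := by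
        have h1 : 2 * (β - β / 2) ≤ β + 1 := by omega
        have h2 : (2 : ℝ) * ((β - β / 2 : ℕ) : ℝ) ≤ (β : ℝ) + 1 := by exact_mod_cast h1
        linarith
      have hjc2 : (β : ℝ) / 2 ≤ ((β - β / 2 : ℕ) : ℝ) := by
        have h1 : β ≤ 2 * (β - β / 2) := by omega
        have h2 : (β : ℝ) ≤ (2 : ℝ) * ((β - β / 2 : ℕ) : ℝ) := by exact_mod_cast h1
        linarith
      have hs1c : (((S.m - β : ℕ)) : ℝ) = S.m - β := by
        rw [Nat.cast_sub (by omega)]
      have hsum0 : 0 ≤ ∑ x ∈ X, S.g2 χ k (insert x Q) x :=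
        Finset.sum_nonneg fun x _ => S.g2_nonneg hχ0 _ _ _
      have hk3 := S.lb3_key hχ0 hχ1 (s₁ := S.m - β) (j := β - β / 2) hχhi (by omega) (by omega)
        (Q := Q) (by omega) hκ0 (S.ka_le_psi hχ0 Q) (by
          rw [hs1c, hQ]
          have h4 : (S.m : ℝ) + 2 ≤ (p : ℝ) + 1 + 4 * β := by exact_mod_cast ht1
          have h5 : (p : ℝ) + 1 + 3 * β ≤ S.m + 1 := by exact_mod_cast ht2
          have h6 : (12 : ℝ) * (sq * sq * sq) ≤ S.m := by
            have h7 : (sq * sq) ^ 2 ≤ S.m := by rw [hss]; exact hβ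
            by_cases h8 : 12 ≤ sq
            · have h9 : 12 * (sq * sq * sq) ≤ sq * (sq * sq * sq) := by gcongr
              calc 12 * (sq * sq * sq) ≤ sq * (sq * sq * sq) := h9
                _ = (sq * sq) ^ 2 := by ring
                _ ≤ _ := h7
            · push Not at h8
              have h9 : sq * sq * sq ≤ 12 * 12 * 12 := by gcongr
              linarith
          have h10 : (S.m - β - (p : ℝ)) / (2 * S.m - p) ≤ 3 * β / S.m := by
            rw [div_le_div_iff₀ (by linarith) hm0]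
            have h11 : (S.m : ℝ) - β - p ≤ 3 * β := by linarith
            have h12 : (S.m : ℝ) ≤ 2 * S.m - p := by linarith
            have h13 : (0 : ℝ) ≤ 3 * β := by positivity
            calc ((S.m : ℝ) - β - p) * S.m ≤ (3 * β) * S.m := by gcongr
              _ ≤ (3 * β) * (2 * S.m - p) := by gcongr
          refine h10.trans ?_
          have h14 : 3 * (β : ℝ) / S.m ≤ θ / 4 := by
            rw [hθ, div_div, div_le_div_iff₀ hm0 (by positivity), ← hss]
            nlinarith
          linarith)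
        X (by
          intro x hx
          rw [hX, Finset.mem_filter] at hx
          simpa using hx.1)
        (by
          intro x hx
          rw [hX, Finset.mem_filter] at hx
          have h1 : S.m - β - Q.card + (β - β / 2) - 1 = E := by
            rw [hE, hQ]; omega
          rw [h1]
          exact hx.2)
        (fun x => S.g2 χ k (insert x Q) x) (fun x => S.g2_nonneg hχ0 _ _ _)
        (fun x => S.g2_le_one hχ0 hχ1 _ _ _) (by
          rw [hs1c]
          have h1 : (2 * (S.m : ℝ) - (S.m - β)) = S.m + β := by ring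
          rw [h1]
          calc (∑ x ∈ X, S.g2 χ k (insert x Q) x) * (((β - β / 2 : ℕ) : ℝ) / (S.m + β))
              ≤ ((S.m + 4 * β) / (β + 2)) * ((((β : ℝ) + 1) / 2) / (S.m + β)) := by
                gcongr
            _ ≤ 1 := by
                rw [div_div, div_mul_div_comm, div_le_one (by positivity)]
                nlinarith)
      rw [hs1c] at hk3
      have h1 : (2 * (S.m : ℝ) - (S.m - β)) = S.m + β := by ring
      rw [h1] at hk3
      rw [e1]
      set sgm : ℝ := ∑ x ∈ X, S.g2 χ k (insert x Q) x with hsgm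
      have hmβ : (0 : ℝ) < S.m + β := by positivity
      -- sgm * (j/(m+β)) * κ² ≤ 32 s
      have h2 : sgm * ((β / 2) / (S.m + β)) * (κ * θ) ≤ 32 * sg Q := by
        refine le_trans ?_ hk3
        have h3 : κ * θ ≤ κ ^ 2 := by
          have : κ ^ 2 = κ * κ := by ring
          rw [this]
          gcongr
        gcongr
      have h4 : κ * sgm = (64 * (S.m + β) / sq) * (sgm * ((β / 2) / (S.m + β)) * (κ * θ) / 32) := by
        rw [hθ, ← hss]
        field_simp
        ring
      rw [h4]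
      have h5 : sgm * ((β / 2) / (S.m + β)) * (κ * θ) / 32 ≤ sg Q := by
        linarith
      gcongr
    · have h0 : ∑ w ∈ Qᶜ, Φ Q w = 0 := by
        apply Finset.sum_eq_zero
        intro w _
        simp only [hΦ]
        rw [if_neg (fun h => hκθ h.1)]
      rw [h0]
      exact hB0
  have hstep2 : Ev p (fun P => (∑ w ∈ Pᶜ, Φ P w) / (Pᶜ.card : ℝ)) ≤
      (64 * (S.m + β) / sq) / (2 * S.m - p) * S.G := by
    have h1 := S.Ev_s_le_G hχ0 hχ1 (t := p) (by omega)
    have h2 : (0 : ℝ) < 2 * S.m - p := by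
      have : (p : ℝ) + 1 ≤ 2 * S.m := by exact_mod_cast hp2m
      linarith
    calc Ev p (fun P => (∑ w ∈ Pᶜ, Φ P w) / (Pᶜ.card : ℝ))
        ≤ Ev p (fun P => (64 * (S.m + β) / sq) / (2 * S.m - p) * sg P) := by
          refine Ev_mono fun P hP => ?_
          have h3 : (Pᶜ.card : ℝ) = 2 * S.m - p := by
            rw [Finset.card_compl, S.hcard, hP, Nat.cast_sub (by omega)]
            push_cast
            ring
          rw [h3, div_mul_eq_mul_div]
          gcongr
          exact hkey P hP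
      _ = (64 * (S.m + β) / sq) / (2 * S.m - p) * Ev p sg := Ev_const_mul _ _ _
      _ ≤ _ := by gcongr
  have hG := S.G_nonneg
  have h5 : (p : ℝ) + 1 + 3 * β ≤ S.m + 1 := by exact_mod_cast ht2
  have h2 : (0 : ℝ) < 2 * S.m - p := by linarith
  calc ((p : ℝ) + 1) * Ev p (fun P => (∑ w ∈ Pᶜ, Φ P w) / (Pᶜ.card : ℝ))
      ≤ ((p : ℝ) + 1) * ((64 * (S.m + β) / sq) / (2 * S.m - p) * S.G) := by gcongr
    _ = (((p : ℝ) + 1) / (2 * S.m - p)) * (64 * (S.m + β)) * (S.G / sq) := by
        field_simp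
    _ ≤ 1 * (70 * S.m) * (S.G / sq) := by
        have h6 : ((p : ℝ) + 1) / (2 * S.m - p) ≤ 1 := by
          rw [div_le_one h2]
          linarith
        have h7 : 64 * ((S.m : ℝ) + β) ≤ 70 * S.m := by linarith
        have h8 : 0 ≤ S.G / sq := by positivity
        gcongr
    _ = _ := by ring

end UF
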