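import Pool.Agent.UF.Base
import Pool.Agent.UF.Js1
import Pool.Agent.UF.Js3
import Pool.Agent.UF.Jw2

set_option autoImplicit false
set_option linter.unusedSectionVars false
set_option linter.unusedVariables false
open Finset

namespace UF
variable {α : Type*} [Fintype α] [DecidableEq α]

theorem Sys.m_pos' (S : Sys α) (hR : S.Reg) : 1 ≤ S.m := le_trans (by norm_num) hR.1

theorem Sys.m_posR (S : Sys α) (hR : S.Reg) : (0:ℝ) < S.m := by
  exact_mod_cast S.m_pos' hR

theorem Sys.abs_le_h (S : Sys α) {s : ℕ} (hs : S.ph s ≠ 0) : |(s : ℝ) - S.m| ≤ S.h := by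
  by_contra hcon
  apply hs
  apply S.ph_eq_zero
  by_contra h2
  push Not at h2
  apply hcon
  have h3 : (S.m : ℝ) ≤ s + S.h := by exact_mod_cast h2.1
  have h4 : (s : ℝ) ≤ S.m + S.h := by exact_mod_cast h2.2
  rw [abs_le]
  constructor <;> linarith

theorem Sys.cost_bound (S : Sys α) (hR : S.Reg) (s : ℕ) :
    min 1 (((s : ℝ) - S.m) ^ 2 / S.m) ≤ 4 * (1 - wt S.m s) := by
  have := one_sub_wt_ge (S.m_pos' hR) s
  linarith

/-- moment bounds for the mass distribution -/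
theorem Sys.mom1 (S : Sys α) (hR : S.Reg) {L : ℝ} (hL : 1 ≤ L) :
    ∑ s ∈ range (2 * S.m + 1), |(s : ℝ) - S.m| / S.m * S.ph s
      ≤ L / S.m * S.T + 4 * (1 / L + (S.h : ℝ) / S.m) * S.cost := by
  have hm := S.m_posR hR
  have hL0 : (0:ℝ) < L := by linarith
  rw [Sys.T, Sys.cost, Finset.mul_sum, Finset.mul_sum, ← Finset.sum_add_distrib]
  refine Finset.sum_le_sum fun s _ => ?_
  by_cases hph : S.ph s = 0
  · rw [hph]; simp
  have hp := S.ph_nonneg s
  have hj := S.abs_le_h hph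
  have hc := S.cost_bound hR s
  have hw : 0 ≤ 1 - wt S.m s := by have := wt_le_one S.m s; linarith
  have hh : (0:ℝ) ≤ S.h := Nat.cast_nonneg _
  set j : ℝ := (s : ℝ) - S.m with hjdef
  have key : |j| / S.m ≤ L / S.m + 4 * (1 / L + (S.h : ℝ) / S.m) * (1 - wt S.m s) := by
    have t1 : 0 ≤ 4 * (1 / L) * (1 - wt S.m s) := by positivity
    have t2 : 0 ≤ 4 * ((S.h : ℝ) / S.m) * (1 - wt S.m s) := by positivity
    have t3 : 0 ≤ L / S.m := by positivity
    rcases le_or_gt |j| L with h1 | h1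
    · have : |j| / S.m ≤ L / S.m := div_le_div_of_nonneg_right h1 hm.le
      linarith
    rcases le_or_gt (j ^ 2) S.m with h2 | h2
    · have h3 : j ^ 2 / S.m ≤ 1 := by rw [div_le_one hm]; exact h2
      rw [min_eq_right h3] at hc
      have h4 : |j| / S.m ≤ (1 / L) * (j ^ 2 / S.m) := by
        rw [div_mul_div_comm, one_mul, div_le_div_iff₀ hm (by positivity)]
        have h5 : |j| * L ≤ j ^ 2 := by
          rw [← sq_abs j, sq]
          exact mul_le_mul_of_nonneg_left h1.le (abs_nonneg _)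
        nlinarith
      have h6 : (1 / L) * (j ^ 2 / S.m) ≤ (1 / L) * (4 * (1 - wt S.m s)) :=
        mul_le_mul_of_nonneg_left hc (by positivity)
      linarith
    · have h3 : 1 ≤ j ^ 2 / S.m := by rw [one_le_div hm]; exact h2.le
      rw [min_eq_left h3] at hc
      have h4 : |j| / S.m ≤ S.h / S.m := div_le_div_of_nonneg_right hj hm.le
      have h5 : (S.h : ℝ) / S.m * 1 ≤ (S.h : ℝ) / S.m * (4 * (1 - wt S.m s)) :=
        mul_le_mul_of_nonneg_left hc (by positivity)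
      linarith
  have := mul_le_mul_of_nonneg_right key hp
  calc |j| / S.m * S.ph s ≤ _ := this
    _ = _ := by ring

theorem Sys.mom1' (S : Sys α) (hR : S.Reg) :
    ∑ s ∈ range (2 * S.m + 1), |(s : ℝ) - S.m| / S.m * S.ph s ≤ 4 * S.cost := by
  have hm := S.m_posR hR
  rw [Sys.cost, Finset.mul_sum]
  refine Finset.sum_le_sum fun s hs => ?_
  have hp := S.ph_nonneg s
  have hc := S.cost_bound hR s
  have hs' : s ≤ 2 * S.m := by
    have := Finset.mem_range.1 hs
    omega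
  have hsR : (s : ℝ) ≤ 2 * S.m := by exact_mod_cast hs'
  have hs0 : (0:ℝ) ≤ s := Nat.cast_nonneg _
  set j : ℝ := (s : ℝ) - S.m with hjdef
  have h1 : |j| ≤ S.m := by
    rw [abs_le]; constructor <;> linarith
  have h2 : |j| ≤ j ^ 2 := by
    have hz : |((s : ℤ) - (S.m : ℤ))| ≤ ((s : ℤ) - (S.m : ℤ)) ^ 2 := by
      rw [← sq_abs]
      rcases eq_or_ne |((s : ℤ) - (S.m : ℤ))| 0 with h0 | h0
      · rw [h0]; norm_num
      · have : 1 ≤ |((s : ℤ) - (S.m : ℤ))| := Int.one_le_abs (by simpa using h0)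
        nlinarith
    have := (Int.cast_le (R := ℝ)).2 hz
    push_cast at this
    exact this
  have h3 : |j| / S.m ≤ min 1 (j ^ 2 / S.m) := by
    apply le_min
    · rw [div_le_one hm]; exact h1
    · exact div_le_div_of_nonneg_right h2 hm.le
  have := mul_le_mul_of_nonneg_right (h3.trans hc) hp
  linarith

theorem Sys.mom2 (S : Sys α) (hR : S.Reg) :
    ∑ s ∈ range (2 * S.m + 1), ((s : ℝ) - S.m) ^ 2 / S.m * S.ph s
      ≤ S.T + 4 * ((S.h : ℝ) ^ 2 / S.m) * S.cost := by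
  have hm := S.m_posR hR
  rw [Sys.T, Sys.cost, Finset.mul_sum, ← Finset.sum_add_distrib]
  refine Finset.sum_le_sum fun s _ => ?_
  by_cases hph : S.ph s = 0
  · rw [hph]; simp
  have hp := S.ph_nonneg s
  have hj := S.abs_le_h hph
  have hc := S.cost_bound hR s
  have hw : 0 ≤ 1 - wt S.m s := by have := wt_le_one S.m s; linarith
  have hh : (0:ℝ) ≤ S.h := Nat.cast_nonneg _
  set j : ℝ := (s : ℝ) - S.m with hjdef
  have key : j ^ 2 / S.m ≤ 1 + 4 * ((S.h : ℝ) ^ 2 / S.m) * (1 - wt S.m s) := by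
    have t2 : 0 ≤ 4 * ((S.h : ℝ) ^ 2 / S.m) * (1 - wt S.m s) := by positivity
    rcases le_or_gt (j ^ 2) S.m with h2 | h2
    · have h3 : j ^ 2 / S.m ≤ 1 := by rw [div_le_one hm]; exact h2
      linarith
    · have h3 : 1 ≤ j ^ 2 / S.m := by rw [one_le_div hm]; exact h2.le
      rw [min_eq_left h3] at hc
      have h6 : j ^ 2 ≤ (S.h : ℝ) ^ 2 := by
        rw [← sq_abs j]
        exact pow_le_pow_left₀ (abs_nonneg _) hj 2
      have h4 : j ^ 2 / S.m ≤ (S.h : ℝ) ^ 2 / S.m := div_le_div_of_nonneg_right h6 hm.le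
      have h5 : (S.h : ℝ) ^ 2 / S.m * 1 ≤ (S.h : ℝ) ^ 2 / S.m * (4 * (1 - wt S.m s)) :=
        mul_le_mul_of_nonneg_left hc (by positivity)
      linarith
  have := mul_le_mul_of_nonneg_right key hp
  calc j ^ 2 / S.m * S.ph s ≤ _ := this
    _ = _ := by ring

theorem Sys.mass_low (S : Sys α) (hR : S.Reg) {D : ℕ} (hD : 1 ≤ D)
    (hDm : (D : ℝ) ^ 2 ≤ 4 * S.m) :
    ∑ s ∈ range (S.m - D / 2), S.ph s ≤ 16 * S.m / (D : ℝ) ^ 2 * S.cost := by
  have hm := S.m_posR hR
  have hD0 : (0:ℝ) < D := by exact_mod_cast hD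
  have hsub : range (S.m - D / 2) ⊆ range (2 * S.m + 1) := by
    intro s hs
    rw [Finset.mem_range] at hs ⊢
    omega
  rw [Sys.cost, Finset.mul_sum]
  have hnn : ∀ s, 0 ≤ 16 * S.m / (D : ℝ) ^ 2 * ((1 - wt S.m s) * S.ph s) := by
    intro s
    have hw : 0 ≤ 1 - wt S.m s := by have := wt_le_one S.m s; linarith
    have hp := S.ph_nonneg s
    positivity
  refine le_trans (Finset.sum_le_sum fun s hs => ?_)
    (Finset.sum_le_sum_of_subset_of_nonneg hsub fun s _ _ => hnn s)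
  have hp := S.ph_nonneg s
  have hc := S.cost_bound hR s
  have hs' := Finset.mem_range.1 hs
  have h1 : D < 2 * (S.m - s) := by omega
  have hsm : s ≤ S.m := by omega
  have h1R : (D : ℝ) < 2 * ((S.m : ℝ) - s) := by
    have := (Nat.cast_lt (α := ℝ)).2 h1
    rw [Nat.cast_mul, Nat.cast_sub hsm] at this
    exact_mod_cast this
  have h2 : (D : ℝ) ^ 2 / 4 ≤ ((s : ℝ) - S.m) ^ 2 := by nlinarith
  have h3 : (D : ℝ) ^ 2 / (4 * S.m) ≤ min 1 (((s : ℝ) - S.m) ^ 2 / S.m) := by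
    apply le_min
    · rw [div_le_one (by positivity)]; exact hDm
    · rw [div_le_div_iff₀ (by positivity) hm]
      nlinarith
  have h4 : (D : ℝ) ^ 2 / (4 * S.m) ≤ 4 * (1 - wt S.m s) := h3.trans hc
  have h5 : 1 ≤ 16 * S.m / (D : ℝ) ^ 2 * (1 - wt S.m s) := by
    rw [div_le_iff₀ (by positivity)] at h4
    rw [div_mul_eq_mul_div, le_div_iff₀ (by positivity)]
    linarith
  have := mul_le_mul_of_nonneg_right h5 hp
  calc S.ph s = 1 * S.ph s := by ring
    _ ≤ _ := this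
    _ = _ := by ring

theorem Sys.T_nonneg (S : Sys α) : 0 ≤ S.T := by
  rw [Sys.T]
  exact Finset.sum_nonneg fun s _ => S.ph_nonneg s

end UF
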