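import Pool.Agent.UF.Base
import Pool.Agent.UF.Jo1
import Pool.Agent.UF.Jo13
import Pool.Agent.UF.Js1
import Pool.Agent.UF.Jt1

set_option autoImplicit false
set_option linter.unusedSectionVars false
set_option linter.unusedVariables false
open Finset

namespace UF
variable {α : Type*} [Fintype α] [DecidableEq α]

/-- trichotomy -/
theorem Sys.Om_split (S : Sys α) {χ : ℕ → ℝ} (hχ0 : ∀ s, 0 ≤ χ s) (hχ1 : ∀ s, χ s ≤ 1)
    (k : ℕ) {θ : ℝ} (hθ : 0 < θ) (T : Finset α) (E : ℕ) (hE : T.card + E ≤ 2 * S.m) :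
    S.Om χ k T ≤ θ * S.Om2 χ k T
      + 4 * (Us S.f (fun Q => S.f Q * chiLt (T.card + E) Q.card) T * S.Om2 χ k T)
      + S.L2 χ k θ T + S.L3 χ k θ E T := by
  classical
  have hq : 0 ≤ Us S.f (fun Q => S.f Q * chiLt (T.card + E) Q.card) T := by
    refine Us_nonneg S.f_le_one (fun Q => mul_nonneg (S.f_nonneg Q) ?_) T
    unfold chiLt
    split_ifs <;> norm_num
  have hit : (Up^[E] (fun R => 1 - S.u R)) T ≤
      (1 - S.u T) + Us S.f (fun Q => S.f Q * chiLt (T.card + E) Q.card) T :=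
    Up_iter_v_le S.f_nonneg S.f_le_one T E (by rw [S.hcard]; exact hE)
  obtain ⟨q, hqdef⟩ : ∃ q : ℝ, Us S.f (fun Q => S.f Q * chiLt (T.card + E) Q.card) T = q :=
    ⟨_, rfl⟩
  rw [hqdef] at hq hit ⊢
  rw [S.Om_eq hχ0, S.Om2_eq]
  unfold Sys.L2 Sys.L3
  rw [Finset.mul_sum, Finset.mul_sum, Finset.mul_sum, ← Finset.sum_add_distrib,
    ← Finset.sum_add_distrib, ← Finset.sum_add_distrib]
  refine Finset.sum_le_sum (fun x hx => ?_)
  have hκ0 := S.ka_nonneg hχ0 (T.erase x)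
  have hκ1 := S.ka_le_one hχ0 hχ1 (T.erase x)
  have hg := S.g2_nonneg hχ0 k T x
  generalize S.ka χ (T.erase x) = κ at *
  generalize S.g2 χ k T x = g at *
  have hqg : 0 ≤ q * g := mul_nonneg hq hg
  have hκg : 0 ≤ κ * g := mul_nonneg hκ0 hg
  have hθg : 0 ≤ θ * g := mul_nonneg hθ.le hg
  have i1 : (0 : ℝ) ≤ if θ < κ ∧ κ / 4 ≤ 1 - S.u T then g else 0 := by
    split_ifs
    · exact hg
    · exact le_refl _
  have i2 : (0 : ℝ) ≤ if θ < κ ∧ (Up^[E] (fun R => 1 - S.u R)) T ≤ κ / 2 then κ * g else 0 := by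
    split_ifs
    · exact hκg
    · exact le_refl _
  by_cases c1 : κ ≤ θ
  · have := mul_le_mul_of_nonneg_right c1 hg
    linarith
  push Not at c1
  by_cases c2 : κ / 4 ≤ 1 - S.u T
  · rw [if_pos ⟨c1, c2⟩] at i1 ⊢
    have := mul_le_mul_of_nonneg_right hκ1 hg
    linarith
  push Not at c2
  by_cases c3 : κ / 4 ≤ q
  · have := mul_le_mul_of_nonneg_right c3 hg
    linarith
  push Not at c3
  have c4 : (Up^[E] (fun R => 1 - S.u R)) T ≤ κ / 2 := by linarith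
  have e : (if θ < κ ∧ (Up^[E] (fun R => 1 - S.u R)) T ≤ κ / 2 then κ * g else 0) = κ * g :=
    if_pos ⟨c1, c4⟩
  rw [e]
  linarith

end UF
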