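import Pool.Agent.UF.Base
import Pool.Agent.UF.Jo1
import Pool.Agent.UF.Jo10
import Pool.Agent.UF.Jo2
import Pool.Agent.UF.Jo9
import Pool.Agent.UF.Js1
import Pool.Agent.UF.Js17
import Pool.Agent.UF.Js3
import Pool.Agent.UF.Jt1

set_option autoImplicit false
set_option linter.unusedSectionVars false
set_option linter.unusedVariables false
open Finset

namespace UF
variable {α : Type*} [Fintype α] [DecidableEq α]

theorem Sys.lb1 (S : Sys α) (hR : S.Reg) {χ : ℕ → ℝ} (hχ0 : ∀ s, 0 ≤ χ s)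
    (hχ1 : ∀ s, χ s ≤ 1) {k : ℕ} (hk : k < S.M) {β t e : ℕ} (hβ : (β : ℝ) ^ 2 ≤ S.m)
    (ht : S.m ≤ t + 4 * β) (htm : t ≤ S.m) (ht9 : 9 * S.m ≤ 10 * t) (he : e ≤ S.m) :
    Ev t (fun T => Us S.f (fun Q => S.f Q * chiLt e Q.card) T * S.Om2 χ k T)
      ≤ (5 * (β : ℝ) + 3000000 * ((k : ℝ) + 2) ^ 2) * ∑ s ∈ range e, S.ph s := by
  have hm8 : 100000000 ≤ S.m := hR.1
  have hcard := S.hcard
  have htc : t ≤ Fintype.card α := by omega
  have htpos : 0 < t := by omega
  have hmpos : (0 : ℝ) < S.m := by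
    have : 0 < S.m := by omega
    exact_mod_cast this
  have hc0 : ∀ s, 0 ≤ chiLt e s := by
    intro s; unfold chiLt; split_ifs <;> norm_num
  have hc1 : ∀ s, chiLt e s ≤ 1 := by
    intro s; unfold chiLt; split_ifs <;> norm_num
  have key : ∀ (w : ℕ → ℝ) (c : ℝ), 0 ≤ c → (∀ s, t ≤ s → s < e → w s ≤ c) →
      ∑ s ∈ Icc t (2 * S.m), chiLt e s * S.ph s * w s ≤ c * ∑ s ∈ range e, S.ph s := by
    intro w c hc hw
    calc ∑ s ∈ Icc t (2 * S.m), chiLt e s * S.ph s * w s
        ≤ ∑ s ∈ Icc t (2 * S.m), (if s < e then c * S.ph s else 0) := by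
          apply Finset.sum_le_sum
          intro s hs
          unfold chiLt
          split_ifs with h
          · rw [one_mul, mul_comm]
            exact mul_le_mul_of_nonneg_right (hw s (Finset.mem_Icc.1 hs).1 h) (S.ph_nonneg s)
          · simp
      _ = ∑ s ∈ (Icc t (2 * S.m)).filter (fun s => s < e), c * S.ph s := by
          rw [Finset.sum_filter]
      _ ≤ ∑ s ∈ range e, c * S.ph s := by
          apply Finset.sum_le_sum_of_subset_of_nonneg
          · intro s hs
            exact Finset.mem_range.2 (Finset.mem_filter.1 hs).2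
          · intro s _ _
            exact mul_nonneg hc (S.ph_nonneg s)
      _ = c * ∑ s ∈ range e, S.ph s := by rw [Finset.mul_sum]
  have hψ0 : ∀ T : Finset α, 0 ≤ psi S.f S.z (chiLt e) T := fun T =>
    psi_nonneg S.f_nonneg S.f_le_one S.z hc0 T
  have hU0 : ∀ T : Finset α, 0 ≤ Uout S.f S.z (chiLt e) T := by
    intro T
    unfold Uout
    exact Finset.sum_nonneg fun x _ => S.rho_nonneg hc0 x T
  have hOm0 : ∀ T : Finset α, 0 ≤ S.Om2 χ k T := by
    intro T
    rw [S.Om2_eq]
    exact Finset.sum_nonneg fun x _ => S.g2_nonneg hχ0 k T x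
  have hOm1 : ∀ T : Finset α, S.Om2 χ k T ≤ T.card := by
    intro T
    rw [S.Om2_eq]
    calc ∑ x ∈ T, S.g2 χ k T x ≤ ∑ x ∈ T, (1 : ℝ) :=
          Finset.sum_le_sum fun x _ => S.g2_le_one hχ0 hχ1 k T x
      _ = T.card := by simp
  have hsplit : Ev t (fun T => Us S.f (fun Q => S.f Q * chiLt e Q.card) T * S.Om2 χ k T) =
      Ev t (fun T => psi S.f S.z (chiLt e) T * S.Om2 χ k T) +
        Ev t (fun T => Uout S.f S.z (chiLt e) T * S.Om2 χ k T) := by
    rw [← Ev_add]
    apply Ev_congr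
    intro T _
    rw [← psi_add_Uout S.f S.z (chiLt e) T, add_mul]
  have hpairs := S.pairs_level hR hk (S.om2 χ) (fun T x y => S.om2_nonneg hχ0 T x y)
    (fun T => S.om2_row hχ0 hχ1 T) (fun T => S.om2_col hχ0 hχ1 T) hc0 hc1 ht9 htm
  have hpsi : Ev t (psi S.f S.z (chiLt e)) ≤ 1 * ∑ s ∈ range e, S.ph s := by
    refine (Ev_psi_le S.f_nonneg S.f_le_one S.z (fun C h => S.z_mem h) hc0 htc).trans ?_
    rw [hcard]
    refine le_trans (le_of_eq ?_) (key (fun s => (t : ℝ) / s) 1 zero_le_one ?_)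
    · apply Finset.sum_congr rfl
      intro s _
      show (t : ℝ) / s * chiLt e s * S.ph s = chiLt e s * S.ph s * ((t : ℝ) / s)
      ring
    · intro s hs _
      apply div_le_one_of_le₀
      · exact_mod_cast hs
      · exact Nat.cast_nonneg s
  have hsecond : ∑ s ∈ Icc t (2 * S.m), chiLt e s * S.ph s *
      (540000 * (((k : ℝ) + 2) ^ 2 + ((s : ℝ) - t) ^ 2 / S.m)) ≤
      (540000 * (((k : ℝ) + 2) ^ 2 + 16)) * ∑ s ∈ range e, S.ph s := by
    apply key
    · positivity
    · intro s hs hse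
      have h1 : (s : ℝ) - t ≤ 4 * β := by
        have : s ≤ t + 4 * β := by omega
        have : (s : ℝ) ≤ t + 4 * β := by exact_mod_cast this
        linarith
      have h0 : (0 : ℝ) ≤ (s : ℝ) - t := by
        have : (t : ℝ) ≤ s := by exact_mod_cast hs
        linarith
      have h2 : ((s : ℝ) - t) ^ 2 / S.m ≤ 16 := by
        rw [div_le_iff₀ hmpos]
        have h3 : ((s : ℝ) - t) ^ 2 ≤ (4 * (β : ℝ)) ^ 2 := pow_le_pow_left₀ h0 h1 2
        nlinarith
      linarith
  have hUbound : Ev t (fun T => Uout S.f S.z (chiLt e) T * S.Om2 χ k T) ≤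
      (4 * (β : ℝ)) * ∑ s ∈ range e, S.ph s := by
    calc Ev t (fun T => Uout S.f S.z (chiLt e) T * S.Om2 χ k T)
        ≤ Ev t (fun T => (t : ℝ) * Uout S.f S.z (chiLt e) T) := by
          apply Ev_mono
          intro T hT
          rw [mul_comm]
          apply mul_le_mul_of_nonneg_right _ (hU0 T)
          rw [← hT]
          exact hOm1 T
      _ = (t : ℝ) * Ev t (Uout S.f S.z (chiLt e)) := by rw [Ev_const_mul]
      _ ≤ (t : ℝ) * ∑ s ∈ Icc t (Fintype.card α),
            ((s : ℝ) - t) / s * chiLt e s * Ev s S.f := by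
          apply mul_le_mul_of_nonneg_left _ (Nat.cast_nonneg t)
          exact Ev_Uout_le S.f_nonneg S.f_le_one S.z (fun C h => S.z_mem h) hc0 htc
      _ = ∑ s ∈ Icc t (2 * S.m), chiLt e s * S.ph s * ((t : ℝ) * (((s : ℝ) - t) / s)) := by
          rw [hcard, Finset.mul_sum]
          apply Finset.sum_congr rfl
          intro s _
          show (t : ℝ) * (((s : ℝ) - t) / s * chiLt e s * S.ph s) = _
          ring
      _ ≤ (4 * (β : ℝ)) * ∑ s ∈ range e, S.ph s := by
          apply key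
          · positivity
          · intro s hs hse
            have h1 : (s : ℝ) - t ≤ 4 * β := by
              have : s ≤ t + 4 * β := by omega
              have : (s : ℝ) ≤ t + 4 * β := by exact_mod_cast this
              linarith
            have h0 : (0 : ℝ) ≤ (s : ℝ) - t := by
              have : (t : ℝ) ≤ s := by exact_mod_cast hs
              linarith
            have h2 : (t : ℝ) / s ≤ 1 := by
              apply div_le_one_of_le₀
              · exact_mod_cast hs
              · exact Nat.cast_nonneg s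
            calc (t : ℝ) * (((s : ℝ) - t) / s) = (t : ℝ) / s * ((s : ℝ) - t) := by ring
              _ ≤ 1 * ((s : ℝ) - t) := mul_le_mul_of_nonneg_right h2 h0
              _ ≤ 4 * β := by linarith
  have hpairs' : Ev t (fun T => psi S.f S.z (chiLt e) T * S.Om2 χ k T) ≤
      2 * Ev t (psi S.f S.z (chiLt e)) + ∑ s ∈ Icc t (2 * S.m), chiLt e s * S.ph s *
            (540000 * (((k : ℝ) + 2) ^ 2 + ((s : ℝ) - t) ^ 2 / S.m)) := hpairs
  have hS0 : 0 ≤ ∑ s ∈ range e, S.ph s := Finset.sum_nonneg fun s _ => S.ph_nonneg s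
  rw [hsplit]
  have hk4 : (4 : ℝ) ≤ ((k : ℝ) + 2) ^ 2 := by
    have : (0 : ℝ) ≤ k := Nat.cast_nonneg k
    nlinarith
  have hβ0 : (0 : ℝ) ≤ β := Nat.cast_nonneg β
  have hfin : (2 + 540000 * (((k : ℝ) + 2) ^ 2 + 16) + 4 * (β : ℝ)) *
      ∑ s ∈ range e, S.ph s ≤ (5 * (β : ℝ) + 3000000 * ((k : ℝ) + 2) ^ 2) *
      ∑ s ∈ range e, S.ph s := by
    apply mul_le_mul_of_nonneg_right _ hS0
    nlinarith
  linarith

end UF
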