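import Pool.Agent.UF.Base
import Pool.Agent.UF.Jo12
import Pool.Agent.UF.Js1
import Pool.Agent.UF.Js2
import Pool.Agent.UF.Js3
import Pool.Agent.UF.Jt1
import Pool.Agent.UF.Jt4

set_option autoImplicit false
set_option linter.unusedSectionVars false
set_option linter.unusedVariables false
open Finset

namespace UF
variable {α : Type*} [Fintype α] [DecidableEq α]

theorem Ev_sum_erase {p : ℕ} (hp : p < Fintype.card α) (Φ : Finset α → α → ℝ) :
    Ev (p + 1) (fun T => ∑ x ∈ T, Φ (T.erase x) x)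
      = ((p : ℝ) + 1) * Ev p (fun Q => (∑ w ∈ Qᶜ, Φ Q w) / (Qᶜ.card : ℝ)) := by
  rw [Ev_double hp Φ, ← Ev_const_mul]
  refine Ev_congr fun T hT => ?_
  rw [hT]
  have : ((p : ℝ) + 1) ≠ 0 := by positivity
  push_cast
  field_simp

theorem Sys.lb2_ge (S : Sys α) (Q : Finset α) :
    (1 - S.f Q) * Up (fun R => 1 - S.u R) Q ≤ 1 - S.u Q := by
  by_cases hQ : Q = univ
  · subst hQ
    rw [Up_univ, mul_zero]
    have := S.u_le_one univ
    linarith
  · rw [Up_one_sub hQ]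
    have h1 : S.u Q = S.f Q + (1 - S.f Q) * Up S.u Q := Us_eq S.f S.f Q
    rw [h1]
    apply le_of_eq
    ring

theorem Sys.lb2_good (S : Sys α) {Q : Finset α} (hQ : Q ≠ univ) (hG : S.Good Q) :
    Up (fun R => 1 - S.u R) Q = 1 - S.u Q ∧ 9 / 10 ≤ 1 - S.H Q ∧ 9 / 10 ≤ 1 - Dn S.H Q := by
  have hf : S.f Q = 0 := by
    unfold Sys.f
    rw [if_neg hG.1]
  have h1 : S.u Q = S.f Q + (1 - S.f Q) * Up S.u Q := Us_eq S.f S.f Q
  have h2 : S.H Q = S.f Q + (1 - S.f Q) * Dn S.H Q := Ds_eq S.f S.f Q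
  rw [hf] at h1 h2
  have h3 := hG.2.1
  refine ⟨?_, ?_, ?_⟩
  · rw [Up_one_sub hQ, h1]; ring
  · rw [h2]; linarith
  · linarith

open Classical in
theorem Sys.lb2_term (S : Sys α) {χ : ℕ → ℝ} (hχ0 : ∀ s, 0 ≤ χ s)
    (hχ1 : ∀ s, χ s ≤ 1) {k : ℕ} {θ : ℝ} (hθ : 0 < θ) (T : Finset α) :
    S.L2 χ k θ T ≤ ∑ x ∈ T, ((fun (Q : Finset α) (x : α) =>
      40 / θ * (1 - S.u Q) * S.g2 χ k (insert x Q) x +
       (if S.Good Q ∧ 1 - S.u Q ≤ θ / 40 then
          (if 10 * (θ / 40) ≤ 1 - S.u (insert x Q) then (1 : ℝ) else 0) else 0)) (T.erase x) x) := by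
  unfold Sys.L2
  refine Finset.sum_le_sum fun x hx => ?_
  have hins : insert x (T.erase x) = T := Finset.insert_erase hx
  simp only [hins]
  have hg0 := S.g2_nonneg hχ0 k T x
  have hg1 := S.g2_le_one hχ0 hχ1 k T x
  have hu := S.u_le_one (T.erase x)
  have hA : 0 ≤ 40 / θ * (1 - S.u (T.erase x)) * S.g2 χ k T x := by
    apply mul_nonneg _ hg0
    apply mul_nonneg (by positivity)
    linarith
  have hB : (0 : ℝ) ≤ (if S.Good (T.erase x) ∧ 1 - S.u (T.erase x) ≤ θ / 40 then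
          (if 10 * (θ / 40) ≤ 1 - S.u T then (1 : ℝ) else 0) else 0) := by
    split_ifs <;> norm_num
  split_ifs at hB ⊢ with h1 h2 h3 h4 h5
  · linarith
  · exfalso
    apply h3
    have := h1.1
    have := h1.2
    linarith
  · rw [add_zero]
    by_cases hg : S.g2 χ k T x = 0
    · rw [hg]; simp
    · have hG := S.g2_supp k T x hg
      have h4 : θ / 40 < 1 - S.u (T.erase x) := by
        by_contra hcon
        exact h2 ⟨hG, not_lt.1 hcon⟩
      have h5 : 1 ≤ 40 / θ * (1 - S.u (T.erase x)) := by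
        rw [div_mul_eq_mul_div, le_div_iff₀ hθ]
        linarith
      nlinarith
  · linarith
  · linarith
  · linarith

open Classical in
theorem Sys.lb2_pt (S : Sys α) (hR : S.Reg) {χ : ℕ → ℝ} (hχ0 : ∀ s, 0 ≤ χ s)
    (hχ1 : ∀ s, χ s ≤ 1) {k : ℕ} {θ : ℝ} (hθ : 0 < θ)
    {s₀ β : ℕ} (hβ : 1 ≤ β) (hs₀ : ∀ s, s < s₀ → χ s = 0) (hs₀m : s₀ ≤ 2 * S.m)
    {Q : Finset α} (hQ1 : 1 ≤ Q.card) (hQm : Q.card + 1 ≤ S.m) (hQs : Q.card + β ≤ s₀) :
    (∑ w ∈ Qᶜ, (fun (Q : Finset α) (x : α) =>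
      40 / θ * (1 - S.u Q) * S.g2 χ k (insert x Q) x +
       (if S.Good Q ∧ 1 - S.u Q ≤ θ / 40 then
          (if 10 * (θ / 40) ≤ 1 - S.u (insert x Q) then (1 : ℝ) else 0) else 0)) Q w) /
        (Qᶜ.card : ℝ)
      ≤ 80 / (θ * β) * ((1 - Dn S.H Q) * (1 - S.u Q)) +
        10 / 9 * (if Up (fun R => 1 - S.u R) Q ≤ θ / 40 then
          (1 - Ds S.f S.f Q) *
            Up (fun R => if 10 * (θ / 40) ≤ 1 - S.u R then (1 : ℝ) else 0) Q else 0) := by
  have hm : (100000000 : ℝ) ≤ S.m := by exact_mod_cast hR.1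
  have hβ' : (1 : ℝ) ≤ β := by exact_mod_cast hβ
  have hQu : Q ≠ univ := by
    rintro rfl
    rw [Finset.card_univ, S.hcard] at hQm
    have := hR.1
    omega
  have hcc : Qᶜ.card = 2 * S.m - Q.card := by rw [Finset.card_compl, S.hcard]
  have hccR : (Qᶜ.card : ℝ) = 2 * (S.m : ℝ) - Q.card := by
    rw [hcc, Nat.cast_sub (by omega)]
    push_cast
    ring
  have hQmR : (Q.card : ℝ) + 1 ≤ S.m := by exact_mod_cast hQm
  have hQsR : (Q.card : ℝ) + β ≤ s₀ := by exact_mod_cast hQs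
  have hccpos : (0 : ℝ) < Qᶜ.card := by rw [hccR]; linarith
  have hv0 : 0 ≤ 1 - S.u Q := by have := S.u_le_one Q; linarith
  have hD1 : 0 ≤ 1 - Dn S.H Q := by have := S.Dn_H_le_one Q; linarith
  have hH1 : 0 ≤ 1 - Ds S.f S.f Q := by
    have : Ds S.f S.f Q ≤ 1 := S.H_le_one Q
    linarith
  rw [Finset.sum_add_distrib, add_div]
  apply add_le_add
  · by_cases hG : S.Good Q
    · obtain ⟨-, -, hD⟩ := S.lb2_good hQu hG
      have hsum := S.g2_sum hχ0 hχ1 k hs₀ hs₀m Q (by omega) hQ1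
      rw [← Finset.mul_sum]
      have h1 : (2 * (S.m : ℝ) - Q.card + 1) / ((s₀ : ℝ) - Q.card + 1) ≤
          (11 / 10 * (Qᶜ.card : ℝ)) / β := by
        rw [hccR]
        apply div_le_div₀ _ _ _ _
        · have : (0 : ℝ) ≤ 2 * (S.m : ℝ) - Q.card := by linarith
          positivity
        · linarith
        · linarith
        · linarith
      have h2 : (∑ i ∈ Qᶜ, S.g2 χ k (insert i Q) i) / (Qᶜ.card : ℝ) ≤ 11 / 10 / β := by
        rw [div_le_iff₀ hccpos]
        calc (∑ i ∈ Qᶜ, S.g2 χ k (insert i Q) i)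
            ≤ (11 / 10 * (Qᶜ.card : ℝ)) / β := hsum.trans h1
          _ = 11 / 10 / β * (Qᶜ.card : ℝ) := by ring
      calc (40 / θ * (1 - S.u Q) * ∑ i ∈ Qᶜ, S.g2 χ k (insert i Q) i) / (Qᶜ.card : ℝ)
          = 40 / θ * (1 - S.u Q) * ((∑ i ∈ Qᶜ, S.g2 χ k (insert i Q) i) / (Qᶜ.card : ℝ)) := by
            rw [mul_div_assoc]
        _ ≤ 40 / θ * (1 - S.u Q) * (11 / 10 / β) := by
            apply mul_le_mul_of_nonneg_left h2
            positivity
        _ = 44 / (θ * β) * (1 - S.u Q) := by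
            field_simp
            ring
        _ ≤ 80 / (θ * β) * (9 / 10 * (1 - S.u Q)) := by
            have h5 : 0 ≤ 1 / (θ * β) * (1 - S.u Q) := by positivity
            have e1 : 44 / (θ * β) * (1 - S.u Q) = 44 * (1 / (θ * β) * (1 - S.u Q)) := by ring
            have e2 : 80 / (θ * β) * (9 / 10 * (1 - S.u Q)) =
              72 * (1 / (θ * β) * (1 - S.u Q)) := by ring
            rw [e1, e2]
            linarith
        _ ≤ 80 / (θ * β) * ((1 - Dn S.H Q) * (1 - S.u Q)) := by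
            apply mul_le_mul_of_nonneg_left _ (by positivity)
            exact mul_le_mul_of_nonneg_right hD hv0
    · have h0 : ∀ w ∈ Qᶜ, 40 / θ * (1 - S.u Q) * S.g2 χ k (insert w Q) w = 0 := by
        intro w hw
        have hwQ : w ∉ Q := by simpa using hw
        have : S.g2 χ k (insert w Q) w = 0 := by
          by_contra hne
          have := S.g2_supp k _ _ hne
          rw [Finset.erase_insert hwQ] at this
          exact hG this
        rw [this, mul_zero]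
      rw [Finset.sum_eq_zero h0, zero_div]
      positivity
  · have hUp0 : 0 ≤ Up (fun R => if 10 * (θ / 40) ≤ 1 - S.u R then (1 : ℝ) else 0) Q := by
      apply Up_nonneg
      intro w _
      split_ifs <;> norm_num
    by_cases hG : S.Good Q ∧ 1 - S.u Q ≤ θ / 40
    · obtain ⟨hU, hH, -⟩ := S.lb2_good hQu hG.1
      simp only [if_pos hG]
      rw [if_pos (by rw [hU]; exact hG.2)]
      have hH' : 9 / 10 ≤ 1 - Ds S.f S.f Q := hH
      have e1 : (∑ x ∈ Qᶜ, if 10 * (θ / 40) ≤ 1 - S.u (insert x Q) then (1 : ℝ) else 0) /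
          (Qᶜ.card : ℝ) = Up (fun R => if 10 * (θ / 40) ≤ 1 - S.u R then (1 : ℝ) else 0) Q := rfl
      rw [e1]
      nlinarith
    · simp only [if_neg hG, Finset.sum_const_zero, zero_div]
      split_ifs
      · positivity
      · simp

theorem Sys.lb2 (S : Sys α) (hR : S.Reg) {χ : ℕ → ℝ} (hχ0 : ∀ s, 0 ≤ χ s)
    (hχ1 : ∀ s, χ s ≤ 1) {k : ℕ} (hk : k < S.M) {θ : ℝ} (hθ : 0 < θ)
    {s₀ β τ w : ℕ} (hβ : 1 ≤ β) (hs₀ : ∀ s, s < s₀ → χ s = 0) (hs₀m : s₀ ≤ 2 * S.m)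
    (hτ9 : 9 * S.m ≤ 10 * τ) (hτw : τ + w ≤ S.m + 1) (hτs : τ + w + β ≤ s₀ + 1) :
    ∑ t ∈ Ico τ (τ + w), Ev t (S.L2 χ k θ)
      ≤ (80 * (w : ℝ) / β + 5) * (S.m / θ) * S.nu := by
  classical
  have hm : (100000000 : ℝ) ≤ S.m := by exact_mod_cast hR.1
  have hm' := hR.1
  have hβ' : (1 : ℝ) ≤ β := by exact_mod_cast hβ
  have hnu := S.nu_nonneg
  obtain ⟨τ', rfl⟩ : ∃ τ', τ = τ' + 1 := ⟨τ - 1, by omega⟩
  have hsum : ∑ t ∈ Ico (τ' + 1) (τ' + 1 + w), Ev t (S.L2 χ k θ)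
      = ∑ p ∈ Ico τ' (τ' + w), Ev (p + 1) (S.L2 χ k θ) := by
    rw [Finset.sum_Ico_add' (fun t => Ev t (S.L2 χ k θ)) τ' (τ' + w) 1]
    congr 2
    omega
  rw [hsum]
  have hdrop := drop_lemma (f := S.f) S.f_nonneg S.f_le_one (fun R => 1 - S.u R)
    (fun Q => by have := S.u_le_one Q; linarith) (fun Q => by have := S.u_nonneg Q; linarith)
    S.lb2_ge (θ := θ / 40) (by positivity) (t₁ := τ') (w := w) (by rw [S.hcard]; omega)
  have hev : Ev τ' (fun P => (1 - Dn (Ds S.f S.f) P) * (1 - S.u P)) = S.nu :=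
    S.Ev_nu (by omega)
  rw [hev] at hdrop
  set B : ℕ → ℝ := fun t => Ev t (fun P => if Up (fun R => 1 - S.u R) P ≤ θ / 40 then
        (1 - Ds S.f S.f P) *
          Up (fun R => if 10 * (θ / 40) ≤ 1 - S.u R then (1 : ℝ) else 0) P else 0) with hB
  have hB0 : ∀ t, 0 ≤ B t := by
    intro t
    apply Ev_nonneg
    intro P _
    have hH1 : 0 ≤ 1 - Ds S.f S.f P := by
      have : Ds S.f S.f P ≤ 1 := S.H_le_one P
      linarith
    have hUp0 : 0 ≤ Up (fun R => if 10 * (θ / 40) ≤ 1 - S.u R then (1 : ℝ) else 0) P := by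
      apply Up_nonneg
      intro w _
      split_ifs <;> norm_num
    split_ifs
    · positivity
    · exact le_refl 0
  have hterm : ∀ p ∈ Ico τ' (τ' + w), Ev (p + 1) (S.L2 χ k θ) ≤
      S.m * (80 / (θ * β) * S.nu + 10 / 9 * B p) := by
    intro p hp
    rw [Finset.mem_Ico] at hp
    have hpm : p + 1 ≤ S.m := by omega
    have hpc : p < Fintype.card α := by rw [S.hcard]; omega
    have hpmR : (p : ℝ) + 1 ≤ S.m := by exact_mod_cast hpm
    have hA0 : 0 ≤ 80 / (θ * β) * S.nu + 10 / 9 * B p := by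
      have := hB0 p
      positivity
    calc Ev (p + 1) (S.L2 χ k θ)
        ≤ Ev (p + 1) (fun T => ∑ x ∈ T, ((fun (Q : Finset α) (x : α) =>
            40 / θ * (1 - S.u Q) * S.g2 χ k (insert x Q) x +
            (if S.Good Q ∧ 1 - S.u Q ≤ θ / 40 then
              (if 10 * (θ / 40) ≤ 1 - S.u (insert x Q) then (1 : ℝ) else 0) else 0))
              (T.erase x) x)) :=
          Ev_mono fun T _ => S.lb2_term hχ0 hχ1 hθ T
      _ = ((p : ℝ) + 1) * Ev p (fun Q => (∑ w ∈ Qᶜ, (fun (Q : Finset α) (x : α) =>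
            40 / θ * (1 - S.u Q) * S.g2 χ k (insert x Q) x +
            (if S.Good Q ∧ 1 - S.u Q ≤ θ / 40 then
              (if 10 * (θ / 40) ≤ 1 - S.u (insert x Q) then (1 : ℝ) else 0) else 0)) Q w) /
              (Qᶜ.card : ℝ)) :=
          Ev_sum_erase hpc (fun (Q : Finset α) (x : α) =>
            40 / θ * (1 - S.u Q) * S.g2 χ k (insert x Q) x +
            (if S.Good Q ∧ 1 - S.u Q ≤ θ / 40 then
              (if 10 * (θ / 40) ≤ 1 - S.u (insert x Q) then (1 : ℝ) else 0) else 0))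
      _ ≤ ((p : ℝ) + 1) * Ev p (fun Q => 80 / (θ * β) * ((1 - Dn S.H Q) * (1 - S.u Q)) +
          10 / 9 * (if Up (fun R => 1 - S.u R) Q ≤ θ / 40 then
          (1 - Ds S.f S.f Q) *
            Up (fun R => if 10 * (θ / 40) ≤ 1 - S.u R then (1 : ℝ) else 0) Q else 0)) := by
          apply mul_le_mul_of_nonneg_left _ (by positivity)
          refine Ev_mono fun Q hQ => ?_
          exact S.lb2_pt hR hχ0 hχ1 hθ hβ hs₀ hs₀m (by omega) (by omega) (by omega)
      _ = ((p : ℝ) + 1) * (80 / (θ * β) * S.nu + 10 / 9 * B p) := by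
          rw [Ev_add, Ev_const_mul, Ev_const_mul, S.Ev_nu (by omega)]
      _ ≤ S.m * (80 / (θ * β) * S.nu + 10 / 9 * B p) :=
          mul_le_mul_of_nonneg_right hpmR hA0
  calc ∑ p ∈ Ico τ' (τ' + w), Ev (p + 1) (S.L2 χ k θ)
      ≤ ∑ p ∈ Ico τ' (τ' + w), S.m * (80 / (θ * β) * S.nu + 10 / 9 * B p) :=
        Finset.sum_le_sum hterm
    _ = S.m * (w * (80 / (θ * β) * S.nu) + 10 / 9 * ∑ p ∈ Ico τ' (τ' + w), B p) := by
        rw [← Finset.mul_sum, Finset.sum_add_distrib, Finset.sum_const,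
          Nat.card_Ico, nsmul_eq_mul, Nat.add_sub_cancel_left, Finset.mul_sum (Ico τ' (τ' + w)) B]
    _ ≤ S.m * (w * (80 / (θ * β) * S.nu) + 10 / 9 * (1 / (9 * (θ / 40)) * S.nu)) := by
        apply mul_le_mul_of_nonneg_left _ (by positivity)
        have := hdrop
        linarith
    _ = (80 * (w : ℝ) / β + 400 / 81) * (S.m / θ) * S.nu := by
        field_simp
        ring
    _ ≤ (80 * (w : ℝ) / β + 5) * (S.m / θ) * S.nu := by
        apply mul_le_mul_of_nonneg_right _ hnu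
        apply mul_le_mul_of_nonneg_right _ (by positivity)
        linarith

end UF
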