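import Pool.Agent.UF.Base
import Pool.Agent.UF.Js1
import Pool.Agent.UF.Js15
import Pool.Agent.UF.Js18
import Pool.Agent.UF.Js2
import Pool.Agent.UF.Js3
import Pool.Agent.UF.Jt1
import Pool.Agent.UF.Jt10
import Pool.Agent.UF.Jt11
import Pool.Agent.UF.Jt2
import Pool.Agent.UF.Jt3
import Pool.Agent.UF.Jt5

set_option autoImplicit false
set_option linter.unusedSectionVars false
set_option linter.unusedVariables false
open Finset

namespace UF
variable {α : Type*} [Fintype α] [DecidableEq α]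

theorem beta_small {m β : ℕ} (hm : 100000000 ≤ m) (hβ : (β : ℝ) ^ 2 ≤ m) : 10000 * β ≤ m := by
  have h : β ^ 2 ≤ m := by exact_mod_cast hβ
  by_contra hcon
  push Not at hcon
  have h1 : β * β < 10000 * β := by nlinarith
  have h2 : β < 10000 := by
    by_contra h3
    push Not at h3
    have := Nat.mul_le_mul_right β h3
    omega
  omega

theorem chiB_nonneg (m β s : ℕ) : 0 ≤ chiB m β s := by
  unfold chiB; split_ifs <;> norm_num

theorem chiB_le_one (m β s : ℕ) : chiB m β s ≤ 1 := by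
  unfold chiB; split_ifs <;> norm_num

theorem Sys.low_one (S : Sys α) {k : ℕ} {β t : ℕ} (hβ4 : 4 ≤ β)
    (hβm : 10000 * β ≤ S.m) (ht : t ≤ S.m - 3 * β + 1) :
    Ev t (S.Om (chiB S.m β) k) ≤ (1 / Real.sqrt β) * Ev t (S.Om2 (chiB S.m β) k) +
      4 * Ev t (fun T => Us S.f (fun Q => S.f Q * chiLt (S.m - β / 2) Q.card) T *
        S.Om2 (chiB S.m β) k T) +
      Ev t (S.L2 (chiB S.m β) k (1 / Real.sqrt β)) +
      Ev t (S.L3 (chiB S.m β) k (1 / Real.sqrt β) (S.m - β / 2 - t)) := by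
  have hsq : 0 < Real.sqrt β := Real.sqrt_pos.2 (by exact_mod_cast (by omega : 0 < β))
  rw [← Ev_const_mul, ← Ev_const_mul, ← Ev_add, ← Ev_add, ← Ev_add]
  apply Ev_mono
  intro P hP
  have hE : P.card + (S.m - β / 2 - t) = S.m - β / 2 := by omega
  have h1 := S.Om_split (χ := chiB S.m β) (chiB_nonneg S.m β) (chiB_le_one S.m β) k
    (θ := 1 / Real.sqrt β) (by positivity) P (S.m - β / 2 - t) (by omega)
  rw [hE] at h1
  exact h1

theorem Sys.low_inner (S : Sys α) (hR : S.Reg) (k : ℕ) {β t : ℕ}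
    (hβ : (β : ℝ) ^ 2 ≤ S.m) (ht1 : S.m ≤ t + 4 * β) (ht2 : t ≤ S.m) :
    ∑ s ∈ Icc t (2 * S.m), S.ph s *
      (540000 * (((k : ℝ) + 2) ^ 2 + ((s : ℝ) - t) ^ 2 / S.m)) ≤
    540000 * ((((k : ℝ) + 2) ^ 2 + 34) * S.T + 8 * ((S.h : ℝ) ^ 2 / S.m) * S.cost) := by
  have hm : (0 : ℝ) < S.m := by
    have : 0 < S.m := by have := hR.1; omega
    exact_mod_cast this
  have h1 : (S.m : ℝ) ≤ t + 4 * β := by exact_mod_cast ht1
  have h2 : (t : ℝ) ≤ S.m := by exact_mod_cast ht2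
  calc ∑ s ∈ Icc t (2 * S.m), S.ph s *
      (540000 * (((k : ℝ) + 2) ^ 2 + ((s : ℝ) - t) ^ 2 / S.m))
      ≤ ∑ s ∈ Icc t (2 * S.m), 540000 * ((((k : ℝ) + 2) ^ 2 + 32) * S.ph s +
        2 * (((s : ℝ) - S.m) ^ 2 / S.m * S.ph s)) := by
        apply sum_le_sum
        intro s _
        have hp := S.ph_nonneg s
        have h3 : ((s : ℝ) - t) ^ 2 / S.m ≤ 2 * (((s : ℝ) - S.m) ^ 2 / S.m) + 32 := by
          rw [div_le_iff₀ hm, add_mul, mul_assoc, div_mul_cancel₀ _ hm.ne']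
          nlinarith [sq_nonneg (((s : ℝ) - S.m) - (S.m - t)), mul_nonneg
            (by linarith : 0 ≤ (S.m : ℝ) - t) (by linarith : 0 ≤ (t : ℝ) + 4 * β - S.m)]
        have h4 := mul_le_mul_of_nonneg_left h3 hp
        nlinarith
    _ ≤ ∑ s ∈ range (2 * S.m + 1), 540000 * ((((k : ℝ) + 2) ^ 2 + 32) * S.ph s +
        2 * (((s : ℝ) - S.m) ^ 2 / S.m * S.ph s)) := by
        apply sum_le_sum_of_subset_of_nonneg
        · intro s hs
          rw [mem_Icc] at hs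
          rw [mem_range]
          omega
        · intro s _ _
          have hp := S.ph_nonneg s
          positivity
    _ = 540000 * ((((k : ℝ) + 2) ^ 2 + 32) * S.T +
        2 * ∑ s ∈ range (2 * S.m + 1), ((s : ℝ) - S.m) ^ 2 / S.m * S.ph s) := by
        rw [← mul_sum, sum_add_distrib, ← mul_sum, ← mul_sum]
        rfl
    _ ≤ _ := by
        have := S.mom2 hR
        nlinarith

theorem Sys.low_tail (S : Sys α) (hR : S.Reg) {β t : ℕ} (ht1 : S.m ≤ t + 4 * β) (ht2 : t ≤ S.m) :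
    ∑ s ∈ Icc t (2 * S.m), ((s : ℝ) - t) / s * S.ph s ≤
      1.001 * (4 * S.cost + 4 * β * S.T / S.m) := by
  have hm : (0 : ℝ) < S.m := by
    have : 0 < S.m := by have := hR.1; omega
    exact_mod_cast this
  have h1 : (S.m : ℝ) ≤ t + 4 * β := by exact_mod_cast ht1
  have h2 : (t : ℝ) ≤ S.m := by exact_mod_cast ht2
  have hh : 5000 * (S.h : ℝ) ≤ S.m := by exact_mod_cast hR.2
  calc ∑ s ∈ Icc t (2 * S.m), ((s : ℝ) - t) / s * S.ph s
      ≤ ∑ s ∈ Icc t (2 * S.m), 1.001 * (|(s : ℝ) - S.m| / S.m * S.ph s +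
        4 * β / S.m * S.ph s) := by
        apply sum_le_sum
        intro s hs
        rw [mem_Icc] at hs
        have hp := S.ph_nonneg s
        rcases lt_or_ge (s + S.h) S.m with hlt | hge
        · rw [S.ph_eq_zero (Or.inl hlt)]
          simp
        · have h3 : (S.m : ℝ) ≤ s + S.h := by exact_mod_cast hge
          have hs0 : (0 : ℝ) < s := by nlinarith
          have hts : (t : ℝ) ≤ s := by exact_mod_cast hs.1
          have h4 : ((s : ℝ) - t) / s ≤ 1.001 * ((|(s : ℝ) - S.m| + 4 * β) / S.m) := by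
            rw [← mul_div_assoc, div_le_div_iff₀ hs0 hm]
            have h5 : (s : ℝ) - t ≤ |(s : ℝ) - S.m| + 4 * β := by
              have := le_abs_self ((s : ℝ) - S.m)
              linarith
            have h6 : (S.m : ℝ) ≤ 1.001 * s := by nlinarith
            have h7 : 0 ≤ (s : ℝ) - t := by linarith
            have h8 : 0 ≤ |(s : ℝ) - S.m| + 4 * (β : ℝ) := by positivity
            calc ((s : ℝ) - t) * S.m ≤ (|(s : ℝ) - S.m| + 4 * β) * (1.001 * s) :=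
                  mul_le_mul h5 h6 hm.le h8
              _ = _ := by ring
          have h5 := mul_le_mul_of_nonneg_right h4 hp
          refine h5.trans (le_of_eq ?_)
          ring
    _ ≤ ∑ s ∈ range (2 * S.m + 1), 1.001 * (|(s : ℝ) - S.m| / S.m * S.ph s +
        4 * β / S.m * S.ph s) := by
        apply sum_le_sum_of_subset_of_nonneg
        · intro s hs
          rw [mem_Icc] at hs
          rw [mem_range]
          omega
        · intro s _ _
          have hp := S.ph_nonneg s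
          positivity
    _ = 1.001 * (∑ s ∈ range (2 * S.m + 1), |(s : ℝ) - S.m| / S.m * S.ph s +
        4 * β / S.m * S.T) := by
        rw [← mul_sum, sum_add_distrib, ← mul_sum]
        rfl
    _ ≤ _ := by
        have := S.mom1' hR
        have e : 4 * (β : ℝ) * S.T / S.m = 4 * β / S.m * S.T := by ring
        rw [e]
        nlinarith

theorem Sys.low_i (S : Sys α) (hR : S.Reg) {k : ℕ} (hk : k < S.M) {β : ℕ} (hβ4 : 4 ≤ β)
    (hβ : (β : ℝ) ^ 2 ≤ S.m) :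
    ∑ t ∈ Ico (S.m - 4 * β + 2) (S.m - 4 * β + 2 + β), Ev t (S.Om2 (chiB S.m β) k)
      ≤ β * (4 + 10260000 * ((k : ℝ) + 2) ^ 2 * S.T + 2 * (S.m * S.cost)) +
        (5 * (S.m * S.nu) + 21 * (S.m * S.cost) + 21 * (β * S.T)) := by
  have hβm := beta_small hR.1 hβ
  have hm : (0 : ℝ) < S.m := by
    have : 0 < S.m := by have := hR.1; omega
    exact_mod_cast this
  have hh : 5000 * (S.h : ℝ) ≤ S.m := by exact_mod_cast hR.2
  have hT := S.T_nonneg
  have hc := S.cost_nonneg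
  have hK : 4 ≤ ((k : ℝ) + 2) ^ 2 := by
    have : (0 : ℝ) ≤ k := by positivity
    nlinarith
  have h1 := S.window_bound hR hk (S.om2 (chiB S.m β)) (S.om2_nonneg (chiB_nonneg S.m β))
    (S.om2_row (chiB_nonneg S.m β) (chiB_le_one S.m β))
    (S.om2_col (chiB_nonneg S.m β) (chiB_le_one S.m β))
    (fun T x y h => (S.om2_supp T x y h).1)
    (τ := S.m - 4 * β + 2) (w := β) (by omega) (by omega)
  have h2 : ∑ t ∈ Ico (S.m - 4 * β + 2) (S.m - 4 * β + 2 + β),
      (4 + 2 * ∑ s ∈ Icc t (2 * S.m), S.ph s *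
        (540000 * (((k : ℝ) + 2) ^ 2 + ((s : ℝ) - t) ^ 2 / S.m))) ≤
      β * (4 + 10260000 * ((k : ℝ) + 2) ^ 2 * S.T + 2 * (S.m * S.cost)) := by
    have h3 : ∀ t ∈ Ico (S.m - 4 * β + 2) (S.m - 4 * β + 2 + β),
        (4 + 2 * ∑ s ∈ Icc t (2 * S.m), S.ph s *
          (540000 * (((k : ℝ) + 2) ^ 2 + ((s : ℝ) - t) ^ 2 / S.m))) ≤
        4 + 10260000 * ((k : ℝ) + 2) ^ 2 * S.T + 2 * (S.m * S.cost) := by
      intro t ht
      rw [mem_Ico] at ht
      have h4 := S.low_inner hR k (t := t) hβ (by omega) (by omega)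
      have h5 : (S.h : ℝ) ^ 2 / S.m ≤ S.m / 25000000 := by
        rw [div_le_div_iff₀ hm (by norm_num)]
        have h0 : (0 : ℝ) ≤ S.h := by positivity
        nlinarith
      have h6 : (S.h : ℝ) ^ 2 / S.m * S.cost ≤ S.m / 25000000 * S.cost :=
        mul_le_mul_of_nonneg_right h5 hc
      have h7 : 34 * S.T ≤ 8.5 * ((k : ℝ) + 2) ^ 2 * S.T :=
        mul_le_mul_of_nonneg_right (by linarith) hT
      have h8 : 0 ≤ S.m * S.cost := by positivity
      have h9 : 0 ≤ (S.h : ℝ) ^ 2 / S.m * S.cost := by positivity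
      have h10 : 540000 * ((((k : ℝ) + 2) ^ 2 + 34) * S.T + 8 * ((S.h : ℝ) ^ 2 / S.m) * S.cost) =
          540000 * (((k : ℝ) + 2) ^ 2 * S.T) + 540000 * (34 * S.T) +
            4320000 * ((S.h : ℝ) ^ 2 / S.m * S.cost) := by ring
      rw [h10] at h4
      have h11 : S.m / 25000000 * S.cost = (S.m * S.cost) / 25000000 := by ring
      rw [h11] at h6
      linarith
    refine (sum_le_sum h3).trans ?_
    rw [sum_const, Nat.card_Ico, nsmul_eq_mul]
    have : S.m - 4 * β + 2 + β - (S.m - 4 * β + 2) = β := by omega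
    rw [this]
  have h4 : 5 * S.m * Ev (S.m - 4 * β + 2 - 1) (fun Q => (1 - Dn S.H Q) * S.b Q) ≤
      5 * (S.m * S.nu) + 21 * (S.m * S.cost) + 21 * (β * S.T) := by
    have h5 := S.Ev_b_bound (t := S.m - 4 * β + 2 - 1) (by omega)
    have h6 := S.low_tail hR (β := β) (t := S.m - 4 * β + 2 - 1) (by omega) (by omega)
    have h7 := h5.trans (add_le_add le_rfl h6)
    have h8 := mul_le_mul_of_nonneg_left h7 (by positivity : 0 ≤ 5 * (S.m : ℝ))
    have e : 5 * (S.m : ℝ) * (S.nu + 1.001 * (4 * S.cost + 4 * β * S.T / S.m)) =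
        5 * (S.m * S.nu) + 20.02 * (S.m * S.cost) + 20.02 * (β * S.T) := by
      field_simp
      ring
    rw [e] at h8
    have h9 : 0 ≤ S.m * S.cost := by positivity
    have h10 : 0 ≤ (β : ℝ) * S.T := by positivity
    linarith
  exact h1.trans (add_le_add h2 h4)

theorem Sys.low_ii (S : Sys α) (hR : S.Reg) {k : ℕ} (hk : k < S.M) {β : ℕ} (hβ4 : 4 ≤ β)
    (hβ : (β : ℝ) ^ 2 ≤ S.m) :
    ∑ t ∈ Ico (S.m - 4 * β + 2) (S.m - 4 * β + 2 + β), Ev t (fun T =>
      Us S.f (fun Q => S.f Q * chiLt (S.m - β / 2) Q.card) T * S.Om2 (chiB S.m β) k T)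
      ≤ 12000020 * ((k : ℝ) + 2) ^ 2 * (S.m * S.cost) := by
  have hβm := beta_small hR.1 hβ
  have hm : (0 : ℝ) < S.m := by
    have : 0 < S.m := by have := hR.1; omega
    exact_mod_cast this
  have hβ0 : (4 : ℝ) ≤ β := by exact_mod_cast hβ4
  have hc := S.cost_nonneg
  have hK : 4 ≤ ((k : ℝ) + 2) ^ 2 := by
    have : (0 : ℝ) ≤ k := by positivity
    nlinarith
  have hml := S.mass_low hR (D := β) (by omega) (by linarith)
  have h3 : ∀ t ∈ Ico (S.m - 4 * β + 2) (S.m - 4 * β + 2 + β), Ev t (fun T =>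
      Us S.f (fun Q => S.f Q * chiLt (S.m - β / 2) Q.card) T * S.Om2 (chiB S.m β) k T) ≤
      (5 * (β : ℝ) + 3000000 * ((k : ℝ) + 2) ^ 2) * (16 * S.m / (β : ℝ) ^ 2 * S.cost) := by
    intro t ht
    rw [mem_Ico] at ht
    have h4 := S.lb1 hR (χ := chiB S.m β) (chiB_nonneg S.m β) (chiB_le_one S.m β) hk (β := β)
      (t := t) (e := S.m - β / 2) hβ (by omega) (by omega) (by omega) (by omega)
    refine h4.trans ?_
    exact mul_le_mul_of_nonneg_left hml (by positivity)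
  refine (sum_le_sum h3).trans ?_
  rw [sum_const, Nat.card_Ico, nsmul_eq_mul]
  have e1 : S.m - 4 * β + 2 + β - (S.m - 4 * β + 2) = β := by omega
  rw [e1]
  have e2 : (β : ℝ) * ((5 * (β : ℝ) + 3000000 * ((k : ℝ) + 2) ^ 2) *
      (16 * S.m / (β : ℝ) ^ 2 * S.cost)) =
      (80 + 48000000 * ((k : ℝ) + 2) ^ 2 / β) * (S.m * S.cost) := by
    field_simp
    ring
  rw [e2]
  apply mul_le_mul_of_nonneg_right _ (by positivity)
  have h5 : 48000000 * ((k : ℝ) + 2) ^ 2 / β ≤ 12000000 * ((k : ℝ) + 2) ^ 2 := by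
    rw [div_le_iff₀ (by linarith)]
    nlinarith
  linarith

theorem Sys.low_iii (S : Sys α) (hR : S.Reg) {k : ℕ} (hk : k < S.M) {β : ℕ} (hβ4 : 4 ≤ β)
    (hβ : (β : ℝ) ^ 2 ≤ S.m) :
    ∑ t ∈ Ico (S.m - 4 * β + 2) (S.m - 4 * β + 2 + β),
      Ev t (S.L2 (chiB S.m β) k (1 / Real.sqrt β)) ≤ 85 * Real.sqrt β * (S.m * S.nu) := by
  have hβm := beta_small hR.1 hβ
  have hβ0 : (4 : ℝ) ≤ β := by exact_mod_cast hβ4
  have hsq : 0 < Real.sqrt β := Real.sqrt_pos.2 (by linarith)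
  have h1 := S.lb2 hR (χ := chiB S.m β) (chiB_nonneg S.m β) (chiB_le_one S.m β) hk
    (θ := 1 / Real.sqrt β) (by positivity) (s₀ := S.m - 2 * β + 1) (β := β)
    (τ := S.m - 4 * β + 2) (w := β) (by omega) (by
      intro s hs
      unfold chiB
      rw [if_neg]
      omega) (by omega) (by omega) (by omega) (by omega)
  refine h1.trans (le_of_eq ?_)
  have h2 : (80 * (β : ℝ) / β + 5) = 85 := by
    rw [mul_div_assoc, div_self (by linarith)]
    norm_num
  rw [h2]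
  field_simp

theorem Sys.low_iv (S : Sys α) (hR : S.Reg) {k : ℕ} (hk : k < S.M) {β : ℕ} (hβ4 : 4 ≤ β)
    (hβ : (β : ℝ) ^ 2 ≤ S.m) :
    ∑ t ∈ Ico (S.m - 4 * β + 2) (S.m - 4 * β + 2 + β),
      Ev t (S.L3 (chiB S.m β) k (1 / Real.sqrt β) (S.m - β / 2 - t)) ≤
      70 * Real.sqrt β * (S.m * S.G) := by
  have hβm := beta_small hR.1 hβ
  have hβ0 : (4 : ℝ) ≤ β := by exact_mod_cast hβ4
  have hsq : 0 < Real.sqrt β := Real.sqrt_pos.2 (by linarith)
  have h3 : ∀ t ∈ Ico (S.m - 4 * β + 2) (S.m - 4 * β + 2 + β),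
      Ev t (S.L3 (chiB S.m β) k (1 / Real.sqrt β) (S.m - β / 2 - t)) ≤
      70 * S.m / Real.sqrt β * S.G := by
    intro t ht
    rw [mem_Ico] at ht
    exact S.lb3 hR hk hβ4 hβ (by omega) (by omega)
  refine (sum_le_sum h3).trans ?_
  rw [sum_const, Nat.card_Ico, nsmul_eq_mul]
  have e1 : S.m - 4 * β + 2 + β - (S.m - 4 * β + 2) = β := by omega
  rw [e1]
  apply le_of_eq
  have h4 : (β : ℝ) = Real.sqrt β * Real.sqrt β := (Real.mul_self_sqrt (by linarith)).symm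
  calc (β : ℝ) * (70 * S.m / Real.sqrt β * S.G) =
        (Real.sqrt β * Real.sqrt β) * (70 * S.m / Real.sqrt β * S.G) := by rw [← h4]
    _ = _ := by field_simp

theorem Sys.Om_low (S : Sys α) (hR : S.Reg) {k : ℕ} (hk : k < S.M) {β : ℕ} (hβ4 : 4 ≤ β)
    (hβ : (β : ℝ) ^ 2 ≤ S.m) :
    ∑ t ∈ Ico (S.m - 4 * β + 2) (S.m - 4 * β + 2 + β), Ev t (S.Om (chiB S.m β) k)
      ≤ 1000000000 * ((k : ℝ) + 2) ^ 2 * Real.sqrt β
        * (1 + S.T + S.m * (S.cost + S.nu + S.G)) := by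
  have hβm := beta_small hR.1 hβ
  have hβ0 : (4 : ℝ) ≤ β := by exact_mod_cast hβ4
  have hm : (0 : ℝ) < S.m := by
    have : 0 < S.m := by have := hR.1; omega
    exact_mod_cast this
  have hsq1 : 1 ≤ Real.sqrt β := by
    rw [Real.one_le_sqrt]
    linarith
  have hsq : 0 < Real.sqrt β := by linarith
  have hss : (β : ℝ) = Real.sqrt β * Real.sqrt β := (Real.mul_self_sqrt (by linarith)).symm
  have hK : 4 ≤ ((k : ℝ) + 2) ^ 2 := by
    have : (0 : ℝ) ≤ k := by positivity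
    nlinarith
  have hsum : ∑ t ∈ Ico (S.m - 4 * β + 2) (S.m - 4 * β + 2 + β), Ev t (S.Om (chiB S.m β) k) ≤
      (1 / Real.sqrt β) * ∑ t ∈ Ico (S.m - 4 * β + 2) (S.m - 4 * β + 2 + β),
        Ev t (S.Om2 (chiB S.m β) k) +
      4 * ∑ t ∈ Ico (S.m - 4 * β + 2) (S.m - 4 * β + 2 + β), Ev t (fun T =>
        Us S.f (fun Q => S.f Q * chiLt (S.m - β / 2) Q.card) T * S.Om2 (chiB S.m β) k T) +
      ∑ t ∈ Ico (S.m - 4 * β + 2) (S.m - 4 * β + 2 + β),
        Ev t (S.L2 (chiB S.m β) k (1 / Real.sqrt β)) +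
      ∑ t ∈ Ico (S.m - 4 * β + 2) (S.m - 4 * β + 2 + β),
        Ev t (S.L3 (chiB S.m β) k (1 / Real.sqrt β) (S.m - β / 2 - t)) := by
    rw [mul_sum, mul_sum, ← sum_add_distrib, ← sum_add_distrib, ← sum_add_distrib]
    apply sum_le_sum
    intro t ht
    rw [mem_Ico] at ht
    exact S.low_one hβ4 hβm (by omega)
  have i1 := S.low_i hR hk hβ4 hβ
  have i2 := S.low_ii hR hk hβ4 hβ
  have i3 := S.low_iii hR hk hβ4 hβ
  have i4 := S.low_iv hR hk hβ4 hβ
  have hT := S.T_nonneg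
  have hc := S.cost_nonneg
  have hn := S.nu_nonneg
  have hG := S.G_nonneg
  obtain ⟨A, hA⟩ : ∃ A : ℝ, A = S.m * S.cost := ⟨_, rfl⟩
  obtain ⟨N, hN⟩ : ∃ N : ℝ, N = S.m * S.nu := ⟨_, rfl⟩
  obtain ⟨G', hG'⟩ : ∃ G' : ℝ, G' = S.m * S.G := ⟨_, rfl⟩
  obtain ⟨q, hq⟩ : ∃ q : ℝ, q = Real.sqrt β := ⟨_, rfl⟩
  obtain ⟨κ, hκ⟩ : ∃ κ : ℝ, κ = ((k : ℝ) + 2) ^ 2 := ⟨_, rfl⟩
  have hA0 : 0 ≤ A := by rw [hA]; positivity
  have hN0 : 0 ≤ N := by rw [hN]; positivity
  have hG0 : 0 ≤ G' := by rw [hG']; positivity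
  rw [← hA, ← hN, ← hκ] at i1
  rw [← hA, ← hκ] at i2
  rw [← hN, ← hq] at i3
  rw [← hG', ← hq] at i4
  rw [← hq] at hsq1 hsq hss hsum ⊢
  rw [← hκ] at hK ⊢
  have i1' : (1 / q) * ∑ t ∈ Ico (S.m - 4 * β + 2) (S.m - 4 * β + 2 + β),
        Ev t (S.Om2 (chiB S.m β) k) ≤
      q * (4 + 10260000 * κ * S.T + 2 * A) + (5 * N + 21 * A) + 21 * (q * S.T) := by
    have h1 := mul_le_mul_of_nonneg_left i1 (by positivity : 0 ≤ 1 / q)
    have e : 1 / q * (β * (4 + 10260000 * κ * S.T + 2 * A) + (5 * N + 21 * A + 21 * (β * S.T))) =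
        q * (4 + 10260000 * κ * S.T + 2 * A) + 1 / q * (5 * N + 21 * A) + 21 * (q * S.T) := by
      rw [hss]
      field_simp
      ring
    rw [e] at h1
    have h2 : 1 / q * (5 * N + 21 * A) ≤ 5 * N + 21 * A := by
      apply mul_le_of_le_one_left (by positivity)
      rw [div_le_one hsq]
      exact hsq1
    linarith
  have hfin : (S.m : ℝ) * (S.cost + S.nu + S.G) = A + N + G' := by
    rw [hA, hN, hG']; ring
  rw [hfin]
  have hqκ : 4 * q ≤ κ * q := mul_le_mul_of_nonneg_right hK hsq.le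
  have b1 : 4 ≤ κ * q := by nlinarith
  have b2 : 4 * A ≤ κ * q * A := mul_le_mul_of_nonneg_right b1 hA0
  have b3 : 4 * N ≤ κ * q * N := mul_le_mul_of_nonneg_right b1 hN0
  have b4 : 4 * q * A ≤ κ * q * A := mul_le_mul_of_nonneg_right hqκ hA0
  have b5 : 4 * q * N ≤ κ * q * N := mul_le_mul_of_nonneg_right hqκ hN0
  have b6 : 4 * q * G' ≤ κ * q * G' := mul_le_mul_of_nonneg_right hqκ hG0
  have b7 : 4 * q * S.T ≤ κ * q * S.T := mul_le_mul_of_nonneg_right hqκ hT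
  have b8 : κ * A ≤ κ * q * A := by
    have : κ * 1 ≤ κ * q := mul_le_mul_of_nonneg_left hsq1 (by linarith)
    have := mul_le_mul_of_nonneg_right this hA0
    linarith
  have c1 : 0 ≤ κ * q * S.T := by positivity
  have c2 : 0 ≤ κ * q * A := by positivity
  have c3 : 0 ≤ κ * q * N := by positivity
  have c4 : 0 ≤ κ * q * G' := by positivity
  have e5 : 1000000000 * κ * q * (1 + S.T + (A + N + G')) = 1000000000 * (κ * q) +
      1000000000 * (κ * q * S.T) + 1000000000 * (κ * q * A) + 1000000000 * (κ * q * N) +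
      1000000000 * (κ * q * G') := by ring
  rw [e5]
  have e6 : q * (4 + 10260000 * κ * S.T + 2 * A) = 4 * q + 10260000 * (κ * q * S.T) +
      2 * (q * A) := by ring
  rw [e6] at i1'
  have e7 : 12000020 * κ * A = 12000020 * (κ * A) := by ring
  rw [e7] at i2
  have e8 : 85 * q * N = 85 * (q * N) := by ring
  rw [e8] at i3
  have e9 : 70 * q * G' = 70 * (q * G') := by ring
  rw [e9] at i4
  have e10 : 4 * q * A = 4 * (q * A) := by ring
  have e11 : 4 * q * N = 4 * (q * N) := by ring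
  have e12 : 4 * q * G' = 4 * (q * G') := by ring
  have e13 : 4 * q * S.T = 4 * (q * S.T) := by ring
  rw [e10] at b4
  rw [e11] at b5
  rw [e12] at b6
  rw [e13] at b7
  linarith

end UF
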