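import Pool.Agent.UF.Base
import Pool.Agent.UF.Js1
import Pool.Agent.UF.Js15
import Pool.Agent.UF.Js18
import Pool.Agent.UF.Js2
import Pool.Agent.UF.Js3
import Pool.Agent.UF.Jt11

set_option autoImplicit false
set_option linter.unusedSectionVars false
set_option linter.unusedVariables false
open Finset

namespace UF
variable {α : Type*} [Fintype α] [DecidableEq α]

theorem Sys.top_a_le_one (S : Sys α) {χ : ℕ → ℝ} (hχ0 : ∀ s, 0 ≤ χ s) (hχ1 : ∀ s, χ s ≤ 1)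
    (x : α) (Q : Finset α) : S.a χ x Q ≤ 1 := by
  have h := S.sum_a_le_one hχ0 hχ1 {x} Q
  rwa [Finset.sum_singleton] at h

/-- the fractional matching of the top block -/
noncomputable def Sys.omT (S : Sys α) (χ : ℕ → ℝ) (T : Finset α) (x y : α) : ℝ :=
  if x ∈ T ∧ y ∈ T ∧ x ≠ y then S.a χ x (T.erase y) * S.a χ y (T.erase x) else 0

theorem Sys.omT_nonneg (S : Sys α) {χ : ℕ → ℝ} (hχ0 : ∀ s, 0 ≤ χ s) (T : Finset α) (x y : α) :
    0 ≤ S.omT χ T x y := by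
  unfold Sys.omT
  split_ifs
  · exact mul_nonneg (S.a_nonneg hχ0 _ _) (S.a_nonneg hχ0 _ _)
  · exact le_rfl

theorem Sys.omT_self (S : Sys α) (χ : ℕ → ℝ) (T : Finset α) (x : α) : S.omT χ T x x = 0 := by
  unfold Sys.omT
  rw [if_neg (fun h => h.2.2 rfl)]

theorem Sys.omT_row (S : Sys α) {χ : ℕ → ℝ} (hχ0 : ∀ s, 0 ≤ χ s) (hχ1 : ∀ s, χ s ≤ 1)
    (T : Finset α) : ∀ x ∈ T, ∑ y ∈ T, S.omT χ T x y ≤ 1 := by
  intro x hx
  rw [← Finset.sum_erase T (S.omT_self χ T x)]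
  refine le_trans (Finset.sum_le_sum fun y hy => ?_) (S.sum_a_le_one hχ0 hχ1 (T.erase x) (T.erase x))
  rw [Finset.mem_erase] at hy
  unfold Sys.omT
  rw [if_pos ⟨hx, hy.2, fun h => hy.1 h.symm⟩]
  exact mul_le_of_le_one_left (S.a_nonneg hχ0 _ _) (S.top_a_le_one hχ0 hχ1 _ _)

theorem Sys.omT_col (S : Sys α) {χ : ℕ → ℝ} (hχ0 : ∀ s, 0 ≤ χ s) (hχ1 : ∀ s, χ s ≤ 1)
    (T : Finset α) : ∀ y ∈ T, ∑ x ∈ T, S.omT χ T x y ≤ 1 := by
  intro y hy
  rw [← Finset.sum_erase T (f := fun x => S.omT χ T x y) (S.omT_self χ T y)]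
  refine le_trans (Finset.sum_le_sum fun x hx => ?_)
    (S.sum_a_le_one hχ0 hχ1 (T.erase y) (T.erase y))
  rw [Finset.mem_erase] at hx
  unfold Sys.omT
  rw [if_pos ⟨hx.2, hy, hx.1⟩]
  exact mul_le_of_le_one_right (S.a_nonneg hχ0 _ _) (S.top_a_le_one hχ0 hχ1 _ _)

theorem Sys.omT_supp (S : Sys α) {χ : ℕ → ℝ} (T : Finset α) (x y : α)
    (h : S.omT χ T x y ≠ 0) : S.Good (T.erase y) := by
  unfold Sys.omT at h
  by_cases hc : x ∈ T ∧ y ∈ T ∧ x ≠ y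
  · rw [if_pos hc] at h
    by_contra hG
    apply left_ne_zero_of_mul h
    unfold Sys.a
    rw [if_neg hG]
  · rw [if_neg hc] at h
    exact absurd rfl h

theorem Sys.Om_eq_omT (S : Sys α) (χ : ℕ → ℝ) (k : ℕ) (T : Finset α) :
    S.Om χ k T = ∑ x ∈ T, ∑ y ∈ T.erase x, S.omT χ T x y * S.Ga k T x y := by
  unfold Sys.Om
  refine Finset.sum_congr rfl fun x hx => Finset.sum_congr rfl fun y hy => ?_
  have hy' := Finset.mem_erase.1 hy
  unfold Sys.omT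
  rw [if_pos ⟨hx, hy'.2, fun h => hy'.1 h.symm⟩]

/-- the inner sum of the window bound -/
theorem Sys.top_inner (S : Sys α) (hR : S.Reg) (k : ℕ) {K : ℕ}
    (hK : 18 * (K : ℝ) ^ 2 ≤ S.m) {t : ℕ} (ht : |(S.m : ℝ) - t| ≤ 3 * K) :
    ∑ s ∈ Icc t (2 * S.m), S.ph s * (540000 * (((k : ℝ) + 2) ^ 2 + ((s : ℝ) - t) ^ 2 / S.m)) ≤
      540000 * ((((k : ℝ) + 2) ^ 2 + 3) * S.T + 8 * ((S.h : ℝ) ^ 2 / S.m * S.cost)) := by
  have hm : (0:ℝ) < S.m := by
    have : (0:ℕ) < S.m := lt_of_lt_of_le (by norm_num) hR.1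
    exact_mod_cast this
  have hpt : ∀ s : ℕ, S.ph s * (540000 * (((k : ℝ) + 2) ^ 2 + ((s : ℝ) - t) ^ 2 / S.m)) ≤
      540000 * ((((k : ℝ) + 2) ^ 2 + 1) * S.ph s + 2 * (((s : ℝ) - S.m) ^ 2 / S.m * S.ph s)) := by
    intro s
    have h1 : ((s : ℝ) - t) ^ 2 ≤ 2 * ((s : ℝ) - S.m) ^ 2 + 18 * (K : ℝ) ^ 2 := by
      have h2 : ((S.m : ℝ) - t) ^ 2 ≤ (3 * (K : ℝ)) ^ 2 := by
        rw [← sq_abs ((S.m : ℝ) - t)]
        exact pow_le_pow_left₀ (abs_nonneg _) ht 2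
      nlinarith [sq_nonneg (((s : ℝ) - S.m) - ((S.m : ℝ) - t))]
    have h3 : ((s : ℝ) - t) ^ 2 / S.m ≤ 2 * (((s : ℝ) - S.m) ^ 2 / S.m) + 1 := by
      rw [div_le_iff₀ hm]
      have : (2 * (((s : ℝ) - S.m) ^ 2 / S.m) + 1) * S.m = 2 * ((s : ℝ) - S.m) ^ 2 + S.m := by
        field_simp
      rw [this]
      linarith
    have h4 := mul_le_mul_of_nonneg_left h3 (S.ph_nonneg s)
    nlinarith [h4]
  have hmom := S.mom2 hR
  calc ∑ s ∈ Icc t (2 * S.m), S.ph s * (540000 * (((k : ℝ) + 2) ^ 2 + ((s : ℝ) - t) ^ 2 / S.m))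
      ≤ ∑ s ∈ range (2 * S.m + 1),
          S.ph s * (540000 * (((k : ℝ) + 2) ^ 2 + ((s : ℝ) - t) ^ 2 / S.m)) := by
        apply Finset.sum_le_sum_of_subset_of_nonneg
        · intro s hs
          rw [Finset.mem_Icc] at hs
          rw [Finset.mem_range]
          omega
        · intro s _ _
          have := S.ph_nonneg s
          positivity
    _ ≤ ∑ s ∈ range (2 * S.m + 1), 540000 * ((((k : ℝ) + 2) ^ 2 + 1) * S.ph s +
          2 * (((s : ℝ) - S.m) ^ 2 / S.m * S.ph s)) := Finset.sum_le_sum fun s _ => hpt s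
    _ = 540000 * ((((k : ℝ) + 2) ^ 2 + 1) * S.T +
          2 * ∑ s ∈ range (2 * S.m + 1), ((s : ℝ) - S.m) ^ 2 / S.m * S.ph s) := by
        rw [← Finset.mul_sum, Finset.sum_add_distrib, ← Finset.mul_sum, ← Finset.mul_sum]
        rfl
    _ ≤ 540000 * ((((k : ℝ) + 2) ^ 2 + 1) * S.T +
          2 * (S.T + 4 * ((S.h : ℝ) ^ 2 / S.m) * S.cost)) := by gcongr
    _ = _ := by ring

/-- the boundary term of the window bound -/
theorem Sys.top_last (S : Sys α) (hR : S.Reg) {K : ℕ} (hK4 : 4 ≤ K)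
    (hK : 18 * (K : ℝ) ^ 2 ≤ S.m) :
    5 * S.m * Ev (S.m - 3 * K + 2 - 1) (fun Q => (1 - Dn S.H Q) * S.b Q) ≤
      5 * S.m * S.nu + 40 * (S.m * S.cost) + 30 * (K * S.T) := by
  have hm : (0:ℝ) < S.m := by
    have : (0:ℕ) < S.m := lt_of_lt_of_le (by norm_num) hR.1
    exact_mod_cast this
  have hK' : 18 * K ^ 2 ≤ S.m := by exact_mod_cast hK
  have hK72 : 72 * K ≤ S.m := by nlinarith
  have h1 := S.Ev_b_bound (t := S.m - 3 * K + 2 - 1) (by omega)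
  have hcast : ((S.m - 3 * K + 2 - 1 : ℕ) : ℝ) = S.m - 3 * K + 1 := by
    have : S.m - 3 * K + 2 - 1 + 3 * K = S.m + 1 := by omega
    generalize S.m - 3 * K + 2 - 1 = n at this
    have h : (n : ℝ) + 3 * K = S.m + 1 := by exact_mod_cast this
    linarith
  have hK72r : 72 * (K : ℝ) ≤ S.m := by exact_mod_cast hK72
  have hpt : ∀ s ∈ Icc (S.m - 3 * K + 2 - 1) (2 * S.m),
      ((s : ℝ) - ((S.m - 3 * K + 2 - 1 : ℕ) : ℝ)) / s * S.ph s ≤
        2 * (|(s : ℝ) - S.m| / S.m * S.ph s) + 6 * (K / S.m) * S.ph s := by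
    intro s hs
    rw [Finset.mem_Icc] at hs
    have hs2 : S.m ≤ 2 * s := by omega
    have hs2r : (S.m : ℝ) ≤ 2 * s := by exact_mod_cast hs2
    have hs0 : (0:ℝ) < s := by linarith
    rw [hcast]
    have h2 : ((s : ℝ) - (S.m - 3 * K + 1)) / s ≤ 2 * (|(s : ℝ) - S.m| / S.m) + 6 * (K / S.m) := by
      have h3 : (s : ℝ) - (S.m - 3 * K + 1) ≤ |(s : ℝ) - S.m| + 3 * K := by
        have := le_abs_self ((s : ℝ) - S.m)
        linarith
      have h4 : 0 ≤ |(s : ℝ) - S.m| + 3 * K := by positivity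
      rw [div_le_iff₀ hs0]
      have h5 : (2 * (|(s : ℝ) - S.m| / S.m) + 6 * (K / S.m)) * s =
          (|(s : ℝ) - S.m| + 3 * K) * (2 * s / S.m) := by
        field_simp
        ring
      rw [h5]
      have h6 : 1 ≤ 2 * (s : ℝ) / S.m := by
        rw [le_div_iff₀ hm]
        linarith
      nlinarith
    have h7 := mul_le_mul_of_nonneg_right h2 (S.ph_nonneg s)
    linarith
  have h2 : ∑ s ∈ Icc (S.m - 3 * K + 2 - 1) (2 * S.m),
      ((s : ℝ) - ((S.m - 3 * K + 2 - 1 : ℕ) : ℝ)) / s * S.ph s ≤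
        2 * (4 * S.cost) + 6 * (K / S.m) * S.T := by
    calc _ ≤ ∑ s ∈ Icc (S.m - 3 * K + 2 - 1) (2 * S.m),
          (2 * (|(s : ℝ) - S.m| / S.m * S.ph s) + 6 * (K / S.m) * S.ph s) :=
          Finset.sum_le_sum hpt
      _ ≤ ∑ s ∈ range (2 * S.m + 1),
          (2 * (|(s : ℝ) - S.m| / S.m * S.ph s) + 6 * (K / S.m) * S.ph s) := by
          apply Finset.sum_le_sum_of_subset_of_nonneg
          · intro s hs
            rw [Finset.mem_Icc] at hs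
            rw [Finset.mem_range]
            omega
          · intro s _ _
            have := S.ph_nonneg s
            positivity
      _ = 2 * (∑ s ∈ range (2 * S.m + 1), |(s : ℝ) - S.m| / S.m * S.ph s) +
          6 * (K / S.m) * S.T := by
          rw [Finset.sum_add_distrib, ← Finset.mul_sum, ← Finset.mul_sum]
          rfl
      _ ≤ _ := by
          have := S.mom1' hR
          linarith
  have h3 : 5 * S.m * Ev (S.m - 3 * K + 2 - 1) (fun Q => (1 - Dn S.H Q) * S.b Q) ≤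
      5 * S.m * (S.nu + (2 * (4 * S.cost) + 6 * (K / S.m) * S.T)) := by
    apply mul_le_mul_of_nonneg_left _ (by positivity)
    linarith
  refine h3.trans (le_of_eq ?_)
  field_simp
  ring

theorem Sys.Om_top (S : Sys α) (hR : S.Reg) {k : ℕ} (hk : k < S.M) {K : ℕ} (hK4 : 4 ≤ K)
    (hK : 18 * (K : ℝ) ^ 2 ≤ S.m) :
    ∑ t ∈ Ico (S.m - 3 * K + 2) (S.m - 3 * K + 2 + K), Ev t (S.Om (chiTop S.m K) k)
      ≤ 10000000 * ((k : ℝ) + 2) ^ 2 * (K * (1 + S.T)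
          + K * ((S.h : ℝ) ^ 2 / S.m) * S.cost + S.m * (S.cost + S.nu)) := by
  have hm : (0:ℝ) < S.m := by
    have : (0:ℕ) < S.m := lt_of_lt_of_le (by norm_num) hR.1
    exact_mod_cast this
  have hχ0 : ∀ s, 0 ≤ chiTop S.m K s := by
    intro s; unfold chiTop; split_ifs <;> norm_num
  have hχ1 : ∀ s, chiTop S.m K s ≤ 1 := by
    intro s; unfold chiTop; split_ifs <;> norm_num
  have hK' : 18 * K ^ 2 ≤ S.m := by exact_mod_cast hK
  have hK72 : 72 * K ≤ S.m := by nlinarith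
  have hw := S.window_bound hR hk (S.omT (chiTop S.m K)) (S.omT_nonneg hχ0)
    (S.omT_row hχ0 hχ1) (S.omT_col hχ0 hχ1) (S.omT_supp)
    (τ := S.m - 3 * K + 2) (w := K) (by omega) (by omega)
  have e1 : ∑ t ∈ Ico (S.m - 3 * K + 2) (S.m - 3 * K + 2 + K), Ev t (S.Om (chiTop S.m K) k) =
      ∑ t ∈ Ico (S.m - 3 * K + 2) (S.m - 3 * K + 2 + K),
        Ev t (fun T => ∑ x ∈ T, ∑ y ∈ T.erase x, S.omT (chiTop S.m K) T x y * S.Ga k T x y) := by
    refine Finset.sum_congr rfl fun t _ => Ev_congr fun P _ => ?_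
    exact S.Om_eq_omT _ k P
  rw [e1]
  refine hw.trans ?_
  have h1 : ∑ t ∈ Ico (S.m - 3 * K + 2) (S.m - 3 * K + 2 + K),
      (4 + 2 * ∑ s ∈ Icc t (2 * S.m), S.ph s *
        (540000 * (((k : ℝ) + 2) ^ 2 + ((s : ℝ) - t) ^ 2 / S.m))) ≤
      K * (4 + 2 * (540000 * ((((k : ℝ) + 2) ^ 2 + 3) * S.T +
        8 * ((S.h : ℝ) ^ 2 / S.m * S.cost)))) := by
    have h2 : ∀ t ∈ Ico (S.m - 3 * K + 2) (S.m - 3 * K + 2 + K),
        (4 + 2 * ∑ s ∈ Icc t (2 * S.m), S.ph s *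
        (540000 * (((k : ℝ) + 2) ^ 2 + ((s : ℝ) - t) ^ 2 / S.m))) ≤
        4 + 2 * (540000 * ((((k : ℝ) + 2) ^ 2 + 3) * S.T +
        8 * ((S.h : ℝ) ^ 2 / S.m * S.cost))) := by
      intro t ht
      rw [Finset.mem_Ico] at ht
      have h3 : |(S.m : ℝ) - t| ≤ 3 * K := by
        rw [abs_le]
        constructor
        · have : t ≤ S.m + 3 * K := by omega
          have : (t : ℝ) ≤ S.m + 3 * K := by exact_mod_cast this
          linarith
        · have : S.m ≤ t + 3 * K := by omega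
          have : (S.m : ℝ) ≤ t + 3 * K := by exact_mod_cast this
          linarith
      have h4 := S.top_inner hR k hK h3
      linarith
    refine (Finset.sum_le_sum h2).trans (le_of_eq ?_)
    rw [Finset.sum_const, Nat.card_Ico, nsmul_eq_mul]
    congr 2
    omega
  have h5 := S.top_last hR hK4 hK
  refine (add_le_add h1 h5).trans ?_
  have hk2 : (4:ℝ) ≤ ((k : ℝ) + 2) ^ 2 := by
    have : (0:ℝ) ≤ k := Nat.cast_nonneg k
    nlinarith
  set κ := ((k : ℝ) + 2) ^ 2 with hκ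
  have hT := S.T_nonneg
  have hc := S.cost_nonneg
  have hν := S.nu_nonneg
  have hK0 : (0:ℝ) ≤ K := Nat.cast_nonneg K
  set hc' := (S.h : ℝ) ^ 2 / S.m * S.cost with hhc
  have hhc0 : 0 ≤ hc' := by rw [hhc]; positivity
  have a1 : 0 ≤ (K : ℝ) * S.T := by positivity
  have a2 : 0 ≤ (K : ℝ) * hc' := by positivity
  have a3 : 0 ≤ (S.m : ℝ) * S.cost := by positivity
  have a4 : 0 ≤ (S.m : ℝ) * S.nu := by positivity
  have b1 : 4 * ((K : ℝ) * S.T) ≤ κ * (K * S.T) := mul_le_mul_of_nonneg_right hk2 a1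
  have b2 : 4 * ((K : ℝ) * hc') ≤ κ * (K * hc') := mul_le_mul_of_nonneg_right hk2 a2
  have b3 : 4 * ((S.m : ℝ) * S.cost) ≤ κ * (S.m * S.cost) := mul_le_mul_of_nonneg_right hk2 a3
  have b4 : 4 * ((S.m : ℝ) * S.nu) ≤ κ * (S.m * S.nu) := mul_le_mul_of_nonneg_right hk2 a4
  have b5 : 4 * (K : ℝ) ≤ κ * K := mul_le_mul_of_nonneg_right hk2 hK0
  have e2 : (K : ℝ) * (4 + 2 * (540000 * ((κ + 3) * S.T + 8 * hc'))) =
      4 * K + 1080000 * (κ * (K * S.T)) + 3240000 * (K * S.T) + 8640000 * (K * hc') := by ring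
  have e3 : 10000000 * κ * ((K : ℝ) * (1 + S.T) + K * ((S.h : ℝ) ^ 2 / S.m) * S.cost +
      S.m * (S.cost + S.nu)) = 10000000 * (κ * K) + 10000000 * (κ * (K * S.T)) +
        10000000 * (κ * (K * hc')) + 10000000 * (κ * (S.m * S.cost)) +
        10000000 * (κ * (S.m * S.nu)) := by
    rw [hhc]; ring
  rw [e2, e3]
  linarith

end UF
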