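import Pool.Agent.UF.Base
import Pool.Agent.UF.Jo10
import Pool.Agent.UF.Jo4
import Pool.Agent.UF.Js1
import Pool.Agent.UF.Js10
import Pool.Agent.UF.Js11
import Pool.Agent.UF.Js3
import Pool.Agent.UF.Js9

set_option autoImplicit false
set_option linter.unusedSectionVars false
set_option linter.unusedVariables false
open Finset

namespace UF
variable {α : Type*} [Fintype α] [DecidableEq α]

theorem Sys.Gc_split (S : Sys α) (hR : S.Reg) {χ : ℕ → ℝ} (hχ0 : ∀ s, 0 ≤ χ s)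
    (hχ1 : ∀ s, χ s ≤ 1) {c : ℝ} (hc : 0 ≤ c) {t₁ : ℕ} (ht₁ : t₁ ≤ S.m) :
    S.Gc χ ≤ 20000 * Cw * ∑ s ∈ range (2 * S.m + 1),
          χ s * S.ph s * (1 / S.m + ((s : ℝ) - S.m) ^ 2 / (S.m : ℝ) ^ 2)
      + ∑ s ∈ range (2 * S.m + 1), max ((s : ℝ) - S.m) 0 / S.m * (χ s * S.ph s)
      + ((S.m : ℝ) - t₁) * (2 / S.m) * ∑ s ∈ range (2 * S.m + 1), χ s * S.ph s
      + S.Far χ c t₁ + c / 16 * S.cost := by
  have hm : 1 ≤ S.m := le_trans (by norm_num) hR.1
  have hmpos : (0:ℝ) < S.m := by exact_mod_cast hm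
  have hid := block_identity (f := S.f) S.z χ (fun C h => S.z_mem h)
  rw [S.hcard] at hid
  have hG : S.Gc χ = ∑ q ∈ range (2 * S.m), Ev q (fun P => S.H P * Rh S.f S.z χ P)
      + ∑ p ∈ range (2 * S.m), Ev p (fun Q => S.f Q * ∑ x ∈ Q, Up (rho S.f S.z χ x) Q) := hid
  have hNC := S.NC_bound hR hχ0 hχ1
  have hup := S.upper_half hχ0
  have hsplit : ∑ q ∈ range (2 * S.m), Ev q (fun P => S.H P * Rh S.f S.z χ P) =
      ∑ q ∈ range t₁, Ev q (fun P => S.H P * Rh S.f S.z χ P)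
      + ∑ q ∈ Ico t₁ S.m, Ev q (fun P => S.H P * Rh S.f S.z χ P)
      + ∑ q ∈ Ico S.m (2 * S.m), Ev q (fun P => S.H P * Rh S.f S.z χ P) := by
    rw [Finset.range_eq_Ico, Finset.range_eq_Ico, Finset.sum_Ico_consecutive _ (Nat.zero_le _) ht₁,
      Finset.sum_Ico_consecutive _ (Nat.zero_le _) (by omega)]
  have hRh : ∀ P, 0 ≤ Rh S.f S.z χ P := fun P => Rh_nonneg S.f_nonneg S.f_le_one S.z hχ0 P
  have hmid : ∑ q ∈ Ico t₁ S.m, Ev q (fun P => S.H P * Rh S.f S.z χ P) ≤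
      ((S.m : ℝ) - t₁) * (2 / S.m) * ∑ s ∈ range (2 * S.m + 1), χ s * S.ph s := by
    have h1 : ∀ q ∈ Ico t₁ S.m, Ev q (fun P => S.H P * Rh S.f S.z χ P) ≤
        2 / S.m * ∑ s ∈ range (2 * S.m + 1), χ s * S.ph s := by
      intro q hq
      have hq2 := (Finset.mem_Ico.1 hq).2
      refine le_trans (Ev_mono fun P _ => ?_) (S.Ev_Rh_bound hR hχ0 (t := q) (by omega))
      exact mul_le_of_le_one_left (hRh P) (S.H_le_one P)
    refine (Finset.sum_le_sum h1).trans (le_of_eq ?_)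
    rw [Finset.sum_const, Nat.card_Ico, nsmul_eq_mul, Nat.cast_sub ht₁, mul_assoc]
  have hlow : ∑ q ∈ range t₁, Ev q (fun P => S.H P * Rh S.f S.z χ P) ≤
      S.Far χ c t₁ + c / 16 * S.cost := by
    have h1 : ∀ q ∈ range t₁, Ev q (fun P => S.H P * Rh S.f S.z χ P) ≤
        Ev q (fun P => S.H P * max (Rh S.f S.z χ P - c * S.y (S.m - q)) 0)
          + c * (S.y (S.m - q) * Ev q S.H) := by
      intro q _
      rw [← Ev_const_mul q (S.y (S.m - q)) S.H, ← Ev_const_mul q c, ← Ev_add]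
      refine Ev_mono fun P _ => ?_
      have h2 := le_max_left (Rh S.f S.z χ P - c * S.y (S.m - q)) 0
      have h3 := mul_le_mul_of_nonneg_left h2 (S.H_nonneg P)
      linarith
    refine (Finset.sum_le_sum h1).trans ?_
    rw [Finset.sum_add_distrib, ← Finset.mul_sum]
    have h4 : ∑ q ∈ range t₁, S.y (S.m - q) * Ev q S.H ≤ ∑ q ∈ range S.m, S.y (S.m - q) * Ev q S.H := by
      refine Finset.sum_le_sum_of_subset_of_nonneg (Finset.range_subset_range.2 ht₁) fun q _ _ => ?_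
      exact mul_nonneg (S.y_nonneg _) (Ev_nonneg fun P _ => S.H_nonneg P)
    have h5 := mul_le_mul_of_nonneg_left (h4.trans (S.charge_bound hm)) hc
    have h6 : S.Far χ c t₁ = ∑ q ∈ range t₁, Ev q (fun P => S.H P * max (Rh S.f S.z χ P - c * S.y (S.m - q)) 0) := rfl
    rw [h6]
    linarith
  rw [hG, hsplit]
  linarith

end UF
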