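import Pool.Agent.UF.Base
import Pool.Agent.UF.Jo10
import Pool.Agent.UF.Js1
import Pool.Agent.UF.Js11
import Pool.Agent.UF.Js14
import Pool.Agent.UF.Js15
import Pool.Agent.UF.Js16
import Pool.Agent.UF.Js2
import Pool.Agent.UF.Js3
import Pool.Agent.UF.Jt11
import Pool.Agent.UF.Jt13
import Pool.Agent.UF.Jw3

set_option autoImplicit false
set_option linter.unusedSectionVars false
set_option linter.unusedVariables false
open Finset

namespace UF
variable {α : Type*} [Fintype α] [DecidableEq α]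

theorem chiTop_nonneg (m K s : ℕ) : 0 ≤ chiTop m K s := by
  unfold chiTop; split_ifs <;> norm_num

theorem chiTop_le_one (m K s : ℕ) : chiTop m K s ≤ 1 := by
  unfold chiTop; split_ifs <;> norm_num

theorem Sys.top_num (S : Sys α) (hR : S.Reg) {K : ℕ} (hK4 : 4 ≤ K)
    (hK : 18 * (K : ℝ) ^ 2 ≤ S.m) :
    (100000000 : ℝ) ≤ S.m ∧ 3 * (K : ℝ) ≤ S.m / 10000 ∧ 3 * K + 2 ≤ S.m ∧
      (10000 : ℝ) ≤ Real.sqrt S.m ∧ Real.sqrt S.m * Real.sqrt S.m = S.m ∧
      4 * (K : ℝ) ≤ Real.sqrt S.m := by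
  have h1 : (100000000 : ℝ) ≤ S.m := by exact_mod_cast hR.1
  have h2 : 3 * (K : ℝ) ≤ S.m / 10000 := by
    by_contra h
    push Not at h
    have : (S.m / 10000 : ℝ) ^ 2 < (3 * (K : ℝ)) ^ 2 := by
      apply pow_lt_pow_left₀ h (by positivity) (by norm_num)
    nlinarith
  have h3 : 3 * K + 2 ≤ S.m := by
    have : (3 * (K : ℝ) + 2) ≤ S.m := by linarith
    exact_mod_cast this
  have h4 : (10000 : ℝ) ≤ Real.sqrt S.m := by
    apply Real.le_sqrt_of_sq_le
    linarith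
  have h5 : Real.sqrt S.m * Real.sqrt S.m = S.m := Real.mul_self_sqrt (by linarith)
  have h6 : 4 * (K : ℝ) ≤ Real.sqrt S.m := by
    apply Real.le_sqrt_of_sq_le
    nlinarith
  exact ⟨h1, h2, h3, h4, h5, h6⟩

theorem Sys.sum_chi_le (S : Sys α) (K : ℕ) :
    ∑ s ∈ range (2 * S.m + 1), chiTop S.m K s * S.ph s ≤ S.T := by
  unfold Sys.T
  refine Finset.sum_le_sum fun s _ => ?_
  have h1 := chiTop_le_one S.m K s
  have h2 := S.ph_nonneg s
  nlinarith

theorem Sys.top_Rh (S : Sys α) (hR : S.Reg) (K : ℕ) {t : ℕ} (ht : t < 2 * S.m) :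
    Ev t (Rh S.f S.z (chiTop S.m K)) ≤ 2 / S.m * S.T := by
  refine (S.Ev_Rh_bound hR (chiTop_nonneg _ _) ht).trans ?_
  exact mul_le_mul_of_nonneg_left (S.sum_chi_le K) (by positivity)

theorem Sys.top_b (S : Sys α) (hR : S.Reg) {K : ℕ} (hK4 : 4 ≤ K)
    (hK : 18 * (K : ℝ) ^ 2 ≤ S.m) {t : ℕ} (ht1 : S.m - 3 * K ≤ t) (ht2 : t < S.m - 3 * K + K) :
    Ev (t + 1) (fun Q => (1 - Dn S.H Q) * S.b Q)
      ≤ S.nu + 1.001 * (4 * S.cost + 3 * K / S.m * S.T) := by
  obtain ⟨h1, h2, h3, h4, h5, h6⟩ := S.top_num hR hK4 hK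
  have hb := S.Ev_b_bound (t := t + 1) (by omega)
  refine hb.trans ?_
  have hm0 : (0 : ℝ) < S.m := by linarith
  have ht1' : (S.m : ℝ) ≤ t + 3 * K := by
    have : S.m ≤ t + 3 * K := by omega
    exact_mod_cast this
  have key : ∀ s ∈ Icc (t + 1) (2 * S.m), ((s : ℝ) - ((t + 1 : ℕ) : ℝ)) / s * S.ph s
      ≤ 1.001 * (|(s : ℝ) - S.m| / S.m * S.ph s) + 1.001 * (3 * K / S.m) * S.ph s := by
    intro s hs
    rw [Finset.mem_Icc] at hs
    have hs1 : (t : ℝ) + 1 ≤ s := by exact_mod_cast hs.1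
    have hs0 : (0 : ℝ) < s := by
      have : (0:ℝ) ≤ t := Nat.cast_nonneg t
      linarith
    have hph := S.ph_nonneg s
    have hle : (s : ℝ) - S.m ≤ |(s : ℝ) - S.m| := le_abs_self _
    have habs : 0 ≤ |(s : ℝ) - S.m| := abs_nonneg _
    have hK0 : (0:ℝ) ≤ K := Nat.cast_nonneg K
    have e1 : ((s : ℝ) - ((t + 1 : ℕ) : ℝ)) / s ≤ 1.001 * ((|(s : ℝ) - S.m| + 3 * K) / S.m) := by
      rw [div_le_iff₀ hs0]
      push_cast
      have e2 : (s : ℝ) - (t + 1) ≤ |(s : ℝ) - S.m| + 3 * K := by linarith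
      have e3 : (1 : ℝ) ≤ 1.001 * (s / S.m) := by
        rw [← mul_div_assoc, le_div_iff₀ hm0]
        have : (S.m : ℝ) * 0.9999 ≤ s := by linarith
        linarith
      calc (s : ℝ) - (t + 1) ≤ |(s : ℝ) - S.m| + 3 * K := e2
        _ = (|(s : ℝ) - S.m| + 3 * K) * 1 := by ring
        _ ≤ (|(s : ℝ) - S.m| + 3 * K) * (1.001 * (s / S.m)) :=
            mul_le_mul_of_nonneg_left e3 (by linarith)
        _ = 1.001 * ((|(s : ℝ) - S.m| + 3 * K) / S.m) * s := by ring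
    calc ((s : ℝ) - ((t + 1 : ℕ) : ℝ)) / s * S.ph s
        ≤ 1.001 * ((|(s : ℝ) - S.m| + 3 * K) / S.m) * S.ph s :=
          mul_le_mul_of_nonneg_right e1 hph
      _ = _ := by ring
  have hsum := Finset.sum_le_sum key
  have hsub : Icc (t + 1) (2 * S.m) ⊆ range (2 * S.m + 1) := by
    intro s hs
    rw [Finset.mem_Icc] at hs
    rw [Finset.mem_range]; omega
  have hK0 : (0:ℝ) ≤ K := Nat.cast_nonneg K
  have hsum2 : ∑ s ∈ Icc (t + 1) (2 * S.m), (1.001 * (|(s : ℝ) - S.m| / S.m * S.ph s)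
        + 1.001 * (3 * K / S.m) * S.ph s)
      ≤ ∑ s ∈ range (2 * S.m + 1), (1.001 * (|(s : ℝ) - S.m| / S.m * S.ph s)
        + 1.001 * (3 * K / S.m) * S.ph s) := by
    apply Finset.sum_le_sum_of_subset_of_nonneg hsub
    intro s _ _
    have := S.ph_nonneg s
    positivity
  have hsum3 : ∑ s ∈ range (2 * S.m + 1), (1.001 * (|(s : ℝ) - S.m| / S.m * S.ph s)
        + 1.001 * (3 * K / S.m) * S.ph s)
      = 1.001 * ∑ s ∈ range (2 * S.m + 1), |(s : ℝ) - S.m| / S.m * S.ph s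
        + 1.001 * (3 * K / S.m) * S.T := by
    unfold Sys.T
    rw [Finset.sum_add_distrib, Finset.mul_sum, Finset.mul_sum]
  have hmom := S.mom1' hR
  have : 1.001 * ∑ s ∈ range (2 * S.m + 1), |(s : ℝ) - S.m| / S.m * S.ph s
      ≤ 1.001 * (4 * S.cost) := mul_le_mul_of_nonneg_left hmom (by norm_num)
  linarith

theorem Sys.top_eh (S : Sys α) (hR : S.Reg) {K : ℕ} (hK4 : 4 ≤ K)
    (hK : 18 * (K : ℝ) ^ 2 ≤ S.m) {t : ℕ} (ht1 : S.m - 3 * K ≤ t) (ht2 : t < S.m - 3 * K + K) :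
    Ev t (S.eh (chiTop S.m K)) ≤ 2 / S.m *
      (20000 / S.m * (S.T + 4 * ((S.h : ℝ) ^ 2 / S.m) * S.cost)
        + (10000 / S.m + 100 * Cw * (1 / Real.sqrt S.m)) * S.T + 100 * Cw * (4 * S.cost)
        + 28 * (S.nu + 1.001 * (4 * S.cost + 3 * K / S.m * S.T))) := by
  obtain ⟨h1, h2, h3, h4, h5, h6⟩ := S.top_num hR hK4 hK
  have hm0 : (0 : ℝ) < S.m := by linarith
  have ht1' : (S.m : ℝ) ≤ t + 3 * K := by
    have : S.m ≤ t + 3 * K := by omega
    exact_mod_cast this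
  have ht2' : (t : ℝ) ≤ S.m := by
    have : t ≤ S.m := by omega
    exact_mod_cast this
  have h9 : 9 * S.m ≤ 10 * t := by
    have : (9 * (S.m : ℝ)) ≤ 10 * t := by linarith
    exact_mod_cast this
  have hchi : ∀ s, s ≤ t + 1 → chiTop S.m K s = 0 := by
    intro s hs
    unfold chiTop
    rw [if_neg]
    omega
  have he := S.Ev_eh_le hR (chiTop_nonneg S.m K) (chiTop_le_one S.m K) h9 (by omega) hchi
  refine he.trans ?_
  apply mul_le_mul_of_nonneg_left _ (by positivity)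
  have hb := S.top_b hR hK4 hK ht1 ht2
  have hCw := one_le_Cw
  have hK0 : (0:ℝ) ≤ K := Nat.cast_nonneg K
  have hsq0 : (0:ℝ) < Real.sqrt S.m := by linarith
  have key : ∀ s ∈ range (2 * S.m + 1), chiTop S.m K s * S.ph s *
          (10000 * ((s : ℝ) - t) ^ 2 / (S.m : ℝ) ^ 2
            + 100 * Cw * (1 / Real.sqrt S.m + max ((s : ℝ) - S.m) 0 / S.m))
      ≤ 20000 / S.m * (((s : ℝ) - S.m) ^ 2 / S.m * S.ph s)
        + (10000 / S.m + 100 * Cw * (1 / Real.sqrt S.m)) * S.ph s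
        + 100 * Cw * (|(s : ℝ) - S.m| / S.m * S.ph s) := by
    intro s _
    have hph := S.ph_nonneg s
    have hmax0 : 0 ≤ max ((s : ℝ) - S.m) 0 := le_max_right _ _
    have hmax : max ((s : ℝ) - S.m) 0 ≤ |(s : ℝ) - S.m| := max_le (le_abs_self _) (abs_nonneg _)
    have hsq : ((s : ℝ) - t) ^ 2 ≤ 2 * ((s : ℝ) - S.m) ^ 2 + S.m := by
      have e1 : ((s : ℝ) - t) ^ 2 ≤ 2 * ((s : ℝ) - S.m) ^ 2 + 2 * ((S.m : ℝ) - t) ^ 2 := by
        nlinarith [sq_nonneg (((s : ℝ) - S.m) - ((S.m : ℝ) - t))]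
      have e2 : ((S.m : ℝ) - t) ^ 2 ≤ (3 * K) ^ 2 := by
        apply pow_le_pow_left₀ (by linarith); linarith
      nlinarith
    have hbr : 10000 * ((s : ℝ) - t) ^ 2 / (S.m : ℝ) ^ 2
            + 100 * Cw * (1 / Real.sqrt S.m + max ((s : ℝ) - S.m) 0 / S.m)
        ≤ 20000 / S.m * (((s : ℝ) - S.m) ^ 2 / S.m) + 10000 / S.m
          + 100 * Cw * (1 / Real.sqrt S.m) + 100 * Cw * (|(s : ℝ) - S.m| / S.m) := by
      have e1 : 10000 * ((s : ℝ) - t) ^ 2 / (S.m : ℝ) ^ 2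
          ≤ 10000 * (2 * ((s : ℝ) - S.m) ^ 2 + S.m) / (S.m : ℝ) ^ 2 := by
        apply div_le_div_of_nonneg_right _ (by positivity)
        linarith
      have e2 : 10000 * (2 * ((s : ℝ) - S.m) ^ 2 + S.m) / (S.m : ℝ) ^ 2
          = 20000 / S.m * (((s : ℝ) - S.m) ^ 2 / S.m) + 10000 / S.m := by
        field_simp; ring
      have e3 : max ((s : ℝ) - S.m) 0 / S.m ≤ |(s : ℝ) - S.m| / S.m :=
        div_le_div_of_nonneg_right hmax hm0.le
      have e4 : 100 * Cw * (max ((s : ℝ) - S.m) 0 / S.m) ≤ 100 * Cw * (|(s : ℝ) - S.m| / S.m) :=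
        mul_le_mul_of_nonneg_left e3 (by linarith)
      have e5 : 100 * Cw * (1 / Real.sqrt S.m + max ((s : ℝ) - S.m) 0 / S.m)
          = 100 * Cw * (1 / Real.sqrt S.m) + 100 * Cw * (max ((s : ℝ) - S.m) 0 / S.m) := by ring
      rw [e5]
      linarith
    have hbr0 : 0 ≤ 10000 * ((s : ℝ) - t) ^ 2 / (S.m : ℝ) ^ 2
            + 100 * Cw * (1 / Real.sqrt S.m + max ((s : ℝ) - S.m) 0 / S.m) := by
      have : 0 ≤ Cw := by linarith
      positivity
    have hchi1 := chiTop_le_one S.m K s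
    have hchi0 := chiTop_nonneg S.m K s
    calc chiTop S.m K s * S.ph s * (10000 * ((s : ℝ) - t) ^ 2 / (S.m : ℝ) ^ 2
            + 100 * Cw * (1 / Real.sqrt S.m + max ((s : ℝ) - S.m) 0 / S.m))
        ≤ 1 * S.ph s * (10000 * ((s : ℝ) - t) ^ 2 / (S.m : ℝ) ^ 2
            + 100 * Cw * (1 / Real.sqrt S.m + max ((s : ℝ) - S.m) 0 / S.m)) := by
          apply mul_le_mul_of_nonneg_right _ hbr0
          exact mul_le_mul_of_nonneg_right hchi1 hph
      _ ≤ 1 * S.ph s * (20000 / S.m * (((s : ℝ) - S.m) ^ 2 / S.m) + 10000 / S.m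
          + 100 * Cw * (1 / Real.sqrt S.m) + 100 * Cw * (|(s : ℝ) - S.m| / S.m)) :=
          mul_le_mul_of_nonneg_left hbr (by linarith)
      _ = _ := by ring
  have hsum := Finset.sum_le_sum key
  have hsum3 : ∑ s ∈ range (2 * S.m + 1), (20000 / S.m * (((s : ℝ) - S.m) ^ 2 / S.m * S.ph s)
        + (10000 / S.m + 100 * Cw * (1 / Real.sqrt S.m)) * S.ph s
        + 100 * Cw * (|(s : ℝ) - S.m| / S.m * S.ph s))
      = 20000 / S.m * ∑ s ∈ range (2 * S.m + 1), ((s : ℝ) - S.m) ^ 2 / S.m * S.ph s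
        + (10000 / S.m + 100 * Cw * (1 / Real.sqrt S.m)) * S.T
        + 100 * Cw * ∑ s ∈ range (2 * S.m + 1), |(s : ℝ) - S.m| / S.m * S.ph s := by
    unfold Sys.T
    rw [Finset.sum_add_distrib, Finset.sum_add_distrib, Finset.mul_sum, Finset.mul_sum,
      Finset.mul_sum]
  rw [hsum3] at hsum
  have hmom1 := S.mom1' hR
  have hmom2 := S.mom2 hR
  have e1 : 20000 / S.m * ∑ s ∈ range (2 * S.m + 1), ((s : ℝ) - S.m) ^ 2 / S.m * S.ph s
      ≤ 20000 / S.m * (S.T + 4 * ((S.h : ℝ) ^ 2 / S.m) * S.cost) :=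
    mul_le_mul_of_nonneg_left hmom2 (by positivity)
  have e2 : 100 * Cw * ∑ s ∈ range (2 * S.m + 1), |(s : ℝ) - S.m| / S.m * S.ph s
      ≤ 100 * Cw * (4 * S.cost) := mul_le_mul_of_nonneg_left hmom1 (by linarith)
  linarith

/-- contribution of `eh` with its prefactor -/
theorem Sys.top_B (S : Sys α) (hR : S.Reg) {K : ℕ} (hK4 : 4 ≤ K)
    (hK : 18 * (K : ℝ) ^ 2 ≤ S.m) {t : ℕ} (ht1 : S.m - 3 * K ≤ t) (ht2 : t < S.m - 3 * K + K) :
    (S.r : ℝ) * Ev t (S.eh (chiTop S.m K)) ≤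
      Cw * (260 * (S.T / S.m) + 1100 * ((S.cost + S.nu) / Real.sqrt S.m)
        + 20 * (((S.h : ℝ) / S.m) ^ 2 * S.cost)) := by
  obtain ⟨h1, h2, h3, h4, h5, h6⟩ := S.top_num hR hK4 hK
  obtain ⟨r1, r2, r3⟩ := S.r_bounds hR
  have hm0 : (0 : ℝ) < S.m := by linarith
  have hsq0 : (0:ℝ) < Real.sqrt S.m := by linarith
  have he := S.top_eh hR hK4 hK ht1 ht2
  have hCw := one_le_Cw
  have hT := S.T_nonneg
  have hc := S.cost_nonneg
  have hnu := S.nu_nonneg
  have hK0 : (0:ℝ) ≤ K := Nat.cast_nonneg K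
  have hr0 : (0:ℝ) ≤ S.r := Nat.cast_nonneg _
  -- abbreviations
  set q := Real.sqrt S.m with hq
  set τ := S.T / S.m with hτ
  set γ := (S.cost + S.nu) / q with hγ
  set κ := ((S.h : ℝ) / S.m) ^ 2 * S.cost with hκ
  have hτ0 : 0 ≤ τ := by positivity
  have hγ0 : 0 ≤ γ := by positivity
  have hκ0 : 0 ≤ κ := by positivity
  have hm : (S.m : ℝ) = q * q := h5.symm
  have heh0 : 0 ≤ 2 / (S.m : ℝ) *
      (20000 / S.m * (S.T + 4 * ((S.h : ℝ) ^ 2 / S.m) * S.cost)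
        + (10000 / S.m + 100 * Cw * (1 / q)) * S.T + 100 * Cw * (4 * S.cost)
        + 28 * (S.nu + 1.001 * (4 * S.cost + 3 * K / S.m * S.T))) := by
    have : 0 ≤ Cw := by linarith
    positivity
  calc (S.r : ℝ) * Ev t (S.eh (chiTop S.m K))
      ≤ S.r * (2 / S.m *
      (20000 / S.m * (S.T + 4 * ((S.h : ℝ) ^ 2 / S.m) * S.cost)
        + (10000 / S.m + 100 * Cw * (1 / q)) * S.T + 100 * Cw * (4 * S.cost)
        + 28 * (S.nu + 1.001 * (4 * S.cost + 3 * K / S.m * S.T)))) :=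
        mul_le_mul_of_nonneg_left he hr0
    _ ≤ (1.001 * q) * (2 / S.m *
      (20000 / S.m * (S.T + 4 * ((S.h : ℝ) ^ 2 / S.m) * S.cost)
        + (10000 / S.m + 100 * Cw * (1 / q)) * S.T + 100 * Cw * (4 * S.cost)
        + 28 * (S.nu + 1.001 * (4 * S.cost + 3 * K / S.m * S.T)))) :=
        mul_le_mul_of_nonneg_right r2 heh0
    _ = 2.002 * (1 / q) * (30000 * τ + 80000 * κ) + 200.2 * Cw * τ
        + 800.8 * Cw * (S.cost / q) + 56.056 * (S.nu / q) + 224.448224 * (S.cost / q)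
        + 168.336168 * (K / q) * τ := by
        rw [hτ, hκ]
        have e1 : q / (S.m : ℝ) = 1 / q := by rw [hm]; field_simp
        have e2 : (1.001 * q) * (2 / S.m *
      (20000 / S.m * (S.T + 4 * ((S.h : ℝ) ^ 2 / S.m) * S.cost)
        + (10000 / S.m + 100 * Cw * (1 / q)) * S.T + 100 * Cw * (4 * S.cost)
        + 28 * (S.nu + 1.001 * (4 * S.cost + 3 * K / S.m * S.T))))
          = 2.002 * (q / S.m) * (20000 / S.m * (S.T + 4 * ((S.h : ℝ) ^ 2 / S.m) * S.cost)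
        + (10000 / S.m + 100 * Cw * (1 / q)) * S.T + 100 * Cw * (4 * S.cost)
        + 28 * (S.nu + 1.001 * (4 * S.cost + 3 * K / S.m * S.T))) := by ring
        rw [e2, e1]
        have e3 : (1 / q) * (1 / q) = 1 / (S.m : ℝ) := by rw [hm]; field_simp
        have e4 : 2.002 * (1 / q) * (20000 / S.m * (S.T + 4 * ((S.h : ℝ) ^ 2 / S.m) * S.cost)
        + (10000 / S.m + 100 * Cw * (1 / q)) * S.T + 100 * Cw * (4 * S.cost)
        + 28 * (S.nu + 1.001 * (4 * S.cost + 3 * K / S.m * S.T)))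
          = 2.002 * (1 / q) * (30000 * (S.T / S.m) + 80000 * (((S.h : ℝ) / S.m) ^ 2 * S.cost))
            + 200.2 * Cw * (((1 / q) * (1 / q)) * S.T) + 800.8 * Cw * (S.cost / q)
            + 56.056 * (S.nu / q) + 224.448224 * (S.cost / q)
            + 168.336168 * (K / q) * (S.T / S.m) := by
          ring
        rw [e4, e3]
        ring
    _ ≤ Cw * (260 * τ + 1100 * γ + 20 * κ) := by
        have hq1 : 1 / q ≤ 1 / 10000 := one_div_le_one_div_of_le (by norm_num) h4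
        have hq0 : 0 ≤ 1 / q := by positivity
        have hKq : (K : ℝ) / q ≤ 1 / 4 := by
          rw [div_le_iff₀ hsq0]; linarith
        have hKq0 : 0 ≤ (K : ℝ) / q := by positivity
        have hcq : 0 ≤ S.cost / q := by positivity
        have hnq : 0 ≤ S.nu / q := by positivity
        have hγ' : γ = S.cost / q + S.nu / q := by rw [hγ]; ring
        have f1 : 2.002 * (1 / q) * (30000 * τ + 80000 * κ)
            ≤ 2.002 * (1 / 10000) * (30000 * τ + 80000 * κ) := by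
          apply mul_le_mul_of_nonneg_right _ (by positivity)
          linarith
        have f2 : 168.336168 * (K / q) * τ ≤ 168.336168 * (1 / 4) * τ := by
          apply mul_le_mul_of_nonneg_right _ hτ0
          linarith
        have f3 : τ ≤ Cw * τ := le_mul_of_one_le_left hτ0 hCw
        have f4 : κ ≤ Cw * κ := le_mul_of_one_le_left hκ0 hCw
        have f5 : S.cost / q ≤ Cw * (S.cost / q) := le_mul_of_one_le_left hcq hCw
        have f6 : S.nu / q ≤ Cw * (S.nu / q) := le_mul_of_one_le_left hnq hCw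
        rw [hγ']
        nlinarith

set_option maxHeartbeats 4000000 in
theorem Sys.Far_top (S : Sys α) (hR : S.Reg) {K : ℕ} (hK4 : 4 ≤ K)
    (hK : 18 * (K : ℝ) ^ 2 ≤ S.m) :
    S.Far (chiTop S.m K) (1 / 2) (S.m - 3 * K)
      ≤ 100000000000 * Cw ^ 2 * ((1 + S.T) / S.m
        + (((S.h : ℝ) / S.m) ^ 2 + 1 / K + 1 / Real.sqrt S.m) * (S.cost + S.nu)) := by
  obtain ⟨h1, h2, h3, h4, h5, h6⟩ := S.top_num hR hK4 hK
  obtain ⟨r1, r2, r3⟩ := S.r_bounds hR
  have hm0 : (0 : ℝ) < S.m := by linarith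
  have hsq0 : (0:ℝ) < Real.sqrt S.m := by linarith
  have hCw := one_le_Cw
  have hCw0 : 0 ≤ Cw := by linarith
  have hT := S.T_nonneg
  have hc := S.cost_nonneg
  have hnu := S.nu_nonneg
  have hK0 : (4:ℝ) ≤ K := by exact_mod_cast hK4
  have hKpos : (0:ℝ) < K := by linarith
  have hr0 : (0:ℝ) ≤ S.r := Nat.cast_nonneg _
  have hfar := S.far_bound hR (chiTop_nonneg S.m K) (chiTop_le_one S.m K)
    (c := 1 / 2) (by norm_num) (t₁ := S.m - 3 * K) (w := K) (by omega)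
    (by
      intro s hs
      unfold chiTop
      rw [if_neg]
      omega)
  set q := Real.sqrt S.m with hq
  set τ := S.T / S.m with hτ
  set γ := (S.cost + S.nu) / q with hγ
  set κ := ((S.h : ℝ) / S.m) ^ 2 * S.cost with hκ
  set χ := chiTop S.m K with hχ
  have hτ0 : 0 ≤ τ := by positivity
  have hγ0 : 0 ≤ γ := by positivity
  have hκ0 : 0 ≤ κ := by positivity
  -- bound per shell
  set W := (K : ℝ) * (4 * Cw * 1000 * τ + Cw * (1100 * γ + 20 * κ))
    + 16100000000 * (K * ((1 + S.T) / S.m) + K * κ + (S.cost + S.nu)) with hW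
  have hW0 : 0 ≤ W := by positivity
  have hshell : ∀ k ∈ range S.M, omk k * ∑ t ∈ Ico (S.m - 3 * K) (S.m - 3 * K + K),
        (((k : ℝ) + 1) * S.r * (S.dl k * Ev t (Rh S.f S.z χ) + Ev t (S.eh χ))
          + 800 * ((k : ℝ) + 1) ^ 4 * S.m / (1 / 2)
            * (1 / (2 * (S.m : ℝ) - t) * Ev t (Rh S.f S.z χ)
              + 1 / (((t : ℝ) + 1) * ((t : ℝ) + 2)) * Ev (t + 2) (S.Om χ k)))
      ≤ omk k * (((k : ℝ) + 2) ^ 10 * W) := by
    intro k hk
    rw [Finset.mem_range] at hk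
    have hk0 : (0:ℝ) ≤ k := Nat.cast_nonneg k
    have homk : 0 ≤ omk k := (Real.exp_pos _).le
    apply mul_le_mul_of_nonneg_left _ homk
    have hterm : ∀ t ∈ Ico (S.m - 3 * K) (S.m - 3 * K + K),
        (((k : ℝ) + 1) * S.r * (S.dl k * Ev t (Rh S.f S.z χ) + Ev t (S.eh χ))
          + 800 * ((k : ℝ) + 1) ^ 4 * S.m / (1 / 2)
            * (1 / (2 * (S.m : ℝ) - t) * Ev t (Rh S.f S.z χ)
              + 1 / (((t : ℝ) + 1) * ((t : ℝ) + 2)) * Ev (t + 2) (S.Om χ k)))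
        ≤ (4.004 * ((k : ℝ) + 1) ^ 2 * τ + ((k : ℝ) + 1) * (Cw * (260 * τ + 1100 * γ + 20 * κ))
            + 3200 * ((k : ℝ) + 1) ^ 4 * τ)
          + 1602 * ((k : ℝ) + 1) ^ 4 / S.m * Ev (t + 2) (S.Om χ k) := by
      intro t ht
      rw [Finset.mem_Ico] at ht
      have ht1' : (S.m : ℝ) ≤ t + 3 * K := by
        have : S.m ≤ t + 3 * K := by omega
        exact_mod_cast this
      have ht2' : (t : ℝ) ≤ S.m := by
        have : t ≤ S.m := by omega
        exact_mod_cast this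
      have hRh := S.top_Rh hR K (t := t) (by omega)
      have hRh0 : 0 ≤ Ev t (Rh S.f S.z χ) :=
        Ev_nonneg fun P _ => Rh_nonneg S.f_nonneg S.f_le_one S.z (chiTop_nonneg _ _) P
      have hB := S.top_B hR hK4 hK ht.1 ht.2
      have hOm0 : 0 ≤ Ev (t + 2) (S.Om χ k) :=
        Ev_nonneg fun P _ => S.Om_nonneg (chiTop_nonneg _ _) k P
      have hRh' : Ev t (Rh S.f S.z χ) ≤ 2 * τ := by
        refine hRh.trans (le_of_eq ?_)
        rw [hτ]; ring
      have hA : ((k : ℝ) + 1) * S.r * (S.dl k * Ev t (Rh S.f S.z χ))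
          ≤ 4.004 * ((k : ℝ) + 1) ^ 2 * τ := by
        have e1 : (S.r : ℝ) * S.dl k ≤ 2.002 * ((k : ℝ) + 1) := by
          unfold Sys.dl
          rw [← hq, ← mul_div_assoc, div_le_iff₀ hsq0]
          nlinarith
        have e2 : 0 ≤ 2.002 * ((k : ℝ) + 1) := by positivity
        calc ((k : ℝ) + 1) * S.r * (S.dl k * Ev t (Rh S.f S.z χ))
            = ((k : ℝ) + 1) * ((S.r : ℝ) * S.dl k) * Ev t (Rh S.f S.z χ) := by ring
          _ ≤ ((k : ℝ) + 1) * (2.002 * ((k : ℝ) + 1)) * (2 * τ) := by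
              apply mul_le_mul _ hRh' hRh0 (by positivity)
              exact mul_le_mul_of_nonneg_left e1 (by positivity)
          _ = _ := by ring
      have hB' : ((k : ℝ) + 1) * S.r * Ev t (S.eh χ)
          ≤ ((k : ℝ) + 1) * (Cw * (260 * τ + 1100 * γ + 20 * κ)) := by
        calc ((k : ℝ) + 1) * S.r * Ev t (S.eh χ)
            = ((k : ℝ) + 1) * ((S.r : ℝ) * Ev t (S.eh χ)) := by ring
          _ ≤ _ := mul_le_mul_of_nonneg_left hB (by positivity)
      have hC : 800 * ((k : ℝ) + 1) ^ 4 * S.m / (1 / 2)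
            * (1 / (2 * (S.m : ℝ) - t) * Ev t (Rh S.f S.z χ)) ≤ 3200 * ((k : ℝ) + 1) ^ 4 * τ := by
        have e1 : (S.m : ℝ) * (1 / (2 * (S.m : ℝ) - t)) ≤ 1 := by
          rw [mul_one_div, div_le_one (by linarith)]; linarith
        have e0 : 0 ≤ (S.m : ℝ) * (1 / (2 * (S.m : ℝ) - t)) := by
          have : 0 < 2 * (S.m : ℝ) - t := by linarith
          positivity
        calc 800 * ((k : ℝ) + 1) ^ 4 * S.m / (1 / 2)
            * (1 / (2 * (S.m : ℝ) - t) * Ev t (Rh S.f S.z χ))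
            = 1600 * ((k : ℝ) + 1) ^ 4 * (((S.m : ℝ) * (1 / (2 * (S.m : ℝ) - t)))
              * Ev t (Rh S.f S.z χ)) := by ring
          _ ≤ 1600 * ((k : ℝ) + 1) ^ 4 * (1 * (2 * τ)) := by
              apply mul_le_mul_of_nonneg_left _ (by positivity)
              exact mul_le_mul e1 hRh' hRh0 (by norm_num)
          _ = _ := by ring
      have hD : 800 * ((k : ℝ) + 1) ^ 4 * S.m / (1 / 2)
            * (1 / (((t : ℝ) + 1) * ((t : ℝ) + 2)) * Ev (t + 2) (S.Om χ k))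
          ≤ 1602 * ((k : ℝ) + 1) ^ 4 / S.m * Ev (t + 2) (S.Om χ k) := by
        have ht0 : (0:ℝ) ≤ t := Nat.cast_nonneg t
        have e1 : (S.m : ℝ) * (1 / (((t : ℝ) + 1) * ((t : ℝ) + 2))) ≤ 1.001 / S.m := by
          rw [mul_one_div, div_le_div_iff₀ (by positivity) hm0]
          have a1 : (S.m : ℝ) * 0.9999 ≤ (t : ℝ) + 1 := by linarith
          have a2 : (S.m : ℝ) * 0.9999 ≤ (t : ℝ) + 2 := by linarith
          have a3 : ((S.m : ℝ) * 0.9999) * ((S.m : ℝ) * 0.9999) ≤ ((t : ℝ) + 1) * ((t : ℝ) + 2) :=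
            mul_le_mul a1 a2 (by positivity) (by positivity)
          nlinarith
        calc 800 * ((k : ℝ) + 1) ^ 4 * S.m / (1 / 2)
            * (1 / (((t : ℝ) + 1) * ((t : ℝ) + 2)) * Ev (t + 2) (S.Om χ k))
            = 1600 * ((k : ℝ) + 1) ^ 4 * ((S.m : ℝ) * (1 / (((t : ℝ) + 1) * ((t : ℝ) + 2))))
              * Ev (t + 2) (S.Om χ k) := by ring
          _ ≤ 1600 * ((k : ℝ) + 1) ^ 4 * (1.001 / S.m) * Ev (t + 2) (S.Om χ k) := by
              apply mul_le_mul_of_nonneg_right _ hOm0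
              exact mul_le_mul_of_nonneg_left e1 (by positivity)
          _ = 1601.6 * (((k : ℝ) + 1) ^ 4 / S.m * Ev (t + 2) (S.Om χ k)) := by ring
          _ ≤ 1602 * (((k : ℝ) + 1) ^ 4 / S.m * Ev (t + 2) (S.Om χ k)) := by
              apply mul_le_mul_of_nonneg_right (by norm_num)
              positivity
          _ = _ := by ring
      calc _ = ((k : ℝ) + 1) * S.r * (S.dl k * Ev t (Rh S.f S.z χ))
          + ((k : ℝ) + 1) * S.r * Ev t (S.eh χ)
          + 800 * ((k : ℝ) + 1) ^ 4 * S.m / (1 / 2)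
            * (1 / (2 * (S.m : ℝ) - t) * Ev t (Rh S.f S.z χ))
          + 800 * ((k : ℝ) + 1) ^ 4 * S.m / (1 / 2)
            * (1 / (((t : ℝ) + 1) * ((t : ℝ) + 2)) * Ev (t + 2) (S.Om χ k)) := by ring
        _ ≤ _ := by linarith
    refine (Finset.sum_le_sum hterm).trans ?_
    rw [Finset.sum_add_distrib, Finset.sum_const, ← Finset.mul_sum, Nat.card_Ico]
    have hcard : S.m - 3 * K + K - (S.m - 3 * K) = K := by omega
    rw [hcard, nsmul_eq_mul]
    have hshift : ∑ t ∈ Ico (S.m - 3 * K) (S.m - 3 * K + K), Ev (t + 2) (S.Om χ k)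
        = ∑ t ∈ Ico (S.m - 3 * K + 2) (S.m - 3 * K + 2 + K), Ev t (S.Om χ k) := by
      have e := Finset.sum_Ico_add' (fun t => Ev t (S.Om χ k)) (S.m - 3 * K) (S.m - 3 * K + K) 2
      rw [e]
      congr 2
      omega
    rw [hshift]
    have hOm := S.Om_top hR hk hK4 hK
    rw [← hχ] at hOm
    have hOm2 : 1602 * ((k : ℝ) + 1) ^ 4 / S.m *
        ∑ t ∈ Ico (S.m - 3 * K + 2) (S.m - 3 * K + 2 + K), Ev t (S.Om χ k)
        ≤ 16020000000 * (((k : ℝ) + 1) ^ 4 * ((k : ℝ) + 2) ^ 2)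
          * (K * ((1 + S.T) / S.m) + K * κ + (S.cost + S.nu)) := by
      calc 1602 * ((k : ℝ) + 1) ^ 4 / S.m *
        ∑ t ∈ Ico (S.m - 3 * K + 2) (S.m - 3 * K + 2 + K), Ev t (S.Om χ k)
          ≤ 1602 * ((k : ℝ) + 1) ^ 4 / S.m * (10000000 * ((k : ℝ) + 2) ^ 2 * (K * (1 + S.T)
          + K * ((S.h : ℝ) ^ 2 / S.m) * S.cost + S.m * (S.cost + S.nu))) :=
            mul_le_mul_of_nonneg_left hOm (by positivity)
        _ = _ := by
            rw [hκ]
            field_simp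
            ring
    have p1 : (1:ℝ) ≤ (k : ℝ) + 2 := by linarith
    have pw : ∀ j : ℕ, j ≤ 10 → ((k : ℝ) + 1) ^ j ≤ ((k : ℝ) + 2) ^ 10 := by
      intro j hj
      calc ((k : ℝ) + 1) ^ j ≤ ((k : ℝ) + 2) ^ j := by
            apply pow_le_pow_left₀ (by positivity); linarith
        _ ≤ ((k : ℝ) + 2) ^ 10 := pow_le_pow_right₀ p1 hj
    have pw1 : ((k : ℝ) + 1) ≤ ((k : ℝ) + 2) ^ 10 := by simpa using pw 1 (by norm_num)
    have pw2 := pw 2 (by norm_num)
    have pw4 := pw 4 (by norm_num)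
    have pw6 : ((k : ℝ) + 1) ^ 4 * ((k : ℝ) + 2) ^ 2 ≤ ((k : ℝ) + 2) ^ 10 := by
      calc ((k : ℝ) + 1) ^ 4 * ((k : ℝ) + 2) ^ 2 ≤ ((k : ℝ) + 2) ^ 4 * ((k : ℝ) + 2) ^ 2 := by
            apply mul_le_mul_of_nonneg_right _ (by positivity)
            apply pow_le_pow_left₀ (by positivity); linarith
        _ = ((k : ℝ) + 2) ^ 6 := by ring
        _ ≤ _ := pow_le_pow_right₀ p1 (by norm_num)
    set Z := ((k : ℝ) + 2) ^ 10 with hZ
    have g1 : 4.004 * ((k : ℝ) + 1) ^ 2 * τ ≤ 4.004 * Z * τ := by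
      apply mul_le_mul_of_nonneg_right _ hτ0
      linarith
    have g2 : ((k : ℝ) + 1) * (Cw * (260 * τ + 1100 * γ + 20 * κ))
        ≤ Z * (Cw * (260 * τ + 1100 * γ + 20 * κ)) :=
      mul_le_mul_of_nonneg_right pw1 (by positivity)
    have g3 : 3200 * ((k : ℝ) + 1) ^ 4 * τ ≤ 3200 * Z * τ := by
      apply mul_le_mul_of_nonneg_right _ hτ0
      linarith
    have g4 : 16020000000 * (((k : ℝ) + 1) ^ 4 * ((k : ℝ) + 2) ^ 2)
          * (K * ((1 + S.T) / S.m) + K * κ + (S.cost + S.nu))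
        ≤ 16020000000 * Z * (K * ((1 + S.T) / S.m) + K * κ + (S.cost + S.nu)) := by
      apply mul_le_mul_of_nonneg_right _ (by positivity)
      linarith
    have g5 : (K : ℝ) * (4.004 * ((k : ℝ) + 1) ^ 2 * τ
          + ((k : ℝ) + 1) * (Cw * (260 * τ + 1100 * γ + 20 * κ))
            + 3200 * ((k : ℝ) + 1) ^ 4 * τ)
        ≤ K * (Z * (4 * Cw * 1000 * τ + Cw * (1100 * γ + 20 * κ))) := by
      apply mul_le_mul_of_nonneg_left _ hKpos.le
      have hZ0 : 0 ≤ Z := by positivity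
      have f3 : Z * τ ≤ Cw * (Z * τ) := le_mul_of_one_le_left (by positivity) hCw
      have hp : 0 ≤ Cw * (Z * τ) := by positivity
      nlinarith
    have g6 : 16020000000 * Z * (K * ((1 + S.T) / S.m) + K * κ + (S.cost + S.nu))
        ≤ Z * (16100000000 * (K * ((1 + S.T) / S.m) + K * κ + (S.cost + S.nu))) := by
      have hp : 0 ≤ Z * (K * ((1 + S.T) / S.m) + K * κ + (S.cost + S.nu)) := by positivity
      nlinarith
    have g7 : Z * W = K * (Z * (4 * Cw * 1000 * τ + Cw * (1100 * γ + 20 * κ)))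
        + Z * (16100000000 * (K * ((1 + S.T) / S.m) + K * κ + (S.cost + S.nu))) := by
      rw [hW]; ring
    rw [g7]
    linarith
  have hsumk : ∑ k ∈ range S.M, omk k * (((k : ℝ) + 2) ^ 10 * W) ≤ Cw * W := by
    have e1 : ∑ k ∈ range S.M, omk k * (((k : ℝ) + 2) ^ 10 * W)
        = (∑ k ∈ range S.M, Real.exp (-((k : ℝ) ^ 2) / 2) * ((k : ℝ) + 2) ^ 10) * W := by
      rw [Finset.sum_mul]
      refine Finset.sum_congr rfl fun k _ => ?_
      unfold omk; ring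
    rw [e1]
    exact mul_le_mul_of_nonneg_right (shell_sum_le S.M) hW0
  have htot : (K : ℝ) * S.Far χ (1 / 2) (S.m - 3 * K) ≤ 11 / 10 * (Cw * W) := by
    refine hfar.trans ?_
    apply mul_le_mul_of_nonneg_left _ (by norm_num)
    exact (Finset.sum_le_sum hshell).trans hsumk
  -- final
  have hfin : 11 / 10 * (Cw * W) ≤ K * (100000000000 * Cw ^ 2 * ((1 + S.T) / S.m
        + (((S.h : ℝ) / S.m) ^ 2 + 1 / K + 1 / q) * (S.cost + S.nu))) := by
    have hτ1 : τ ≤ (1 + S.T) / S.m := by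
      rw [hτ]; apply div_le_div_of_nonneg_right _ hm0.le; linarith
    set σ := (1 + S.T) / S.m with hσ
    have hσ0 : 0 ≤ σ := hτ0.trans hτ1
    have e1 : (K : ℝ) * (100000000000 * Cw ^ 2 * (σ
        + (((S.h : ℝ) / S.m) ^ 2 + 1 / K + 1 / q) * (S.cost + S.nu)))
        = 100000000000 * Cw ^ 2 * (K * σ + K * κ + K * (((S.h : ℝ) / S.m) ^ 2 * S.nu)
          + (S.cost + S.nu) + K * γ) := by
      rw [hγ, hκ]
      field_simp
      ring
    rw [e1]
    have hν0 : 0 ≤ (K:ℝ) * (((S.h : ℝ) / S.m) ^ 2 * S.nu) := by positivity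
    have a1 : 0 ≤ (K:ℝ) * σ := by positivity
    have a2 : 0 ≤ (K:ℝ) * κ := by positivity
    have a3 : 0 ≤ (K:ℝ) * γ := by positivity
    have a4 : 0 ≤ S.cost + S.nu := by linarith
    have hKτ : (K:ℝ) * τ ≤ K * σ := mul_le_mul_of_nonneg_left hτ1 hKpos.le
    have b1 : Cw ≤ Cw ^ 2 := by nlinarith
    have hW2 : Cw * W ≤ Cw ^ 2 * (K * (4000 * σ + 1100 * γ + 20 * κ)
        + 16100000000 * (K * σ + K * κ + (S.cost + S.nu))) := by
      have c1 : Cw * W = Cw ^ 2 * (K * (4000 * τ + 1100 * γ + 20 * κ))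
          + Cw * (16100000000 * (K * σ + K * κ + (S.cost + S.nu))) := by
        rw [hW]; ring
      rw [c1]
      have c2 : Cw ^ 2 * (K * (4000 * τ + 1100 * γ + 20 * κ))
          ≤ Cw ^ 2 * (K * (4000 * σ + 1100 * γ + 20 * κ)) := by
        apply mul_le_mul_of_nonneg_left _ (by positivity)
        nlinarith
      have c3 : Cw * (16100000000 * (K * σ + K * κ + (S.cost + S.nu)))
          ≤ Cw ^ 2 * (16100000000 * (K * σ + K * κ + (S.cost + S.nu))) :=
        mul_le_mul_of_nonneg_right b1 (by positivity)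
      linarith
    have hfin2 : 11 / 10 * (K * (4000 * σ + 1100 * γ + 20 * κ)
        + 16100000000 * (K * σ + K * κ + (S.cost + S.nu)))
        ≤ 100000000000 * (K * σ + K * κ + K * (((S.h : ℝ) / S.m) ^ 2 * S.nu)
          + (S.cost + S.nu) + K * γ) := by
      nlinarith
    calc 11 / 10 * (Cw * W) ≤ 11 / 10 * (Cw ^ 2 * (K * (4000 * σ + 1100 * γ + 20 * κ)
        + 16100000000 * (K * σ + K * κ + (S.cost + S.nu)))) :=
          mul_le_mul_of_nonneg_left hW2 (by norm_num)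
      _ = Cw ^ 2 * (11 / 10 * (K * (4000 * σ + 1100 * γ + 20 * κ)
        + 16100000000 * (K * σ + K * κ + (S.cost + S.nu)))) := by ring
      _ ≤ Cw ^ 2 * (100000000000 * (K * σ + K * κ + K * (((S.h : ℝ) / S.m) ^ 2 * S.nu)
          + (S.cost + S.nu) + K * γ)) := mul_le_mul_of_nonneg_left hfin2 (by positivity)
      _ = _ := by ring
  exact le_of_mul_le_mul_left (htot.trans hfin) hKpos

end UF
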