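import Pool.Agent.UF.Base
import Pool.Agent.UF.Jo10
import Pool.Agent.UF.Js1
import Pool.Agent.UF.Js11
import Pool.Agent.UF.Js14
import Pool.Agent.UF.Js15
import Pool.Agent.UF.Js16
import Pool.Agent.UF.Js2
import Pool.Agent.UF.Js3
import Pool.Agent.UF.Jt11
import Pool.Agent.UF.Jt12
import Pool.Agent.UF.Jw3

set_option autoImplicit false
set_option linter.unusedSectionVars false
set_option linter.unusedVariables false
open Finset

namespace UF
variable {α : Type*} [Fintype α] [DecidableEq α]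

theorem chiB_nonneg_t16 (m β s : ℕ) : 0 ≤ chiB m β s := by
  unfold chiB; split_ifs <;> norm_num

theorem chiB_le_one_t16 (m β s : ℕ) : chiB m β s ≤ 1 := by
  unfold chiB; split_ifs <;> norm_num

theorem FL_beta {m β : ℕ} (hm : 100000000 ≤ m) (hβ : (β : ℝ) ^ 2 ≤ m) : 10000 * β ≤ m := by
  have h1 : β * β ≤ m := by
    have : ((β * β : ℕ) : ℝ) ≤ (m : ℝ) := by push_cast; nlinarith
    exact_mod_cast this
  by_contra hcon
  push Not at hcon
  nlinarith

theorem Sys.FL_eh (S : Sys α) (hR : S.Reg) {β : ℕ} (hβ4 : 4 ≤ β)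
    (hβ : (β : ℝ) ^ 2 ≤ S.m) {t : ℕ} (ht1 : S.m - 4 * β ≤ t) (ht2 : t < S.m - 3 * β) :
    Ev t (S.eh (chiB S.m β)) ≤ 2 / S.m *
      (109 * Cw / Real.sqrt S.m * ∑ s ∈ range (2 * S.m + 1), chiB S.m β s * S.ph s
        + 114 * (S.nu + S.cost) + 114 * (β * S.T / S.m)) := by
  have hm := hR.1
  have hmβ := FL_beta hm hβ
  have hmR : (100000000 : ℝ) ≤ S.m := by exact_mod_cast hm
  have hmpos : (0 : ℝ) < S.m := by linarith
  have hsq4 : (10000 : ℝ) ≤ Real.sqrt S.m := by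
    apply Real.le_sqrt_of_sq_le
    calc (10000 : ℝ) ^ 2 = 100000000 := by norm_num
      _ ≤ S.m := hmR
  have hsqpos : (0 : ℝ) < Real.sqrt S.m := by linarith
  have hsq : Real.sqrt S.m * Real.sqrt S.m = S.m := Real.mul_self_sqrt hmpos.le
  have hCw := one_le_Cw
  have h := S.Ev_eh_le hR (χ := chiB S.m β) (chiB_nonneg_t16 S.m β) (chiB_le_one_t16 S.m β) (t := t)
    (by omega) (by omega) (by
      intro s hs
      unfold chiB
      rw [if_neg]
      omega)
  refine h.trans ?_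
  apply mul_le_mul_of_nonneg_left _ (by positivity)
  have e1 : ∑ s ∈ range (2 * S.m + 1), chiB S.m β s * S.ph s *
          (10000 * ((s : ℝ) - t) ^ 2 / (S.m : ℝ) ^ 2
            + 100 * Cw * (1 / Real.sqrt S.m + max ((s : ℝ) - S.m) 0 / S.m))
      ≤ 109 * Cw / Real.sqrt S.m * ∑ s ∈ range (2 * S.m + 1), chiB S.m β s * S.ph s := by
    rw [Finset.mul_sum]
    refine Finset.sum_le_sum fun s _ => ?_
    have hph := S.ph_nonneg s
    unfold chiB
    split_ifs with hc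
    · obtain ⟨hc1, hc2⟩ := hc
      have hs1 : (s : ℝ) - t ≤ 3 * β := by
        have : s ≤ t + 3 * β := by omega
        have : (s : ℝ) ≤ t + 3 * β := by exact_mod_cast this
        linarith
      have hs2 : 0 ≤ (s : ℝ) - t := by
        have : t ≤ s := by omega
        have : (t : ℝ) ≤ s := by exact_mod_cast this
        linarith
      have hs3 : (s : ℝ) - S.m ≤ 0 := by
        have : s ≤ S.m := by omega
        have : (s : ℝ) ≤ S.m := by exact_mod_cast this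
        linarith
      rw [max_eq_right hs3]
      have h9 : ((s : ℝ) - t) ^ 2 ≤ 9 * S.m := by nlinarith
      have h10 : 10000 * ((s : ℝ) - t) ^ 2 / (S.m : ℝ) ^ 2 ≤ 9 / Real.sqrt S.m := by
        rw [div_le_div_iff₀ (by positivity) hsqpos]
        calc 10000 * ((s : ℝ) - t) ^ 2 * Real.sqrt S.m ≤ 10000 * (9 * S.m) * Real.sqrt S.m := by
              gcongr
          _ = 9 * S.m * (10000 * Real.sqrt S.m) := by ring
          _ ≤ 9 * S.m * (Real.sqrt S.m * Real.sqrt S.m) := by gcongr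
          _ = 9 * (S.m : ℝ) ^ 2 := by rw [hsq]; ring
      have h11 : 9 / Real.sqrt S.m ≤ 9 * Cw / Real.sqrt S.m := by
        apply div_le_div_of_nonneg_right _ hsqpos.le
        linarith
      calc 1 * S.ph s * (10000 * ((s : ℝ) - t) ^ 2 / (S.m : ℝ) ^ 2
            + 100 * Cw * (1 / Real.sqrt S.m + 0 / S.m))
          ≤ 1 * S.ph s * (9 * Cw / Real.sqrt S.m + 100 * Cw * (1 / Real.sqrt S.m + 0 / S.m)) :=
            mul_le_mul_of_nonneg_left (by linarith) (by linarith)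
        _ = 109 * Cw / Real.sqrt S.m * (1 * S.ph s) := by
            field_simp; ring
    · simp
  have e2 : Ev (t + 1) (fun Q => (1 - Dn S.H Q) * S.b Q)
      ≤ S.nu + 101 / 25 * (S.cost + β * S.T / S.m) := by
    refine (S.Ev_b_bound (t := t + 1) (by omega)).trans ?_
    have : ∑ s ∈ Icc (t + 1) (2 * S.m), ((s : ℝ) - (t + 1 : ℕ)) / s * S.ph s
        ≤ ∑ s ∈ range (2 * S.m + 1), (101 / 100 * (|(s : ℝ) - S.m| / S.m * S.ph s)
          + 101 / 25 * (β / S.m) * S.ph s) := by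
      refine (Finset.sum_le_sum (g := fun s : ℕ => (101 / 100 * (|(s : ℝ) - S.m| / S.m * S.ph s)
          + 101 / 25 * (β / S.m) * S.ph s)) fun s hs => ?_).trans
          (Finset.sum_le_sum_of_subset_of_nonneg ?_ ?_)
      · rw [Finset.mem_Icc] at hs
        have hph := S.ph_nonneg s
        have hs1 : (s : ℝ) ≥ 999 / 1000 * S.m := by
          have : 999 * S.m ≤ 1000 * s := by omega
          have : (999 : ℝ) * S.m ≤ 1000 * s := by exact_mod_cast this
          linarith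
        have hs2 : (s : ℝ) - (t + 1 : ℕ) ≤ |(s : ℝ) - S.m| + 4 * β := by
          have h1 : S.m ≤ t + 1 + 4 * β := by omega
          have h2 : (S.m : ℝ) ≤ (t + 1 : ℕ) + 4 * β := by exact_mod_cast h1
          have h3 := le_abs_self ((s : ℝ) - S.m)
          linarith
        have hpos : 0 < (s : ℝ) := by linarith
        have hd : ((s : ℝ) - (t + 1 : ℕ)) / s ≤ 101 / 100 * ((|(s : ℝ) - S.m| + 4 * β) / S.m) := by
          rw [div_le_iff₀ hpos]
          have h5 : 101 / 100 * ((|(s : ℝ) - S.m| + 4 * β) / S.m) * s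
              ≥ 101 / 100 * ((|(s : ℝ) - S.m| + 4 * β) / S.m) * (999 / 1000 * S.m) := by
            gcongr
          have h6 : 101 / 100 * ((|(s : ℝ) - S.m| + 4 * β) / S.m) * (999 / 1000 * S.m)
              = (101 / 100 * (999 / 1000)) * (|(s : ℝ) - S.m| + 4 * β) := by
            field_simp
          have h7 : 0 ≤ |(s : ℝ) - S.m| + 4 * β := by positivity
          nlinarith
        calc ((s : ℝ) - (t + 1 : ℕ)) / s * S.ph s
            ≤ 101 / 100 * ((|(s : ℝ) - S.m| + 4 * β) / S.m) * S.ph s := by gcongr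
          _ = _ := by ring
      · intro s hs
        rw [Finset.mem_Icc] at hs
        rw [Finset.mem_range]; omega
      · intro s _ _
        have hph := S.ph_nonneg s
        positivity
    have h2 : ∑ s ∈ range (2 * S.m + 1), (101 / 100 * (|(s : ℝ) - S.m| / S.m * S.ph s)
          + 101 / 25 * (β / S.m) * S.ph s)
        = 101 / 100 * ∑ s ∈ range (2 * S.m + 1), |(s : ℝ) - S.m| / S.m * S.ph s
          + 101 / 25 * (β / S.m) * S.T := by
      rw [Finset.sum_add_distrib, Finset.mul_sum]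
      unfold Sys.T
      rw [Finset.mul_sum]
    have h3 := S.mom1' hR
    have h4 : 101 / 25 * ((β : ℝ) / S.m) * S.T = 101 / 25 * (β * S.T / S.m) := by ring
    linarith
  have hnu := S.nu_nonneg
  have hcost := S.cost_nonneg
  have hT := S.T_nonneg
  have hβT : 0 ≤ (β : ℝ) * S.T / S.m := by positivity
  linarith

set_option maxHeartbeats 2000000 in
/-- bracket bound for one `k` and one `t` -/
theorem Sys.FL_term (S : Sys α) (hR : S.Reg) {β : ℕ} (hβ4 : 4 ≤ β)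
    (hβ : (β : ℝ) ^ 2 ≤ S.m) {c : ℝ} (hc0 : 0 < c) (hc1 : c ≤ 1) (k : ℕ)
    {t : ℕ} (ht1 : S.m - 4 * β ≤ t) (ht2 : t < S.m - 3 * β) :
    (((k : ℝ) + 1) * S.r * (S.dl k * Ev t (Rh S.f S.z (chiB S.m β)) + Ev t (S.eh (chiB S.m β)))
          + 800 * ((k : ℝ) + 1) ^ 4 * S.m / c
            * (1 / (2 * (S.m : ℝ) - t) * Ev t (Rh S.f S.z (chiB S.m β))
              + 1 / (((t : ℝ) + 1) * ((t : ℝ) + 2)) * Ev (t + 2) (S.Om (chiB S.m β) k)))
      ≤ ((k : ℝ) + 2) ^ 10 * (2000 * Cw * (1 / c * (1 / S.m) *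
            ∑ s ∈ range (2 * S.m + 1), chiB S.m β s * S.ph s)
          + 230 * ((β / Real.sqrt S.m) * (S.T / S.m)) + 230 * ((S.cost + S.nu) / Real.sqrt S.m))
        + 1000 * ((k : ℝ) + 2) ^ 4 / (c * S.m) * Ev (t + 2) (S.Om (chiB S.m β) k) := by
  have hm := hR.1
  have hmβ := FL_beta hm hβ
  have hmR : (100000000 : ℝ) ≤ S.m := by exact_mod_cast hm
  have hmpos : (0 : ℝ) < S.m := by linarith
  have hsq4 : (10000 : ℝ) ≤ Real.sqrt S.m := by
    apply Real.le_sqrt_of_sq_le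
    calc (10000 : ℝ) ^ 2 = 100000000 := by norm_num
      _ ≤ S.m := hmR
  have hsqpos : (0 : ℝ) < Real.sqrt S.m := by linarith
  have hsq : Real.sqrt S.m * Real.sqrt S.m = S.m := Real.mul_self_sqrt hmpos.le
  have hCw := one_le_Cw
  obtain ⟨hr1, hr2, hr3⟩ := S.r_bounds hR
  have hrh := S.Ev_Rh_bound hR (χ := chiB S.m β) (chiB_nonneg_t16 S.m β) (t := t) (by omega)
  have heh := S.FL_eh hR hβ4 hβ ht1 ht2
  set φ := ∑ s ∈ range (2 * S.m + 1), chiB S.m β s * S.ph s with hφ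
  have hφ0 : 0 ≤ φ := Finset.sum_nonneg fun s _ => mul_nonneg (chiB_nonneg_t16 _ _ _) (S.ph_nonneg s)
  have hER0 : 0 ≤ Ev t (Rh S.f S.z (chiB S.m β)) :=
    Ev_nonneg fun P _ => Rh_nonneg S.f_nonneg S.f_le_one S.z (chiB_nonneg_t16 S.m β) P
  have hEO0 : 0 ≤ Ev (t + 2) (S.Om (chiB S.m β) k) :=
    Ev_nonneg fun P _ => S.Om_nonneg (chiB_nonneg_t16 S.m β) k P
  have hEE0 : 0 ≤ Ev t (S.eh (chiB S.m β)) :=
    Ev_nonneg fun P _ => S.eh_nonneg (chiB_nonneg_t16 S.m β) P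
  set ER := Ev t (Rh S.f S.z (chiB S.m β))
  set EO := Ev (t + 2) (S.Om (chiB S.m β) k)
  set EE := Ev t (S.eh (chiB S.m β))
  have hnu := S.nu_nonneg
  have hcost := S.cost_nonneg
  have hT := S.T_nonneg
  have hk0 : (0 : ℝ) ≤ k := Nat.cast_nonneg k
  have hk1 : (0 : ℝ) ≤ (k : ℝ) + 1 := by linarith
  have hkk1 : (k : ℝ) + 1 ≤ ((k : ℝ) + 2) ^ 10 := by
    calc (k : ℝ) + 1 ≤ ((k : ℝ) + 2) ^ 1 := by linarith
      _ ≤ ((k : ℝ) + 2) ^ 10 := pow_le_pow_right₀ (by linarith) (by norm_num)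
  have hkk2 : ((k : ℝ) + 1) ^ 2 ≤ ((k : ℝ) + 2) ^ 10 := by
    calc ((k : ℝ) + 1) ^ 2 ≤ ((k : ℝ) + 2) ^ 2 := by gcongr; linarith
      _ ≤ ((k : ℝ) + 2) ^ 10 := pow_le_pow_right₀ (by linarith) (by norm_num)
  have hkk4 : ((k : ℝ) + 1) ^ 4 ≤ ((k : ℝ) + 2) ^ 10 := by
    calc ((k : ℝ) + 1) ^ 4 ≤ ((k : ℝ) + 2) ^ 4 := by gcongr; linarith
      _ ≤ ((k : ℝ) + 2) ^ 10 := pow_le_pow_right₀ (by linarith) (by norm_num)
  have hkk4' : ((k : ℝ) + 1) ^ 4 ≤ ((k : ℝ) + 2) ^ 4 := by gcongr; linarith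
  have hcinv : 1 ≤ 1 / c := by rw [le_div_iff₀ hc0]; linarith
  set ψ := 1 / c * (1 / (S.m : ℝ)) * φ with hψ
  have hψ0 : 0 ≤ ψ := by positivity
  have hφψ : φ / S.m ≤ ψ := by
    rw [hψ]
    have : φ / S.m = 1 * (1 / (S.m : ℝ)) * φ := by ring
    rw [this]
    gcongr
  -- (A)
  have hA : ((k : ℝ) + 1) * S.r * (S.dl k * ER) ≤ ((k : ℝ) + 2) ^ 10 * (5 * ψ) := by
    have hdl : S.dl k = 2 * ((k : ℝ) + 1) / Real.sqrt S.m := rfl
    have hdl0 : 0 ≤ S.dl k := by rw [hdl]; positivity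
    calc ((k : ℝ) + 1) * S.r * (S.dl k * ER)
        ≤ ((k : ℝ) + 1) * (1.001 * Real.sqrt S.m) * (S.dl k * (2 / S.m * φ)) := by gcongr
      _ = 4.004 * ((k : ℝ) + 1) ^ 2 * (φ / S.m) := by
          rw [hdl]; field_simp; ring
      _ ≤ 4.004 * ((k : ℝ) + 1) ^ 2 * ψ := by gcongr
      _ ≤ 5 * ((k : ℝ) + 2) ^ 10 * ψ := by
          gcongr
          norm_num
      _ = _ := by ring
  -- (B)
  have hB : ((k : ℝ) + 1) * S.r * EE ≤ ((k : ℝ) + 2) ^ 10 * (219 * Cw * ψ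
      + 230 * ((β / Real.sqrt S.m) * (S.T / S.m)) + 230 * ((S.cost + S.nu) / Real.sqrt S.m)) := by
    have hin : 0 ≤ 2 / (S.m : ℝ) *
      (109 * Cw / Real.sqrt S.m * φ + 114 * (S.nu + S.cost) + 114 * (β * S.T / S.m)) := by
      positivity
    have hin2 : 0 ≤ (219 * Cw * ψ
      + 230 * ((β / Real.sqrt S.m) * (S.T / S.m)) + 230 * ((S.cost + S.nu) / Real.sqrt S.m)) := by
      positivity
    calc ((k : ℝ) + 1) * S.r * EE
        ≤ ((k : ℝ) + 1) * (1.001 * Real.sqrt S.m) * (2 / S.m *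
          (109 * Cw / Real.sqrt S.m * φ + 114 * (S.nu + S.cost) + 114 * (β * S.T / S.m))) := by
          gcongr
      _ = ((k : ℝ) + 1) * (2.002 * 109 * Cw * (φ / S.m)
            + 2.002 * 114 * ((β / Real.sqrt S.m) * (S.T / S.m))
            + 2.002 * 114 * ((S.cost + S.nu) / Real.sqrt S.m)) := by
          have hms : (S.m : ℝ) = Real.sqrt S.m ^ 2 := by rw [sq, hsq]
          set q := Real.sqrt (S.m : ℝ)
          rw [hms]
          field_simp
          ring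
      _ ≤ ((k : ℝ) + 1) * (219 * Cw * ψ
            + 230 * ((β / Real.sqrt S.m) * (S.T / S.m))
            + 230 * ((S.cost + S.nu) / Real.sqrt S.m)) := by
          have h1 : (2.002 * 109 : ℝ) ≤ 219 := by norm_num
          have h2 : (2.002 * 114 : ℝ) ≤ 230 := by norm_num
          gcongr
      _ ≤ _ := by gcongr
  -- (C)
  have htm : (t : ℝ) ≤ S.m := by
    have : t ≤ S.m := by omega
    exact_mod_cast this
  have hC : 800 * ((k : ℝ) + 1) ^ 4 * S.m / c * (1 / (2 * (S.m : ℝ) - t) * ER)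
      ≤ ((k : ℝ) + 2) ^ 10 * (1600 * ψ) := by
    have h1 : 1 / (2 * (S.m : ℝ) - t) ≤ 1 / S.m := by
      apply one_div_le_one_div_of_le hmpos; linarith
    have h10 : 0 ≤ 1 / (2 * (S.m : ℝ) - t) := by
      apply div_nonneg zero_le_one; linarith
    calc 800 * ((k : ℝ) + 1) ^ 4 * S.m / c * (1 / (2 * (S.m : ℝ) - t) * ER)
        ≤ 800 * ((k : ℝ) + 1) ^ 4 * S.m / c * (1 / (S.m : ℝ) * (2 / S.m * φ)) := by
          gcongr
      _ = ((k : ℝ) + 1) ^ 4 * (1600 * ψ) := by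
          rw [hψ]; field_simp; ring
      _ ≤ _ := by gcongr
  -- (D)
  have hD : 800 * ((k : ℝ) + 1) ^ 4 * S.m / c * (1 / (((t : ℝ) + 1) * ((t : ℝ) + 2)) * EO)
      ≤ 1000 * ((k : ℝ) + 2) ^ 4 / (c * S.m) * EO := by
    have ht3 : 999 / 1000 * (S.m : ℝ) ≤ t := by
      have : 999 * S.m ≤ 1000 * t := by omega
      have : (999 : ℝ) * S.m ≤ 1000 * t := by exact_mod_cast this
      linarith
    have h1 : 1 / (((t : ℝ) + 1) * ((t : ℝ) + 2)) ≤ 5 / 4 / (S.m : ℝ) ^ 2 := by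
      rw [div_le_div_iff₀ (by positivity) (by positivity)]
      nlinarith
    calc 800 * ((k : ℝ) + 1) ^ 4 * S.m / c * (1 / (((t : ℝ) + 1) * ((t : ℝ) + 2)) * EO)
        ≤ 800 * ((k : ℝ) + 2) ^ 4 * S.m / c * (5 / 4 / (S.m : ℝ) ^ 2 * EO) := by
          gcongr
      _ = _ := by field_simp; ring
  have hfin : ((k : ℝ) + 2) ^ 10 * (5 * ψ) + ((k : ℝ) + 2) ^ 10 * (219 * Cw * ψ
      + 230 * ((β / Real.sqrt S.m) * (S.T / S.m)) + 230 * ((S.cost + S.nu) / Real.sqrt S.m))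
      + ((k : ℝ) + 2) ^ 10 * (1600 * ψ) ≤ ((k : ℝ) + 2) ^ 10 * (2000 * Cw * ψ
      + 230 * ((β / Real.sqrt S.m) * (S.T / S.m)) + 230 * ((S.cost + S.nu) / Real.sqrt S.m)) := by
    rw [← mul_add, ← mul_add]
    apply mul_le_mul_of_nonneg_left _ (by positivity)
    nlinarith
  calc _ = ((k : ℝ) + 1) * S.r * (S.dl k * ER) + ((k : ℝ) + 1) * S.r * EE
        + 800 * ((k : ℝ) + 1) ^ 4 * S.m / c * (1 / (2 * (S.m : ℝ) - t) * ER)
        + 800 * ((k : ℝ) + 1) ^ 4 * S.m / c * (1 / (((t : ℝ) + 1) * ((t : ℝ) + 2)) * EO) := by ring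
    _ ≤ _ := by linarith

theorem Sys.Far_low (S : Sys α) (hR : S.Reg) {β : ℕ} (hβ4 : 4 ≤ β)
    (hβ : (β : ℝ) ^ 2 ≤ S.m) {c : ℝ} (hc0 : 0 < c) (hc1 : c ≤ 1) :
    S.Far (chiB S.m β) c (S.m - 4 * β)
      ≤ 10000000000000 * Cw ^ 2 *
        (1 / c * (1 / S.m) * ∑ s ∈ range (2 * S.m + 1), chiB S.m β s * S.ph s
          + (β / Real.sqrt S.m) * (S.T / S.m) + (S.cost + S.nu) / Real.sqrt S.m
          + 1 / (c * Real.sqrt β) * ((1 + S.T) / S.m + S.cost + S.nu + S.G)) := by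
  have hm := hR.1
  have hmβ := FL_beta hm hβ
  have hmR : (100000000 : ℝ) ≤ S.m := by exact_mod_cast hm
  have hmpos : (0 : ℝ) < S.m := by linarith
  have hsq4 : (10000 : ℝ) ≤ Real.sqrt S.m := by
    apply Real.le_sqrt_of_sq_le
    calc (10000 : ℝ) ^ 2 = 100000000 := by norm_num
      _ ≤ S.m := hmR
  have hsqpos : (0 : ℝ) < Real.sqrt S.m := by linarith
  have hCw := one_le_Cw
  have hβpos : (0 : ℝ) < β := by
    have : 0 < β := by omega
    exact_mod_cast this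
  have hnu := S.nu_nonneg
  have hcost := S.cost_nonneg
  have hT := S.T_nonneg
  have hG := S.G_nonneg
  have hfb := S.far_bound hR (χ := chiB S.m β) (chiB_nonneg_t16 S.m β) (chiB_le_one_t16 S.m β) hc0
    (t₁ := S.m - 4 * β) (w := β) (by omega) (by
      intro s hs
      unfold chiB
      rw [if_neg]
      omega)
  have hφ0 : 0 ≤ ∑ s ∈ range (2 * S.m + 1), chiB S.m β s * S.ph s :=
    Finset.sum_nonneg fun s _ => mul_nonneg (chiB_nonneg_t16 _ _ _) (S.ph_nonneg s)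
  set φ := ∑ s ∈ range (2 * S.m + 1), chiB S.m β s * S.ph s with hφ
  set X := (1 + S.T) / S.m + S.cost + S.nu + S.G with hX
  have hX0 : 0 ≤ X := by positivity
  set Z := 2000 * Cw * (1 / c * (1 / (S.m : ℝ)) * φ)
          + 230 * ((β / Real.sqrt S.m) * (S.T / S.m)) + 230 * ((S.cost + S.nu) / Real.sqrt S.m)
    with hZ
  have hZ0 : 0 ≤ Z := by positivity
  -- sum over t
  have hk : ∀ k ∈ range S.M, omk k * ∑ t ∈ Ico (S.m - 4 * β) (S.m - 4 * β + β),
        (((k : ℝ) + 1) * S.r * (S.dl k * Ev t (Rh S.f S.z (chiB S.m β)) + Ev t (S.eh (chiB S.m β)))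
          + 800 * ((k : ℝ) + 1) ^ 4 * S.m / c
            * (1 / (2 * (S.m : ℝ) - t) * Ev t (Rh S.f S.z (chiB S.m β))
              + 1 / (((t : ℝ) + 1) * ((t : ℝ) + 2)) * Ev (t + 2) (S.Om (chiB S.m β) k)))
      ≤ Real.exp (-((k : ℝ) ^ 2) / 2) * ((k : ℝ) + 2) ^ 10 *
          (β * Z + 1000000000000 * Real.sqrt β / c * X) := by
    intro k hk
    have : omk k = Real.exp (-((k : ℝ) ^ 2) / 2) := rfl
    rw [this, mul_assoc (Real.exp _) (((k : ℝ) + 2) ^ 10)]
    apply mul_le_mul_of_nonneg_left _ (Real.exp_pos _).le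
    have hk0 : (0 : ℝ) ≤ k := Nat.cast_nonneg k
    have hOm := S.Om_low hR (Finset.mem_range.1 hk) hβ4 hβ
    have hre : ∑ t ∈ Ico (S.m - 4 * β + 2) (S.m - 4 * β + 2 + β), Ev t (S.Om (chiB S.m β) k)
        = ∑ t ∈ Ico (S.m - 4 * β) (S.m - 4 * β + β), Ev (t + 2) (S.Om (chiB S.m β) k) := by
      have e : S.m - 4 * β + 2 + β = S.m - 4 * β + β + 2 := by omega
      rw [e, Finset.sum_Ico_add' (fun t => Ev t (S.Om (chiB S.m β) k))]
    rw [hre] at hOm
    calc _ ≤ ∑ t ∈ Ico (S.m - 4 * β) (S.m - 4 * β + β), (((k : ℝ) + 2) ^ 10 * Z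
          + 1000 * ((k : ℝ) + 2) ^ 4 / (c * S.m) * Ev (t + 2) (S.Om (chiB S.m β) k)) := by
          refine Finset.sum_le_sum fun t ht => ?_
          rw [Finset.mem_Ico] at ht
          exact S.FL_term hR hβ4 hβ hc0 hc1 k ht.1 (by omega)
      _ = β * (((k : ℝ) + 2) ^ 10 * Z) + 1000 * ((k : ℝ) + 2) ^ 4 / (c * S.m) *
          ∑ t ∈ Ico (S.m - 4 * β) (S.m - 4 * β + β), Ev (t + 2) (S.Om (chiB S.m β) k) := by
          rw [Finset.sum_add_distrib, Finset.mul_sum, Finset.sum_const, Nat.card_Ico,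
            nsmul_eq_mul, Nat.add_sub_cancel_left]
      _ ≤ β * (((k : ℝ) + 2) ^ 10 * Z) + 1000 * ((k : ℝ) + 2) ^ 4 / (c * S.m) *
          (1000000000 * ((k : ℝ) + 2) ^ 2 * Real.sqrt β
            * (1 + S.T + S.m * (S.cost + S.nu + S.G))) := by
          gcongr
      _ = β * (((k : ℝ) + 2) ^ 10 * Z) + 1000000000000 * ((k : ℝ) + 2) ^ 6 * Real.sqrt β / c
            * X := by
          rw [hX]; field_simp; ring
      _ ≤ β * (((k : ℝ) + 2) ^ 10 * Z) + 1000000000000 * ((k : ℝ) + 2) ^ 10 * Real.sqrt β / c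
            * X := by
          gcongr
          · linarith
          · norm_num
      _ = _ := by ring
  have hsum := Finset.sum_le_sum hk
  rw [← Finset.sum_mul] at hsum
  have hshell := shell_sum_le S.M
  have hW0 : 0 ≤ β * Z + 1000000000000 * Real.sqrt β / c * X := by positivity
  have hmain : (β : ℝ) * S.Far (chiB S.m β) c (S.m - 4 * β)
      ≤ 11 / 10 * (Cw * (β * Z + 1000000000000 * Real.sqrt β / c * X)) := by
    refine hfb.trans ?_
    apply mul_le_mul_of_nonneg_left _ (by norm_num)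
    refine hsum.trans ?_
    exact mul_le_mul_of_nonneg_right hshell hW0
  have hsb : 0 < Real.sqrt β := Real.sqrt_pos.2 hβpos
  have hsbb : Real.sqrt β * Real.sqrt β = β := Real.mul_self_sqrt hβpos.le
  have hdiv : S.Far (chiB S.m β) c (S.m - 4 * β)
      ≤ 11 / 10 * (Cw * (Z + 1000000000000 * (1 / (c * Real.sqrt β)) * X)) := by
    have e : 11 / 10 * (Cw * (β * Z + 1000000000000 * Real.sqrt β / c * X))
        = β * (11 / 10 * (Cw * (Z + 1000000000000 * (1 / (c * Real.sqrt β)) * X))) := by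
      have hb2 : (β : ℝ) = Real.sqrt β ^ 2 := by rw [sq, hsbb]
      have : Real.sqrt β / c = β * (1 / (c * Real.sqrt β)) := by
        rw [mul_one_div, eq_div_iff (by positivity)]
        field_simp
        rw [sq, hsbb]
      calc 11 / 10 * (Cw * (β * Z + 1000000000000 * Real.sqrt β / c * X))
          = 11 / 10 * (Cw * (β * Z + 1000000000000 * (Real.sqrt β / c) * X)) := by ring
        _ = _ := by rw [this]; ring
    rw [e] at hmain
    exact le_of_mul_le_mul_left hmain hβpos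
  refine hdiv.trans ?_
  have hy0 : 0 ≤ 1 / c * (1 / (S.m : ℝ)) * φ := by positivity
  have hy1 : 0 ≤ (β / Real.sqrt S.m) * (S.T / S.m) := by positivity
  have hy2 : 0 ≤ (S.cost + S.nu) / Real.sqrt S.m := by positivity
  have hy3 : 0 ≤ 1 / (c * Real.sqrt β) * X := by positivity
  have hCw2 : Cw ≤ Cw ^ 2 := by nlinarith
  calc 11 / 10 * (Cw * (Z + 1000000000000 * (1 / (c * Real.sqrt β)) * X))
      = 2200 * Cw ^ 2 * (1 / c * (1 / (S.m : ℝ)) * φ)
        + 253 * Cw * ((β / Real.sqrt S.m) * (S.T / S.m))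
        + 253 * Cw * ((S.cost + S.nu) / Real.sqrt S.m)
        + 1100000000000 * Cw * (1 / (c * Real.sqrt β) * X) := by
        rw [hZ]; ring
    _ ≤ 10000000000000 * Cw ^ 2 * (1 / c * (1 / (S.m : ℝ)) * φ)
        + 10000000000000 * Cw ^ 2 * ((β / Real.sqrt S.m) * (S.T / S.m))
        + 10000000000000 * Cw ^ 2 * ((S.cost + S.nu) / Real.sqrt S.m)
        + 10000000000000 * Cw ^ 2 * (1 / (c * Real.sqrt β) * X) := by
        gcongr <;> norm_num
    _ = _ := by ring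

end UF
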