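import Pool.Agent.UF.Base
import Pool.Agent.UF.Js1
import Pool.Agent.UF.Js3
import Pool.Agent.UF.Js6
import Pool.Agent.UF.Jw2

set_option autoImplicit false
set_option linter.unusedSectionVars false
set_option linter.unusedVariables false
open Finset

namespace UF
variable {α : Type*} [Fintype α] [DecidableEq α]

theorem Sys.G_deep (S : Sys α) (hR : S.Reg) {D : ℕ} (hD : (S.m : ℝ) ≤ 4 * (D : ℝ) ^ 2) :
    S.Gc (chiDeep S.m D) ≤ 112 * Cw / Real.sqrt S.m * S.cost := by
  have hm8 : 100000000 ≤ S.m := hR.1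
  have hm1 : 1 ≤ S.m := by omega
  have hm0 : (0 : ℝ) < S.m := by exact_mod_cast hm1
  have hCw : 0 ≤ Cw := by
    unfold Cw
    apply tsum_nonneg
    intro k
    positivity
  have hc : 0 ≤ 7 * Cw / Real.sqrt S.m := by positivity
  unfold Sys.Gc Sys.cost
  rw [Finset.mul_sum]
  apply Finset.sum_le_sum
  intro p _
  have hph := S.ph_nonneg p
  have hwt : 0 ≤ 1 - wt S.m p := by linarith [wt_le_one S.m p]
  by_cases hp : p + D ≤ S.m
  · have h1 : Ev p (fun Q => S.f Q * chiDeep S.m D Q.card * Dn S.H Q)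
        ≤ Ev p (fun Q => 7 * Cw / Real.sqrt S.m * S.f Q) := by
      apply Ev_mono
      intro Q hQ
      have hchi : chiDeep S.m D Q.card = 1 := by
        unfold chiDeep
        rw [hQ, if_pos hp]
      rw [hchi, mul_one]
      by_cases hf : S.f Q = 0
      · rw [hf]; simp
      · have h2 := S.DH_small hR (S.mem_of_f hf)
        have h3 : max ((Q.card : ℝ) - S.m) 0 = 0 := by
          apply max_eq_right
          rw [hQ]
          have : (p : ℝ) ≤ S.m := by exact_mod_cast (by omega : p ≤ S.m)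
          linarith
        rw [h3, zero_div, add_zero] at h2
        have h4 : 7 * Cw * (1 / Real.sqrt S.m) = 7 * Cw / Real.sqrt S.m := by ring
        rw [h4] at h2
        rw [mul_comm]
        exact mul_le_mul_of_nonneg_right h2 (S.f_nonneg Q)
    rw [Ev_const_mul] at h1
    have h5 : (1 : ℝ) / 16 ≤ 1 - wt S.m p := by
      refine le_trans ?_ (one_sub_wt_ge hm1 p)
      have h6 : (1 : ℝ) / 4 ≤ min 1 (((p : ℝ) - S.m) ^ 2 / S.m) := by
        apply le_min (by norm_num)
        rw [le_div_iff₀ hm0]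
        have h7 : (D : ℝ) ≤ S.m - p := by
          have : ((p + D : ℕ) : ℝ) ≤ S.m := by exact_mod_cast hp
          push_cast at this
          linarith
        have h8 : (0 : ℝ) ≤ D := Nat.cast_nonneg D
        nlinarith
      linarith
    have h9 : S.ph p ≤ 16 * ((1 - wt S.m p) * S.ph p) := by
      nlinarith [mul_le_mul_of_nonneg_right h5 hph]
    calc Ev p (fun Q => S.f Q * chiDeep S.m D Q.card * Dn S.H Q)
        ≤ 7 * Cw / Real.sqrt S.m * S.ph p := h1
      _ ≤ 7 * Cw / Real.sqrt S.m * (16 * ((1 - wt S.m p) * S.ph p)) :=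
        mul_le_mul_of_nonneg_left h9 hc
      _ = 112 * Cw / Real.sqrt S.m * ((1 - wt S.m p) * S.ph p) := by ring
  · have h1 : Ev p (fun Q => S.f Q * chiDeep S.m D Q.card * Dn S.H Q) = Ev (α := α) p (fun _ => 0 * (0 : ℝ)) := by
      apply Ev_congr
      intro Q hQ
      unfold chiDeep
      rw [hQ, if_neg hp]
      ring
    rw [h1, Ev_const_mul, zero_mul]
    positivity

end UF
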