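import Pool.Agent.UF.Base
import Pool.Agent.UF.Jm4b
import Pool.Agent.UF.Ju2

set_option autoImplicit false
set_option linter.unusedSectionVars false
set_option linter.unusedVariables false
open Finset

namespace UF
variable {α : Type*} [Fintype α] [DecidableEq α]

theorem centre_exists (F : Finset (Finset α))
    (hF : ∀ A ∈ F, ∀ B ∈ F, ∀ C ∈ F, A ≠ B → A ≠ C → B ≠ C → A ∪ B ≠ C)
    (C : Finset α) (hC : C ∈ F) (hne : C.Nonempty) : ∃ z, Centre F C z := by
  classical
  have hmono : ∀ A B : Finset α, A ⊆ B → xi F C (C \ A) → xi F C (C \ B) := by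
    rintro A B hAB ⟨D, hD, h1, h2⟩
    exact ⟨D, hD, (Finset.sdiff_subset_sdiff (Finset.Subset.refl C) hAB).trans h1, h2⟩
  have hint : ∀ A B : Finset α, xi F C (C \ A) → xi F C (C \ B) → (A ∩ B).Nonempty := by
    rintro A B ⟨D, hD, h1, h2⟩ ⟨E, hE, h3, h4⟩
    by_contra hcon
    rw [Finset.not_nonempty_iff_eq_empty] at hcon
    have hun : D ∪ E = C := by
      apply Finset.Subset.antisymm
      · exact Finset.union_subset h2.subset h4.subset
      · intro x hx
        by_cases hA : x ∈ A
        · have hB : x ∉ B := fun hB => by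
            have : x ∈ A ∩ B := Finset.mem_inter.2 ⟨hA, hB⟩
            rw [hcon] at this
            exact absurd this (Finset.notMem_empty x)
          exact Finset.mem_union_right _ (h3 (Finset.mem_sdiff.2 ⟨hx, hB⟩))
        · exact Finset.mem_union_left _ (h1 (Finset.mem_sdiff.2 ⟨hx, hA⟩))
    have hDE : D ≠ E := by
      rintro rfl
      rw [Finset.union_self] at hun
      exact h2.ne hun
    exact hF D hD E hE C hC hDE h2.ne h4.ne hun
  obtain ⟨z, hz, H⟩ := exists_centre C hne (fun V => xi F C (C \ V)) hmono hint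
  refine ⟨z, hz, fun q h0 h1 => ?_⟩
  have := H q h0 h1
  refine le_trans (le_of_eq ?_) this
  refine mu_congr _ fun V _ => ?_
  unfold xiR
  by_cases h : xi F C (C \ V)
  · simp [h]
  · simp [h]

end UF
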