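import Pool.Agent.UF.Base

set_option autoImplicit false
set_option linter.unusedSectionVars false
set_option linter.unusedVariables false
open Finset

namespace UF
variable {α : Type*} [Fintype α] [DecidableEq α]

theorem chi_top_deep (m K s : ℕ) : chiTop m K s + chiDeep m K s = 1 := by
  unfold chiTop chiDeep
  by_cases h : m < s + K
  · rw [if_pos h, if_neg (by omega)]; norm_num
  · rw [if_neg h, if_pos (by omega)]; norm_num

theorem chi_deep_step (m D s : ℕ) : chiDeep m D s = chiB m D s + chiDeep m (2 * D) s := by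
  unfold chiB chiDeep
  by_cases h : s + D ≤ m
  · by_cases h' : m < s + 2 * D
    · rw [if_pos h, if_pos ⟨h', h⟩, if_neg (by omega)]; norm_num
    · rw [if_pos h, if_neg (fun hh => h' hh.1), if_pos (by omega)]; norm_num
  · rw [if_neg h, if_neg (fun hh => h hh.2), if_neg (by omega)]; norm_num

theorem Sys.Gc_add (S : Sys α) (χ χ' : ℕ → ℝ) : S.Gc (fun s => χ s + χ' s) = S.Gc χ + S.Gc χ' := by
  unfold Sys.Gc
  rw [← Finset.sum_add_distrib]
  apply Finset.sum_congr rfl
  intro p _
  rw [← Ev_add]
  apply Ev_congr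
  intro P _
  ring

theorem Sys.Gc_one (S : Sys α) : S.Gc (fun _ => 1) = S.G := by
  unfold Sys.Gc Sys.G
  apply Finset.sum_congr rfl
  intro p _
  apply Ev_congr
  intro P _
  ring

theorem Sys.Gc_partition (S : Sys α) {K : ℕ} (hK : 1 ≤ K) (I : ℕ) :
    S.G = S.Gc (chiTop S.m K) + ∑ i ∈ range I, S.Gc (chiB S.m (2 ^ i * K))
      + S.Gc (chiDeep S.m (2 ^ I * K)) := by
  induction I with
  | zero =>
    rw [Finset.sum_range_zero, add_zero, pow_zero, one_mul, ← S.Gc_add, ← S.Gc_one]
    congr 1
    funext s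
    exact (chi_top_deep S.m K s).symm
  | succ I ih =>
    rw [Finset.sum_range_succ, ih]
    have h1 : S.Gc (chiDeep S.m (2 ^ I * K)) = S.Gc (chiB S.m (2 ^ I * K)) + S.Gc (chiDeep S.m (2 ^ (I + 1) * K)) := by
      rw [← S.Gc_add]
      congr 1
      funext s
      have : 2 ^ (I + 1) * K = 2 * (2 ^ I * K) := by ring
      rw [this]
      exact chi_deep_step _ _ _
    rw [h1]
    ring

end UF
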