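import Pool.Agent.UF.Base

set_option autoImplicit false
set_option linter.unusedSectionVars false
set_option linter.unusedVariables false
open Finset

namespace UF
variable {α : Type*} [Fintype α] [DecidableEq α]

/-- elementary sums over the blocks -/
theorem sum_inv_sq_le (I : ℕ) : ∑ i ∈ range I, 1 / ((i : ℝ) + 1) ^ 2 ≤ 2 := by
  have key : ∀ I : ℕ, ∑ i ∈ range (I + 1), 1 / ((i : ℝ) + 1) ^ 2 ≤ 2 - 1 / ((I : ℝ) + 1) := by
    intro I
    induction I with
    | zero => norm_num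
    | succ I ih =>
      rw [Finset.sum_range_succ]
      have h1 : 1 / (((I + 1 : ℕ) : ℝ) + 1) ^ 2 ≤ 1 / ((I : ℝ) + 1) - 1 / (((I + 1 : ℕ) : ℝ) + 1) := by
        push_cast
        rw [div_sub_div _ _ (by positivity) (by positivity), div_le_div_iff₀ (by positivity)
          (by positivity)]
        nlinarith [(Nat.cast_nonneg I : (0 : ℝ) ≤ I)]
      linarith
  cases I with
  | zero => simp
  | succ I =>
    have := key I
    have h : 0 ≤ 1 / ((I : ℝ) + 1) := by positivity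
    linarith

theorem sq_le_four_two_pow (i : ℕ) : ((i : ℝ) + 1) ^ 2 ≤ 4 * 2 ^ i := by
  have key : ∀ k : ℕ, (((k + 2 : ℕ) : ℝ) + 1) ^ 2 ≤ 4 * 2 ^ (k + 2) := by
    intro k
    induction k with
    | zero => norm_num
    | succ k ih =>
      push_cast at ih ⊢
      rw [show k + 1 + 2 = (k + 2) + 1 by ring, pow_succ (2 : ℝ) (k + 2)]
      nlinarith [(Nat.cast_nonneg k : (0 : ℝ) ≤ k)]
  rcases i with _ | _ | i
  · norm_num
  · norm_num
  · exact key i

theorem sum_sq_div_sqrt_le (I : ℕ) :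
    ∑ i ∈ range I, ((i : ℝ) + 1) ^ 2 / Real.sqrt (2 ^ i) ≤ 100 := by
  set x : ℝ := 1 / Real.sqrt 2 with hx
  have hs0 : 0 < Real.sqrt 2 := Real.sqrt_pos.2 (by norm_num)
  have hx0 : 0 < x := by positivity
  have hx1 : x ≤ 0.7072 := by
    rw [hx, div_le_iff₀ hs0]
    have : (1.41405 : ℝ) ≤ Real.sqrt 2 := by
      apply Real.le_sqrt_of_sq_le
      norm_num
    linarith
  have hsq : ∀ i : ℕ, Real.sqrt (2 ^ i) = (Real.sqrt 2) ^ i := by
    intro i
    rw [show (2 : ℝ) ^ i = ((Real.sqrt 2) ^ i) ^ 2 by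
      rw [← pow_mul, mul_comm, pow_mul, Real.sq_sqrt (by norm_num)]]
    exact Real.sqrt_sq (by positivity)
  have hterm : ∀ i : ℕ, ((i : ℝ) + 1) ^ 2 / Real.sqrt (2 ^ i) = ((i : ℝ) + 1) ^ 2 * x ^ i := by
    intro i
    rw [hsq, hx, one_div, inv_pow]
    rfl
  simp_rw [hterm]
  have key : ∀ I : ℕ, ∑ i ∈ range I, ((i : ℝ) + 1) ^ 2 * x ^ i ≤
      100 - (4 * (I : ℝ) ^ 2 + 27 * I + 90) * x ^ I := by
    intro I
    induction I with
    | zero => norm_num
    | succ I ih =>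
      rw [Finset.sum_range_succ]
      have hI : (0 : ℝ) ≤ I := Nat.cast_nonneg I
      have h1 : (0 : ℝ) < x ^ I := by positivity
      have h2 : ((I : ℝ) + 1) ^ 2 + x * (4 * ((I : ℝ) + 1) ^ 2 + 27 * (I + 1) + 90) ≤
          4 * (I : ℝ) ^ 2 + 27 * I + 90 := by
        have h3 : x * (4 * ((I : ℝ) + 1) ^ 2 + 27 * (I + 1) + 90) ≤
            0.7072 * (4 * ((I : ℝ) + 1) ^ 2 + 27 * (I + 1) + 90) :=
          mul_le_mul_of_nonneg_right hx1 (by positivity)
        nlinarith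
      have h4 := mul_le_mul_of_nonneg_right h2 h1.le
      push_cast
      rw [pow_succ x I]
      nlinarith
  refine (key I).trans ?_
  have : 0 ≤ (4 * (I : ℝ) ^ 2 + 27 * I + 90) * x ^ I := by positivity
  linarith

theorem index_small {I m K : ℕ} (hK : 1 ≤ K) (h : (2 : ℕ) ^ I * K ≤ Nat.sqrt m) (hm : 1 ≤ m) :
    (I : ℝ) / Real.sqrt m ≤ 4 / Real.sqrt (Real.sqrt m) := by
  have h1 : (2 : ℕ) ^ I ≤ Nat.sqrt m := (Nat.le_mul_of_pos_right _ hK).trans h
  have h2 : ((2 : ℝ)) ^ I ≤ Real.sqrt m := by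
    have h3 : (((2 : ℕ) ^ I : ℕ) : ℝ) ≤ (Nat.sqrt m : ℝ) := by exact_mod_cast h1
    push_cast at h3
    exact h3.trans (Real.nat_sqrt_le_real_sqrt)
  set s := Real.sqrt m with hs
  have hs1 : 1 ≤ s := (one_le_pow₀ (by norm_num : (1 : ℝ) ≤ 2)).trans h2
  have hs0 : 0 < s := by linarith
  have hr0 : 0 < Real.sqrt s := Real.sqrt_pos.2 hs0
  have hr : Real.sqrt s * Real.sqrt s = s := Real.mul_self_sqrt hs0.le
  have h4 := sq_le_four_two_pow I
  have h5 : (I : ℝ) ≤ 2 * Real.sqrt s := by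
    apply le_of_sq_le_sq _ (by positivity)
    have hI : (0 : ℝ) ≤ I := Nat.cast_nonneg I
    nlinarith
  rw [div_le_div_iff₀ hs0 hr0]
  have : (I : ℝ) * Real.sqrt s ≤ 2 * Real.sqrt s * Real.sqrt s :=
    mul_le_mul_of_nonneg_right h5 hr0.le
  nlinarith

end UF
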