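import Pool.Agent.UF.Base
import Pool.Agent.UF.Js1
import Pool.Agent.UF.Js2
import Pool.Agent.UF.Js3
import Pool.Agent.UF.Jt11
import Pool.Agent.UF.Jt14
import Pool.Agent.UF.Jt15
import Pool.Agent.UF.Jt16
import Pool.Agent.UF.Jt17
import Pool.Agent.UF.Jv1
import Pool.Agent.UF.Jv2
import Pool.Agent.UF.Jw3

set_option autoImplicit false
set_option linter.unusedSectionVars false
set_option linter.unusedVariables false
open Finset

namespace UF
variable {α : Type*} [Fintype α] [DecidableEq α]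

/-! helper lemmas -/

theorem V3_part (m K I s : ℕ) :
    chiTop m K s + ∑ i ∈ range I, chiB m (2 ^ i * K) s + chiDeep m (2 ^ I * K) s = 1 := by
  induction I with
  | zero =>
    simp only [range_zero, sum_empty, pow_zero, one_mul, add_zero]
    unfold chiTop chiDeep
    by_cases h : m < s + K
    · rw [if_pos h, if_neg (by omega)]; norm_num
    · rw [if_neg h, if_pos (by omega)]; norm_num
  | succ I ih =>
    rw [sum_range_succ]
    have h1 : chiB m (2 ^ I * K) s + chiDeep m (2 ^ (I + 1) * K) s = chiDeep m (2 ^ I * K) s := by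
      unfold chiB chiDeep
      have e : 2 ^ (I + 1) * K = 2 * (2 ^ I * K) := by ring
      rw [e]
      generalize 2 ^ I * K = β
      by_cases h : s + β ≤ m
      · by_cases h' : m < s + 2 * β
        · rw [if_pos ⟨h', h⟩, if_neg (by omega), if_pos h]; norm_num
        · rw [if_neg (by tauto), if_pos (by omega), if_pos h]; norm_num
      · rw [if_neg (by tauto), if_neg (by omega), if_neg h]; norm_num
    linarith

theorem V3_top_nonneg (m K s : ℕ) : 0 ≤ chiTop m K s := by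
  unfold chiTop; split_ifs <;> norm_num

theorem V3_top_le (m K s : ℕ) : chiTop m K s ≤ 1 := by
  unfold chiTop; split_ifs <;> norm_num

theorem V3_B_nonneg (m K s : ℕ) : 0 ≤ chiB m K s := by
  unfold chiB; split_ifs <;> norm_num

theorem V3_B_le (m K s : ℕ) : chiB m K s ≤ 1 := by
  unfold chiB; split_ifs <;> norm_num

theorem V3_deep_nonneg (m K s : ℕ) : 0 ≤ chiDeep m K s := by
  unfold chiDeep; split_ifs <;> norm_num

theorem V3_sum (m K I N : ℕ) (g : ℕ → ℝ) (hg : ∀ s, 0 ≤ g s) :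
    ∑ s ∈ range N, chiTop m K s * g s + ∑ i ∈ range I, ∑ s ∈ range N, chiB m (2 ^ i * K) s * g s
      ≤ ∑ s ∈ range N, g s := by
  rw [sum_comm, ← sum_add_distrib]
  apply sum_le_sum
  intro s _
  rw [← sum_mul, ← add_mul]
  have h1 := V3_part m K I s
  have h2 := V3_deep_nonneg m (2 ^ I * K) s
  have h3 := hg s
  have h4 : chiTop m K s + ∑ i ∈ range I, chiB m (2 ^ i * K) s ≤ 1 := by linarith
  calc _ ≤ 1 * g s := mul_le_mul_of_nonneg_right h4 h3
    _ = g s := one_mul _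

theorem V3_sumB (m K I N : ℕ) (g : ℕ → ℝ) (hg : ∀ s, 0 ≤ g s) :
    ∑ i ∈ range I, ∑ s ∈ range N, chiB m (2 ^ i * K) s * g s ≤ ∑ s ∈ range N, g s := by
  have h1 := V3_sum m K I N g hg
  have h2 : 0 ≤ ∑ s ∈ range N, chiTop m K s * g s :=
    sum_nonneg (fun s _ => mul_nonneg (V3_top_nonneg _ _ _) (hg s))
  linarith

/-- on the block of scale `β` the distance to the middle is at least `β` -/
theorem V3_block (m β s : ℕ) (hm : 0 < m) (p : ℝ) (hp : 0 ≤ p) :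
    (β : ℝ) / m * (chiB m β s * p) ≤ chiB m β s * (|(s : ℝ) - m| / m * p) := by
  have hm' : (0 : ℝ) < m := by exact_mod_cast hm
  unfold chiB
  split_ifs with h
  · have h1 : (s : ℝ) + β ≤ m := by exact_mod_cast h.2
    have h2 : (β : ℝ) ≤ |(s : ℝ) - m| := by
      rw [abs_sub_comm]
      exact le_trans (by linarith) (le_abs_self _)
    rw [one_mul, one_mul]
    apply mul_le_mul_of_nonneg_right _ hp
    exact div_le_div_of_nonneg_right h2 hm'.le
  · simp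

/-- choice of the number of blocks -/
theorem V3_I (m K : ℕ) (hK4 : 4 ≤ K) (hK : 18 * K ^ 2 ≤ m) :
    ∃ I : ℕ, 2 ^ I * K ≤ Nat.sqrt m ∧ m ≤ 4 * (2 ^ I * K) ^ 2 := by
  have hKs : K ≤ Nat.sqrt m := by
    rw [Nat.le_sqrt]
    nlinarith
  have hq : Nat.sqrt m / K ≠ 0 := by
    have := Nat.div_pos hKs (by omega)
    omega
  refine ⟨Nat.log 2 (Nat.sqrt m / K), ?_, ?_⟩
  · have h1 := Nat.pow_log_le_self 2 hq
    calc 2 ^ Nat.log 2 (Nat.sqrt m / K) * K ≤ Nat.sqrt m / K * K := Nat.mul_le_mul_right _ h1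
      _ ≤ Nat.sqrt m := Nat.div_mul_le_self _ _
  · have h1 : Nat.sqrt m / K < 2 ^ (Nat.log 2 (Nat.sqrt m / K) + 1) :=
      Nat.lt_pow_succ_log_self (by norm_num) _
    have h2 : Nat.sqrt m < 2 ^ (Nat.log 2 (Nat.sqrt m / K) + 1) * K := by
      rwa [Nat.div_lt_iff_lt_mul (by omega)] at h1
    have h3 : Nat.sqrt m + 1 ≤ 2 * (2 ^ Nat.log 2 (Nat.sqrt m / K) * K) := by
      rw [pow_succ] at h2
      nlinarith
    have h4 := Nat.lt_succ_sqrt m
    rw [Nat.succ_eq_add_one] at h4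
    generalize 2 ^ Nat.log 2 (Nat.sqrt m / K) * K = D at h3
    generalize Nat.sqrt m = q at h3 h4
    nlinarith

/-- final numerical comparison -/
theorem V3_num (C T cost nu G m h K L sK ssm sm : ℝ) (hC : 1 ≤ C) (hT : 0 ≤ T) (hcost : 0 ≤ cost)
    (hnu : 0 ≤ nu) (hG : 0 ≤ G) (hm : 1 ≤ m) (hh : 0 ≤ h) (hhm : h ≤ m) (hK : 4 ≤ K) (hL : 1 ≤ L)
    (hsK : 2 ≤ sK) (hsK2 : sK ^ 2 = K) (hssm : 1 ≤ ssm) (hssm2 : ssm ^ 2 = sm) :
    (G ≤ 1 / 16 * cost + 20000 * C * (2 * (T / m) + 4 * (h / m) ^ 2 * cost)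
      + 9 * (L / m * T + 4 * (1 / L + h / m) * cost) + 6 * K / m * T
      + 100000000000 * C ^ 2 * ((1 + T) / m + ((h / m) ^ 2 + 1 / K + 1 / sm) * (cost + nu))
      + 10000000000000 * C ^ 2 * (64 / K * cost + T / m + 4 / ssm * (cost + nu)
          + 400 / sK * ((1 + T) / m + cost + nu + G))
      + 112 * C / sm * cost) →
    G ≤ 1 / 16 * cost
      + 10 ^ 16 * C ^ 2 * (h / m + 1 / L + 1 / sK + 1 / ssm) * (cost + nu + G)
      + 10 ^ 16 * C ^ 2 * (K + L) * ((1 + T) / m) := by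
  have hm0 : 0 < m := by linarith
  obtain ⟨A, hA⟩ : ∃ A, A = (1 + T) / m := ⟨_, rfl⟩
  obtain ⟨η, hη⟩ : ∃ η, η = h / m := ⟨_, rfl⟩
  obtain ⟨X, hX⟩ : ∃ X, X = cost + nu + G := ⟨_, rfl⟩
  obtain ⟨P, hP⟩ : ∃ P, P = C ^ 2 := ⟨_, rfl⟩
  have hP1 : 1 ≤ P := by rw [hP]; nlinarith
  have hCP : C ≤ P := by rw [hP]; nlinarith
  have hA0 : 0 ≤ A := by rw [hA]; positivity
  have hTA : T / m ≤ A := by
    rw [hA]
    apply div_le_div_of_nonneg_right _ hm0.le
    linarith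
  have hTm0 : 0 ≤ T / m := by positivity
  have hη0 : 0 ≤ η := by rw [hη]; positivity
  have hη1 : η ≤ 1 := by rw [hη, div_le_one hm0]; exact hhm
  have hη2 : η ^ 2 ≤ η := by nlinarith
  have hX0 : 0 ≤ X := by rw [hX]; linarith
  have hcX : cost ≤ X := by rw [hX]; linarith
  have hcnX : cost + nu ≤ X := by rw [hX]; linarith
  obtain ⟨a, ha⟩ : ∃ a, a = 1 / sK := ⟨_, rfl⟩
  obtain ⟨b, hb⟩ : ∃ b, b = 1 / ssm := ⟨_, rfl⟩
  obtain ⟨l, hl⟩ : ∃ l, l = 1 / L := ⟨_, rfl⟩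
  have ha0 : 0 ≤ a := by rw [ha]; positivity
  have hb0 : 0 ≤ b := by rw [hb]; positivity
  have hl0 : 0 ≤ l := by rw [hl]; positivity
  have ha1 : a ≤ 1 / 2 := by
    rw [ha]
    exact one_div_le_one_div_of_le (by norm_num) hsK
  have hKa : 1 / K ≤ a := by
    rw [ha, ← hsK2]
    apply one_div_le_one_div_of_le (by linarith)
    nlinarith
  have hsb : 1 / sm ≤ b := by
    rw [hb, ← hssm2]
    apply one_div_le_one_div_of_le (by linarith)
    nlinarith
  have hK0 : 0 ≤ 1 / K := by positivity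
  have hs0 : 0 ≤ 1 / sm := by rw [← hssm2]; positivity
  -- bounds of the pieces
  obtain ⟨PA, hPAe⟩ : ∃ PA, PA = P * A := ⟨_, rfl⟩
  obtain ⟨PAK, hPAKe⟩ : ∃ PAK, PAK = P * A * K := ⟨_, rfl⟩
  obtain ⟨PAL, hPALe⟩ : ∃ PAL, PAL = P * A * L := ⟨_, rfl⟩
  obtain ⟨Xη, hXηe⟩ : ∃ Xη, Xη = P * X * η := ⟨_, rfl⟩
  obtain ⟨Xl, hXle⟩ : ∃ Xl, Xl = P * X * l := ⟨_, rfl⟩
  obtain ⟨Xa, hXae⟩ : ∃ Xa, Xa = P * X * a := ⟨_, rfl⟩
  obtain ⟨Xb, hXbe⟩ : ∃ Xb, Xb = P * X * b := ⟨_, rfl⟩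
  have e1 : 20000 * C * (2 * (T / m) + 4 * (h / m) ^ 2 * cost) ≤ 40000 * PA + 80000 * Xη := by
    rw [← hη]
    have t1 : C * (T / m) ≤ P * A := mul_le_mul hCP hTA hTm0 (by linarith)
    have t2 : C * (η ^ 2 * cost) ≤ P * (η * X) :=
      mul_le_mul hCP (mul_le_mul hη2 hcX hcost hη0) (by positivity) (by linarith)
    calc 20000 * C * (2 * (T / m) + 4 * η ^ 2 * cost) = 40000 * (C * (T / m)) + 80000 * (C * (η ^ 2 * cost)) := by
          ring
      _ ≤ 40000 * (P * A) + 80000 * (P * (η * X)) := by linarith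
      _ = 40000 * PA + 80000 * Xη := by rw [hPAe, hXηe]; ring
  have e2 : 9 * (L / m * T + 4 * (1 / L + h / m) * cost) ≤ 9 * PAL + 36 * (Xl + Xη) := by
    rw [← hη, ← hl]
    have t2 : L * (T / m) ≤ L * A := mul_le_mul_of_nonneg_left hTA (by linarith)
    have t3 : L * A ≤ P * (L * A) := by
      have h0 : 0 ≤ L * A := mul_nonneg (by linarith) hA0
      calc L * A = 1 * (L * A) := (one_mul _).symm
        _ ≤ P * (L * A) := mul_le_mul_of_nonneg_right hP1 h0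
    have t4 : (l + η) * cost ≤ (l + η) * X := mul_le_mul_of_nonneg_left hcX (by linarith)
    have t5 : (l + η) * X ≤ P * ((l + η) * X) := by
      have h0 : 0 ≤ (l + η) * X := mul_nonneg (by linarith) hX0
      calc (l + η) * X = 1 * ((l + η) * X) := (one_mul _).symm
        _ ≤ P * ((l + η) * X) := mul_le_mul_of_nonneg_right hP1 h0
    calc 9 * (L / m * T + 4 * (l + η) * cost) = 9 * (L * (T / m)) + 36 * ((l + η) * cost) := by ring
      _ ≤ 9 * (P * (L * A)) + 36 * (P * ((l + η) * X)) := by linarith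
      _ = _ := by rw [hPALe, hXle, hXηe]; ring
  have e3 : 6 * K / m * T ≤ 6 * PAK := by
    have t2 : K * (T / m) ≤ K * A := mul_le_mul_of_nonneg_left hTA (by linarith)
    have t3 : K * A ≤ P * (K * A) := by
      have h0 : 0 ≤ K * A := mul_nonneg (by linarith) hA0
      calc K * A = 1 * (K * A) := (one_mul _).symm
        _ ≤ P * (K * A) := mul_le_mul_of_nonneg_right hP1 h0
    calc 6 * K / m * T = 6 * (K * (T / m)) := by ring
      _ ≤ 6 * (P * (K * A)) := by linarith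
      _ = _ := by rw [hPAKe]; ring
  have e4 : 100000000000 * C ^ 2 * ((1 + T) / m + ((h / m) ^ 2 + 1 / K + 1 / sm) * (cost + nu)) ≤
      100000000000 * PA + 100000000000 * (Xη + Xa + Xb) := by
    rw [← hη, ← hA, ← hP]
    have t1 : (η ^ 2 + 1 / K + 1 / sm) * (cost + nu) ≤ (η + a + b) * X :=
      mul_le_mul (by linarith) hcnX (by linarith) (by linarith)
    have t2 : P * ((η ^ 2 + 1 / K + 1 / sm) * (cost + nu)) ≤ P * ((η + a + b) * X) :=
      mul_le_mul_of_nonneg_left t1 (by linarith)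
    calc 100000000000 * P * (A + (η ^ 2 + 1 / K + 1 / sm) * (cost + nu)) =
        100000000000 * (P * A) + 100000000000 * (P * ((η ^ 2 + 1 / K + 1 / sm) * (cost + nu))) := by ring
      _ ≤ 100000000000 * (P * A) + 100000000000 * (P * ((η + a + b) * X)) := by linarith
      _ = _ := by rw [hPAe, hXηe, hXae, hXbe]; ring
  have e5 : 10000000000000 * C ^ 2 * (64 / K * cost + T / m + 4 / ssm * (cost + nu)
          + 400 / sK * ((1 + T) / m + cost + nu + G)) ≤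
      2010000000000000 * PA + 10000000000000 * (464 * Xa + 4 * Xb) := by
    rw [← hA, ← hP]
    have t1 : 64 / K * cost ≤ 64 * a * X := by
      have : 64 / K = 64 * (1 / K) := by ring
      rw [this]
      exact mul_le_mul (by linarith) hcX hcost (by linarith)
    have t2 : 4 / ssm * (cost + nu) ≤ 4 * b * X := by
      have : 4 / ssm = 4 * b := by rw [hb]; ring
      rw [this]
      exact mul_le_mul_of_nonneg_left hcnX (by linarith)
    have t3 : 400 / sK * (A + cost + nu + G) ≤ 200 * A + 400 * a * X := by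
      have e : 400 / sK = 400 * a := by rw [ha]; ring
      have e' : A + cost + nu + G = A + X := by rw [hX]; ring
      rw [e, e']
      have t6 : a * A ≤ 1 / 2 * A := mul_le_mul_of_nonneg_right ha1 hA0
      calc 400 * a * (A + X) = 400 * (a * A) + 400 * a * X := by ring
        _ ≤ 400 * (1 / 2 * A) + 400 * a * X := by linarith
        _ = _ := by ring
    have t4 : 64 / K * cost + T / m + 4 / ssm * (cost + nu) + 400 / sK * (A + cost + nu + G) ≤
        201 * A + (464 * a + 4 * b) * X := by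
      have : (464 * a + 4 * b) * X = 64 * a * X + 4 * b * X + 400 * a * X := by ring
      linarith
    calc _ ≤ 10000000000000 * P * (201 * A + (464 * a + 4 * b) * X) :=
          mul_le_mul_of_nonneg_left t4 (by linarith)
      _ = _ := by rw [hPAe, hXae, hXbe]; ring
  have e6 : 112 * C / sm * cost ≤ 112 * Xb := by
    have t2 : C * ((1 / sm) * cost) ≤ P * (b * X) :=
      mul_le_mul hCP (mul_le_mul hsb hcX hcost hb0) (by positivity) (by linarith)
    calc 112 * C / sm * cost = 112 * (C * ((1 / sm) * cost)) := by ring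
      _ ≤ 112 * (P * (b * X)) := by linarith
      _ = _ := by rw [hXbe]; ring
  have hPA : 0 ≤ PA := by rw [hPAe]; exact mul_nonneg (by linarith) hA0
  have hPX : 0 ≤ P * X := mul_nonneg (by linarith) hX0
  have f1 : 4 * PA ≤ PAK := by
    rw [hPAKe, ← hPAe, mul_comm PA K]
    exact mul_le_mul_of_nonneg_right hK hPA
  have f2 : PA ≤ PAL := by
    rw [hPALe, ← hPAe]
    exact le_mul_of_one_le_right hPA hL
  have f3 : 0 ≤ Xη := by rw [hXηe]; exact mul_nonneg hPX hη0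
  have f4 : 0 ≤ Xl := by rw [hXle]; exact mul_nonneg hPX hl0
  have f5 : 0 ≤ Xa := by rw [hXae]; exact mul_nonneg hPX ha0
  have f6 : 0 ≤ Xb := by rw [hXbe]; exact mul_nonneg hPX hb0
  have g1 : 10 ^ 16 * C ^ 2 * (h / m + 1 / L + 1 / sK + 1 / ssm) * (cost + nu + G) =
      10000000000000000 * (Xη + Xl + Xa + Xb) := by
    rw [← hη, ← hl, ← ha, ← hb, ← hX, ← hP, hXηe, hXle, hXae, hXbe]
    ring
  have g2 : 10 ^ 16 * C ^ 2 * (K + L) * ((1 + T) / m) = 10000000000000000 * (PAK + PAL) := by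
    rw [← hA, ← hP, hPAKe, hPALe]
    ring
  rw [g1, g2]
  intro hGle
  clear * - e1 e2 e3 e4 e5 e6 f1 f2 f3 f4 f5 f6 hPA hGle
  linarith

set_option maxHeartbeats 4000000 in
theorem Sys.G_ineq (S : Sys α) (hR : S.Reg) {K : ℕ} (hK4 : 4 ≤ K)
    (hK : 18 * (K : ℝ) ^ 2 ≤ S.m) {L : ℝ} (hL : 1 ≤ L) :
    S.G ≤ 1 / 16 * S.cost
      + 10 ^ 16 * Cw ^ 2 * ((S.h : ℝ) / S.m + 1 / L + 1 / Real.sqrt K
          + 1 / Real.sqrt (Real.sqrt S.m)) * (S.cost + S.nu + S.G)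
      + 10 ^ 16 * Cw ^ 2 * (K + L) * ((1 + S.T) / S.m) := by
  have hm8 : 100000000 ≤ S.m := hR.1
  have hm0 : 0 < S.m := by omega
  have hmr : (100000000 : ℝ) ≤ S.m := by exact_mod_cast hm8
  have hmpos : (0 : ℝ) < S.m := by linarith
  have hKnat : 18 * K ^ 2 ≤ S.m := by exact_mod_cast hK
  have hKr : (4 : ℝ) ≤ K := by exact_mod_cast hK4
  obtain ⟨I, hI1, hI2⟩ := V3_I S.m K hK4 hKnat
  have hC := one_le_Cw
  have hT := S.T_nonneg
  have hcost := S.cost_nonneg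
  have hnu := S.nu_nonneg
  have hG0 := S.G_nonneg
  have hph := S.ph_nonneg
  obtain ⟨N, hN⟩ : ∃ N, N = 2 * S.m + 1 := ⟨_, rfl⟩
  -- facts on sqrt
  have hsqm : (Nat.sqrt S.m : ℝ) ≤ Real.sqrt S.m := by
    apply Real.le_sqrt_of_sq_le
    have := Nat.sqrt_le' S.m
    exact_mod_cast this
  have hsm1 : 1 ≤ Real.sqrt S.m := by
    rw [Real.one_le_sqrt]
    linarith
  have hssm1 : 1 ≤ Real.sqrt (Real.sqrt S.m) := by
    rw [Real.one_le_sqrt]
    exact hsm1
  have hsm0 : 0 < Real.sqrt S.m := by linarith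
  have hsK : 2 ≤ Real.sqrt K := by
    apply Real.le_sqrt_of_sq_le
    linarith
  have hβ : ∀ i ∈ range I, 2 * (2 ^ i * K) ≤ Nat.sqrt S.m := by
    intro i hi
    rw [mem_range] at hi
    have h1 : 2 ^ (i + 1) ≤ 2 ^ I := Nat.pow_le_pow_right (by norm_num) hi
    calc 2 * (2 ^ i * K) = 2 ^ (i + 1) * K := by ring
      _ ≤ 2 ^ I * K := Nat.mul_le_mul_right _ h1
      _ ≤ Nat.sqrt S.m := hI1
  have hsq4 : 4 ≤ Nat.sqrt S.m := by
    rw [Nat.le_sqrt]
    omega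
  have h4sq : 4 * Nat.sqrt S.m ≤ S.m := by
    have := Nat.sqrt_le S.m
    nlinarith
  have hKs : K ≤ Nat.sqrt S.m := by
    rw [Nat.le_sqrt]
    nlinarith
  have hβr : ∀ i ∈ range I, ((2 ^ i * K : ℕ) : ℝ) ≤ Real.sqrt S.m := by
    intro i hi
    have h1 := hβ i hi
    have h2 : 2 ^ i * K ≤ Nat.sqrt S.m := by omega
    exact le_trans (by exact_mod_cast h2) hsqm
  -- the partition
  have hpart := S.Gc_partition (K := K) (by omega) I
  -- moments
  have hmom1 := S.mom1 hR hL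
  have hmom1' := S.mom1' hR
  have hmom2 := S.mom2 hR
  rw [← hN] at hmom1 hmom1' hmom2
  obtain ⟨M1, hM1⟩ : ∃ M1, M1 = ∑ s ∈ range N, |(s : ℝ) - S.m| / S.m * S.ph s := ⟨_, rfl⟩
  rw [← hM1] at hmom1 hmom1'
  -- top block
  have htop := S.Gc_split hR (V3_top_nonneg S.m K) (V3_top_le S.m K) (c := 1 / 2) (by norm_num)
    (t₁ := S.m - 3 * K) (by omega)
  have htm : (S.m : ℝ) - ((S.m - 3 * K : ℕ) : ℝ) = 3 * K := by
    rw [Nat.cast_sub (by omega)]
    push_cast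
    ring
  rw [htm, ← hN] at htop
  have hFtop := S.Far_top hR hK4 hK
  -- low blocks
  have hlow : ∀ i ∈ range I, S.Gc (chiB S.m (2 ^ i * K)) ≤
      20000 * Cw * ∑ s ∈ range N, chiB S.m (2 ^ i * K) s *
          (S.ph s * (1 / S.m + ((s : ℝ) - S.m) ^ 2 / (S.m : ℝ) ^ 2))
      + ∑ s ∈ range N, chiB S.m (2 ^ i * K) s * (max ((s : ℝ) - S.m) 0 / S.m * S.ph s)
      + 8 * ∑ s ∈ range N, chiB S.m (2 ^ i * K) s * (|(s : ℝ) - S.m| / S.m * S.ph s)
      + 10000000000000 * Cw ^ 2 *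
        (64 / K * (1 / 4 * ∑ s ∈ range N, chiB S.m (2 ^ i * K) s * (|(s : ℝ) - S.m| / S.m * S.ph s))
          + (((2 ^ i * K : ℕ) : ℝ) / Real.sqrt S.m) * (S.T / S.m) + (S.cost + S.nu) / Real.sqrt S.m
          + 4 / Real.sqrt K * (((i : ℝ) + 1) ^ 2 / Real.sqrt (2 ^ i)) *
            ((1 + S.T) / S.m + S.cost + S.nu + S.G))
      + (1 / ((i : ℝ) + 1) ^ 2) / 64 * S.cost := by
    intro i hi
    have hi1 : (0 : ℝ) < ((i : ℝ) + 1) ^ 2 := by positivity
    obtain ⟨c, hc⟩ : ∃ c : ℝ, c = 1 / (4 * ((i : ℝ) + 1) ^ 2) := ⟨_, rfl⟩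
    have hc0 : 0 < c := by rw [hc]; positivity
    have hc1 : c ≤ 1 := by
      rw [hc, div_le_one (by positivity)]
      have : (0 : ℝ) ≤ i := by positivity
      nlinarith
    have h1c : 1 / c = 4 * ((i : ℝ) + 1) ^ 2 := by
      rw [hc, one_div_one_div]
    have hβi := hβ i hi
    have hβi4 : 4 ≤ 2 ^ i * K := by
      have : 1 ≤ 2 ^ i := Nat.one_le_two_pow
      nlinarith
    obtain ⟨β, hβeq⟩ : ∃ β : ℕ, β = 2 ^ i * K := ⟨_, rfl⟩
    have hβrr := hβr i hi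
    rw [← hβeq] at hβi hβi4 hβrr ⊢
    have hs := S.Gc_split hR (V3_B_nonneg S.m β) (V3_B_le S.m β) (c := c) hc0.le
      (t₁ := S.m - 4 * β) (by omega)
    have htm : (S.m : ℝ) - ((S.m - 4 * β : ℕ) : ℝ) = 4 * β := by
      rw [Nat.cast_sub (by omega)]
      push_cast
      ring
    rw [htm, ← hN] at hs
    have hβsq : (β : ℝ) ^ 2 ≤ S.m := by
      have h1 : (β : ℝ) ^ 2 ≤ Real.sqrt S.m ^ 2 := pow_le_pow_left₀ (by positivity) hβrr 2
      rwa [Real.sq_sqrt hmpos.le] at h1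
    have hF := S.Far_low hR hβi4 hβsq hc0 hc1
    rw [← hN] at hF
    obtain ⟨B1, hB1⟩ : ∃ B1, B1 = ∑ s ∈ range N, chiB S.m β s * (|(s : ℝ) - S.m| / S.m * S.ph s) :=
      ⟨_, rfl⟩
    obtain ⟨B0, hB0⟩ : ∃ B0, B0 = ∑ s ∈ range N, chiB S.m β s * S.ph s := ⟨_, rfl⟩
    rw [← hB0] at hs hF
    rw [← hB1]
    have hB01 : (β : ℝ) / S.m * B0 ≤ B1 := by
      rw [hB0, hB1, mul_sum]
      apply sum_le_sum
      intro s _
      exact V3_block S.m β s hm0 (S.ph s) (hph s)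
    have hB0n : 0 ≤ B0 := by
      rw [hB0]
      exact sum_nonneg (fun s _ => mul_nonneg (V3_B_nonneg _ _ _) (hph s))
    have hβK : (β : ℝ) = 2 ^ i * K := by
      rw [hβeq]
      push_cast
      ring
    have n1 : ∑ s ∈ range N, chiB S.m β s * S.ph s * (1 / S.m + ((s : ℝ) - S.m) ^ 2 / (S.m : ℝ) ^ 2) =
        ∑ s ∈ range N, chiB S.m β s * (S.ph s * (1 / S.m + ((s : ℝ) - S.m) ^ 2 / (S.m : ℝ) ^ 2)) := by
      apply sum_congr rfl
      intro s _
      ring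
    have n2 : ∑ s ∈ range N, max ((s : ℝ) - S.m) 0 / S.m * (chiB S.m β s * S.ph s) =
        ∑ s ∈ range N, chiB S.m β s * (max ((s : ℝ) - S.m) 0 / S.m * S.ph s) := by
      apply sum_congr rfl
      intro s _
      ring
    rw [n1, n2] at hs
    have n3 : 4 * (β : ℝ) * (2 / S.m) * B0 ≤ 8 * B1 := by
      have : 4 * (β : ℝ) * (2 / S.m) * B0 = 8 * ((β : ℝ) / S.m * B0) := by ring
      rw [this]
      linarith
    have n4 : 1 / c * (1 / S.m) * B0 ≤ 64 / K * (1 / 4 * B1) := by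
      rw [h1c]
      have h5 := sq_le_four_two_pow i
      have h6 : 4 * ((i : ℝ) + 1) ^ 2 ≤ 16 * (β / K) := by
        rw [hβK]
        have : (2 : ℝ) ^ i * K / K = 2 ^ i := by field_simp
        rw [this]
        linarith
      calc 4 * ((i : ℝ) + 1) ^ 2 * (1 / S.m) * B0 ≤ 16 * (β / K) * (1 / S.m) * B0 := by
            gcongr
        _ = 16 / K * ((β : ℝ) / S.m * B0) := by ring
        _ ≤ 16 / K * B1 := mul_le_mul_of_nonneg_left hB01 (by positivity)
        _ = _ := by ring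
    have n5 : 1 / (c * Real.sqrt β) = 4 / Real.sqrt K * (((i : ℝ) + 1) ^ 2 / Real.sqrt (2 ^ i)) := by
      rw [hβK, Real.sqrt_mul (by positivity), hc]
      have h6 : 0 < Real.sqrt (2 ^ i) := Real.sqrt_pos.2 (by positivity)
      have h7 : 0 < Real.sqrt K := by linarith
      field_simp
    rw [n5] at hF
    have hF2 : S.Far (chiB S.m β) c (S.m - 4 * β) ≤ 10000000000000 * Cw ^ 2 *
        (64 / K * (1 / 4 * B1)
          + ((β : ℝ) / Real.sqrt S.m) * (S.T / S.m) + (S.cost + S.nu) / Real.sqrt S.m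
          + 4 / Real.sqrt K * (((i : ℝ) + 1) ^ 2 / Real.sqrt (2 ^ i)) *
            ((1 + S.T) / S.m + S.cost + S.nu + S.G)) := by
      refine hF.trans ?_
      apply mul_le_mul_of_nonneg_left _ (by positivity)
      linarith
    have n6 : c / 16 * S.cost = (1 / ((i : ℝ) + 1) ^ 2) / 64 * S.cost := by
      rw [hc]
      field_simp
      ring
    rw [n6] at hs
    linarith
  -- sum up the low blocks
  have hlows := sum_le_sum hlow
  rw [sum_add_distrib, sum_add_distrib, sum_add_distrib, sum_add_distrib, ← mul_sum, ← mul_sum,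
    ← mul_sum, ← sum_mul, ← sum_div, sum_add_distrib, sum_add_distrib, sum_add_distrib, ← mul_sum,
    ← mul_sum, ← sum_mul, ← sum_div, sum_const, ← sum_mul, ← mul_sum, card_range, nsmul_eq_mul] at hlows
  obtain ⟨Q0, hQ0⟩ : ∃ Q0, Q0 = ∑ i ∈ range I, ∑ s ∈ range N, chiB S.m (2 ^ i * K) s *
      (S.ph s * (1 / S.m + ((s : ℝ) - S.m) ^ 2 / (S.m : ℝ) ^ 2)) := ⟨_, rfl⟩
  obtain ⟨Q1, hQ1⟩ : ∃ Q1, Q1 = ∑ i ∈ range I, ∑ s ∈ range N, chiB S.m (2 ^ i * K) s *
      (max ((s : ℝ) - S.m) 0 / S.m * S.ph s) := ⟨_, rfl⟩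
  obtain ⟨Q2, hQ2⟩ : ∃ Q2, Q2 = ∑ i ∈ range I, ∑ s ∈ range N, chiB S.m (2 ^ i * K) s *
      (|(s : ℝ) - S.m| / S.m * S.ph s) := ⟨_, rfl⟩
  rw [← hQ0, ← hQ1, ← hQ2] at hlows
  have n1 : ∑ s ∈ range N, chiTop S.m K s * S.ph s * (1 / S.m + ((s : ℝ) - S.m) ^ 2 / (S.m : ℝ) ^ 2) =
      ∑ s ∈ range N, chiTop S.m K s * (S.ph s * (1 / S.m + ((s : ℝ) - S.m) ^ 2 / (S.m : ℝ) ^ 2)) := by
    apply sum_congr rfl
    intro s _
    ring
  have n2 : ∑ s ∈ range N, max ((s : ℝ) - S.m) 0 / S.m * (chiTop S.m K s * S.ph s) =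
      ∑ s ∈ range N, chiTop S.m K s * (max ((s : ℝ) - S.m) 0 / S.m * S.ph s) := by
    apply sum_congr rfl
    intro s _
    ring
  rw [n1, n2] at htop
  obtain ⟨R0, hR0⟩ : ∃ R0, R0 = ∑ s ∈ range N, chiTop S.m K s *
      (S.ph s * (1 / S.m + ((s : ℝ) - S.m) ^ 2 / (S.m : ℝ) ^ 2)) := ⟨_, rfl⟩
  obtain ⟨R1, hR1⟩ : ∃ R1, R1 = ∑ s ∈ range N, chiTop S.m K s *
      (max ((s : ℝ) - S.m) 0 / S.m * S.ph s) := ⟨_, rfl⟩
  obtain ⟨R2, hR2⟩ : ∃ R2, R2 = ∑ s ∈ range N, chiTop S.m K s * S.ph s := ⟨_, rfl⟩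
  rw [← hR0, ← hR1, ← hR2] at htop
  have hTN : S.T = ∑ s ∈ range N, S.ph s := by
    rw [hN]
    rfl
  -- the NC part
  have k0 : R0 + Q0 ≤ 2 * (S.T / S.m) + 4 * ((S.h : ℝ) / S.m) ^ 2 * S.cost := by
    have h1 := V3_sum S.m K I N (fun s => S.ph s * (1 / S.m + ((s : ℝ) - S.m) ^ 2 / (S.m : ℝ) ^ 2))
      (fun s => mul_nonneg (hph s) (by positivity))
    have h2 : ∑ s ∈ range N, S.ph s * (1 / S.m + ((s : ℝ) - S.m) ^ 2 / (S.m : ℝ) ^ 2) =
        1 / S.m * S.T + 1 / S.m * ∑ s ∈ range N, ((s : ℝ) - S.m) ^ 2 / S.m * S.ph s := by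
      rw [hTN, mul_sum, mul_sum, ← sum_add_distrib]
      apply sum_congr rfl
      intro s _
      field_simp
    have h3 : 1 / S.m * ∑ s ∈ range N, ((s : ℝ) - S.m) ^ 2 / S.m * S.ph s ≤
        1 / S.m * (S.T + 4 * ((S.h : ℝ) ^ 2 / S.m) * S.cost) :=
      mul_le_mul_of_nonneg_left hmom2 (by positivity)
    have h4 : 1 / S.m * (S.T + 4 * ((S.h : ℝ) ^ 2 / S.m) * S.cost) =
        S.T / S.m + 4 * ((S.h : ℝ) / S.m) ^ 2 * S.cost := by
      field_simp
    have h5 : 1 / S.m * S.T = S.T / S.m := by ring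
    rw [hR0, hQ0]
    refine h1.trans ?_
    rw [h2]
    linarith
  -- the UP part
  have k1 : R1 + Q1 ≤ M1 := by
    have h1 := V3_sum S.m K I N (fun s => max ((s : ℝ) - S.m) 0 / S.m * S.ph s)
      (fun s => mul_nonneg (by positivity) (hph s))
    rw [hR1, hQ1, hM1]
    refine h1.trans ?_
    apply sum_le_sum
    intro s _
    apply mul_le_mul_of_nonneg_right _ (hph s)
    apply div_le_div_of_nonneg_right _ hmpos.le
    exact max_le (le_abs_self _) (abs_nonneg _)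
  have k2 : Q2 ≤ M1 := by
    rw [hQ2, hM1]
    exact V3_sumB S.m K I N (fun s => |(s : ℝ) - S.m| / S.m * S.ph s)
      (fun s => mul_nonneg (by positivity) (hph s))
  have k3 : R2 ≤ S.T := by
    rw [hR2, hTN]
    apply sum_le_sum
    intro s _
    calc _ ≤ 1 * S.ph s := mul_le_mul_of_nonneg_right (V3_top_le _ _ _) (hph s)
      _ = _ := one_mul _
  have k4 : (∑ i ∈ range I, ((2 ^ i * K : ℕ) : ℝ)) / Real.sqrt S.m ≤ 1 := by
    rw [div_le_one hsm0]
    refine le_trans ?_ hsqm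
    have h1 : ∀ J : ℕ, ∑ i ∈ range J, 2 ^ i * K + K = 2 ^ J * K := by
      intro J
      induction J with
      | zero => simp
      | succ J ih =>
        rw [sum_range_succ, pow_succ]
        nlinarith
    have h2 : ∑ i ∈ range I, 2 ^ i * K ≤ Nat.sqrt S.m := by
      have := h1 I
      omega
    exact_mod_cast h2
  have k5 : (I : ℝ) * ((S.cost + S.nu) / Real.sqrt S.m) ≤
      4 / Real.sqrt (Real.sqrt S.m) * (S.cost + S.nu) := by
    have h1 := index_small (I := I) (m := S.m) (K := K) (by omega) hI1 (by omega)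
    calc (I : ℝ) * ((S.cost + S.nu) / Real.sqrt S.m) = (I : ℝ) / Real.sqrt S.m * (S.cost + S.nu) := by
          ring
      _ ≤ _ := mul_le_mul_of_nonneg_right h1 (by linarith)
  have k6 : 4 / Real.sqrt K * ∑ i ∈ range I, ((i : ℝ) + 1) ^ 2 / Real.sqrt (2 ^ i) ≤
      400 / Real.sqrt K := by
    have h1 := sum_sq_div_sqrt_le I
    have h2 : 0 < Real.sqrt K := by linarith
    calc _ ≤ 4 / Real.sqrt K * 100 := mul_le_mul_of_nonneg_left h1 (by positivity)
      _ = _ := by ring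
  have k7 := sum_inv_sq_le I
  have k8 : 0 ≤ (1 + S.T) / S.m + S.cost + S.nu + S.G := by positivity
  -- assemble the low part
  have l1 : 64 / (K : ℝ) * (1 / 4 * Q2) + (∑ i ∈ range I, ((2 ^ i * K : ℕ) : ℝ)) / Real.sqrt S.m *
        (S.T / S.m) + (I : ℝ) * ((S.cost + S.nu) / Real.sqrt S.m) +
        (4 / Real.sqrt K * ∑ i ∈ range I, ((i : ℝ) + 1) ^ 2 / Real.sqrt (2 ^ i)) *
          ((1 + S.T) / S.m + S.cost + S.nu + S.G) ≤
      64 / K * S.cost + S.T / S.m + 4 / Real.sqrt (Real.sqrt S.m) * (S.cost + S.nu)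
          + 400 / Real.sqrt K * ((1 + S.T) / S.m + S.cost + S.nu + S.G) := by
    have h1 : 64 / (K : ℝ) * (1 / 4 * Q2) ≤ 64 / K * S.cost := by
      apply mul_le_mul_of_nonneg_left _ (by positivity)
      linarith
    have h2 : (∑ i ∈ range I, ((2 ^ i * K : ℕ) : ℝ)) / Real.sqrt S.m * (S.T / S.m) ≤ S.T / S.m := by
      calc _ ≤ 1 * (S.T / S.m) := mul_le_mul_of_nonneg_right k4 (by positivity)
        _ = _ := one_mul _
    have h3 := mul_le_mul_of_nonneg_right k6 k8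
    linarith
  have l2 := mul_le_mul_of_nonneg_left l1 (by positivity : (0 : ℝ) ≤ 10000000000000 * Cw ^ 2)
  have l3 : (∑ i ∈ range I, 1 / ((i : ℝ) + 1) ^ 2) / 64 * S.cost ≤ 1 / 32 * S.cost := by
    apply mul_le_mul_of_nonneg_right _ hcost
    linarith
  have l4 : 3 * (K : ℝ) * (2 / S.m) * R2 ≤ 6 * K / S.m * S.T := by
    calc 3 * (K : ℝ) * (2 / S.m) * R2 = 6 * K / S.m * R2 := by ring
      _ ≤ _ := mul_le_mul_of_nonneg_left k3 (by positivity)
  have l5 : 20000 * Cw * R0 + 20000 * Cw * Q0 ≤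
      20000 * Cw * (2 * (S.T / S.m) + 4 * ((S.h : ℝ) / S.m) ^ 2 * S.cost) := by
    rw [← mul_add]
    exact mul_le_mul_of_nonneg_left k0 (by positivity)
  have l6 : S.Gc (chiDeep S.m (2 ^ I * K)) ≤ 112 * Cw / Real.sqrt S.m * S.cost := by
    apply S.G_deep hR
    exact_mod_cast hI2
  refine V3_num Cw S.T S.cost S.nu S.G S.m S.h K L (Real.sqrt K) (Real.sqrt (Real.sqrt S.m))
    (Real.sqrt S.m) hC hT hcost hnu hG0 (by linarith) (by positivity) ?_ hKr hL hsK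
    (Real.sq_sqrt (by positivity)) hssm1 (Real.sq_sqrt hsm0.le) ?_
  · have h1 : 5000 * S.h ≤ S.m := hR.2
    have h2 : S.h ≤ S.m := by omega
    exact_mod_cast h2
  · rw [← hN] at *
    have hfin : S.G ≤ S.Gc (chiTop S.m K) + ∑ i ∈ range I, S.Gc (chiB S.m (2 ^ i * K))
      + S.Gc (chiDeep S.m (2 ^ I * K)) := hpart.le
    clear hpart
    clear hlow
    linarith

end UF
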