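import Pool.Agent.UF.Base
import Pool.Agent.UF.Js1
import Pool.Agent.UF.Js2
import Pool.Agent.UF.Js8
import Pool.Agent.UF.Jt11
import Pool.Agent.UF.Jv3
import Pool.Agent.UF.Jw3

set_option autoImplicit false
set_option linter.unusedSectionVars false
set_option linter.unusedVariables false
open Finset

namespace UF
variable {α : Type*} [Fintype α] [DecidableEq α]

/-- main bound for systems -/
theorem Sys.main_bound : ∃ (C : ℝ) (m₀ : ℕ) (η : ℝ), 0 < η ∧ 0 ≤ C ∧
    ∀ {α : Type} [Fintype α] [DecidableEq α] (S : Sys α),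
      S.Reg → m₀ ≤ S.m → (S.h : ℝ) ≤ η * S.m → S.T ≤ 1 + C / S.m := by
  obtain ⟨A, hA⟩ : ∃ A : ℝ, A = 10 ^ 16 * Cw ^ 2 := ⟨_, rfl⟩
  have hCw := one_le_Cw
  have hA1 : 1 ≤ A := by
    rw [hA]
    nlinarith
  have hA0 : 0 < A := by linarith
  obtain ⟨K, hK⟩ := exists_nat_ge ((80 * A) ^ 2)
  obtain ⟨L, hL⟩ : ∃ L : ℝ, L = 80 * A := ⟨_, rfl⟩
  have hL1 : 1 ≤ L := by rw [hL]; linarith
  obtain ⟨m0, hm0⟩ := exists_nat_ge (max ((80 * A) ^ 4) (max (18 * (K : ℝ) ^ 2)
    (88 / 5 * A * (K + L))))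
  have hK0 : (0 : ℝ) ≤ K := Nat.cast_nonneg K
  refine ⟨88 / 5 * A * (K + L), m0, 1 / (80 * A), by positivity, by positivity, ?_⟩
  intro α _ _ S hR hm hh
  have hmm : (m0 : ℝ) ≤ S.m := by exact_mod_cast hm
  have hm1 : (80 * A) ^ 4 ≤ (S.m : ℝ) := ((le_max_left _ _).trans hm0).trans hmm
  have hm2 : 18 * (K : ℝ) ^ 2 ≤ (S.m : ℝ) :=
    (((le_max_left _ _).trans (le_max_right _ _)).trans hm0).trans hmm
  have hm3 : 88 / 5 * A * (K + L) ≤ (S.m : ℝ) :=
    (((le_max_right _ _).trans (le_max_right _ _)).trans hm0).trans hmm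
  have hmpos : (0 : ℝ) < S.m := lt_of_lt_of_le (by positivity) hm1
  have hKL : 0 ≤ 88 / 5 * A * (K + L) / S.m := by positivity
  by_cases hT : S.T ≤ 1
  · linarith
  · have hT1 : 1 < S.T := not_le.1 hT
    have hsec := S.second hR
    have hcost := S.cost_nonneg
    have hG := S.G_nonneg
    have hTeq := S.T_eq
    have hnu := S.nu_nonneg
    have hTT : S.T ≤ S.T ^ 2 := by nlinarith
    have hcG : S.cost ≤ 11 / 5 * S.G := by linarith
    have hTG : S.T - 1 ≤ 11 / 5 * S.G := by nlinarith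
    have hnG : S.nu ≤ S.G := by linarith
    have hK4 : 4 ≤ K := by
      have h1 : (4 : ℝ) ≤ K := by nlinarith
      exact_mod_cast h1
    have hGi := S.G_ineq hR hK4 hm2 hL1
    rw [← hA] at hGi
    have h80 : 0 < 80 * A := by linarith
    have i1 : (S.h : ℝ) / S.m ≤ 1 / (80 * A) := by
      rw [div_le_iff₀ hmpos]
      exact hh
    have i2 : 1 / L ≤ 1 / (80 * A) := by rw [hL]
    have i3 : 1 / Real.sqrt K ≤ 1 / (80 * A) := by
      refine one_div_le_one_div_of_le h80 ?_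
      exact (Real.le_sqrt' h80).2 hK
    have i4 : 1 / Real.sqrt (Real.sqrt S.m) ≤ 1 / (80 * A) := by
      refine one_div_le_one_div_of_le h80 ?_
      refine (Real.le_sqrt' h80).2 ((Real.le_sqrt' (by positivity)).2 ?_)
      calc ((80 * A) ^ 2) ^ 2 = (80 * A) ^ 4 := by ring
        _ ≤ _ := hm1
    obtain ⟨E, hE⟩ : ∃ E, E = A * ((S.h : ℝ) / S.m + 1 / L + 1 / Real.sqrt K
          + 1 / Real.sqrt (Real.sqrt S.m)) := ⟨_, rfl⟩
    rw [← hE] at hGi
    have hE1 : E ≤ 1 / 20 := by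
      rw [hE]
      calc A * ((S.h : ℝ) / S.m + 1 / L + 1 / Real.sqrt K + 1 / Real.sqrt (Real.sqrt S.m))
          ≤ A * (1 / (80 * A) + 1 / (80 * A) + 1 / (80 * A) + 1 / (80 * A)) :=
            mul_le_mul_of_nonneg_left (by linarith) hA0.le
        _ = 1 / 20 := by field_simp; norm_num
    have hsum : S.cost + S.nu + S.G ≤ 21 / 5 * S.G := by linarith
    have hsum0 : 0 ≤ S.cost + S.nu + S.G := by linarith
    have j1 : E * (S.cost + S.nu + S.G) ≤ 1 / 20 * (21 / 5 * S.G) :=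
      mul_le_mul hE1 hsum hsum0 (by norm_num)
    obtain ⟨B, hB⟩ : ∃ B, B = A * (K + L) / S.m := ⟨_, rfl⟩
    have hB0 : 0 ≤ B := by rw [hB]; positivity
    have hB1 : 88 / 5 * B ≤ 1 := by
      rw [hB, ← mul_div_assoc, div_le_one hmpos]
      linarith
    have j2 : A * (K + L) * ((1 + S.T) / S.m) = B * (1 + S.T) := by
      rw [hB]
      ring
    have j3 : B * (1 + S.T) ≤ B * (2 + 11 / 5 * S.G) :=
      mul_le_mul_of_nonneg_left (by linarith) hB0
    have j4 : B * S.G ≤ 5 / 88 * S.G := mul_le_mul_of_nonneg_right (by linarith) hG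
    rw [j2] at hGi
    have j5 : S.G ≤ 8 * B := by nlinarith
    have j6 : 88 / 5 * A * (K + L) / S.m = 88 / 5 * B := by
      rw [hB]
      ring
    rw [j6]
    linarith

end UF
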