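import Pool.Agent.UF.Base
import Pool.Agent.UF.Js1

set_option autoImplicit false
set_option linter.unusedSectionVars false
set_option linter.unusedVariables false
open Finset

namespace UF
variable {α : Type*} [Fintype α] [DecidableEq α]

theorem Sys.T_card (S : Sys α) (hm : 1 ≤ S.m) :
    S.T = (S.F.card : ℝ) / ((2 * S.m).choose S.m : ℝ) := by
  have key : ∀ s ∈ Finset.range (2 * S.m + 1),
      S.ph s = ((S.F.filter (fun C => C.card = s)).card : ℝ) / ((2 * S.m).choose S.m : ℝ) := by
    intro s hs
    have hs' : s ≤ 2 * S.m := by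
      rw [Finset.mem_range] at hs; omega
    have hpos : (0 : ℝ) < ((2 * S.m).choose s : ℝ) := by
      exact_mod_cast Nat.choose_pos hs'
    have hpos' : (0 : ℝ) < ((2 * S.m).choose S.m : ℝ) := by
      exact_mod_cast Nat.choose_pos (by omega : S.m ≤ 2 * S.m)
    have h1 : ∑ P ∈ powersetCard s (univ : Finset α), S.f P
        = ∑ P ∈ S.F.filter (fun C => C.card = s), wt S.m s := by
      have h2 : S.F.filter (fun C => C.card = s)
          = (powersetCard s (univ : Finset α)).filter (fun C => C ∈ S.F) := by
        ext C
        simp only [Finset.mem_filter, Finset.mem_powersetCard, Finset.subset_univ, true_and]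
        tauto
      rw [h2, Finset.sum_filter]
      refine Finset.sum_congr rfl fun P hP => ?_
      rw [Finset.mem_powersetCard] at hP
      unfold Sys.f
      rw [hP.2]
    unfold Sys.ph Ev
    rw [h1, Finset.sum_const, nsmul_eq_mul, S.hcard]
    unfold wt
    field_simp
  unfold Sys.T
  rw [Finset.sum_congr rfl key, ← Finset.sum_div]
  congr 1
  rw [← Nat.cast_sum]
  congr 1
  symm
  refine Finset.card_eq_sum_card_fiberwise (fun C _ => ?_)
  have : C.card ≤ 2 * S.m := by
    rw [← S.hcard]; exact Finset.card_le_univ C
  rw [Finset.mem_coe, Finset.mem_range]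
  omega

end UF
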