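import Pool.Agent.UF.Base
import Pool.Agent.UF.Jw1
import Pool.Agent.UF.Jw2

set_option autoImplicit false
set_option linter.unusedSectionVars false
set_option linter.unusedVariables false
open Finset

namespace UF
variable {α : Type*} [Fintype α] [DecidableEq α]

/-- the far levels contain `O(1/m)` of the middle binomial coefficient -/
theorem tail_bound {η : ℝ} (hη : 0 < η) : ∃ C : ℝ, 0 ≤ C ∧ ∀ m : ℕ, 1 ≤ m →
    ∑ p ∈ (range (2 * m + 1)).filter (fun p : ℕ => η * m < |(p : ℝ) - m|), ((2 * m).choose p : ℝ)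
      ≤ ((2 * m).choose m : ℝ) * (C / m) := by
  refine ⟨24 / η ^ 4, by positivity, ?_⟩
  intro m hm
  have hm0 : (0 : ℝ) < m := by exact_mod_cast hm
  have hm1 : (1 : ℝ) ≤ m := by exact_mod_cast hm
  have hB : (0 : ℝ) < ((2 * m).choose m : ℝ) := by
    exact_mod_cast Nat.choose_pos (by omega)
  have hterm : ∀ p ∈ (range (2 * m + 1)).filter (fun p : ℕ => η * m < |(p : ℝ) - m|),
      ((2 * m).choose p : ℝ) ≤ ((2 * m).choose m : ℝ) * (8 / (η ^ 4 * m ^ 2)) := by
    intro p hp
    have hp2 := (Finset.mem_filter.1 hp).2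
    have h1 : ((2 * m).choose p : ℝ) = ((2 * m).choose m : ℝ) * wt m p := by
      unfold wt
      field_simp
    rw [h1]
    refine mul_le_mul_of_nonneg_left ?_ hB.le
    refine (wt_le_exp hm p).trans ?_
    have h2 : (η * m) ^ 2 ≤ ((p : ℝ) - m) ^ 2 := by
      rw [← sq_abs ((p : ℝ) - m)]
      exact pow_le_pow_left₀ (by positivity) hp2.le 2
    obtain ⟨x, hx⟩ : ∃ x : ℝ, x = η ^ 2 * m / 2 := ⟨_, rfl⟩
    have hx0 : 0 < x := by rw [hx]; positivity
    have h3 : -(((p : ℝ) - m) ^ 2) / (2 * m) ≤ -x := by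
      rw [hx, div_le_iff₀ (by positivity)]
      nlinarith
    refine (Real.exp_le_exp.2 h3).trans ?_
    have h4 : x ^ 2 / 2 ≤ Real.exp x := by
      have := Real.quadratic_le_exp_of_nonneg hx0.le
      linarith
    rw [Real.exp_neg]
    have h5 : (Real.exp x)⁻¹ ≤ (x ^ 2 / 2)⁻¹ := by
      exact inv_anti₀ (by positivity) h4
    refine h5.trans (le_of_eq ?_)
    rw [hx]
    field_simp
    norm_num
  have hsum := Finset.sum_le_card_nsmul _ _ _ hterm
  refine hsum.trans ?_
  rw [nsmul_eq_mul]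
  have hcard : ((((range (2 * m + 1)).filter (fun p : ℕ => η * m < |(p : ℝ) - m|)).card : ℕ) : ℝ) ≤
      3 * m := by
    have h1 := Finset.card_filter_le (range (2 * m + 1)) (fun p : ℕ => η * m < |(p : ℝ) - m|)
    rw [Finset.card_range] at h1
    have h2 : ((((range (2 * m + 1)).filter (fun p : ℕ => η * m < |(p : ℝ) - m|)).card : ℕ) : ℝ) ≤
        ((2 * m + 1 : ℕ) : ℝ) := by exact_mod_cast h1
    push_cast at h2
    linarith
  refine (mul_le_mul_of_nonneg_right hcard (by positivity)).trans (le_of_eq ?_)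
  field_simp
  norm_num

end UF
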