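import Pool.Agent.UF.Base
import Pool.Agent.UF.Ju1
import Pool.Agent.UF.Jv4
import Pool.Agent.UF.Jv5
import Pool.Agent.UF.Jv6

set_option autoImplicit false
set_option linter.unusedSectionVars false
set_option linter.unusedVariables false
open Finset

namespace UF
variable {α : Type*} [Fintype α] [DecidableEq α]

theorem eb_far (α : Type) [Fintype α] [DecidableEq α] (m h : ℕ) (η : ℝ)
    (hα : Fintype.card α = 2 * m) (hh : η * m < h + 1) (F : Finset (Finset α)) :
    ((F.filter (fun C => ¬ (m ≤ C.card + h ∧ C.card ≤ m + h))).card : ℝ) ≤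
      ∑ p ∈ (range (2 * m + 1)).filter (fun p : ℕ => η * m < |(p : ℝ) - m|),
        ((2 * m).choose p : ℝ) := by
  have hsub : F.filter (fun C => ¬ (m ≤ C.card + h ∧ C.card ≤ m + h)) ⊆
      ((range (2 * m + 1)).filter (fun p : ℕ => η * m < |(p : ℝ) - m|)).biUnion
        (fun p => powersetCard p (univ : Finset α)) := by
    intro C hC
    rw [Finset.mem_filter] at hC
    rw [Finset.mem_biUnion]
    refine ⟨C.card, ?_, ?_⟩
    · rw [Finset.mem_filter, Finset.mem_range]
      refine ⟨?_, ?_⟩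
      · have : C.card ≤ Fintype.card α := Finset.card_le_univ C
        omega
      · rw [lt_abs]
        by_cases h1 : m ≤ C.card + h
        · left
          have h2 : m + h + 1 ≤ C.card := by
            by_contra h3
            exact hC.2 ⟨h1, by omega⟩
          have h3 : ((m + h + 1 : ℕ) : ℝ) ≤ (C.card : ℝ) := by exact_mod_cast h2
          push_cast at h3
          linarith
        · right
          have h2 : C.card + h + 1 ≤ m := by omega
          have h3 : ((C.card + h + 1 : ℕ) : ℝ) ≤ (m : ℝ) := by exact_mod_cast h2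
          push_cast at h3
          linarith
    · rw [Finset.mem_powersetCard]
      exact ⟨Finset.subset_univ _, rfl⟩
  have h1 := (Finset.card_le_card hsub).trans Finset.card_biUnion_le
  have h2 : ∑ p ∈ (range (2 * m + 1)).filter (fun p : ℕ => η * m < |(p : ℝ) - m|),
      (powersetCard p (univ : Finset α)).card =
      ∑ p ∈ (range (2 * m + 1)).filter (fun p : ℕ => η * m < |(p : ℝ) - m|),
        (2 * m).choose p := by
    refine Finset.sum_congr rfl fun p _ => ?_
    rw [Finset.card_powersetCard, Finset.card_univ, hα]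
  rw [h2] at h1
  exact_mod_cast h1

theorem eb_near (C : ℝ) (m₀ : ℕ) (η : ℝ)
    (hmain : ∀ {α : Type} [Fintype α] [DecidableEq α] (S : Sys α),
      S.Reg → m₀ ≤ S.m → (S.h : ℝ) ≤ η * S.m → S.T ≤ 1 + C / S.m)
    (α : Type) [Fintype α] [DecidableEq α] (m h : ℕ) (hm : 100000000 ≤ m) (hm0 : m₀ ≤ m)
    (h5 : 5000 * h ≤ m) (hη : (h : ℝ) ≤ η * m)
    (hα : Fintype.card α = 2 * m) (F : Finset (Finset α))
    (hF : ∀ A ∈ F, ∀ B ∈ F, ∀ C ∈ F, A ≠ B → A ≠ C → B ≠ C → A ∪ B ≠ C)
    (hlo : ∀ C ∈ F, m ≤ C.card + h) (hhi : ∀ C ∈ F, C.card ≤ m + h) :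
    (F.card : ℝ) ≤ ((2 * m).choose m : ℝ) * (1 + C / m) := by
  have hne : Nonempty α := by
    rw [← Fintype.card_pos_iff]; omega
  have hc : ∀ D : Finset α, ∃ z : α, D ∈ F → Centre F D z := by
    intro D
    by_cases hD : D ∈ F
    · have hDn : D.Nonempty := by
        rw [← Finset.card_pos]
        have := hlo D hD
        omega
      obtain ⟨z, hz⟩ := centre_exists F hF D hD hDn
      exact ⟨z, fun _ => hz⟩
    · exact ⟨hne.some, fun h => absurd h hD⟩
  choose z hz using hc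
  let S : Sys α := ⟨m, h, F, z, hα, fun D hD => hz D hD, hlo, hhi⟩
  have hT : S.T ≤ 1 + C / S.m := hmain S ⟨hm, h5⟩ hm0 hη
  rw [Sys.T_card S (by show 1 ≤ m; omega)] at hT
  have hpos : (0 : ℝ) < ((2 * m).choose m : ℝ) := by
    exact_mod_cast Nat.choose_pos (by omega)
  have hT' : (F.card : ℝ) / ((2 * m).choose m : ℝ) ≤ 1 + C / m := hT
  rw [div_le_iff₀ hpos] at hT'
  linarith

theorem even_bound : ∃ C : ℝ, 0 ≤ C ∧ ∀ (α : Type) [Fintype α] [DecidableEq α] (m : ℕ),
    1 ≤ m → Fintype.card α = 2 * m → ∀ F : Finset (Finset α),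
      (∀ A ∈ F, ∀ B ∈ F, ∀ C ∈ F, A ≠ B → A ≠ C → B ≠ C → A ∪ B ≠ C) →
      (F.card : ℝ) ≤ ((2 * m).choose m : ℝ) * (1 + C / m) := by
  obtain ⟨C1, m0, η, hη, hC1, hmain⟩ := Sys.main_bound
  have hη' : 0 < min η (1 / 5000) := lt_min hη (by norm_num)
  obtain ⟨C2, hC2, htail⟩ := tail_bound hη'
  set e : ℝ := min η (1 / 5000) with he
  set m1 : ℕ := max m0 100000000 with hm1
  have hm10 : m0 ≤ m1 := le_max_left _ _
  have hm11 : 100000000 ≤ m1 := le_max_right _ _
  have h4 : (0 : ℝ) ≤ 4 ^ m1 * m1 := by positivity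
  refine ⟨C1 + C2 + 4 ^ m1 * m1, by linarith, ?_⟩
  intro α _ _ m hm hα F hF
  have hmR : (1 : ℝ) ≤ (m : ℝ) := by exact_mod_cast hm
  have hmpos : (0 : ℝ) < (m : ℝ) := by linarith
  have hch : (1 : ℝ) ≤ ((2 * m).choose m : ℝ) := by
    exact_mod_cast Nat.choose_pos (by omega)
  by_cases hlt : m < m1
  · have h1 : (F.card : ℝ) ≤ 4 ^ m1 := by
      have h2 : F.card ≤ 2 ^ (2 * m) := by
        have := Finset.card_le_univ F
        rwa [Fintype.card_finset, hα] at this
      have h3 : (2 : ℕ) ^ (2 * m) ≤ 4 ^ m1 := by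
        rw [pow_mul]
        exact Nat.pow_le_pow_right (by norm_num) hlt.le
      exact_mod_cast h2.trans h3
    have h2 : (4 : ℝ) ^ m1 ≤ (C1 + C2 + 4 ^ m1 * m1) / m := by
      rw [le_div_iff₀ hmpos]
      have h3 : (m : ℝ) ≤ (m1 : ℝ) := by exact_mod_cast hlt.le
      have h5 : (4 : ℝ) ^ m1 * m ≤ 4 ^ m1 * m1 :=
        mul_le_mul_of_nonneg_left h3 (by positivity)
      linarith
    have h3 : (0 : ℝ) ≤ 4 ^ m1 := by positivity
    have h5 : 1 * (1 + (C1 + C2 + 4 ^ m1 * m1) / m) ≤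
        ((2 * m).choose m : ℝ) * (1 + (C1 + C2 + 4 ^ m1 * m1) / m) :=
      mul_le_mul_of_nonneg_right hch (by linarith)
    linarith
  · have hge : m1 ≤ m := by omega
    have hem : 0 ≤ e * m := by positivity
    have hfl : ((⌊e * m⌋₊ : ℕ) : ℝ) ≤ e * m := Nat.floor_le hem
    have hfl2 : e * m < (⌊e * m⌋₊ : ℕ) + 1 := Nat.lt_floor_add_one _
    generalize ⌊e * m⌋₊ = h at hfl hfl2
    have he1 : e ≤ η := min_le_left _ _
    have he2 : e ≤ 1 / 5000 := min_le_right _ _
    have hη2 : (h : ℝ) ≤ η * m := hfl.trans (mul_le_mul_of_nonneg_right he1 hmpos.le)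
    have h5 : 5000 * h ≤ m := by
      have h6 : (h : ℝ) ≤ 1 / 5000 * m :=
        hfl.trans (mul_le_mul_of_nonneg_right he2 hmpos.le)
      have h7 : (5000 : ℝ) * h ≤ m := by linarith
      exact_mod_cast h7
    have hnear := eb_near C1 m0 η (fun {α} _ _ S => hmain S) α m h (by omega) (by omega) h5 hη2 hα
      (F.filter (fun C => m ≤ C.card + h ∧ C.card ≤ m + h))
      (fun A hA B hB C hC => hF A (Finset.mem_filter.1 hA).1 B (Finset.mem_filter.1 hB).1
        C (Finset.mem_filter.1 hC).1)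
      (fun C hC => (Finset.mem_filter.1 hC).2.1) (fun C hC => (Finset.mem_filter.1 hC).2.2)
    have hfar := eb_far α m h e hα hfl2 F
    have htl := htail m hm
    have hsum : (F.card : ℝ) =
        ((F.filter (fun C => m ≤ C.card + h ∧ C.card ≤ m + h)).card : ℝ) +
        ((F.filter (fun C => ¬ (m ≤ C.card + h ∧ C.card ≤ m + h))).card : ℝ) := by
      have := Finset.card_filter_add_card_filter_not (s := F)
        (fun C => m ≤ C.card + h ∧ C.card ≤ m + h)
      exact_mod_cast this.symm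
    rw [hsum]
    have h8 : 0 ≤ ((2 * m).choose m : ℝ) * (4 ^ m1 * m1 / m) := by positivity
    have h9 : ((2 * m).choose m : ℝ) * (1 + (C1 + C2 + 4 ^ m1 * m1) / m) =
        ((2 * m).choose m : ℝ) * (1 + C1 / m) + ((2 * m).choose m : ℝ) * (C2 / m) +
        ((2 * m).choose m : ℝ) * (4 ^ m1 * m1 / m) := by
      ring
    rw [h9]
    linarith

end UF
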