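import Pool.Agent.UF.Base
import Pool.Agent.UF.Jv7

set_option autoImplicit false
set_option linter.unusedSectionVars false
set_option linter.unusedVariables false
open Finset

namespace UF
variable {α : Type*} [Fintype α] [DecidableEq α]

def V8pi (m : ℕ) (A : Finset (Fin (m + 1))) : Finset (Fin m) :=
  univ.filter (fun i => i.castSucc ∈ A)

lemma V8_mem {m : ℕ} {A : Finset (Fin (m + 1))} {i : Fin m} :
    i ∈ V8pi m A ↔ i.castSucc ∈ A := by simp [V8pi]

lemma V8_union {m : ℕ} (A B : Finset (Fin (m + 1))) :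
    V8pi m (A ∪ B) = V8pi m A ∪ V8pi m B := by
  ext i
  simp only [V8_mem, Finset.mem_union]

lemma V8_inj {m : ℕ} {A B : Finset (Fin (m+1))} (h : Fin.last m ∈ A ↔ Fin.last m ∈ B)
    (hp : V8pi m A = V8pi m B) : A = B := by
  ext x
  refine Fin.lastCases ?_ (fun i => ?_) x
  · exact h
  · rw [← V8_mem, ← V8_mem, hp]

lemma V8_half {C : ℝ} (hC : ∀ (α : Type) [Fintype α] [DecidableEq α] (m : ℕ),
    1 ≤ m → Fintype.card α = 2 * m → ∀ F : Finset (Finset α),
      (∀ A ∈ F, ∀ B ∈ F, ∀ C ∈ F, A ≠ B → A ≠ C → B ≠ C → A ∪ B ≠ C) →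
      (F.card : ℝ) ≤ ((2 * m).choose m : ℝ) * (1 + C / m)) {m : ℕ} (hm : 1 ≤ m)
    (F : Finset (Finset (Fin (2 * m + 1))))
    (hF : ∀ A ∈ F, ∀ B ∈ F, ∀ C ∈ F, A ≠ B → A ≠ C → B ≠ C → A ∪ B ≠ C) (b : Prop)
    (hb : ∀ A ∈ F, (Fin.last (2 * m) ∈ A ↔ b)) :
    (F.card : ℝ) ≤ ((2 * m).choose m : ℝ) * (1 + C / m) := by
  have hinj : Set.InjOn (V8pi (2 * m)) (F : Set (Finset (Fin (2 * m + 1)))) := by
    intro A hA B hB h
    exact V8_inj ((hb A hA).trans (hb B hB).symm) h
  have h1 := hC (Fin (2 * m)) m hm (by simp) (F.image (V8pi (2 * m))) (by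
    intro A' hA' B' hB' C' hC' h12 h13 h23 hu
    obtain ⟨A, hA, rfl⟩ := Finset.mem_image.1 hA'
    obtain ⟨B, hB, rfl⟩ := Finset.mem_image.1 hB'
    obtain ⟨D, hD, rfl⟩ := Finset.mem_image.1 hC'
    refine hF A hA B hB D hD (fun h => h12 (by rw [h])) (fun h => h13 (by rw [h]))
      (fun h => h23 (by rw [h])) ?_
    rw [← V8_union] at hu
    refine V8_inj ?_ hu
    rw [Finset.mem_union, hb A hA, hb B hB, hb D hD, or_self])
  rw [Finset.card_image_of_injOn hinj] at h1
  exact h1

theorem final_bound :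
    ∃ c : ℝ, ∀ n : ℕ, ∀ F : Finset (Finset (Fin n)),
      (∀ A ∈ F, ∀ B ∈ F, ∀ C ∈ F, A ≠ B → A ≠ C → B ≠ C → A ∪ B ≠ C) →
      (F.card : ℝ) ≤ (n.choose (n / 2) : ℝ) * (1 + c / (n : ℝ)) := by
  classical
  obtain ⟨C, hC0, hC⟩ := even_bound
  refine ⟨10 * C + 10, ?_⟩
  intro n F hF
  rcases Nat.even_or_odd' n with ⟨m, rfl | rfl⟩
  · rcases Nat.eq_zero_or_pos m with rfl | hm
    · have h1 : F.card ≤ 1 := by
        have := F.card_le_univ
        simpa using this
      have h2 : (F.card : ℝ) ≤ 1 := by exact_mod_cast h1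
      simpa using h2
    · have h1 := hC (Fin (2 * m)) m hm (by simp) F hF
      have hm' : (0:ℝ) < m := by exact_mod_cast hm
      refine h1.trans ?_
      rw [show 2 * m / 2 = m by omega]
      apply mul_le_mul_of_nonneg_left _ (Nat.cast_nonneg _)
      have h2 : C / m ≤ (10 * C + 10) / ((2 * m : ℕ) : ℝ) := by
        rw [div_le_div_iff₀ hm' (by positivity)]
        push_cast
        nlinarith
      linarith
  · rcases Nat.eq_zero_or_pos m with rfl | hm
    · have h1 : F.card ≤ 2 := by
        have := F.card_le_univ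
        simpa using this
      have h2 : (F.card : ℝ) ≤ 2 := by exact_mod_cast h1
      have h3 : ((2 * 0 + 1).choose ((2 * 0 + 1) / 2) : ℝ) * (1 + (10 * C + 10) / ((2 * 0 + 1 : ℕ) : ℝ))
          = 1 + (10 * C + 10) := by norm_num
      rw [h3]
      linarith
    · set F0 := F.filter (fun A => Fin.last (2 * m) ∈ A) with hF0
      set F1 := F.filter (fun A => ¬ Fin.last (2 * m) ∈ A) with hF1
      have hcard : F0.card + F1.card = F.card := Finset.card_filter_add_card_filter_not _
      have h0 := V8_half hC hm F0 (fun A hA B hB D hD => hF A (Finset.mem_filter.1 hA).1 B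
        (Finset.mem_filter.1 hB).1 D (Finset.mem_filter.1 hD).1) True
        (fun A hA => iff_true_intro (Finset.mem_filter.1 hA).2)
      have h1 := V8_half hC hm F1 (fun A hA B hB D hD => hF A (Finset.mem_filter.1 hA).1 B
        (Finset.mem_filter.1 hB).1 D (Finset.mem_filter.1 hD).1) False
        (fun A hA => iff_false_intro (Finset.mem_filter.1 hA).2)
      have hcard' : (F.card : ℝ) = F0.card + F1.card := by exact_mod_cast hcard.symm
      have hm' : (1:ℝ) ≤ m := by exact_mod_cast hm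
      have hch : ((2 * m + 1).choose m) * (m + 1) = ((2 * m).choose m) * (2 * m + 1) := by
        have := Nat.choose_mul_succ_eq (2 * m) m
        rw [show 2 * m + 1 - m = m + 1 by omega] at this
        exact this.symm
      have hch' : ((2 * m + 1).choose m : ℝ) * (m + 1) = ((2 * m).choose m : ℝ) * (2 * m + 1) := by
        exact_mod_cast hch
      rw [show (2 * m + 1) / 2 = m by omega]
      have h2 : (F.card : ℝ) ≤ 2 * (((2 * m).choose m : ℝ) * (1 + C / m)) := by
        rw [hcard']; linarith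
      have h3 : ((2 * m).choose m : ℝ) = ((2 * m + 1).choose m : ℝ) * (m + 1) / (2 * m + 1) := by
        field_simp
        linarith
      refine h2.trans ?_
      rw [h3]
      have h4 : 2 * (((2 * m + 1).choose m : ℝ) * (m + 1) / (2 * m + 1) * (1 + C / m)) =
          ((2 * m + 1).choose m : ℝ) * ((2 * (m + 1) / (2 * m + 1)) * (1 + C / m)) := by ring
      rw [h4]
      apply mul_le_mul_of_nonneg_left _ (Nat.cast_nonneg _)
      push_cast
      have hm0 : (0:ℝ) < m := by linarith
      have key : 1 + (10 * C + 10) / (2 * (m : ℝ) + 1) -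
          (2 * ((m : ℝ) + 1) / (2 * m + 1)) * (1 + C / m) =
          (9 * m + 8 * C * m - 2 * C) / ((2 * m + 1) * m) := by
        field_simp
        ring
      have h5 : 0 ≤ (9 * m + 8 * C * m - 2 * C) / ((2 * (m : ℝ) + 1) * m) := by
        apply div_nonneg _ (by positivity)
        nlinarith
      linarith

end UF
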